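import Mathlib
import Pool.Agent.H11.Selberg.Defs

/-!
# Degree two, small conductor (helper11): definitions

PROJECT.  Theorem: if `F` is an entire element of the Selberg class of degree `2` and conductor
`q ∈ {1, 2, 3}` then `∑_{p ≤ x} |a_F(p)|² / p = log log x + O(1)`.

PLAN.  `q = (2 π B)²`, `B = Q ∏ λ_j^λ_j`, `∑ λ_j = 1` and (after an imaginary shift)
`∑ Im μ_j = 0`.  Put `g_m(ξ) = ∑ a(n) n^m e^(-2πnξ)`, `φ(z) = (Im z)^(7/2) |g_3(-iz)|`, and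
`Ψ = φ + φ~` (`φ~` with the conjugate coefficients).
Step 1 (Stirling with two terms, contour shift): `|Ψ(z) - Ψ(-1/(qz))| ≤ C (Im z)^θ`, `θ > 0`
close to `1/2`, for `0 < Im z ≤ 1`, `|z| ≤ 2`.
Step 2: for `q < 4` every `z` can be moved up by `z ↦ z + k`, `z ↦ -1/(qz)`, the height being
multiplied by `ρ > 1` in each step, so `Ψ` is bounded; hence `∑_{n ≤ N} |a(n)|² ≤ C N`.
Step 3: for `q = 1, 2, 3` the points `γ(iv)`, `γ ∈ Γ_0(q)` with pole far from `0`, satisfy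
`Ψ(γ(iv)) ≥ Ψ(iv)/2 > 0`; counting them gives `∑_{n ≤ N} |a(n)|² ≥ c N`.
Step 4: `∑_{n ≤ x} |a(n)|²/n ≍ log x`, and `Selberg.equivalence` finishes the proof.
-/

set_option autoImplicit false

namespace Pool.Agent.H11.SC

open Complex Pool.Agent.H11.Selberg

/-- Functional equation of degree `2`, normalised, for an entire `F`. -/
structure FEq (a : ℕ → ℂ) (F : ℂ → ℂ) (Q : ℝ) {k : ℕ} (lam : Fin k → ℝ) (mu : Fin k → ℂ)
    (ε : ℂ) : Prop where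
  diff : Differentiable ℂ F
  order : ∃ A C : ℝ, ∀ s, ‖F s‖ ≤ C * Real.exp (‖s‖ ^ A)
  summable : ∀ s : ℂ, 1 < s.re → LSeriesSummable a s
  eqL : ∀ s : ℂ, 1 < s.re → F s = LSeries a s
  ram : ∀ δ : ℝ, 0 < δ → ∃ C : ℝ, ∀ n : ℕ, 1 ≤ n → ‖a n‖ ≤ C * (n : ℝ) ^ δ
  one : a 1 = 1
  Qpos : 0 < Q
  lampos : ∀ j, 0 < lam j
  mure : ∀ j, 0 ≤ (mu j).re
  eps : ‖ε‖ = 1
  feq : ∀ s : ℂ, 0 < s.re → s.re < 1 →
    completed Q lam mu F s =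
      ε * (starRingEnd ℂ) (completed Q lam mu F (1 - (starRingEnd ℂ) s))
  deg : ∑ j, lam j = 1
  shift : ∑ j, (mu j).im = 0

/-- `B = Q ∏ λ_j ^ λ_j`; the conductor is `(2 π B) ^ 2`. -/
noncomputable def Bp (Q : ℝ) {k : ℕ} (lam : Fin k → ℝ) : ℝ := Q * ∏ j, (lam j) ^ (lam j)

/-- conjugate coefficients -/
noncomputable def cj (a : ℕ → ℂ) : ℕ → ℂ := fun n => (starRingEnd ℂ) (a n)

/-- `g_m(ξ) = ∑ a(n) n^m e^(-2πnξ)` -/
noncomputable def gs (a : ℕ → ℂ) (m : ℕ) (ξ : ℂ) : ℂ :=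
  ∑' n : ℕ, a n * (n : ℂ) ^ m * cexp (-(2 * (Real.pi : ℂ) * n * ξ))

/-- `φ(z) = (Im z)^(7/2) |g_3(-iz)|` -/
noncomputable def phi (a : ℕ → ℂ) (z : ℂ) : ℝ := z.im ^ (7 / 2 : ℝ) * ‖gs a 3 (-(I * z))‖

/-- `Ψ = φ + φ~` -/
noncomputable def Psi (a : ℕ → ℂ) (z : ℂ) : ℝ := phi a z + phi (cj a) z

/-- `E(t) = exp((1 - 2σ - 2it) log(B t) + 2it)`; modulus `(B t)^(1 - 2σ)` -/
noncomputable def EE (B σ t : ℝ) : ℂ :=
  cexp ((1 - 2 * σ - 2 * t * I) * (Real.log (B * t) : ℂ) + 2 * t * I)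

/-- the remainder of Stirling's formula in one step -/
noncomputable def gg (w : ℂ) : ℂ := (w + 1 / 2) * (log (w + 1) - log w) - 1

/-- half of the second Bernoulli polynomial -/
noncomputable def BB (a : ℂ) : ℂ := (a ^ 2 - a + 1 / 6) / 2

/-- main term of `Γ(iτ + a)` for `τ → ∞` -/
noncomputable def SS (a : ℂ) (τ : ℝ) : ℂ :=
  (Real.sqrt (2 * Real.pi) : ℂ) *
    cexp ((τ * I + a - 1 / 2) * ((Real.log τ : ℂ) + (Real.pi / 2 : ℝ) * I) - τ * I)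

/-- the remainder function `ρ` of the functional equation on the line `Re s = -η` -/
noncomputable def rho (F : ℂ → ℂ) (B η : ℝ) (m : ℕ) (ω κ : ℂ) (t : ℝ) : ℂ :=
  F (-η + t * I) - ω * (B : ℂ) ^ (1 + 2 * η - 2 * t * I : ℂ) *
    ((Gamma (1 + η - t * I + m) + κ * Gamma (η - t * I + m)) / Gamma (m - η + t * I)) *
    (starRingEnd ℂ) (F (1 + η + t * I))

/-- the vertical integral `(1/2π) ∫ G(t) (2πξ)^(-(c+it)) dt` -/
noncomputable def VI (G : ℝ → ℂ) (c : ℝ) (ξ : ℂ) : ℂ :=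
  (1 / (2 * Real.pi) : ℝ) * ∫ t : ℝ, G t * (2 * (Real.pi : ℂ) * ξ) ^ (-(c + t * I : ℂ))

/-- the abstract situation: an approximately invariant function -/
structure Approx (q : ℝ) (Ψ : ℂ → ℝ) : Prop where
  nonneg : ∀ z, 0 < z.im → 0 ≤ Ψ z
  per : ∀ z, Ψ (z + 1) = Ψ z
  top : ∀ y0 : ℝ, 0 < y0 → ∃ M : ℝ, ∀ z : ℂ, y0 ≤ z.im → Ψ z ≤ M
  step : ∃ C θ : ℝ, 0 < θ ∧ ∀ z : ℂ, 0 < z.im → z.im ≤ 1 → ‖z‖ ≤ 2 →
    |Ψ z - Ψ (-1 / (q * z))| ≤ C * z.im ^ θ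

end Pool.Agent.H11.SC
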