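import Mathlib
import Pool.Agent.H11.SC.Defs

/-!
# CONJ: the conjugate data

`G s = conj (F (conj s))` is entire (`Differentiable.star_star` / `DifferentiableAt.star_star`
or the like), has Dirichlet coefficients `conj (a n)` (conjugate the `tsum`;
`LSeries.term`, `(n : ℂ)^(conj s) = conj (n^s)`, `Complex.cpow_conj`), and satisfies the functional
equation with `conj mu`, `conj ε`: `completed Q lam (conj mu) G s = conj (completed Q lam mu F
(conj s))` (`Complex.Gamma_conj`, `Q > 0`), so the functional equation at `conj s` gives it.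
-/

set_option autoImplicit false

namespace Pool.Agent.H11.SC

open Complex Pool.Agent.H11.Selberg

variable {a : ℕ → ℂ} {F : ℂ → ℂ} {Q : ℝ} {k : ℕ} {lam : Fin k → ℝ} {mu : Fin k → ℂ} {ε : ℂ}

private theorem term_conj (a : ℕ → ℂ) (s : ℂ) (n : ℕ) :
    LSeries.term (cj a) s n = (starRingEnd ℂ) (LSeries.term a ((starRingEnd ℂ) s) n) := by
  rcases Nat.eq_zero_or_pos n with hn | hn
  · subst hn
    simp
  · have hn' : n ≠ 0 := hn.ne'
    rw [LSeries.term_of_ne_zero hn', LSeries.term_of_ne_zero hn', map_div₀,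
      Complex.cpow_conj _ _ (by rw [Complex.natCast_arg]; exact Real.pi_pos.ne),
      Complex.conj_natCast, Complex.conj_conj]
    rfl

private theorem completed_conj (Q : ℝ) (hQ : 0 < Q) (lam : Fin k → ℝ) (mu : Fin k → ℂ)
    (F : ℂ → ℂ) (s : ℂ) :
    completed Q lam (fun j => (starRingEnd ℂ) (mu j))
      (fun s => (starRingEnd ℂ) (F ((starRingEnd ℂ) s))) s =
      (starRingEnd ℂ) (completed Q lam mu F ((starRingEnd ℂ) s)) := by
  unfold completed
  rw [map_mul, map_mul, map_prod]
  congr 1
  congr 1
  · rw [Complex.cpow_conj _ _ (by rw [Complex.arg_ofReal_of_nonneg hQ.le]; exact Real.pi_pos.ne),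
      Complex.conj_conj, Complex.conj_ofReal]
  · refine Finset.prod_congr rfl (fun j _ => ?_)
    rw [← Complex.Gamma_conj, map_add, map_mul, Complex.conj_ofReal, Complex.conj_conj]

theorem FEq.conj (h : FEq a F Q lam mu ε) :
    FEq (cj a) (fun s => (starRingEnd ℂ) (F ((starRingEnd ℂ) s))) Q lam
      (fun j => (starRingEnd ℂ) (mu j)) ((starRingEnd ℂ) ε) where
  diff := by
    intro s
    have h1 : DifferentiableAt ℂ F ((starRingEnd ℂ) s) := h.diff _
    have h2 := h1.star_star
    simp only [Complex.star_def, Complex.conj_conj] at h2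
    exact h2
  order := by
    obtain ⟨A, C, hC⟩ := h.order
    refine ⟨A, C, fun s => ?_⟩
    have := hC ((starRingEnd ℂ) s)
    rw [RCLike.norm_conj] at this
    rw [RCLike.norm_conj]
    exact this
  summable := by
    intro s hs
    have h1 := h.summable ((starRingEnd ℂ) s) (by simpa using hs)
    have h2 : Summable (fun n => (starRingEnd ℂ) (LSeries.term a ((starRingEnd ℂ) s) n)) :=
      Complex.summable_conj.2 h1
    have h3 : LSeries.term (cj a) s = fun n => (starRingEnd ℂ)
        (LSeries.term a ((starRingEnd ℂ) s) n) := by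
      funext n
      exact term_conj a s n
    unfold LSeriesSummable
    rw [h3]
    exact h2
  eqL := by
    intro s hs
    have h1 := h.eqL ((starRingEnd ℂ) s) (by simpa using hs)
    rw [h1]
    unfold LSeries
    rw [Complex.conj_tsum]
    exact tsum_congr (fun n => (term_conj a s n).symm)
  ram := by
    intro δ hδ
    obtain ⟨C, hC⟩ := h.ram δ hδ
    refine ⟨C, fun n hn => ?_⟩
    have : ‖cj a n‖ = ‖a n‖ := RCLike.norm_conj _
    rw [this]
    exact hC n hn
  one := by
    unfold cj
    rw [h.one, map_one]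
  Qpos := h.Qpos
  lampos := h.lampos
  mure := fun j => by
    rw [Complex.conj_re]
    exact h.mure j
  eps := by rw [RCLike.norm_conj, h.eps]
  feq := by
    intro s hs0 hs1
    have h1 := h.feq ((starRingEnd ℂ) s) (by simpa using hs0) (by simpa using hs1)
    rw [completed_conj Q h.Qpos, completed_conj Q h.Qpos, h1, map_mul, Complex.conj_conj,
      Complex.conj_conj, Complex.conj_conj, map_sub, map_one, Complex.conj_conj]
  deg := h.deg
  shift := by
    have h1 : ∀ j, ((starRingEnd ℂ) (mu j)).im = -(mu j).im := fun j => Complex.conj_im _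
    rw [Finset.sum_congr rfl (fun j _ => h1 j), Finset.sum_neg_distrib, h.shift, neg_zero]

theorem cj_cj (a : ℕ → ℂ) : cj (cj a) = a := by
  funext n
  simp [cj]

/-- `conj (g_m(ξ)) = g~_m(conj ξ)` (no hypothesis: `tsum` commutes with `star`) -/
theorem gs_conj (a : ℕ → ℂ) (m : ℕ) (ξ : ℂ) :
    (starRingEnd ℂ) (gs a m ξ) = gs (cj a) m ((starRingEnd ℂ) ξ) := by
  unfold gs
  rw [Complex.conj_tsum]
  refine tsum_congr (fun n => ?_)
  rw [map_mul, map_mul, map_pow, Complex.conj_natCast, ← Complex.exp_conj, map_neg, map_mul,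
    map_mul, map_mul, Complex.conj_natCast, Complex.conj_ofReal]
  have h2 : (starRingEnd ℂ) (2 : ℂ) = 2 := Complex.conj_ofNat 2
  rw [h2]
  rfl

end Pool.Agent.H11.SC
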