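import Mathlib
import Pool.Agent.H11.SC.Defs

/-!
# GB: trivial bounds for `g_m`

`‖gs a m ξ‖ ≤ ∑_{n ≥ 1} ‖a n‖ n^m e^(-2πn y)`, `y = Re ξ > 0`, `‖a n‖ ≤ C n^δ`.
`gs_bound`: with `p = m + δ`, `n^p e^(-πny) ≤ K y^(-p)` and `∑_{n ≥ 1} e^(-πny) ≤ 1/(πy)`.
`gs_top`: for `y ≥ y0`: `‖gs a m ξ‖ ≤ e^(-πy) ∑ ‖a n‖ n^m e^(-πn y0)` (as `2πny ≥ πy + πn y0`).
`gs_pos`: for real `v ≥ 1`: `‖gs a m v - a 1 e^(-2πv)‖ ≤ ∑_{n≥2} ‖a n‖ n^m e^(-2πnv)
 ≤ e^(-3πv) ∑_{n ≥ 2} ‖a n‖ n^m e^(-2π(n-3/2))` (as `2πnv ≥ 3πv + 2π(n-3/2)` for `v ≥ 1`, `n ≥ 2`),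
and `e^(-3πv) K < e^(-2πv)` for large `v`.
The term `n = 0` vanishes because `m ≥ 1`.
-/

set_option autoImplicit false

namespace Pool.Agent.H11.SC

open Complex

/-- `u^p ≤ K e^(πu)` -/
theorem rpow_le_exp (p : ℝ) (hp : 0 ≤ p) :
    ∃ K : ℝ, 0 < K ∧ ∀ u : ℝ, 0 < u → u ^ p ≤ K * Real.exp (Real.pi * u) := by
  obtain ⟨k, hk⟩ := exists_nat_ge p
  refine ⟨1 + (k.factorial : ℝ), by positivity, fun u hu => ?_⟩
  have h1 : (1 : ℝ) ≤ Real.exp (Real.pi * u) := by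
    apply Real.one_le_exp
    have := Real.pi_pos
    positivity
  rcases le_total u 1 with h | h
  · have h2 : u ^ p ≤ 1 := Real.rpow_le_one hu.le h hp
    have h3 : (0 : ℝ) ≤ (k.factorial : ℝ) * Real.exp (Real.pi * u) := by positivity
    linarith
  · have h2 : u ^ p ≤ u ^ (k : ℝ) := Real.rpow_le_rpow_of_exponent_le h hk
    rw [Real.rpow_natCast] at h2
    have h3 : u ^ k / (k.factorial : ℝ) ≤ Real.exp u := Real.pow_div_factorial_le_exp u hu.le k
    have h4 : Real.exp u ≤ Real.exp (Real.pi * u) := by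
      apply Real.exp_le_exp.2
      have : (1 : ℝ) ≤ Real.pi := by linarith [Real.pi_gt_three]
      nlinarith
    have hk0 : (0 : ℝ) < (k.factorial : ℝ) := by positivity
    rw [div_le_iff₀ hk0] at h3
    have h5 : Real.exp u * (k.factorial : ℝ) ≤ Real.exp (Real.pi * u) * (k.factorial : ℝ) :=
      mul_le_mul_of_nonneg_right h4 hk0.le
    nlinarith

/-- the norm of the exponential -/
theorem norm_cexp_gs (n : ℕ) (ξ : ℂ) :
    ‖cexp (-(2 * (Real.pi : ℂ) * n * ξ))‖ = Real.exp (-(2 * Real.pi * n * ξ.re)) := by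
  rw [Complex.norm_exp]
  congr 1
  have : -(2 * (Real.pi : ℂ) * n * ξ) = ((-(2 * Real.pi * n) : ℝ) : ℂ) * ξ := by
    push_cast; ring
  rw [this, Complex.re_ofReal_mul]
  ring

theorem gs_bound (a : ℕ → ℂ) (m : ℕ) (hm : 1 ≤ m) (δ : ℝ) (hδ : 0 < δ)
    (ha : ∃ C : ℝ, ∀ n : ℕ, 1 ≤ n → ‖a n‖ ≤ C * (n : ℝ) ^ δ) :
    ∃ C : ℝ, ∀ ξ : ℂ, 0 < ξ.re → ‖gs a m ξ‖ ≤ C * ξ.re ^ (-((m : ℝ) + 1 + δ)) := by
  obtain ⟨C, hC⟩ := ha
  have hC0 : 0 ≤ C := by
    have := hC 1 le_rfl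
    simp only [Nat.cast_one, Real.one_rpow, mul_one] at this
    exact (norm_nonneg _).trans this
  obtain ⟨K, hK, hKu⟩ := rpow_le_exp ((m : ℝ) + δ) (by positivity)
  have hpi := Real.pi_pos
  refine ⟨C * K / Real.pi, fun ξ hξ => ?_⟩
  set y := ξ.re with hy
  set r := Real.exp (-(Real.pi * y)) with hr
  have hr0 : 0 < r := Real.exp_pos _
  have hr1 : r < 1 := by
    rw [hr, Real.exp_lt_one_iff]
    have : 0 < Real.pi * y := by positivity
    linarith
  have hg : HasSum (fun n : ℕ => C * K * y ^ (-((m : ℝ) + δ)) *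
      (r ^ n - (if n = 0 then 1 else 0))) (C * K * y ^ (-((m : ℝ) + δ)) * ((1 - r)⁻¹ - 1)) :=
    ((hasSum_geometric_of_lt_one hr0.le hr1).sub (hasSum_ite_eq 0 1)).mul_left _
  have hb : ‖gs a m ξ‖ ≤ C * K * y ^ (-((m : ℝ) + δ)) * ((1 - r)⁻¹ - 1) := by
    unfold gs
    refine tsum_of_norm_bounded hg (fun n => ?_)
    rcases Nat.eq_zero_or_pos n with rfl | hn
    · have : ((0 : ℕ) : ℂ) ^ m = 0 := by
        rw [Nat.cast_zero, zero_pow (by omega)]
      rw [this]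
      simp
    · have hn0 : (0 : ℝ) < n := by exact_mod_cast hn
      rw [if_neg (by omega), sub_zero, norm_mul, norm_mul, norm_pow, norm_cexp_gs,
        Complex.norm_natCast]
      have h1 := hKu (n * y) (by positivity)
      have h2 : ((n : ℝ) * y) ^ ((m : ℝ) + δ) = (n : ℝ) ^ m * (n : ℝ) ^ δ * y ^ ((m : ℝ) + δ) := by
        rw [Real.mul_rpow hn0.le hξ.le, Real.rpow_add hn0, Real.rpow_natCast]
      have h3 : Real.exp (-(2 * Real.pi * n * y)) * Real.exp (Real.pi * (n * y)) = r ^ n := by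
        rw [hr, ← Real.exp_add, ← Real.exp_nat_mul]
        congr 1
        ring
      have h4 : y ^ ((m : ℝ) + δ) * y ^ (-((m : ℝ) + δ)) = 1 := by
        rw [← Real.rpow_add hξ]; simp
      have hyp : 0 < y ^ (-((m : ℝ) + δ)) := Real.rpow_pos_of_pos hξ _
      have he : 0 < Real.exp (-(2 * Real.pi * n * y)) := Real.exp_pos _
      calc ‖a n‖ * (n : ℝ) ^ m * Real.exp (-(2 * Real.pi * n * y))
          ≤ C * (n : ℝ) ^ δ * (n : ℝ) ^ m * Real.exp (-(2 * Real.pi * n * y)) := by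
            gcongr
            exact hC n hn
        _ = C * (((n : ℝ) * y) ^ ((m : ℝ) + δ)) * y ^ (-((m : ℝ) + δ)) *
            Real.exp (-(2 * Real.pi * n * y)) := by
            rw [h2]
            linear_combination (-(C * (n : ℝ) ^ δ * (n : ℝ) ^ m *
              Real.exp (-(2 * Real.pi * n * y)))) * h4
        _ ≤ C * (K * Real.exp (Real.pi * (n * y))) * y ^ (-((m : ℝ) + δ)) *
            Real.exp (-(2 * Real.pi * n * y)) := by
            gcongr
        _ = C * K * y ^ (-((m : ℝ) + δ)) * r ^ n := by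
            rw [← h3]; ring
  refine hb.trans ?_
  have h5 : (1 - r)⁻¹ - 1 ≤ 1 / (Real.pi * y) := by
    have hv : 0 < Real.pi * y := by positivity
    have h6 : r * (Real.pi * y + 1) ≤ 1 := by
      have h7 : r * Real.exp (Real.pi * y) = 1 := by
        rw [hr, ← Real.exp_add]; simp
      exact le_trans (mul_le_mul_of_nonneg_left (Real.add_one_le_exp _) hr0.le) h7.le
    have h8 : (1 - r)⁻¹ - 1 = r / (1 - r) := by
      have : (1 - r) ≠ 0 := by linarith
      field_simp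
      ring
    rw [h8, div_le_div_iff₀ (by linarith) hv]
    linarith
  have hyp : 0 < y ^ (-((m : ℝ) + δ)) := Real.rpow_pos_of_pos hξ _
  calc C * K * y ^ (-((m : ℝ) + δ)) * ((1 - r)⁻¹ - 1)
      ≤ C * K * y ^ (-((m : ℝ) + δ)) * (1 / (Real.pi * y)) := by
        apply mul_le_mul_of_nonneg_left h5
        positivity
    _ = C * K / Real.pi * y ^ (-((m : ℝ) + 1 + δ)) := by
        have : y ^ (-((m : ℝ) + 1 + δ)) = y ^ (-((m : ℝ) + δ)) * y⁻¹ := by
          rw [show -((m : ℝ) + 1 + δ) = -((m : ℝ) + δ) + (-1) by ring, Real.rpow_add hξ,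
            Real.rpow_neg_one]
        rw [this]
        field_simp

/-- a natural exponent -/
theorem nat_exponent (a : ℕ → ℂ) (δ : ℝ)
    (ha : ∃ C : ℝ, ∀ n : ℕ, 1 ≤ n → ‖a n‖ ≤ C * (n : ℝ) ^ δ) :
    ∃ (C : ℝ) (k : ℕ), 0 ≤ C ∧ ∀ n : ℕ, 1 ≤ n → ‖a n‖ ≤ C * (n : ℝ) ^ k := by
  obtain ⟨C, hC⟩ := ha
  have hC0 : 0 ≤ C := by
    have := hC 1 le_rfl
    simp only [Nat.cast_one, Real.one_rpow, mul_one] at this
    exact (norm_nonneg _).trans this
  obtain ⟨k, hk⟩ := exists_nat_ge δ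
  refine ⟨C, k, hC0, fun n hn => (hC n hn).trans ?_⟩
  have hn1 : (1 : ℝ) ≤ n := by exact_mod_cast hn
  have : (n : ℝ) ^ δ ≤ (n : ℝ) ^ (k : ℝ) := Real.rpow_le_rpow_of_exponent_le hn1 hk
  rw [Real.rpow_natCast] at this
  exact mul_le_mul_of_nonneg_left this hC0

theorem gs_top (a : ℕ → ℂ) (m : ℕ) (hm : 1 ≤ m) (δ : ℝ)
    (ha : ∃ C : ℝ, ∀ n : ℕ, 1 ≤ n → ‖a n‖ ≤ C * (n : ℝ) ^ δ) (y0 : ℝ) (hy0 : 0 < y0) :
    ∃ C : ℝ, ∀ ξ : ℂ, y0 ≤ ξ.re → ‖gs a m ξ‖ ≤ C * Real.exp (-(Real.pi * ξ.re)) := by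
  obtain ⟨C, k, hC0, hC⟩ := nat_exponent a δ ha
  have hpi := Real.pi_pos
  set r := Real.exp (-(Real.pi * y0)) with hr
  have hr0 : 0 < r := Real.exp_pos _
  have hr1 : r < 1 := by
    rw [hr, Real.exp_lt_one_iff]
    have : 0 < Real.pi * y0 := by positivity
    linarith
  have hsum : Summable (fun n : ℕ => (n : ℝ) ^ (k + m) * r ^ n) :=
    summable_pow_mul_geometric_of_norm_lt_one (k + m) (by rwa [Real.norm_of_nonneg hr0.le])
  refine ⟨C * ∑' n : ℕ, (n : ℝ) ^ (k + m) * r ^ n, fun ξ hξ => ?_⟩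
  have hg : HasSum (fun n : ℕ => Real.exp (-(Real.pi * ξ.re)) * (C * ((n : ℝ) ^ (k + m) * r ^ n)))
      (Real.exp (-(Real.pi * ξ.re)) * (C * ∑' n : ℕ, (n : ℝ) ^ (k + m) * r ^ n)) :=
    (hsum.hasSum.mul_left C).mul_left _
  rw [mul_comm]
  unfold gs
  refine tsum_of_norm_bounded hg (fun n => ?_)
  rcases Nat.eq_zero_or_pos n with rfl | hn
  · have : ((0 : ℕ) : ℂ) ^ m = 0 := by
      rw [Nat.cast_zero, zero_pow (by omega)]
    rw [this]
    have h0 : ((0 : ℕ) : ℝ) ^ (k + m) = 0 := by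
      rw [Nat.cast_zero, zero_pow (by omega)]
    rw [h0]
    simp
  · have hn1 : (1 : ℝ) ≤ n := by exact_mod_cast hn
    rw [norm_mul, norm_mul, norm_pow, norm_cexp_gs, Complex.norm_natCast]
    have h3 : Real.exp (-(2 * Real.pi * n * ξ.re)) ≤ Real.exp (-(Real.pi * ξ.re)) * r ^ n := by
      rw [hr, ← Real.exp_nat_mul, ← Real.exp_add]
      apply Real.exp_le_exp.2
      have e1 : ξ.re ≤ n * ξ.re := by nlinarith
      have e2 : (n : ℝ) * y0 ≤ n * ξ.re := by nlinarith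
      nlinarith
    calc ‖a n‖ * (n : ℝ) ^ m * Real.exp (-(2 * Real.pi * n * ξ.re))
        ≤ C * (n : ℝ) ^ k * (n : ℝ) ^ m * (Real.exp (-(Real.pi * ξ.re)) * r ^ n) := by
          gcongr
          exact hC n hn
      _ = Real.exp (-(Real.pi * ξ.re)) * (C * ((n : ℝ) ^ (k + m) * r ^ n)) := by
          rw [pow_add]; ring

theorem gs_pos (a : ℕ → ℂ) (m : ℕ) (hm : 1 ≤ m) (δ : ℝ)
    (ha : ∃ C : ℝ, ∀ n : ℕ, 1 ≤ n → ‖a n‖ ≤ C * (n : ℝ) ^ δ) (h1 : a 1 = 1) :
    ∃ v0 : ℝ, ∀ v : ℝ, v0 ≤ v → 0 < ‖gs a m v‖ := by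
  obtain ⟨C, k, hC0, hC⟩ := nat_exponent a δ ha
  have hpi := Real.pi_pos
  set r := Real.exp (-(2 * Real.pi)) with hr
  have hr0 : 0 < r := Real.exp_pos _
  have hr1 : r < 1 := by
    rw [hr, Real.exp_lt_one_iff]
    linarith
  have hsum : Summable (fun n : ℕ => (n : ℝ) ^ (k + m) * r ^ n) :=
    summable_pow_mul_geometric_of_norm_lt_one (k + m) (by rwa [Real.norm_of_nonneg hr0.le])
  set K := C * Real.exp (3 * Real.pi) * ∑' n : ℕ, (n : ℝ) ^ (k + m) * r ^ n with hK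
  have hK0 : 0 ≤ K := by
    apply mul_nonneg (by positivity)
    exact tsum_nonneg (fun n => by positivity)
  refine ⟨max 1 (K + 1), fun v hv => ?_⟩
  have hv1 : 1 ≤ v := le_trans (le_max_left _ _) hv
  have hvK : K + 1 ≤ v := le_trans (le_max_right _ _) hv
  -- the terms
  set f : ℕ → ℂ := fun n => a n * (n : ℂ) ^ m * cexp (-(2 * (Real.pi : ℂ) * n * (v : ℂ))) with hf
  have hfb : ∀ n : ℕ, ‖f n - (if n = 1 then f 1 else 0)‖ ≤
      Real.exp (-(3 * Real.pi * v)) * (C * Real.exp (3 * Real.pi) *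
        ((n : ℝ) ^ (k + m) * r ^ n)) := by
    intro n
    have hnn : 0 ≤ Real.exp (-(3 * Real.pi * v)) * (C * Real.exp (3 * Real.pi) *
        ((n : ℝ) ^ (k + m) * r ^ n)) := by positivity
    rcases Nat.eq_zero_or_pos n with rfl | hn
    · have : f 0 = 0 := by
        rw [hf]
        simp only
        rw [Nat.cast_zero, zero_pow (by omega)]
        simp
      rw [this]
      simpa using hnn
    · by_cases hn1 : n = 1
      · subst hn1
        simpa using hnn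
      · rw [if_neg hn1, sub_zero, hf]
        simp only
        have hn2 : (2 : ℝ) ≤ n := by
          have : 2 ≤ n := by omega
          exact_mod_cast this
        rw [norm_mul, norm_mul, norm_pow, norm_cexp_gs, Complex.norm_natCast, Complex.ofReal_re]
        have h3 : Real.exp (-(2 * Real.pi * n * v)) ≤
            Real.exp (-(3 * Real.pi * v)) * (Real.exp (3 * Real.pi) * r ^ n) := by
          rw [hr, ← Real.exp_nat_mul, ← Real.exp_add, ← Real.exp_add]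
          apply Real.exp_le_exp.2
          have e1 : 0 ≤ Real.pi * ((2 * n - 3) * (v - 1)) := by
            apply mul_nonneg hpi.le
            apply mul_nonneg <;> linarith
          nlinarith
        calc ‖a n‖ * (n : ℝ) ^ m * Real.exp (-(2 * Real.pi * n * v))
            ≤ C * (n : ℝ) ^ k * (n : ℝ) ^ m *
              (Real.exp (-(3 * Real.pi * v)) * (Real.exp (3 * Real.pi) * r ^ n)) := by
              gcongr
              exact hC n hn
          _ = _ := by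
              rw [pow_add]; ring
  have hg : HasSum (fun n : ℕ => Real.exp (-(3 * Real.pi * v)) * (C * Real.exp (3 * Real.pi) *
        ((n : ℝ) ^ (k + m) * r ^ n))) (Real.exp (-(3 * Real.pi * v)) * K) :=
    (hsum.hasSum.mul_left (C * Real.exp (3 * Real.pi))).mul_left _
  have hS2 : Summable (fun n => f n - (if n = 1 then f 1 else 0)) :=
    Summable.of_norm_bounded hg.summable hfb
  have hS1 : Summable f := by
    have h2 := hS2.add (hasSum_ite_eq 1 (f 1)).summable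
    simpa using h2
  have hts : ∑' n, (f n - (if n = 1 then f 1 else 0)) = (∑' n, f n) - f 1 := by
    rw [hS1.tsum_sub (hasSum_ite_eq 1 (f 1)).summable, tsum_ite_eq]
  have hnorm := tsum_of_norm_bounded hg hfb
  rw [hts] at hnorm
  have hgs : gs a m v = ∑' n, f n := rfl
  rw [norm_pos_iff]
  intro hzero
  rw [← hgs, hzero, zero_sub, norm_neg] at hnorm
  have hf1 : ‖f 1‖ = Real.exp (-(2 * Real.pi * v)) := by
    rw [hf]
    simp only
    rw [norm_mul, norm_mul, norm_pow, norm_cexp_gs, h1, Complex.ofReal_re]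
    simp
  rw [hf1] at hnorm
  have h4 : Real.exp (-(2 * Real.pi * v)) = Real.exp (-(3 * Real.pi * v)) *
      Real.exp (Real.pi * v) := by
    rw [← Real.exp_add]
    congr 1
    ring
  rw [h4] at hnorm
  have h5 : Real.exp (Real.pi * v) ≤ K := le_of_mul_le_mul_left hnorm (Real.exp_pos _)
  have h6 := Real.add_one_le_exp (Real.pi * v)
  have h7 : v ≤ Real.pi * v := by nlinarith [Real.pi_gt_three]
  linarith

end Pool.Agent.H11.SC
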