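import Mathlib
import Pool.Agent.H11.SC.Defs

/-!
# STIR1: exact form of Stirling's formula in the upper half plane

Let `L w = (w - 1/2) log w - w` for `Im w > 0`.  Then
`L (w+1) - L w = (w + 1/2) log (w+1) - (w - 1/2) log w - 1 = log w + gg w`, so
`exp (L (w+1)) = w * exp (L w) * exp (gg w)`.

(1) Summability: for `‖w‖ ≥ 2`, put `u = 1/w`; `log (w+1) - log w = log (1+u)` (both arguments lie
in `(0, π)`, and `w + 1 = w (1+u)` with `Re (1+u) > 0`), and
`(1/u + 1/2) log (1+u) - 1 = O(|u|^2)` by `Complex.norm_log_sub_logTaylor_le` (or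
`Complex.norm_log_one_add_sub_self_le` and the next one).  So `‖gg (z+n)‖ ≤ C / n^2` for large `n`.

(2) Mathlib: `Complex.GammaSeq_tendsto_Gamma`, `GammaSeq z N = N^z * N! / ∏_{j ≤ N} (z + j)`.
By the displayed formula, `∏_{j ≤ N} (z+j) = exp (L (z+N+1) - L z - ∑_{j ≤ N} gg (z+j))`, so
`GammaSeq z N = exp (L z) * exp (∑_{j ≤ N} gg (z+j)) * (N^z * N! * exp (-L (z+N+1)))`.

(3) `N^z * N! * exp (-L (z+N+1)) → √(2π)`: Mathlib has `Stirling.tendsto_stirlingSeq_sqrt_pi`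
(`N! / (√(2N) (N/e)^N) → √π`).  And `log (z+N+1) = log N + log (1 + (z+1)/N)`, with
`(z+N+1/2) log (1 + (z+1)/N) → z + 1`, hence
`L (z+N+1) = (z+N+1/2) log N + (z+1) - z - N - 1 + o(1) = (z+N+1/2) log N - N + o(1)`.
So the quantity is asymptotic to `N^z * √(2πN) (N/e)^N * N^(-z-N-1/2) e^N = √(2π)`.
-/

set_option autoImplicit false

namespace Pool.Agent.H11.SC

open Complex

namespace Stir1

lemma ne_zero_of_im_pos {w : ℂ} (hw : 0 < w.im) : w ≠ 0 := by
  rintro rfl; simp at hw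

lemma arg_pos_of_im_pos {w : ℂ} (hw : 0 < w.im) : 0 < arg w ∧ arg w < Real.pi := by
  have h1 : 0 ≤ arg w := Complex.arg_nonneg_iff.2 hw.le
  have h2 : arg w ≠ 0 := by
    intro h; rw [Complex.arg_eq_zero_iff] at h; linarith [h.2]
  have h3 : arg w ≠ Real.pi := by
    intro h; rw [Complex.arg_eq_pi_iff] at h; linarith [h.2]
  exact ⟨lt_of_le_of_ne h1 (Ne.symm h2), lt_of_le_of_ne (arg_le_pi w) h3⟩

lemma log_add_one_sub {w : ℂ} (hw : 0 < w.im) : log (w + 1) - log w = log (1 + 1 / w) := by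
  have hw0 := ne_zero_of_im_pos hw
  have him : (1 + 1 / w).im < 0 := by
    rw [Complex.add_im, Complex.one_im, one_div, Complex.inv_im, zero_add]
    have : 0 < Complex.normSq w := Complex.normSq_pos.2 hw0
    rw [neg_div]
    have := div_pos hw this
    linarith
  have hu0 : (1 + 1 / w) ≠ 0 := by
    intro h; rw [h] at him; simp at him
  have hmul : w + 1 = w * (1 + 1 / w) := by field_simp
  have h1 := arg_pos_of_im_pos hw
  have h2 : arg (1 + 1 / w) < 0 := Complex.arg_neg_iff.2 him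
  have h3 := neg_pi_lt_arg (1 + 1 / w)
  rw [hmul, (Complex.log_mul_eq_add_log_iff hw0 hu0).2 ⟨by linarith, by linarith⟩]
  ring

lemma log_bound {u : ℂ} (hu0 : u ≠ 0) (hu : ‖u‖ ≤ 1 / 2) :
    ‖(1 / u + 1 / 2) * log (1 + u) - 1‖ ≤ 2 * ‖u‖ ^ 2 := by
  have h1 := Complex.norm_log_sub_logTaylor_le 2 (z := u) (by linarith)
  have hT : logTaylor 3 u = u - u ^ 2 / 2 := by
    simp [logTaylor_succ, logTaylor_zero]; ring
  rw [hT] at h1
  set R := log (1 + u) - (u - u ^ 2 / 2) with hR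
  have hlog : log (1 + u) = u - u ^ 2 / 2 + R := by rw [hR]; ring
  have hpos : 0 < ‖u‖ := norm_pos_iff.2 hu0
  have hR2 : ‖R‖ ≤ 2 / 3 * ‖u‖ ^ 3 := by
    refine h1.trans ?_
    have h2 : (1 - ‖u‖)⁻¹ ≤ 2 := by
      rw [inv_le_comm₀ (by linarith) (by norm_num)]; linarith
    have h3 : ‖u‖ ^ (2 + 1) * (1 - ‖u‖)⁻¹ ≤ ‖u‖ ^ 3 * 2 :=
      mul_le_mul_of_nonneg_left h2 (by positivity)
    norm_num at h3 ⊢
    linarith
  have heq : (1 / u + 1 / 2) * log (1 + u) - 1 = R / u - u ^ 2 / 4 + R / 2 := by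
    rw [hlog]; field_simp; ring
  rw [heq]
  have a1 : ‖R / u‖ ≤ 2 / 3 * ‖u‖ ^ 2 := by
    rw [norm_div, div_le_iff₀ hpos]
    calc ‖R‖ ≤ 2 / 3 * ‖u‖ ^ 3 := hR2
      _ = 2 / 3 * ‖u‖ ^ 2 * ‖u‖ := by ring
  have a2 : ‖u ^ 2 / 4‖ = ‖u‖ ^ 2 / 4 := by rw [norm_div, norm_pow]; norm_num
  have a3 : ‖R / 2‖ ≤ 1 / 6 * ‖u‖ ^ 2 := by
    rw [norm_div]
    have : ‖(2 : ℂ)‖ = 2 := by norm_num
    rw [this]
    nlinarith [sq_nonneg ‖u‖, mul_nonneg (sq_nonneg ‖u‖) (sub_nonneg.2 hu)]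
  calc ‖R / u - u ^ 2 / 4 + R / 2‖ ≤ ‖R / u - u ^ 2 / 4‖ + ‖R / 2‖ := norm_add_le _ _
    _ ≤ ‖R / u‖ + ‖u ^ 2 / 4‖ + ‖R / 2‖ := by gcongr; exact norm_sub_le _ _
    _ ≤ 2 / 3 * ‖u‖ ^ 2 + ‖u‖ ^ 2 / 4 + 1 / 6 * ‖u‖ ^ 2 := by rw [a2]; gcongr
    _ ≤ 2 * ‖u‖ ^ 2 := by nlinarith [sq_nonneg ‖u‖]

lemma gg_bound {w : ℂ} (hw : 0 < w.im) (hn : 2 ≤ ‖w‖) : ‖gg w‖ ≤ 2 / ‖w‖ ^ 2 := by
  have hw0 := ne_zero_of_im_pos hw
  have hpos : 0 < ‖w‖ := norm_pos_iff.2 hw0
  have h := log_bound (u := 1 / w) (one_div_ne_zero hw0)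
    (by rw [norm_div, norm_one]; exact one_div_le_one_div_of_le (by norm_num) hn)
  have heq : gg w = (1 / (1 / w) + 1 / 2) * log (1 + 1 / w) - 1 := by
    rw [gg, log_add_one_sub hw, one_div_one_div]
  rw [heq]
  refine h.trans (le_of_eq ?_)
  rw [norm_div, norm_one, div_pow, one_pow]
  ring

lemma summable_gg {z : ℂ} (hz : 0 < z.im) : Summable (fun n : ℕ => gg (z + n)) := by
  have hs : Summable (fun n : ℕ => 8 * (1 / (n : ℝ) ^ 2)) :=
    (Real.summable_one_div_nat_pow.2 (by norm_num)).mul_left 8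
  obtain ⟨N, hN⟩ := exists_nat_ge (2 * ‖z‖ + 4)
  refine Summable.of_norm_bounded_eventually_nat (g := fun n : ℕ => 8 * (1 / (n : ℝ) ^ 2)) hs ?_
  filter_upwards [Filter.eventually_ge_atTop N] with n hn
  have hn' : (N : ℝ) ≤ n := by exact_mod_cast hn
  have h1 : (n : ℝ) / 2 ≤ ‖z + n‖ := by
    have h2 : ‖(n : ℂ)‖ ≤ ‖z + n‖ + ‖z‖ := by
      calc ‖(n : ℂ)‖ = ‖(z + n) - z‖ := by ring_nf
        _ ≤ ‖z + n‖ + ‖z‖ := norm_sub_le _ _
    rw [Complex.norm_natCast] at h2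
    linarith
  have hz0 := norm_nonneg z
  have h3 : 2 ≤ ‖z + n‖ := by linarith
  have h4 := gg_bound (w := z + n) (by simpa using hz) h3
  refine h4.trans ?_
  have hnpos : (0 : ℝ) < n := by linarith
  rw [mul_one_div, div_le_div_iff₀ (by positivity) (by positivity)]
  nlinarith [mul_self_le_mul_self (by positivity : (0 : ℝ) ≤ n / 2) h1]

/-- `L w = (w - 1/2) log w - w` -/
noncomputable def LL (w : ℂ) : ℂ := (w - 1 / 2) * log w - w

lemma exp_LL_succ {w : ℂ} (hw : 0 < w.im) :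
    cexp (LL (w + 1)) = w * cexp (LL w) * cexp (gg w) := by
  have hw0 := ne_zero_of_im_pos hw
  have : LL (w + 1) = log w + LL w + gg w := by
    simp only [LL, gg]; ring
  rw [this, Complex.exp_add, Complex.exp_add, Complex.exp_log hw0]

lemma exp_LL_add_nat {z : ℂ} (hz : 0 < z.im) (M : ℕ) :
    cexp (LL (z + M)) = cexp (LL z) * (∏ j ∈ Finset.range M, (z + j)) *
      cexp (∑ j ∈ Finset.range M, gg (z + j)) := by
  induction M with
  | zero => simp
  | succ M ih =>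
    rw [Finset.prod_range_succ, Finset.sum_range_succ, Complex.exp_add]
    have h1 : z + ((M + 1 : ℕ) : ℂ) = (z + M) + 1 := by push_cast; ring
    rw [h1, exp_LL_succ (by simpa using hz), ih]
    ring

lemma prod_ne_zero {z : ℂ} (hz : 0 < z.im) (M : ℕ) :
    (∏ j ∈ Finset.range M, (z + j)) ≠ 0 := by
  rw [Finset.prod_ne_zero_iff]
  intro j _
  exact ne_zero_of_im_pos (by simpa using hz)

lemma gammaSeq_eq {z : ℂ} (hz : 0 < z.im) (N : ℕ) :
    GammaSeq z N = cexp (LL z) * cexp (∑ j ∈ Finset.range (N + 1), gg (z + j)) *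
      ((N : ℂ) ^ z * (N.factorial : ℂ) * cexp (-LL (z + (N + 1 : ℕ)))) := by
  rw [GammaSeq, Complex.exp_neg, exp_LL_add_nat hz (N + 1)]
  have h1 := prod_ne_zero hz (N + 1)
  have h2 := Complex.exp_ne_zero (LL z)
  have h3 := Complex.exp_ne_zero (∑ j ∈ Finset.range (N + 1), gg (z + j))
  field_simp

lemma key_eq {z : ℂ} (hz : 0 < z.im) {N : ℕ} (hN : 1 ≤ N) :
    (N : ℂ) ^ z * (N.factorial : ℂ) * cexp (-LL (z + (N + 1 : ℕ))) =
      (Stirling.stirlingSeq N : ℂ) * (Real.sqrt 2 : ℂ) *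
        cexp (z + 1 - (z + N + 1 / 2) * log (1 + (z + 1) / N)) := by
  have hNpos : (0 : ℝ) < N := by exact_mod_cast hN
  have hN0 : (N : ℂ) ≠ 0 := by exact_mod_cast hNpos.ne'
  -- the logarithm
  have hx0 : (1 + (z + 1) / (N : ℂ)) ≠ 0 := by
    apply ne_zero_of_im_pos
    have : (1 + (z + 1) / (N : ℂ)).im = z.im / N := by
      rw [Complex.add_im, Complex.one_im, zero_add]
      have : ((z + 1) / (N : ℂ)).im = (z + 1).im / N := by
        have := Complex.div_natCast_im (z + 1) N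
        exact this
      rw [this]; simp
    rw [this]; positivity
  have hlog : log (z + (N + 1 : ℕ)) = (Real.log N : ℂ) + log (1 + (z + 1) / N) := by
    have h1 : z + ((N + 1 : ℕ) : ℂ) = ((N : ℝ) : ℂ) * (1 + (z + 1) / N) := by
      push_cast; field_simp; ring
    rw [h1, Complex.log_ofReal_mul hNpos hx0]
  have hpow : (N : ℂ) ^ z = cexp ((Real.log N : ℂ) * z) := by
    rw [Complex.cpow_def_of_ne_zero hN0]
    congr 2
    have : (N : ℂ) = ((N : ℝ) : ℂ) := by simp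
    rw [this, ← Complex.ofReal_log hNpos.le]
  have hfac : (N.factorial : ℂ) = (Stirling.stirlingSeq N : ℂ) * (Real.sqrt 2 : ℂ) *
      cexp ((Real.log N : ℂ) / 2 + N * (Real.log N : ℂ) - N) := by
    have hR : (N.factorial : ℝ) = Stirling.stirlingSeq N * Real.sqrt 2 *
        Real.exp (Real.log N / 2 + N * Real.log N - N) := by
      have e1 : Real.exp (Real.log N / 2 + N * Real.log N - N) =
          Real.sqrt N * (N / Real.exp 1) ^ N := by
        rw [Real.exp_sub, Real.exp_add, Real.exp_half, Real.exp_log hNpos, div_pow,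
          Real.exp_nat_mul, Real.exp_log hNpos, ← Real.exp_nat_mul, mul_one, mul_div_assoc]
      rw [e1, Stirling.stirlingSeq]
      have e2 : Real.sqrt (2 * (N : ℝ)) = Real.sqrt 2 * Real.sqrt N :=
        Real.sqrt_mul (by norm_num) _
      rw [e2]
      have : Real.sqrt N ≠ 0 := (Real.sqrt_pos.2 hNpos).ne'
      have : Real.exp 1 ≠ 0 := Real.exp_ne_zero _
      have : (N : ℝ) ≠ 0 := hNpos.ne'
      field_simp
    have := congrArg (fun x : ℝ => (x : ℂ)) hR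
    simp only [Complex.ofReal_mul, Complex.ofReal_exp, Complex.ofReal_natCast,
      Complex.ofReal_sub, Complex.ofReal_add, Complex.ofReal_div, Complex.ofReal_ofNat] at this
    exact this
  rw [hpow, hfac, LL, hlog]
  rw [show cexp ((Real.log N : ℂ) * z) * ((Stirling.stirlingSeq N : ℂ) * (Real.sqrt 2 : ℂ) *
      cexp ((Real.log N : ℂ) / 2 + N * (Real.log N : ℂ) - N)) *
      cexp (-((z + ((N + 1 : ℕ) : ℂ) - 1 / 2) * ((Real.log N : ℂ) + log (1 + (z + 1) / N)) -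
        (z + ((N + 1 : ℕ) : ℂ)))) =
      (Stirling.stirlingSeq N : ℂ) * (Real.sqrt 2 : ℂ) * (cexp ((Real.log N : ℂ) * z) *
      cexp ((Real.log N : ℂ) / 2 + N * (Real.log N : ℂ) - N) *
      cexp (-((z + ((N + 1 : ℕ) : ℂ) - 1 / 2) * ((Real.log N : ℂ) + log (1 + (z + 1) / N)) -
        (z + ((N + 1 : ℕ) : ℂ))))) from by ring]
  rw [← Complex.exp_add, ← Complex.exp_add]
  congr 2
  push_cast
  ring

lemma tendsto_exponent (z : ℂ) :
    Filter.Tendsto (fun N : ℕ => cexp (z + 1 - (z + N + 1 / 2) * log (1 + (z + 1) / N)))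
      Filter.atTop (nhds 1) := by
  have h0 : Filter.Tendsto (fun N : ℕ => (z + 1) / (N : ℂ)) Filter.atTop (nhds 0) :=
    tendsto_const_div_atTop_nhds_zero_nat (z + 1)
  have h1 : Filter.Tendsto (fun N : ℕ => (N : ℂ) * log (1 + (z + 1) / N)) Filter.atTop
      (nhds (z + 1)) := by
    apply Complex.tendsto_nat_mul_log_one_add_of_tendsto
    refine tendsto_const_nhds.congr' ?_
    filter_upwards [Filter.eventually_ge_atTop 1] with n hn
    have : (n : ℂ) ≠ 0 := by exact_mod_cast (by omega : n ≠ 0)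
    field_simp
  have h2 : Filter.Tendsto (fun N : ℕ => log (1 + (z + 1) / (N : ℂ))) Filter.atTop
      (nhds 0) := by
    have h3 : Filter.Tendsto (fun N : ℕ => 1 + (z + 1) / (N : ℂ)) Filter.atTop (nhds 1) := by
      simpa using h0.const_add 1
    have h4 := (continuousAt_clog (x := 1) (by simp)).tendsto.comp h3
    rw [Complex.log_one] at h4
    exact h4
  have h5 : Filter.Tendsto (fun N : ℕ => (z + N + 1 / 2) * log (1 + (z + 1) / (N : ℂ)))
      Filter.atTop (nhds (z + 1)) := by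
    have h6 := h1.add (h2.const_mul (z + 1 / 2))
    simp only [mul_zero, add_zero] at h6
    refine h6.congr (fun N => ?_)
    ring
  have h7 := (Complex.continuous_exp.tendsto _).comp (h5.const_sub (z + 1))
  rw [sub_self, Complex.exp_zero] at h7
  exact h7

end Stir1

theorem gamma_eq (z : ℂ) (hz : 0 < z.im) :
    Summable (fun n : ℕ => gg (z + n)) ∧
    Gamma z = (Real.sqrt (2 * Real.pi) : ℂ) * cexp ((z - 1 / 2) * log z - z) *
      cexp (∑' n : ℕ, gg (z + n)) := by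
  have hs := Stir1.summable_gg hz
  refine ⟨hs, ?_⟩
  have hG := Complex.GammaSeq_tendsto_Gamma z
  have h1 : Filter.Tendsto (fun N : ℕ => cexp (∑ j ∈ Finset.range (N + 1), gg (z + j)))
      Filter.atTop (nhds (cexp (∑' n : ℕ, gg (z + n)))) :=
    (Complex.continuous_exp.tendsto _).comp
      ((hs.hasSum.tendsto_sum_nat).comp (Filter.tendsto_add_atTop_nat 1))
  have h2 : Filter.Tendsto (fun N : ℕ => (N : ℂ) ^ z * (N.factorial : ℂ) *
      cexp (-Stir1.LL (z + (N + 1 : ℕ)))) Filter.atTop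
      (nhds ((Real.sqrt Real.pi : ℂ) * (Real.sqrt 2 : ℂ) * 1)) := by
    have h3 : Filter.Tendsto (fun N : ℕ => (Stirling.stirlingSeq N : ℂ)) Filter.atTop
        (nhds (Real.sqrt Real.pi : ℂ)) :=
      (Complex.continuous_ofReal.tendsto _).comp Stirling.tendsto_stirlingSeq_sqrt_pi
    have h4 := (h3.mul_const (Real.sqrt 2 : ℂ)).mul (Stir1.tendsto_exponent z)
    refine h4.congr' ?_
    filter_upwards [Filter.eventually_ge_atTop 1] with N hN
    exact (Stir1.key_eq hz hN).symm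
  have h5 := (h1.const_mul (cexp (Stir1.LL z))).mul h2
  have h6 : Filter.Tendsto (GammaSeq z) Filter.atTop
      (nhds (cexp (Stir1.LL z) * cexp (∑' n : ℕ, gg (z + n)) *
        ((Real.sqrt Real.pi : ℂ) * (Real.sqrt 2 : ℂ) * 1))) := by
    refine h5.congr (fun N => ?_)
    exact (Stir1.gammaSeq_eq hz N).symm
  have h7 := tendsto_nhds_unique hG h6
  rw [h7]
  have h8 : (Real.sqrt (2 * Real.pi) : ℂ) = (Real.sqrt Real.pi : ℂ) * (Real.sqrt 2 : ℂ) := by
    rw [← Complex.ofReal_mul, Real.sqrt_mul (by norm_num), mul_comm]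
  rw [h8, Stir1.LL]
  ring

end Pool.Agent.H11.SC
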