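import Mathlib
import Pool.Agent.H11.SC.Defs
import Pool.Agent.H11.SC.Stir1

/-!
# STIR2: two-term Stirling formula

(1) `gg_est`: put `u = 1/w`, `‖u‖ ≤ 1/2`, `log (w+1) - log w = log (1+u)` (see Stir1), and
`log (1+u) = u - u^2/2 + u^3/3 + O(|u|^4)` (`Complex.norm_log_sub_logTaylor_le`).  Then
`(1/u + 1/2) log (1+u) - 1 = u^2 (1/3 - 1/4) + O(|u|^3) = u^2/12 + O(|u|^3)`, and
`1/(12 w (w+1)) = u^2/12 + O(|u|^3)`.

(2) `stirling_bound`: by `gamma_eq`, `ρ = ∑' n, gg (z+n)`.  Telescoping: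
`∑' n, 1/(12 (z+n)(z+n+1)) = 1/(12 z)` (as `1/((z+n)(z+n+1)) = 1/(z+n) - 1/(z+n+1)`).
The error is at most `C ∑ ‖z+n‖^(-3)`, and for `τ = Im z ≥ 2` and every real `x = Re z`,
`∑_{n ≥ 0} ((x+n)^2 + τ^2)^(-3/2) ≤ C'/τ^2`: we use `‖z+n‖^3 ≥ τ ((x+n)^2 + τ^2)` and a
telescoping comparison with the arctangent.
-/

set_option autoImplicit false

namespace Pool.Agent.H11.SC

open Complex

/-- `log (w + 1) - log w = log (1 + 1/w)` in the upper half plane -/
theorem log_add_one_sub_log (w : ℂ) (hw : 0 < w.im) (h2 : 1 < ‖w‖) :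
    log (w + 1) - log w = log (1 + w⁻¹) := by
  have hw0 : w ≠ 0 := by
    rintro rfl
    simp at hw
  have hu : ‖w⁻¹‖ < 1 := by
    rw [norm_inv]
    exact inv_lt_one_of_one_lt₀ h2
  have hre : 0 < (1 + w⁻¹).re := by
    have h1 : |(w⁻¹).re| ≤ ‖w⁻¹‖ := Complex.abs_re_le_norm _
    have h3 := (abs_le.mp h1).1
    simp only [Complex.add_re, Complex.one_re]
    linarith
  have him : (1 + w⁻¹).im < 0 := by
    have h1 : 0 < normSq w := Complex.normSq_pos.mpr hw0
    simp only [Complex.add_im, Complex.one_im, zero_add, Complex.inv_im]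
    have : -w.im / normSq w < 0 := div_neg_of_neg_of_pos (by linarith) h1
    exact this
  have hne : (1 + w⁻¹) ≠ 0 := by
    intro h
    rw [h] at hre
    simp at hre
  have hmul : w + 1 = w * (1 + w⁻¹) := by
    rw [mul_add, mul_inv_cancel₀ hw0, mul_one]
  rw [hmul, (Complex.log_mul_eq_add_log_iff hw0 hne).mpr]
  · ring
  · have h1 : |(1 + w⁻¹).arg| < Real.pi / 2 := Complex.abs_arg_lt_pi_div_two_iff.mpr (Or.inl hre)
    have h3 : (1 + w⁻¹).arg < 0 := Complex.arg_neg_iff.mpr him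
    have h4 : 0 ≤ w.arg := Complex.arg_nonneg_iff.mpr hw.le
    have h5 : w.arg ≤ Real.pi := Complex.arg_le_pi w
    have h6 := (abs_lt.mp h1).1
    have hpi := Real.pi_pos
    constructor <;> linarith

theorem gg_est : ∃ C : ℝ, ∀ w : ℂ, 0 < w.im → 2 ≤ ‖w‖ →
    ‖gg w - 1 / (12 * w * (w + 1))‖ ≤ C / ‖w‖ ^ 3 := by
  refine ⟨2, fun w hw h2 => ?_⟩
  have hw0 : w ≠ 0 := by
    rintro rfl
    simp at hw
  have hw1 : w + 1 ≠ 0 := by
    intro h
    have := congrArg Complex.im h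
    simp at this
    linarith
  set u : ℂ := w⁻¹ with hu
  have hu0 : u ≠ 0 := inv_ne_zero hw0
  have hun : ‖u‖ ≤ 1 / 2 := by
    rw [hu, norm_inv, ← one_div]
    exact one_div_le_one_div_of_le (by norm_num) h2
  have hupos : 0 < ‖u‖ := norm_pos_iff.mpr hu0
  have hwu : w = u⁻¹ := by rw [hu, inv_inv]
  have hnw : ‖w‖ = ‖u‖⁻¹ := by rw [hu, norm_inv, inv_inv]
  have h1u : (1 + u) ≠ 0 := by
    intro h
    have : ‖(-1 : ℂ)‖ = ‖u‖ := by
      congr 1
      linear_combination -h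
    rw [norm_neg, norm_one] at this
    linarith
  have hlog : log (w + 1) - log w = log (1 + u) := log_add_one_sub_log w hw (by linarith)
  set e : ℂ := log (1 + u) - (u - u ^ 2 / 2 + u ^ 3 / 3) with he
  have hen : ‖e‖ ≤ ‖u‖ ^ 4 := by
    have h := Complex.norm_log_sub_logTaylor_le 3 (z := u) (by linarith)
    have hT : logTaylor (3 + 1) u = u - u ^ 2 / 2 + u ^ 3 / 3 := by
      simp [logTaylor, Finset.sum_range_succ]
      ring
    rw [hT] at h
    refine h.trans ?_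
    have h3 : (1 - ‖u‖)⁻¹ ≤ 2 := by
      rw [inv_le_comm₀ (by linarith) (by norm_num)]
      linarith
    have h4 : ‖u‖ ^ (3 + 1) * (1 - ‖u‖)⁻¹ ≤ ‖u‖ ^ 4 * 2 := by
      apply mul_le_mul_of_nonneg_left h3 (by positivity)
    have h5 : 0 ≤ ‖u‖ ^ 4 := by positivity
    rw [div_le_iff₀ (by norm_num)]
    norm_num at h4 ⊢
    linarith
  have key : gg w - 1 / (12 * w * (w + 1)) =
      u ^ 3 / (12 * (1 + u)) + u ^ 3 / 6 + (w + 1 / 2) * e := by
    have h1 : gg w = (w + 1 / 2) * (u - u ^ 2 / 2 + u ^ 3 / 3) + (w + 1 / 2) * e - 1 := by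
      unfold gg
      rw [hlog, he]
      ring
    have h2 : 1 / (12 * w * (w + 1)) = u ^ 2 / (12 * (1 + u)) := by
      have h1w : (1 + w) ≠ 0 := by
        rw [add_comm]
        exact hw1
      have : 1 + u = (w + 1) / w := by
        rw [hu]
        field_simp
      rw [this, hu]
      field_simp
    rw [h1, h2]
    have h3 : (w + 1 / 2) * (u - u ^ 2 / 2 + u ^ 3 / 3) = 1 + u ^ 2 / 12 + u ^ 3 / 6 := by
      rw [hwu]
      field_simp
      ring
    rw [h3]
    have h4 : u ^ 2 / 12 - u ^ 2 / (12 * (1 + u)) = u ^ 3 / (12 * (1 + u)) := by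
      field_simp
      ring
    linear_combination h4
  rw [key]
  have hD : ‖1 + u‖ ≥ 1 / 2 := by
    have := norm_sub_norm_le (1 : ℂ) (-u)
    rw [norm_one, norm_neg, sub_neg_eq_add] at this
    linarith
  have b1 : ‖u ^ 3 / (12 * (1 + u))‖ ≤ ‖u‖ ^ 3 / 6 := by
    rw [norm_div, norm_mul, norm_pow]
    have : ‖(12 : ℂ)‖ = 12 := by norm_num
    rw [this]
    apply div_le_div_of_nonneg_left (by positivity) (by norm_num)
    linarith
  have b2 : ‖u ^ 3 / 6‖ = ‖u‖ ^ 3 / 6 := by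
    rw [norm_div, norm_pow]
    norm_num
  have b3 : ‖(w + 1 / 2) * e‖ ≤ (5 / 4) * ‖u‖ ^ 3 := by
    rw [norm_mul]
    have h6 : ‖w + 1 / 2‖ ≤ ‖u‖⁻¹ + 1 / 2 := by
      refine (norm_add_le _ _).trans ?_
      rw [hnw]
      norm_num
    calc ‖w + 1 / 2‖ * ‖e‖ ≤ (‖u‖⁻¹ + 1 / 2) * ‖u‖ ^ 4 := by
          apply mul_le_mul h6 hen (norm_nonneg _) (by positivity)
      _ = (1 + ‖u‖ / 2) * ‖u‖ ^ 3 := by
          field_simp
      _ ≤ (5 / 4) * ‖u‖ ^ 3 := by
          apply mul_le_mul_of_nonneg_right _ (by positivity)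
          linarith
  have hfin : ‖u‖ ^ 3 = 1 / ‖w‖ ^ 3 := by
    rw [hnw]
    simp
  calc ‖u ^ 3 / (12 * (1 + u)) + u ^ 3 / 6 + (w + 1 / 2) * e‖
      ≤ ‖u ^ 3 / (12 * (1 + u))‖ + ‖u ^ 3 / 6‖ + ‖(w + 1 / 2) * e‖ := norm_add₃_le
    _ ≤ ‖u‖ ^ 3 / 6 + ‖u‖ ^ 3 / 6 + (5 / 4) * ‖u‖ ^ 3 := by
        rw [b2]
        linarith
    _ ≤ 2 * ‖u‖ ^ 3 := by
        have : 0 ≤ ‖u‖ ^ 3 := by positivity
        linarith
    _ = 2 / ‖w‖ ^ 3 := by
        rw [hfin]
        ring

/-- comparison of `1/(y^2+τ^2)` with a difference of arctangents -/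
theorem inv_le_arctan (y τ : ℝ) (hτ : 2 ≤ τ) :
    1 / (y ^ 2 + τ ^ 2) ≤
      (2 / τ) * (Real.arctan ((y + 1 / 2) / τ) - Real.arctan ((y - 1 / 2) / τ)) := by
  have hτ0 : 0 < τ := by linarith
  have hab : (y - 1 / 2) / τ < (y + 1 / 2) / τ := by
    apply div_lt_div_of_pos_right _ hτ0
    linarith
  obtain ⟨c, hc, hc2⟩ := exists_hasDerivAt_eq_slope Real.arctan (fun x => 1 / (1 + x ^ 2)) hab
    Real.continuous_arctan.continuousOn (fun x _ => Real.hasDerivAt_arctan x)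
  have hlen : (y + 1 / 2) / τ - (y - 1 / 2) / τ = 1 / τ := by
    field_simp
    ring
  rw [hlen] at hc2
  have hdiff : Real.arctan ((y + 1 / 2) / τ) - Real.arctan ((y - 1 / 2) / τ) =
      (1 / (1 + c ^ 2)) * (1 / τ) := by
    have h1 : (1 / τ) ≠ 0 := by positivity
    have h2 := (eq_div_iff h1).mp hc2
    exact h2.symm
  rw [hdiff]
  have hc1 : (y - 1 / 2) < c * τ := by
    have := hc.1
    rwa [div_lt_iff₀ hτ0] at this
  have hc3 : c * τ < y + 1 / 2 := by
    have := hc.2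
    rwa [lt_div_iff₀ hτ0] at this
  have hcsq : (c * τ) ^ 2 ≤ 2 * y ^ 2 + 1 / 2 := by
    have h1 : (c * τ - y) ^ 2 ≤ 1 / 4 := by
      have h2 : |c * τ - y| ≤ 1 / 2 := by
        rw [abs_le]
        constructor <;> linarith
      calc (c * τ - y) ^ 2 = |c * τ - y| ^ 2 := (sq_abs _).symm
        _ ≤ (1 / 2) ^ 2 := by
            apply pow_le_pow_left₀ (abs_nonneg _) h2
        _ = 1 / 4 := by norm_num
    nlinarith [sq_nonneg (c * τ - 2 * y)]
  have h5 : (2 / τ) * ((1 / (1 + c ^ 2)) * (1 / τ)) = 2 / (τ ^ 2 + (c * τ) ^ 2) := by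
    field_simp
  rw [h5]
  rw [div_le_div_iff₀ (by positivity) (by positivity)]
  nlinarith

theorem sum_inv_bound (x τ : ℝ) (hτ : 2 ≤ τ) :
    ∃ S : ℝ, S ≤ 2 * Real.pi / τ ∧
      HasSum (fun n : ℕ => (2 / τ) * (Real.arctan ((x + (n : ℝ) + 1 / 2) / τ) -
        Real.arctan ((x + (n : ℝ) - 1 / 2) / τ))) S := by
  have hτ0 : 0 < τ := by linarith
  refine ⟨(2 / τ) * (Real.pi / 2 - Real.arctan ((x - 1 / 2) / τ)), ?_, ?_⟩
  · have h1 := Real.neg_pi_div_two_lt_arctan ((x - 1 / 2) / τ)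
    have h2 : Real.pi / 2 - Real.arctan ((x - 1 / 2) / τ) ≤ Real.pi := by linarith
    calc (2 / τ) * (Real.pi / 2 - Real.arctan ((x - 1 / 2) / τ)) ≤ (2 / τ) * Real.pi := by
          apply mul_le_mul_of_nonneg_left h2 (by positivity)
      _ = 2 * Real.pi / τ := by ring
  · apply HasSum.mul_left
    rw [hasSum_iff_tendsto_nat_of_nonneg]
    · have hsum : ∀ n : ℕ, ∑ i ∈ Finset.range n,
          (Real.arctan ((x + (i : ℝ) + 1 / 2) / τ) - Real.arctan ((x + (i : ℝ) - 1 / 2) / τ)) =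
          Real.arctan ((x + (n : ℝ) - 1 / 2) / τ) - Real.arctan ((x - 1 / 2) / τ) := by
        intro n
        induction n with
        | zero => simp
        | succ n ih =>
          rw [Finset.sum_range_succ, ih]
          have : x + ((n + 1 : ℕ) : ℝ) - 1 / 2 = x + (n : ℝ) + 1 / 2 := by
            push_cast
            ring
          rw [this]
          ring
      simp_rw [hsum]
      apply Filter.Tendsto.sub_const
      have h1 : Filter.Tendsto Real.arctan Filter.atTop (nhds (Real.pi / 2)) :=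
        Real.tendsto_arctan_atTop.mono_right nhdsWithin_le_nhds
      apply h1.comp
      apply Filter.Tendsto.atTop_div_const hτ0
      have h2 : Filter.Tendsto (fun n : ℕ => (n : ℝ)) Filter.atTop Filter.atTop :=
        tendsto_natCast_atTop_atTop
      have h3 := Filter.tendsto_atTop_add_const_right Filter.atTop (x - 1 / 2) h2
      refine h3.congr (fun n => ?_)
      ring
    · intro n
      have h := inv_le_arctan (x + n) τ hτ
      have h2 : 0 ≤ 1 / ((x + (n : ℝ)) ^ 2 + τ ^ 2) := by positivity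
      have h3 : 0 ≤ (2 / τ) * (Real.arctan ((x + (n : ℝ) + 1 / 2) / τ) -
        Real.arctan ((x + (n : ℝ) - 1 / 2) / τ)) := h2.trans h
      have h4 : 0 < 2 / τ := by positivity
      exact (mul_nonneg_iff_of_pos_left h4).mp h3

theorem tendsto_inv_add_nat (z : ℂ) :
    Filter.Tendsto (fun n : ℕ => 1 / (z + (n : ℂ))) Filter.atTop (nhds 0) := by
  have h1 : Filter.Tendsto (fun n : ℕ => ‖z + (n : ℂ)‖) Filter.atTop Filter.atTop := by
    have h2 : Filter.Tendsto (fun n : ℕ => (n : ℝ) + (-‖z‖)) Filter.atTop Filter.atTop :=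
      Filter.tendsto_atTop_add_const_right Filter.atTop _ tendsto_natCast_atTop_atTop
    refine Filter.tendsto_atTop_mono (fun n => ?_) h2
    have h3 := norm_sub_norm_le ((n : ℂ)) (-z)
    rw [norm_neg, Complex.norm_natCast, sub_neg_eq_add, add_comm (n : ℂ) z] at h3
    linarith
  rw [tendsto_zero_iff_norm_tendsto_zero]
  have h4 : ∀ n : ℕ, ‖1 / (z + (n : ℂ))‖ = (‖z + (n : ℂ)‖)⁻¹ := by
    intro n
    rw [norm_div, norm_one, one_div]
  simp_rw [h4]
  exact tendsto_inv_atTop_zero.comp h1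

theorem sum_telescope (z : ℂ) (hz : 0 < z.im) (N : ℕ) :
    ∑ n ∈ Finset.range N, 1 / (12 * (z + n) * (z + n + 1)) =
      (1 / 12) * (1 / z - 1 / (z + N)) := by
  have hne : ∀ m : ℕ, z + (m : ℂ) ≠ 0 := by
    intro m h
    have := congrArg Complex.im h
    simp at this
    linarith
  induction N with
  | zero => simp
  | succ n ih =>
    rw [Finset.sum_range_succ, ih]
    have h0 := hne 0
    have h1 := hne n
    have h2 := hne (n + 1)
    push_cast at h0 h1 h2 ⊢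
    rw [add_zero] at h0
    rw [← add_assoc] at h2 ⊢
    field_simp
    ring

theorem stirling_bound : ∃ C : ℝ, ∀ z : ℂ, 2 ≤ z.im → ∃ ρ : ℂ,
    Gamma z = (Real.sqrt (2 * Real.pi) : ℂ) * cexp ((z - 1 / 2) * log z - z + ρ) ∧
    ‖ρ - 1 / (12 * z)‖ ≤ C / z.im ^ 2 := by
  obtain ⟨C0, hC0⟩ := gg_est
  set C := max C0 0 with hC
  have hCpos : 0 ≤ C := le_max_right _ _
  refine ⟨2 * Real.pi * C, fun z hz => ?_⟩
  have hz0 : 0 < z.im := by linarith
  obtain ⟨hsum, hG⟩ := gamma_eq z hz0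
  refine ⟨∑' n : ℕ, gg (z + n), ?_, ?_⟩
  · rw [hG, Complex.exp_add]
    ring
  set τ := z.im with hτ
  obtain ⟨S, hS, hHS⟩ := sum_inv_bound z.re τ hz
  set d : ℕ → ℂ := fun n => gg (z + n) - 1 / (12 * (z + n) * (z + n + 1)) with hd
  have him : ∀ n : ℕ, (z + (n : ℂ)).im = τ := by
    intro n
    simp [hτ]
  have hre : ∀ n : ℕ, (z + (n : ℂ)).re = z.re + n := by
    intro n
    simp
  have hnorm : ∀ n : ℕ, ‖z + (n : ℂ)‖ ^ 2 = (z.re + n) ^ 2 + τ ^ 2 := by
    intro n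
    rw [← Complex.normSq_eq_norm_sq, Complex.normSq_apply, him, hre]
    ring
  have hge : ∀ n : ℕ, τ ≤ ‖z + (n : ℂ)‖ := by
    intro n
    have := Complex.abs_im_le_norm (z + (n : ℂ))
    rw [him] at this
    exact (le_abs_self _).trans this
  have hdn : ∀ n : ℕ, ‖d n‖ ≤ (C / τ) * ((2 / τ) * (Real.arctan ((z.re + (n : ℝ) + 1 / 2) / τ) -
        Real.arctan ((z.re + (n : ℝ) - 1 / 2) / τ))) := by
    intro n
    have h1 := hC0 (z + n) (by rw [him]; exact hz0) (by linarith [hge n])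
    have h2 : C0 / ‖z + (n : ℂ)‖ ^ 3 ≤ C / ‖z + (n : ℂ)‖ ^ 3 := by
      apply div_le_div_of_nonneg_right (le_max_left _ _)
      positivity
    have hpos : 0 < ‖z + (n : ℂ)‖ := by linarith [hge n]
    have h3 : C / ‖z + (n : ℂ)‖ ^ 3 ≤ (C / τ) * (1 / ((z.re + n) ^ 2 + τ ^ 2)) := by
      rw [← hnorm]
      rw [div_mul_div_comm, mul_one]
      apply div_le_div_of_nonneg_left hCpos (by positivity)
      calc τ * ‖z + (n : ℂ)‖ ^ 2 ≤ ‖z + (n : ℂ)‖ * ‖z + (n : ℂ)‖ ^ 2 := by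
            apply mul_le_mul_of_nonneg_right (hge n) (by positivity)
        _ = ‖z + (n : ℂ)‖ ^ 3 := by ring
    have h4 := inv_le_arctan (z.re + n) τ hz
    have h5 : (C / τ) * (1 / ((z.re + n) ^ 2 + τ ^ 2)) ≤
        (C / τ) * ((2 / τ) * (Real.arctan ((z.re + (n : ℝ) + 1 / 2) / τ) -
        Real.arctan ((z.re + (n : ℝ) - 1 / 2) / τ))) := by
      apply mul_le_mul_of_nonneg_left h4 (by positivity)
    exact h1.trans (h2.trans (h3.trans h5))
  have hgS := hHS.mul_left (C / τ)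
  have hdS : Summable d := Summable.of_norm_bounded hgS.summable hdn
  have hbound : ‖∑' n, d n‖ ≤ (C / τ) * S := tsum_of_norm_bounded hgS hdn
  have htS : Summable (fun n : ℕ => 1 / (12 * (z + n) * (z + n + 1))) := by
    have := hsum.sub hdS
    refine this.congr (fun n => ?_)
    simp only [hd]
    ring
  have htel : ∑' n : ℕ, 1 / (12 * (z + n) * (z + n + 1)) = 1 / (12 * z) := by
    have h1 := htS.hasSum.tendsto_sum_nat
    have h2 : Filter.Tendsto (fun N : ℕ => ∑ n ∈ Finset.range N, 1 / (12 * (z + n) * (z + n + 1)))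
        Filter.atTop (nhds ((1 / 12) * (1 / z - 0))) := by
      simp_rw [sum_telescope z hz0]
      exact (tendsto_const_nhds.sub (tendsto_inv_add_nat z)).const_mul _
    have h3 := tendsto_nhds_unique h1 h2
    rw [h3]
    have hz1 : z ≠ 0 := by
      intro h
      rw [hτ, h] at hz0
      simp at hz0
    field_simp
    ring
  have hsplit : ∑' n : ℕ, gg (z + n) - 1 / (12 * z) = ∑' n, d n := by
    rw [← htel, ← hsum.tsum_sub htS]
  rw [hsplit]
  refine hbound.trans ?_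
  calc (C / τ) * S ≤ (C / τ) * (2 * Real.pi / τ) := by
        apply mul_le_mul_of_nonneg_left hS (by positivity)
    _ = 2 * Real.pi * C / τ ^ 2 := by
        field_simp

end Pool.Agent.H11.SC
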