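import Mathlib
import Pool.Agent.H11.SC.Defs
import Pool.Agent.H11.SC.Stir2

/-!
# STIR3: Stirling on vertical lines, `Γ(iτ + a) = SS a τ (1 - i BB(a)/τ + O(τ^(-2)))`

`z = iτ + a`, `u = a/(iτ) = -ia/τ`, `τ ≥ 2A + 4`, so `‖u‖ ≤ 1/2` and `Im z ≥ τ - A ≥ τ/2 ≥ 2`.
`log z = log τ + iπ/2 + log (1+u)` (as `z = (iτ)(1+u)`, `Re (1+u) > 0`,
`log (iτ) = log τ + iπ/2`), `log (1+u) = u - u^2/2 + O(|u|^3)`.  Hence
`(z - 1/2) log (1+u) = (iτ + a - 1/2)(u - u^2/2) + O(τ^(-2)) = a + i(a - a^2)/(2τ) + O(τ^(-2))`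
(`iτ u = a`, `iτ (-u^2/2) = i a^2/(2τ)`, `(a - 1/2) u = -i a (a - 1/2)/τ`), so
`(z - 1/2) log z - z = (iτ + a - 1/2)(log τ + iπ/2) - iτ + i(a - a^2)/(2τ) + O(τ^(-2))`,
and `1/(12 z) = -i/(12 τ) + O(τ^(-2))`.  The sum of the two `1/τ` terms is `-i BB(a)/τ`,
`BB a = (a^2 - a + 1/6)/2`.  Finally `exp x = 1 + x + O(|x|^2)` for `‖x‖ ≤ 1`.
All constants depend on `A` only (`‖a‖ ≤ A`); one may take `A ≥ 1`.
-/

set_option autoImplicit false

namespace Pool.Agent.H11.SC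

open Complex

/-- `log (iτ (1 + u)) = log τ + iπ/2 + log (1 + u)` for `‖u‖ ≤ 1/2` -/
theorem log_vert (τ : ℝ) (hτ : 0 < τ) (u : ℂ) (hu : ‖u‖ ≤ 1 / 2) :
    log ((τ * I) * (1 + u)) = (Real.log τ : ℂ) + (Real.pi / 2 : ℝ) * I + log (1 + u) := by
  have hre : 0 < (1 + u).re := by
    have h1 : |u.re| ≤ ‖u‖ := Complex.abs_re_le_norm _
    have h3 := (abs_le.mp h1).1
    simp only [Complex.add_re, Complex.one_re]
    linarith
  have hne : (1 + u) ≠ 0 := by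
    intro h
    rw [h] at hre
    simp at hre
  have hI : ((τ : ℂ) * I) ≠ 0 := by
    simp [hτ.ne']
  have harg : ((τ : ℂ) * I).arg = Real.pi / 2 := by
    rw [Complex.arg_real_mul I hτ, Complex.arg_I]
  have h1 : |(1 + u).arg| < Real.pi / 2 := Complex.abs_arg_lt_pi_div_two_iff.mpr (Or.inl hre)
  have h2 := abs_lt.mp h1
  rw [(Complex.log_mul_eq_add_log_iff hI hne).mpr]
  · congr 1
    rw [Complex.log, harg]
    have : ‖(τ : ℂ) * I‖ = τ := by
      rw [norm_mul, Complex.norm_I, mul_one, Complex.norm_real, Real.norm_eq_abs, abs_of_pos hτ]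
    rw [this]
  · rw [harg]
    constructor <;> linarith [h2.1, h2.2, Real.pi_pos]

theorem log_one_add_est (u : ℂ) (hu : ‖u‖ ≤ 1 / 2) :
    ‖log (1 + u) - (u - u ^ 2 / 2)‖ ≤ ‖u‖ ^ 3 := by
  have h := Complex.norm_log_sub_logTaylor_le 2 (z := u) (by linarith)
  have hT : logTaylor (2 + 1) u = u - u ^ 2 / 2 := by
    simp [logTaylor, Finset.sum_range_succ]
    ring
  rw [hT] at h
  refine h.trans ?_
  have h3 : (1 - ‖u‖)⁻¹ ≤ 2 := by
    rw [inv_le_comm₀ (by linarith) (by norm_num)]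
    linarith
  have h4 : ‖u‖ ^ (2 + 1) * (1 - ‖u‖)⁻¹ ≤ ‖u‖ ^ 3 * 2 := by
    apply mul_le_mul_of_nonneg_left h3 (by positivity)
  have h5 : 0 ≤ ‖u‖ ^ 3 := by positivity
  rw [div_le_iff₀ (by norm_num)]
  norm_num at h4 ⊢
  linarith

/-- the exponent in Stirling's formula -/
theorem exponent_est (A : ℝ) (hA : 1 ≤ A) : ∃ C : ℝ, 0 ≤ C ∧ ∀ a : ℂ, ‖a‖ ≤ A → ∀ τ : ℝ,
    2 * A + 4 ≤ τ →
    ‖((τ * I + a - 1 / 2) * log (τ * I + a) - (τ * I + a) + 1 / (12 * (τ * I + a))) -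
      ((τ * I + a - 1 / 2) * ((Real.log τ : ℂ) + (Real.pi / 2 : ℝ) * I) - τ * I
        - BB a * I / τ)‖ ≤ C / τ ^ 2 := by
  refine ⟨(A + 1) * A ^ 2 + (A + 2) * A ^ 3 + A, by positivity, fun a ha τ hτ => ?_⟩
  have hτ0 : 0 < τ := by linarith
  have hτc : (τ : ℂ) ≠ 0 := by
    exact_mod_cast hτ0.ne'
  set u : ℂ := a / (τ * I) with hu
  have hun : ‖u‖ ≤ A / τ := by
    rw [hu, norm_div, norm_mul, Complex.norm_I, mul_one, Complex.norm_real, Real.norm_eq_abs,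
      abs_of_pos hτ0]
    exact div_le_div_of_nonneg_right ha hτ0.le
  have hu2 : ‖u‖ ≤ 1 / 2 := by
    refine hun.trans ?_
    rw [div_le_iff₀ hτ0]
    linarith
  have hz : (τ : ℂ) * I + a = (τ * I) * (1 + u) := by
    rw [hu]
    field_simp
  have h1u : (1 + u) ≠ 0 := by
    intro h
    have : ‖(-1 : ℂ)‖ = ‖u‖ := by
      congr 1
      linear_combination -h
    rw [norm_neg, norm_one] at this
    linarith
  have hlog : log ((τ : ℂ) * I + a) =
      (Real.log τ : ℂ) + (Real.pi / 2 : ℝ) * I + log (1 + u) := by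
    rw [hz]
    exact log_vert τ hτ0 u hu2
  set e : ℂ := log (1 + u) - (u - u ^ 2 / 2) with he
  have hen : ‖e‖ ≤ ‖u‖ ^ 3 := log_one_add_est u hu2
  have hl : log (1 + u) = u - u ^ 2 / 2 + e := by
    rw [he]
    ring
  have hII : I * I = -1 := Complex.I_mul_I
  have hau : a = τ * I * u := by
    rw [hu]
    field_simp
  have hinv : 1 / (12 * ((τ : ℂ) * I + a)) = -(I / (12 * τ)) + (I / (12 * τ)) * (u / (1 + u)) := by
    rw [hz]
    have h2 : (τ : ℂ) * I ≠ 0 := by simp [hτ0.ne']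
    have h3 : I / (12 * τ) = -(1 / (12 * (τ * I))) := by
      field_simp
      rw [Complex.I_sq]
    rw [h3]
    field_simp
    ring
  have key : ((τ * I + a - 1 / 2) * log (τ * I + a) - (τ * I + a) + 1 / (12 * (τ * I + a))) -
      ((τ * I + a - 1 / 2) * ((Real.log τ : ℂ) + (Real.pi / 2 : ℝ) * I) - τ * I
        - BB a * I / τ) =
      (a - 1 / 2) * (-(u ^ 2 / 2)) + (τ * I + a - 1 / 2) * e +
        (I / (12 * τ)) * (u / (1 + u)) := by
    rw [hinv, hlog, hl]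
    have e1 : (τ * I + a - 1 / 2) * (u - u ^ 2 / 2) =
        a + (a - a ^ 2) * I / (2 * τ) + (a - 1 / 2) * (-(u ^ 2 / 2)) := by
      have hIu : u = -(a * I) / τ := by
        rw [hu]
        field_simp
        rw [Complex.I_sq]
        ring
      rw [hIu]
      field_simp
      ring_nf
      simp only [Complex.I_sq, show I ^ 3 = -I by rw [pow_succ, Complex.I_sq]; ring]
      ring
    have e2 : BB a * I / τ = -((a - a ^ 2) * I / (2 * τ)) + I / (12 * τ) := by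
      unfold BB
      field_simp
      ring
    rw [e2]
    linear_combination e1
  rw [key]
  have b1 : ‖(a - 1 / 2) * (-(u ^ 2 / 2))‖ ≤ (A + 1) * A ^ 2 / τ ^ 2 := by
    rw [norm_mul, norm_neg, norm_div, norm_pow]
    have h1 : ‖a - 1 / 2‖ ≤ A + 1 := by
      refine (norm_sub_le _ _).trans ?_
      norm_num
      linarith
    have h2 : ‖u‖ ^ 2 / ‖(2 : ℂ)‖ ≤ A ^ 2 / τ ^ 2 := by
      have h3 : ‖u‖ ^ 2 ≤ (A / τ) ^ 2 := pow_le_pow_left₀ (norm_nonneg _) hun 2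
      rw [div_pow] at h3
      have h4 : ‖(2 : ℂ)‖ = 2 := by norm_num
      rw [h4]
      have h5 : 0 ≤ ‖u‖ ^ 2 := by positivity
      linarith
    calc ‖a - 1 / 2‖ * (‖u‖ ^ 2 / ‖(2 : ℂ)‖) ≤ (A + 1) * (A ^ 2 / τ ^ 2) := by
          apply mul_le_mul h1 h2 (by positivity) (by linarith)
      _ = (A + 1) * A ^ 2 / τ ^ 2 := by ring
  have b2 : ‖(τ * I + a - 1 / 2) * e‖ ≤ (A + 2) * A ^ 3 / τ ^ 2 := by
    rw [norm_mul]
    have h1 : ‖τ * I + a - 1 / 2‖ ≤ (A + 2) * τ := by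
      have h2 : ‖(τ : ℂ) * I + a - 1 / 2‖ ≤ ‖(τ : ℂ) * I‖ + ‖a‖ + ‖(1 / 2 : ℂ)‖ := by
        refine (norm_sub_le _ _).trans ?_
        have := norm_add_le ((τ : ℂ) * I) a
        linarith
      have h3 : ‖(τ : ℂ) * I‖ = τ := by
        rw [norm_mul, Complex.norm_I, mul_one, Complex.norm_real, Real.norm_eq_abs,
          abs_of_pos hτ0]
      rw [h3] at h2
      have h4 : ‖(1 / 2 : ℂ)‖ = 1 / 2 := by norm_num
      rw [h4] at h2
      nlinarith
    have h2 : ‖e‖ ≤ A ^ 3 / τ ^ 3 := by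
      refine hen.trans ?_
      have h3 : ‖u‖ ^ 3 ≤ (A / τ) ^ 3 := pow_le_pow_left₀ (norm_nonneg _) hun 3
      rwa [div_pow] at h3
    calc ‖τ * I + a - 1 / 2‖ * ‖e‖ ≤ ((A + 2) * τ) * (A ^ 3 / τ ^ 3) := by
          apply mul_le_mul h1 h2 (norm_nonneg _) (by positivity)
      _ = (A + 2) * A ^ 3 / τ ^ 2 := by
          field_simp
  have b3 : ‖(I / (12 * τ)) * (u / (1 + u))‖ ≤ A / τ ^ 2 := by
    have hD : ‖1 + u‖ ≥ 1 / 2 := by
      have := norm_sub_norm_le (1 : ℂ) (-u)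
      rw [norm_one, norm_neg, sub_neg_eq_add] at this
      linarith
    have h1 : ‖u / (1 + u)‖ ≤ 2 * (A / τ) := by
      rw [norm_div, div_le_iff₀ (by linarith)]
      have : 0 ≤ A / τ := by positivity
      nlinarith
    have h2 : ‖I / (12 * (τ : ℂ))‖ = 1 / (12 * τ) := by
      rw [norm_div, norm_mul, Complex.norm_I, Complex.norm_real, Real.norm_eq_abs,
        abs_of_pos hτ0]
      norm_num
    rw [norm_mul, h2]
    calc 1 / (12 * τ) * ‖u / (1 + u)‖ ≤ 1 / (12 * τ) * (2 * (A / τ)) := by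
          apply mul_le_mul_of_nonneg_left h1 (by positivity)
      _ = (1 / 6) * (A / τ ^ 2) := by
          field_simp
          ring
      _ ≤ A / τ ^ 2 := by
          have : 0 ≤ A / τ ^ 2 := by positivity
          linarith
  refine norm_add₃_le.trans ?_
  calc _ ≤ (A + 1) * A ^ 2 / τ ^ 2 + (A + 2) * A ^ 3 / τ ^ 2 + A / τ ^ 2 := by
        linarith
    _ = ((A + 1) * A ^ 2 + (A + 2) * A ^ 3 + A) / τ ^ 2 := by ring

theorem stirling_vert (A : ℝ) : ∃ C T0 : ℝ, 0 < T0 ∧ ∀ a : ℂ, ‖a‖ ≤ A → ∀ τ : ℝ, T0 ≤ τ →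
    ∃ r : ℂ, Gamma (τ * I + a) = SS a τ * (1 - BB a * I / τ + r) ∧ ‖r‖ ≤ C / τ ^ 2 := by
  set A' : ℝ := max A 1 with hA'
  have hA1 : 1 ≤ A' := le_max_right _ _
  obtain ⟨C1, hC1, hexp⟩ := exponent_est A' hA1
  obtain ⟨C2, hst⟩ := stirling_bound
  set D : ℝ := 4 * max C2 0 with hD
  have hD0 : 0 ≤ D := by positivity
  set B1 : ℝ := (A' ^ 2 + A' + 1) / 2 with hB1
  have hB10 : 0 ≤ B1 := by positivity
  set E : ℝ := C1 + D with hE
  have hE0 : 0 ≤ E := by positivity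
  refine ⟨E + (B1 + E) ^ 2, max (2 * A' + 4) (B1 + E + 1), ?_, fun a ha τ hτ => ?_⟩
  · exact lt_of_lt_of_le (by linarith) (le_max_left _ _)
  have ha' : ‖a‖ ≤ A' := ha.trans (le_max_left _ _)
  have hτ1 : 2 * A' + 4 ≤ τ := (le_max_left _ _).trans hτ
  have hτ2 : B1 + E + 1 ≤ τ := (le_max_right _ _).trans hτ
  have hτ0 : 0 < τ := by linarith
  have him : (τ * I + a).im = τ + a.im := by simp
  have haim : -A' ≤ a.im := by
    have := (abs_le.mp ((Complex.abs_im_le_norm a).trans ha')).1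
    exact this
  have himge : τ / 2 ≤ (τ * I + a).im := by
    rw [him]
    linarith
  obtain ⟨ρ, hG, hρ⟩ := hst (τ * I + a) (by linarith)
  have hρ2 : ‖ρ - 1 / (12 * (τ * I + a))‖ ≤ D / τ ^ 2 := by
    refine hρ.trans ?_
    have h1 : C2 / (τ * I + a).im ^ 2 ≤ max C2 0 / (τ * I + a).im ^ 2 :=
      div_le_div_of_nonneg_right (le_max_left _ _) (by positivity)
    refine h1.trans ?_
    rw [hD, div_le_div_iff₀ (by nlinarith) (by positivity)]
    have h2 : τ ^ 2 ≤ 4 * (τ * I + a).im ^ 2 := by nlinarith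
    calc max C2 0 * τ ^ 2 ≤ max C2 0 * (4 * (τ * I + a).im ^ 2) :=
          mul_le_mul_of_nonneg_left h2 (le_max_right _ _)
      _ = 4 * max C2 0 * (τ * I + a).im ^ 2 := by ring
  have hex := hexp a ha' τ hτ1
  set M : ℂ := (τ * I + a - 1 / 2) * ((Real.log τ : ℂ) + (Real.pi / 2 : ℝ) * I) - τ * I with hM
  set X : ℂ := ((τ * I + a - 1 / 2) * log (τ * I + a) - (τ * I + a) + ρ) - M with hX
  set R : ℂ := X + BB a * I / τ with hR
  have hRn : ‖R‖ ≤ E / τ ^ 2 := by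
    have h1 : R = ((((τ * I + a - 1 / 2) * log (τ * I + a) - (τ * I + a)
        + 1 / (12 * (τ * I + a))) - (M - BB a * I / τ))) + (ρ - 1 / (12 * (τ * I + a))) := by
      rw [hR, hX]
      ring
    rw [h1]
    refine (norm_add_le _ _).trans ?_
    rw [hE, add_div]
    exact add_le_add hex hρ2
  have hBB : ‖BB a‖ ≤ B1 := by
    unfold BB
    rw [norm_div]
    have h1 : ‖a ^ 2 - a + 1 / 6‖ ≤ A' ^ 2 + A' + 1 := by
      refine (norm_add_le _ _).trans ?_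
      have h2 : ‖a ^ 2 - a‖ ≤ ‖a ^ 2‖ + ‖a‖ := norm_sub_le _ _
      rw [norm_pow] at h2
      have h3 : ‖a‖ ^ 2 ≤ A' ^ 2 := pow_le_pow_left₀ (norm_nonneg _) ha' 2
      have h4 : ‖(1 / 6 : ℂ)‖ ≤ 1 := by norm_num
      linarith
    have h5 : ‖(2 : ℂ)‖ = 2 := by norm_num
    rw [h5, hB1]
    linarith
  have hY : ‖BB a * I / (τ : ℂ)‖ ≤ B1 / τ := by
    rw [norm_div, norm_mul, Complex.norm_I, mul_one, Complex.norm_real, Real.norm_eq_abs,
      abs_of_pos hτ0]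
    exact div_le_div_of_nonneg_right hBB hτ0.le
  have hXn : ‖X‖ ≤ (B1 + E) / τ := by
    have h1 : X = R - BB a * I / τ := by
      rw [hR]
      ring
    rw [h1]
    refine (norm_sub_le _ _).trans ?_
    have h2 : E / τ ^ 2 ≤ E / τ := by
      apply div_le_div_of_nonneg_left hE0 hτ0
      nlinarith
    calc ‖R‖ + ‖BB a * I / τ‖ ≤ E / τ + B1 / τ := add_le_add (hRn.trans h2) hY
      _ = (B1 + E) / τ := by ring
  have hX1 : ‖X‖ ≤ 1 := by
    refine hXn.trans ?_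
    rw [div_le_iff₀ hτ0]
    linarith
  have hexpX := Complex.norm_exp_sub_one_sub_id_le hX1
  refine ⟨R + (cexp X - 1 - X), ?_, ?_⟩
  · have h1 : (1 - BB a * I / τ + (R + (cexp X - 1 - X))) = cexp X := by
      rw [hR]
      ring
    rw [h1, hG]
    unfold SS
    rw [mul_assoc, ← Complex.exp_add]
    congr 2
    rw [hX, hM]
    ring
  · refine (norm_add_le _ _).trans ?_
    have h2 : ‖X‖ ^ 2 ≤ ((B1 + E) / τ) ^ 2 := pow_le_pow_left₀ (norm_nonneg _) hXn 2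
    rw [div_pow] at h2
    rw [add_div]
    exact add_le_add hRn (hexpX.trans h2)

end Pool.Agent.H11.SC
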