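import Mathlib
import Pool.Agent.H11.SC.Defs
import Pool.Agent.H11.SC.Stir3

/-!
# GAMB: the bound `|Γ(σ + it)| ≤ C (1+|t|)^(σ-1/2) e^(-π|t|/2)` in vertical strips

For `t ≥ T0` use `stirling_vert` with `a = σ` real: `‖SS σ t‖ = √(2π) exp(Re (...))`,
`Re((t I + σ - 1/2)(log t + (π/2) I) - t I) = (σ - 1/2) log t - π t/2`, so
`‖SS σ t‖ = √(2π) t^(σ-1/2) e^(-πt/2)`; the factor `1 - BB I/τ + r` is bounded, and
`t^(σ-1/2) ≤ C (1+t)^(σ-1/2)` for `t ≥ T0 > 0` (σ in a bounded interval).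
For `t ≤ -T0`: `Complex.Gamma_conj`.  For `|t| ≤ T0`: continuity of `Γ` on the compact set
`[σ₁, σ₂] × [-T0, T0]` (no poles as `σ₁ > 0`), the right side being bounded below there.
-/

set_option autoImplicit false

namespace Pool.Agent.H11.SC

open Complex

theorem gamma_contAt {σ t : ℝ} (hσ : 0 < σ) : ContinuousAt Gamma ((σ : ℂ) + t * I) := by
  refine (Complex.differentiableAt_Gamma _ (fun m hm => ?_)).continuousAt
  have := congrArg Complex.re hm
  simp at this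
  have h2 : (0 : ℝ) ≤ (m : ℝ) := Nat.cast_nonneg m
  linarith

theorem gamma_norm_neg (σ t : ℝ) : ‖Gamma ((σ : ℂ) + (-t : ℝ) * I)‖ = ‖Gamma ((σ : ℂ) + t * I)‖ := by
  have h1 : ((σ : ℂ) + (-t : ℝ) * I) = (starRingEnd ℂ) ((σ : ℂ) + t * I) := by
    simp
  rw [h1, Complex.Gamma_conj, Complex.norm_conj]

theorem norm_SS (σ τ : ℝ) (hτ : 0 < τ) : ‖SS σ τ‖ =
    Real.sqrt (2 * Real.pi) * (τ ^ (σ - 1 / 2) * Real.exp (-(Real.pi / 2 * τ))) := by
  unfold SS
  rw [norm_mul, Complex.norm_exp]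
  have h1 : ‖(Real.sqrt (2 * Real.pi) : ℂ)‖ = Real.sqrt (2 * Real.pi) := by
    rw [Complex.norm_real, Real.norm_of_nonneg (Real.sqrt_nonneg _)]
  have h2 : (((τ : ℂ) * I + (σ : ℂ) - 1 / 2) * ((Real.log τ : ℂ) + (Real.pi / 2 : ℝ) * I) -
      (τ : ℂ) * I).re = Real.log τ * (σ - 1 / 2) + -(Real.pi / 2 * τ) := by
    have h3 : (((τ : ℂ) * I + (σ : ℂ) - 1 / 2) * ((Real.log τ : ℂ) + (Real.pi / 2 : ℝ) * I) -
      (τ : ℂ) * I) = ((Real.log τ * (σ - 1 / 2) + -(Real.pi / 2 * τ) : ℝ) : ℂ) +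
        ((τ * Real.log τ + (σ - 1 / 2) * (Real.pi / 2) - τ : ℝ) : ℂ) * I := by
      push_cast
      linear_combination (τ : ℂ) * ((Real.pi : ℂ) / 2) * I_mul_I
    rw [h3]
    simp
  rw [h1, h2, Real.exp_add, Real.rpow_def_of_pos hτ]

theorem gamma_bound (σ₁ σ₂ : ℝ) (h : 0 < σ₁) : ∃ C : ℝ, ∀ σ t : ℝ, σ₁ ≤ σ → σ ≤ σ₂ →
    ‖Gamma (σ + t * I)‖ ≤ C * (1 + |t|) ^ (σ - 1 / 2) * Real.exp (-(Real.pi / 2 * |t|)) := by
  obtain ⟨C0, T0, hT0, hst⟩ := stirling_vert |σ₂|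
  set T1 : ℝ := max T0 1 with hT1
  have hT1' : 1 ≤ T1 := le_max_right _ _
  have hT10 : T0 ≤ T1 := le_max_left _ _
  -- compact part
  have hcomp : ∃ M : ℝ, ∀ σ t : ℝ, σ₁ ≤ σ → σ ≤ σ₂ → |t| ≤ T1 → ‖Gamma (σ + t * I)‖ ≤ M := by
    have hK : IsCompact (Set.Icc σ₁ σ₂ ×ˢ Set.Icc (-T1) T1) := isCompact_Icc.prod isCompact_Icc
    have hc : ContinuousOn (fun p : ℝ × ℝ => Gamma ((p.1 : ℂ) + p.2 * I))
        (Set.Icc σ₁ σ₂ ×ˢ Set.Icc (-T1) T1) := by
      intro p hp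
      have hp1 : 0 < p.1 := lt_of_lt_of_le h hp.1.1
      have h1 : ContinuousAt (fun p : ℝ × ℝ => ((p.1 : ℂ) + p.2 * I)) p := by fun_prop
      have h2 : ContinuousAt Gamma ((fun p : ℝ × ℝ => ((p.1 : ℂ) + p.2 * I)) p) :=
        gamma_contAt (t := p.2) hp1
      exact (ContinuousAt.comp (f := fun p : ℝ × ℝ => ((p.1 : ℂ) + p.2 * I)) h2
        h1).continuousWithinAt
    obtain ⟨M, hM⟩ := hK.exists_bound_of_continuousOn hc
    exact ⟨M, fun σ t h1 h2 h3 => hM (σ, t) ⟨⟨h1, h2⟩, abs_le.1 h3⟩⟩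
  obtain ⟨M, hM⟩ := hcomp
  set K : ℝ := 1 + (|σ₂| ^ 2 + |σ₂| + 1) / 2 + |C0| with hK
  have hKpos : 0 ≤ K := by positivity
  -- the asymptotic part
  have hasym : ∀ σ t : ℝ, σ₁ ≤ σ → σ ≤ σ₂ → T1 ≤ t → ‖Gamma (σ + t * I)‖ ≤
      (Real.sqrt (2 * Real.pi) * 2 * K) * (1 + t) ^ (σ - 1 / 2) *
        Real.exp (-(Real.pi / 2 * t)) := by
    intro σ t h1 h2 h3
    have hσ0 : 0 < σ := lt_of_lt_of_le h h1
    have ht0 : 0 < t := by linarith
    have ht1 : 1 ≤ t := by linarith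
    have hσA : ‖(σ : ℂ)‖ ≤ |σ₂| := by
      rw [Complex.norm_real, Real.norm_of_nonneg hσ0.le]
      exact le_trans h2 (le_abs_self _)
    obtain ⟨r, hr1, hr2⟩ := hst (σ : ℂ) hσA t (by linarith)
    have e1 : ((σ : ℂ) + t * I) = t * I + σ := by ring
    rw [e1, hr1, norm_mul, norm_SS σ t ht0]
    have hr3 : ‖r‖ ≤ |C0| := by
      refine le_trans hr2 ?_
      rw [div_le_iff₀ (by positivity)]
      have : 1 ≤ t ^ 2 := by nlinarith
      calc C0 ≤ |C0| := le_abs_self _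
        _ ≤ |C0| * t ^ 2 := by nlinarith [abs_nonneg C0]
    have hBB : ‖BB (σ : ℂ)‖ ≤ (|σ₂| ^ 2 + |σ₂| + 1) / 2 := by
      unfold BB
      rw [norm_div]
      have : ‖(2 : ℂ)‖ = 2 := by norm_num
      rw [this]
      refine div_le_div_of_nonneg_right ?_ (by norm_num)
      calc ‖(σ : ℂ) ^ 2 - σ + 1 / 6‖ ≤ ‖(σ : ℂ) ^ 2 - σ‖ + ‖(1 / 6 : ℂ)‖ := norm_add_le _ _
        _ ≤ (‖(σ : ℂ) ^ 2‖ + ‖(σ : ℂ)‖) + 1 := by
          refine add_le_add (norm_sub_le _ _) ?_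
          norm_num
        _ ≤ |σ₂| ^ 2 + |σ₂| + 1 := by
          rw [norm_pow]
          have := pow_le_pow_left₀ (norm_nonneg _) hσA 2
          linarith
    have hfac : ‖1 - BB (σ : ℂ) * I / t + r‖ ≤ K := by
      have h4 : ‖BB (σ : ℂ) * I / t‖ ≤ (|σ₂| ^ 2 + |σ₂| + 1) / 2 := by
        rw [norm_div, norm_mul, Complex.norm_I, mul_one, Complex.norm_real,
          Real.norm_of_nonneg ht0.le, div_le_iff₀ ht0]
        calc ‖BB (σ : ℂ)‖ ≤ (|σ₂| ^ 2 + |σ₂| + 1) / 2 := hBB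
          _ ≤ (|σ₂| ^ 2 + |σ₂| + 1) / 2 * t := by
            have : 0 ≤ (|σ₂| ^ 2 + |σ₂| + 1) / 2 := by positivity
            nlinarith
      calc ‖1 - BB (σ : ℂ) * I / t + r‖ ≤ ‖1 - BB (σ : ℂ) * I / t‖ + ‖r‖ := norm_add_le _ _
        _ ≤ (‖(1 : ℂ)‖ + ‖BB (σ : ℂ) * I / t‖) + ‖r‖ := by
          have := norm_sub_le (1 : ℂ) (BB (σ : ℂ) * I / t)
          linarith
        _ ≤ K := by
          rw [norm_one]
          linarith
    have hpow : t ^ (σ - 1 / 2) ≤ 2 * (1 + t) ^ (σ - 1 / 2) := by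
      rcases le_total (1 / 2) σ with hs | hs
      · have h5 : t ^ (σ - 1 / 2) ≤ (1 + t) ^ (σ - 1 / 2) :=
          Real.rpow_le_rpow ht0.le (by linarith) (by linarith)
        have h6 : 0 ≤ (1 + t) ^ (σ - 1 / 2) := Real.rpow_nonneg (by linarith) _
        linarith
      · have h5 : t ^ (σ - 1 / 2) ≤ ((1 + t) / 2) ^ (σ - 1 / 2) :=
          Real.rpow_le_rpow_of_nonpos (by linarith) (by linarith) (by linarith)
        have h6 : ((1 + t) / 2) ^ (σ - 1 / 2) = (1 + t) ^ (σ - 1 / 2) * 2 ^ (1 / 2 - σ) := by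
          rw [Real.div_rpow (by linarith) (by norm_num), div_eq_mul_inv, ← Real.rpow_neg (by norm_num)]
          congr 2
          ring
        have h7 : (2 : ℝ) ^ (1 / 2 - σ) ≤ 2 := by
          calc (2 : ℝ) ^ (1 / 2 - σ) ≤ 2 ^ (1 : ℝ) :=
                Real.rpow_le_rpow_of_exponent_le (by norm_num) (by linarith)
            _ = 2 := Real.rpow_one 2
        have h8 : 0 ≤ (1 + t) ^ (σ - 1 / 2) := Real.rpow_nonneg (by linarith) _
        rw [h6] at h5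
        nlinarith
    have hs0 : 0 ≤ Real.sqrt (2 * Real.pi) := Real.sqrt_nonneg _
    have he0 : 0 ≤ Real.exp (-(Real.pi / 2 * t)) := (Real.exp_pos _).le
    have hp0 : 0 ≤ (1 + t) ^ (σ - 1 / 2) := Real.rpow_nonneg (by linarith) _
    calc Real.sqrt (2 * Real.pi) * (t ^ (σ - 1 / 2) * Real.exp (-(Real.pi / 2 * t))) *
          ‖1 - BB (σ : ℂ) * I / t + r‖
        ≤ Real.sqrt (2 * Real.pi) * ((2 * (1 + t) ^ (σ - 1 / 2)) *
          Real.exp (-(Real.pi / 2 * t))) * K := by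
          refine mul_le_mul ?_ hfac (norm_nonneg _) (by positivity)
          refine mul_le_mul_of_nonneg_left ?_ hs0
          exact mul_le_mul_of_nonneg_right hpow he0
      _ = _ := by ring
  refine ⟨max (Real.sqrt (2 * Real.pi) * 2 * K)
    (|M| * (1 + T1) * Real.exp (Real.pi / 2 * T1)), fun σ t h1 h2 => ?_⟩
  have hσ0 : 0 < σ := lt_of_lt_of_le h h1
  have hp0 : 0 ≤ (1 + |t|) ^ (σ - 1 / 2) := Real.rpow_nonneg (by positivity) _
  have he0 : 0 ≤ Real.exp (-(Real.pi / 2 * |t|)) := (Real.exp_pos _).le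
  rcases le_total |t| T1 with hc | hc
  · have h3 := hM σ t h1 h2 hc
    have h4 : (1 : ℝ) ≤ (1 + T1) * (1 + |t|) ^ (σ - 1 / 2) := by
      have h5 : (1 + |t|) ^ (-1 : ℝ) ≤ (1 + |t|) ^ (σ - 1 / 2) :=
        Real.rpow_le_rpow_of_exponent_le (by linarith [abs_nonneg t]) (by linarith)
      have h6 : (1 : ℝ) ≤ (1 + T1) * (1 + |t|) ^ (-1 : ℝ) := by
        rw [Real.rpow_neg_one, ← div_eq_mul_inv, le_div_iff₀ (by positivity)]
        linarith
      calc (1 : ℝ) ≤ (1 + T1) * (1 + |t|) ^ (-1 : ℝ) := h6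
        _ ≤ _ := mul_le_mul_of_nonneg_left h5 (by linarith)
    have h5 : (1 : ℝ) ≤ Real.exp (Real.pi / 2 * T1) * Real.exp (-(Real.pi / 2 * |t|)) := by
      rw [← Real.exp_add]
      refine Real.one_le_exp ?_
      have : 0 ≤ Real.pi / 2 * (T1 - |t|) :=
        mul_nonneg (by positivity) (by linarith)
      nlinarith
    calc ‖Gamma (σ + t * I)‖ ≤ |M| := le_trans h3 (le_abs_self _)
      _ ≤ |M| * (((1 + T1) * (1 + |t|) ^ (σ - 1 / 2)) *
          (Real.exp (Real.pi / 2 * T1) * Real.exp (-(Real.pi / 2 * |t|)))) := by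
        have h7 := one_le_mul_of_one_le_of_one_le h4 h5
        have h8 := mul_le_mul_of_nonneg_left h7 (abs_nonneg M)
        linarith
      _ = (|M| * (1 + T1) * Real.exp (Real.pi / 2 * T1)) * (1 + |t|) ^ (σ - 1 / 2) *
          Real.exp (-(Real.pi / 2 * |t|)) := by ring
      _ ≤ _ := by
        refine mul_le_mul_of_nonneg_right (mul_le_mul_of_nonneg_right (le_max_right _ _) hp0) he0
  · have h3 : ‖Gamma (σ + t * I)‖ = ‖Gamma (σ + |t| * I)‖ := by
      rcases abs_choice t with h4 | h4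
      · rw [h4]
      · rw [h4, ← gamma_norm_neg σ t]
    rw [h3]
    refine le_trans (hasym σ |t| h1 h2 hc) ?_
    exact mul_le_mul_of_nonneg_right (mul_le_mul_of_nonneg_right (le_max_left _ _) hp0) he0

/-- integrability with any polynomial weight -/
theorem gamma_int (c : ℝ) (hc : 0 < c) (A : ℝ) :
    MeasureTheory.Integrable (fun t : ℝ => (1 + |t|) ^ A * ‖Gamma (c + t * I)‖) := by
  obtain ⟨C, hC⟩ := gamma_bound c c hc
  obtain ⟨n, hn⟩ := exists_nat_ge (A + (c - 1 / 2) + 2)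
  have hcont : Continuous (fun t : ℝ => (1 + |t|) ^ A * ‖Gamma (c + t * I)‖) := by
    refine Continuous.mul ?_ ?_
    · rw [continuous_iff_continuousAt]
      intro t
      refine ContinuousAt.rpow (by fun_prop) continuousAt_const (Or.inl ?_)
      positivity
    · refine Continuous.norm ?_
      rw [continuous_iff_continuousAt]
      intro t
      have h1 : ContinuousAt (fun t : ℝ => ((c : ℂ) + t * I)) t := by fun_prop
      exact ContinuousAt.comp (gamma_contAt (t := t) hc) h1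
  refine MeasureTheory.Integrable.mono'
    ((integrable_inv_one_add_sq).const_mul (|C| * ((n.factorial : ℝ) * Real.exp 1)))
    hcont.aestronglyMeasurable (Filter.Eventually.of_forall (fun t => ?_))
  have ht : 0 ≤ |t| := abs_nonneg t
  have h1t : (0 : ℝ) < 1 + |t| := by positivity
  have hΓ := hC c t le_rfl le_rfl
  have hp0 : 0 ≤ (1 + |t|) ^ A := Real.rpow_nonneg h1t.le _
  rw [Real.norm_of_nonneg (mul_nonneg hp0 (norm_nonneg _))]
  have hkey : (1 + |t|) ^ (A + (c - 1 / 2) + 2) * Real.exp (-(Real.pi / 2 * |t|)) ≤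
      (n.factorial : ℝ) * Real.exp 1 := by
    have h1 : (1 + |t|) ^ (A + (c - 1 / 2) + 2) ≤ (1 + |t|) ^ n := by
      rw [← Real.rpow_natCast]
      exact Real.rpow_le_rpow_of_exponent_le (by linarith) hn
    have h2 : (1 + |t|) ^ n ≤ (n.factorial : ℝ) * Real.exp (1 + |t|) := by
      have := Real.pow_div_factorial_le_exp (1 + |t|) h1t.le n
      rw [div_le_iff₀ (by positivity)] at this
      linarith
    have h3 : Real.exp (1 + |t|) * Real.exp (-(Real.pi / 2 * |t|)) ≤ Real.exp 1 := by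
      rw [← Real.exp_add]
      refine Real.exp_le_exp.2 ?_
      nlinarith [Real.pi_gt_three]
    calc (1 + |t|) ^ (A + (c - 1 / 2) + 2) * Real.exp (-(Real.pi / 2 * |t|))
        ≤ ((n.factorial : ℝ) * Real.exp (1 + |t|)) * Real.exp (-(Real.pi / 2 * |t|)) :=
          mul_le_mul_of_nonneg_right (le_trans h1 h2) (Real.exp_pos _).le
      _ = (n.factorial : ℝ) * (Real.exp (1 + |t|) * Real.exp (-(Real.pi / 2 * |t|))) := by ring
      _ ≤ _ := mul_le_mul_of_nonneg_left h3 (by positivity)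
  have hsq : (1 + |t|) ^ (-2 : ℝ) ≤ (1 + t ^ 2)⁻¹ := by
    rw [Real.rpow_neg h1t.le]
    refine inv_anti₀ (by positivity) ?_
    have : (1 + |t|) ^ (2 : ℝ) = (1 + |t|) ^ 2 := by
      exact_mod_cast Real.rpow_natCast (1 + |t|) 2
    rw [this]
    nlinarith [sq_abs t]
  have hexp : (1 + |t|) ^ A * ((1 + |t|) ^ (c - 1 / 2)) =
      (1 + |t|) ^ (A + (c - 1 / 2) + 2) * (1 + |t|) ^ (-2 : ℝ) := by
    rw [← Real.rpow_add h1t, ← Real.rpow_add h1t]
    congr 1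
    ring
  have hq0 : 0 ≤ (1 + |t|) ^ (c - 1 / 2) := Real.rpow_nonneg h1t.le _
  have he0 : 0 ≤ Real.exp (-(Real.pi / 2 * |t|)) := (Real.exp_pos _).le
  calc (1 + |t|) ^ A * ‖Gamma (c + t * I)‖
      ≤ (1 + |t|) ^ A * (|C| * (1 + |t|) ^ (c - 1 / 2) * Real.exp (-(Real.pi / 2 * |t|))) := by
        refine mul_le_mul_of_nonneg_left (le_trans hΓ ?_) hp0
        exact mul_le_mul_of_nonneg_right
          (mul_le_mul_of_nonneg_right (le_abs_self C) hq0) he0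
    _ = |C| * (((1 + |t|) ^ A * (1 + |t|) ^ (c - 1 / 2)) * Real.exp (-(Real.pi / 2 * |t|))) := by
        ring
    _ = |C| * (((1 + |t|) ^ (A + (c - 1 / 2) + 2) * Real.exp (-(Real.pi / 2 * |t|))) *
          (1 + |t|) ^ (-2 : ℝ)) := by
        rw [hexp]
        ring
    _ ≤ |C| * (((n.factorial : ℝ) * Real.exp 1) * (1 + t ^ 2)⁻¹) := by
        refine mul_le_mul_of_nonneg_left ?_ (abs_nonneg C)
        exact mul_le_mul hkey hsq (Real.rpow_nonneg h1t.le _) (by positivity)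
    _ = _ := by ring

end Pool.Agent.H11.SC
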