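import Mathlib
import Pool.Agent.H11.SC.Defs
import Pool.Agent.H11.SC.GamB

/-!
# MELX: Mellin inversion of `e^(-x)`

`mellinInv_mellin_eq c (fun t : ℝ => (Real.exp (-t) : ℂ))` at `x > 0`: the Mellin transform is
`Γ(s)` for `Re s > 0` (`Complex.Gamma_eq_integral`, `Complex.GammaIntegral`, or
`Complex.integral_cpow_mul_exp_neg_mul_Ioi` with `r = 1`), it is integrable on the vertical line by
`gamma_int` with `A = 0`, and `mellinInv σ f x = (1/(2π)) ∫ x^(-(σ + yi)) f (σ + yi) dy`.
-/

set_option autoImplicit false

namespace Pool.Agent.H11.SC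

open Complex

theorem mellin_exp (c x : ℝ) (hc : 0 < c) (hx : 0 < x) :
    (1 / (2 * Real.pi) : ℝ) * ∫ t : ℝ, Gamma (c + t * I) * (x : ℂ) ^ (-(c + t * I : ℂ)) =
      cexp (-x) := by
  have hM : ∀ s : ℂ, 0 < s.re → mellin (fun t : ℝ => (Real.exp (-t) : ℂ)) s = Gamma s := by
    intro s hs
    rw [Gamma_eq_integral hs, mellin, GammaIntegral]
    refine MeasureTheory.setIntegral_congr_fun measurableSet_Ioi (fun t _ => ?_)
    simp only [smul_eq_mul]
    ring
  have hconv : MellinConvergent (fun t : ℝ => (Real.exp (-t) : ℂ)) (c : ℂ) := by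
    have h := GammaIntegral_convergent (s := (c : ℂ)) (by simpa using hc)
    rw [MellinConvergent]
    refine h.congr_fun (fun t _ => ?_) measurableSet_Ioi
    simp only [smul_eq_mul]
    ring
  have hcont : Continuous (fun t : ℝ => Gamma (c + t * I)) := by
    rw [continuous_iff_continuousAt]
    intro t
    have h1 : DifferentiableAt ℂ Gamma (c + t * I) := by
      refine differentiableAt_Gamma _ (fun m hm => ?_)
      have h2 := congrArg Complex.re hm
      simp at h2
      have h3 : (0 : ℝ) ≤ m := Nat.cast_nonneg m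
      linarith
    have h2 : ContinuousAt (fun t : ℝ => (c + t * I : ℂ)) t := by fun_prop
    exact ContinuousAt.comp (f := fun t : ℝ => (c + t * I : ℂ)) h1.continuousAt h2
  have hint : MeasureTheory.Integrable (fun t : ℝ => Gamma (c + t * I)) := by
    have h := gamma_int c hc 0
    simp only [Real.rpow_zero, one_mul] at h
    exact (MeasureTheory.integrable_norm_iff hcont.aestronglyMeasurable).1 h
  have hvert : VerticalIntegrable (mellin (fun t : ℝ => (Real.exp (-t) : ℂ))) c := by
    unfold VerticalIntegrable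
    refine hint.congr (Filter.Eventually.of_forall (fun t => ?_))
    simp only []
    rw [hM]
    simpa using hc
  have hcont2 : ContinuousAt (fun t : ℝ => (Real.exp (-t) : ℂ)) x := by fun_prop
  have h := mellinInv_mellin_eq c (fun t : ℝ => (Real.exp (-t) : ℂ)) hx hconv hvert hcont2
  have h2 : ((Real.exp (-x) : ℝ) : ℂ) = cexp (-x) := by push_cast; rfl
  rw [h2] at h
  rw [← h, mellinInv, ← smul_eq_mul, Complex.coe_smul]
  congr 1
  refine MeasureTheory.integral_congr_ae (Filter.Eventually.of_forall (fun t => ?_))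
  simp only [smul_eq_mul]
  rw [hM _ (by simpa using hc)]
  ring

end Pool.Agent.H11.SC
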