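import Mathlib
import Pool.Agent.H11.SC.Defs
import Pool.Agent.H11.SC.MelX

/-!
# JF: the Dirichlet series form

For `x > 0`, `m ≥ 1`, `c > m + 1`: `g_m(x) = ∑ a(n) n^m e^(-2πnx)` (the term `n = 0` vanishes as
`m ≥ 1`).  For `n ≥ 1`, `mellin_exp c (2πnx)` gives
`e^(-2πnx) = (1/2π) ∫ Γ(c+it) (2πnx)^(-(c+it)) dt`, `(2πnx)^(-(c+it)) = n^(-(c+it)) (2πx)^(-(c+it))`,
`a(n) n^m n^(-(c+it)) = a(n) n^(-(c-m+it))`.  Interchange sum and integral
(`MeasureTheory.hasSum_integral_of_summable_integral_norm` or `integral_tsum`): the norms are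
`‖a n‖ n^(m-c) (2πx)^(-c) ∫ ‖Γ(c+it)‖ dt`, summable because `c - m > 1` (`h.summable (c-m)`).
The sum inside is `F (c - m + it) = LSeries a (c-m+it)`.
-/

set_option autoImplicit false

namespace Pool.Agent.H11.SC

open Complex Pool.Agent.H11.Selberg

variable {a : ℕ → ℂ} {F : ℂ → ℂ} {Q : ℝ} {k : ℕ} {lam : Fin k → ℝ} {mu : Fin k → ℂ} {ε : ℂ}

/-- `t ↦ Γ(c + it)` is continuous for `c > 0` -/
theorem JF.continuous_Gamma {c : ℝ} (hc : 0 < c) :
    Continuous (fun t : ℝ => Gamma ((c : ℂ) + t * I)) := by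
  rw [continuous_iff_continuousAt]
  intro t
  have h1 : DifferentiableAt ℂ Gamma ((c : ℂ) + t * I) := by
    refine Complex.differentiableAt_Gamma _ (fun n h => ?_)
    have h2 := congrArg Complex.re h
    simp at h2
    have h3 : (0 : ℝ) ≤ n := Nat.cast_nonneg n
    linarith
  exact ContinuousAt.comp (f := fun t : ℝ => (c : ℂ) + t * I) h1.continuousAt (by fun_prop)

/-- the norm of a vertical power -/
theorem JF.norm_cpow {y : ℝ} (hy : 0 < y) (c t : ℝ) :
    ‖(y : ℂ) ^ (-(c + t * I : ℂ))‖ = y ^ (-c) := by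
  rw [Complex.norm_cpow_eq_rpow_re_of_pos hy]
  simp

theorem gs_VI (h : FEq a F Q lam mu ε) (m : ℕ) (hm : 1 ≤ m) (c x : ℝ) (hc : (m : ℝ) + 1 < c)
    (hx : 0 < x) :
    gs a m x = VI (fun t => F (c - m + t * I) * Gamma (c + t * I)) c x := by
  have hm0 : (0 : ℝ) ≤ m := Nat.cast_nonneg m
  have hc0 : 0 < c := by linarith
  have hpi : (0 : ℝ) < Real.pi := Real.pi_pos
  have hy : 0 < 2 * Real.pi * x := by positivity
  set f : ℕ → ℝ → ℂ := fun n t => LSeries.term a ((c - m : ℂ) + t * I) n *
    (Gamma (c + t * I) * ((2 * Real.pi * x : ℝ) : ℂ) ^ (-(c + t * I : ℂ))) with hf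
  have hterm : ∀ (n : ℕ) (t : ℝ), ‖LSeries.term a ((c - m : ℂ) + t * I) n‖ =
      ‖LSeries.term a (c - m : ℂ) n‖ := by
    intro n t
    rw [LSeries.norm_term_eq, LSeries.norm_term_eq]
    simp
  have hnorm : ∀ (n : ℕ) (t : ℝ), ‖f n t‖ = ‖LSeries.term a (c - m : ℂ) n‖ *
      ((2 * Real.pi * x) ^ (-c) * ‖Gamma (c + t * I)‖) := by
    intro n t
    rw [hf]
    simp only
    rw [norm_mul, norm_mul, hterm, JF.norm_cpow hy]
    ring
  have hgam : MeasureTheory.Integrable (fun t : ℝ => ‖Gamma (c + t * I)‖) := by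
    have := gamma_int c hc0 0
    simpa using this
  have hcont : ∀ n, Continuous (f n) := by
    intro n
    have h1 : Continuous (fun t : ℝ => LSeries.term a ((c - m : ℂ) + t * I) n) := by
      rcases Nat.eq_zero_or_pos n with rfl | hn
      · simp only [LSeries.term_zero]
        exact continuous_const
      · have hn0 : n ≠ 0 := by omega
        simp only [LSeries.term_of_ne_zero hn0]
        have hnc : (n : ℂ) ≠ 0 := Nat.cast_ne_zero.2 hn0
        refine continuous_const.div ?_ (fun t => ?_)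
        · exact Continuous.const_cpow (by fun_prop) (Or.inl hnc)
        · intro h0
          rw [Complex.cpow_eq_zero_iff] at h0
          exact hnc h0.1
    have h2 : Continuous (fun t : ℝ =>
        ((2 * Real.pi * x : ℝ) : ℂ) ^ (-(c + t * I : ℂ))) := by
      refine Continuous.const_cpow (by fun_prop) (Or.inl ?_)
      exact_mod_cast hy.ne'
    exact h1.mul ((JF.continuous_Gamma hc0).mul h2)
  have hint : ∀ n, MeasureTheory.Integrable (f n) := by
    intro n
    refine MeasureTheory.Integrable.mono' ((hgam.const_mul ((2 * Real.pi * x) ^ (-c))).const_mul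
      ‖LSeries.term a (c - m : ℂ) n‖) (hcont n).aestronglyMeasurable
      (MeasureTheory.ae_of_all _ (fun t => (hnorm n t).le))
  have hsum : Summable (fun n => ∫ t, ‖f n t‖) := by
    have e1 : ∀ n, ∫ t, ‖f n t‖ = ‖LSeries.term a (c - m : ℂ) n‖ *
        ∫ t : ℝ, ((2 * Real.pi * x) ^ (-c) * ‖Gamma (c + t * I)‖) := by
      intro n
      rw [← MeasureTheory.integral_const_mul]
      exact MeasureTheory.integral_congr_ae (MeasureTheory.ae_of_all _ (fun t => hnorm n t))
    simp only [e1]
    refine Summable.mul_right _ ?_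
    have h1 : LSeriesSummable a (c - m : ℂ) := h.summable _ (by simp; linarith)
    exact h1.norm
  have hswap := MeasureTheory.integral_tsum_of_summable_integral_norm hint hsum
  -- the value of the integrals
  have hval : ∀ n : ℕ, ((1 / (2 * Real.pi) : ℝ) : ℂ) * ∫ t, f n t =
      a n * (n : ℂ) ^ m * cexp (-(2 * (Real.pi : ℂ) * n * (x : ℂ))) := by
    intro n
    rcases Nat.eq_zero_or_pos n with rfl | hn
    · have h0 : ∀ t, f 0 t = 0 := by
        intro t
        rw [hf]
        simp
      simp only [h0, MeasureTheory.integral_zero, mul_zero]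
      simp [show m ≠ 0 by omega]
    · have hn0 : n ≠ 0 := by omega
      have hnpos : (0 : ℝ) < n := by exact_mod_cast hn
      have hnc : (n : ℂ) ≠ 0 := Nat.cast_ne_zero.2 hn0
      have e1 : ∀ t : ℝ, f n t = (a n * (n : ℂ) ^ m) * (Gamma (c + t * I) *
          ((2 * Real.pi * n * x : ℝ) : ℂ) ^ (-(c + t * I : ℂ))) := by
        intro t
        have e2 : ((2 * Real.pi * n * x : ℝ) : ℂ) = ((n : ℝ) : ℂ) * ((2 * Real.pi * x : ℝ) : ℂ) := by
          push_cast
          ring
        have e3 : ((2 * Real.pi * n * x : ℝ) : ℂ) ^ (-(c + t * I : ℂ)) =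
            (n : ℂ) ^ (-(c + t * I : ℂ)) *
              ((2 * Real.pi * x : ℝ) : ℂ) ^ (-(c + t * I : ℂ)) := by
          rw [e2, Complex.mul_cpow_ofReal_nonneg hnpos.le hy.le]
          simp
        have e4 : LSeries.term a ((c - m : ℂ) + t * I) n =
            a n * (n : ℂ) ^ m * (n : ℂ) ^ (-(c + t * I : ℂ)) := by
          rw [LSeries.term_of_ne_zero hn0, div_eq_mul_inv, ← Complex.cpow_neg, mul_assoc,
            ← Complex.cpow_natCast, ← Complex.cpow_add _ _ hnc]
          congr 2
          ring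
        rw [hf]
        simp only
        rw [e3, e4]
        ring
      simp only [e1]
      rw [MeasureTheory.integral_const_mul]
      have e5 := mellin_exp c (2 * Real.pi * n * x) hc0 (by positivity)
      have e6 : (-(2 * (Real.pi : ℂ) * n * (x : ℂ))) = -((2 * Real.pi * n * x : ℝ) : ℂ) := by
        push_cast
        ring
      rw [e6, ← e5]
      ring
  -- the sum inside
  have hin : ∀ t : ℝ, ∑' n, f n t = F (c - m + t * I) * Gamma (c + t * I) *
      (2 * (Real.pi : ℂ) * (x : ℂ)) ^ (-(c + t * I : ℂ)) := by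
    intro t
    rw [hf]
    simp only
    rw [tsum_mul_right, h.eqL (c - m + t * I) (by simp; linarith)]
    have e1 : ((2 * Real.pi * x : ℝ) : ℂ) = 2 * (Real.pi : ℂ) * (x : ℂ) := by
      push_cast
      ring
    rw [e1]
    unfold LSeries
    ring
  unfold gs VI
  simp only [← hin]
  rw [← hswap, ← tsum_mul_left]
  exact tsum_congr (fun n => (hval n).symm)

end Pool.Agent.H11.SC
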