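import Mathlib
import Pool.Agent.H11.SC.Defs
import Pool.Agent.H11.SC.Stir3

/-!
# GR: asymptotics of the quotient of Gamma factors

Write `conj = starRingEnd ℂ`.  Fix `j`, `τ = λ_j t`, `a = λ_j σ + μ_j`, `a' = λ_j (1-σ) + μ_j`.
Then `λ_j (σ + it) + μ_j = iτ + a`, `λ_j (1 - σ + it) + μ_j = iτ + a'`.  By `stirling_vert`,
`conj Γ(iτ+a') / Γ(iτ+a) = (conj (SS a' τ) / SS a τ) * (1 + i (BB (conj a') + BB a)/τ + O(τ^(-2)))`
(`conj (BB a') = BB (conj a')`; quotient of `1 + x` and `1 + y` with `x, y = O(1/τ)`).  And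
`conj (SS a' τ) / SS a τ
   = exp [ (-iτ + conj a' - 1/2)(log τ - iπ/2) + iτ - (iτ + a - 1/2)(log τ + iπ/2) + iτ ]
   = exp [ log τ * (-2iτ + conj a' - a) + 2iτ - (iπ/2)(conj a' + a - 1) ]`,
`conj a' - a = λ_j (1 - 2σ) - 2i Im μ_j`, `conj a' + a - 1 = λ_j + 2 Re μ_j - 1` (REAL, so the
last exponential is unimodular).  With `log τ = log λ_j + log t`, taking the product over `j`,
using `∑ λ_j = 1`, `∑ Im μ_j = 0`:
`∏_j = exp [ (1 - 2σ - 2it) (log t + ∑ λ_j log λ_j) + 2it ] * (unimodular constant) *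
  (1 + i K/t + O(t^(-2)))`, `K = ∑_j (BB (conj a'_j) + BB a_j)/λ_j`
(the constant contains `exp(-2i ∑ Im μ_j log λ_j)`).  Multiply by
`Q^(1 - 2(σ+it)) = exp ((1 - 2σ - 2it) log Q)`; `log (Bp Q lam) = log Q + ∑ λ_j log λ_j`,
`log (B t) = log B + log t`.  This is `ω * EE B σ t * (1 + K I/t + r)`.
(Suggestion: prove a lemma for one factor, then induct over a finset of indices with the statement
`∏_{j ∈ s} (...) = ω_s * exp (...) * (1 + K_s I/t + r_s)`.)
-/

set_option autoImplicit false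

namespace Pool.Agent.H11.SC

open Complex

/-- `f t = 1 + K i / t + O(1/t^2)` -/
def As (f : ℝ → ℂ) (K : ℂ) : Prop :=
  ∃ C T : ℝ, 0 < T ∧ ∀ t : ℝ, T ≤ t → ‖f t - 1 - K * I / t‖ ≤ C / t ^ 2

theorem As.bound {f : ℝ → ℂ} {K : ℂ} (h : As f K) :
    ∃ D T : ℝ, 0 ≤ D ∧ 1 ≤ T ∧ ∀ t : ℝ, T ≤ t → ‖f t - 1 - K * I / t‖ ≤ D / t ^ 2 ∧
      ‖f t - 1‖ ≤ D / t ∧ ‖K * I / (t : ℂ)‖ ≤ D / t := by
  obtain ⟨C, T, _, h⟩ := h
  refine ⟨max C 0 + ‖K‖, max T 1, by positivity, le_max_right _ _, fun t ht => ?_⟩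
  have ht1 : 1 ≤ t := (le_max_right _ _).trans ht
  have ht0 : 0 < t := by linarith
  have h1 := h t ((le_max_left _ _).trans ht)
  have h2 : C / t ^ 2 ≤ (max C 0 + ‖K‖) / t ^ 2 := by
    apply div_le_div_of_nonneg_right _ (by positivity)
    have := le_max_left C 0
    have := norm_nonneg K
    linarith
  have h3 : ‖K * I / (t : ℂ)‖ = ‖K‖ / t := by
    rw [norm_div, norm_mul, Complex.norm_I, mul_one, Complex.norm_real, Real.norm_eq_abs,
      abs_of_pos ht0]
  refine ⟨h1.trans h2, ?_, ?_⟩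
  · have h4 : f t - 1 = (f t - 1 - K * I / t) + K * I / t := by ring
    rw [h4]
    refine (norm_add_le _ _).trans ?_
    rw [h3, add_div]
    apply add_le_add _ le_rfl
    refine h1.trans ?_
    have h5 : C / t ^ 2 ≤ max C 0 / t ^ 2 :=
      div_le_div_of_nonneg_right (le_max_left _ _) (by positivity)
    refine h5.trans ?_
    apply div_le_div_of_nonneg_left (le_max_right _ _) ht0
    nlinarith
  · rw [h3]
    apply div_le_div_of_nonneg_right _ ht0.le
    have := le_max_right C 0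
    linarith

theorem As.mul {f g : ℝ → ℂ} {K L : ℂ} (hf : As f K) (hg : As g L) :
    As (fun t => f t * g t) (K + L) := by
  obtain ⟨D, T, hD, hT, hf⟩ := hf.bound
  obtain ⟨E, S, hE, hS, hg⟩ := hg.bound
  refine ⟨D + E + D * E, max T S, by positivity, fun t ht => ?_⟩
  obtain ⟨f1, f2, -⟩ := hf t ((le_max_left _ _).trans ht)
  obtain ⟨g1, g2, -⟩ := hg t ((le_max_right _ _).trans ht)
  have ht0 : 0 < t := by
    have := (le_max_left T S).trans ht
    linarith
  have e : f t * g t - 1 - (K + L) * I / t =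
      (f t - 1 - K * I / t) + (g t - 1 - L * I / t) + (f t - 1) * (g t - 1) := by ring
  rw [e]
  refine norm_add₃_le.trans ?_
  rw [norm_mul]
  have h3 : ‖f t - 1‖ * ‖g t - 1‖ ≤ (D / t) * (E / t) :=
    mul_le_mul f2 g2 (norm_nonneg _) (by positivity)
  calc _ ≤ D / t ^ 2 + E / t ^ 2 + (D / t) * (E / t) := by linarith
    _ = (D + E + D * E) / t ^ 2 := by
      field_simp

theorem As.inv {g : ℝ → ℂ} {L : ℂ} (hg : As g L) : As (fun t => (g t)⁻¹) (-L) := by
  obtain ⟨E, S, hE, hS, hg⟩ := hg.bound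
  refine ⟨2 * (E + E * E), max S (2 * E), lt_of_lt_of_le (by linarith) (le_max_left _ _),
    fun t ht => ?_⟩
  obtain ⟨g1, g2, g3⟩ := hg t ((le_max_left _ _).trans ht)
  have ht0 : 0 < t := by
    have := (le_max_left S (2 * E)).trans ht
    linarith
  have htE : 2 * E ≤ t := (le_max_right _ _).trans ht
  have hgn : 1 / 2 ≤ ‖g t‖ := by
    have h1 : ‖g t - 1‖ ≤ 1 / 2 := by
      refine g2.trans ?_
      rw [div_le_iff₀ ht0]
      linarith
    have h2 := norm_sub_norm_le (1 : ℂ) (1 - g t)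
    rw [norm_one, sub_sub_cancel, norm_sub_rev] at h2
    linarith
  have hg0 : g t ≠ 0 := by
    intro h
    rw [h, norm_zero] at hgn
    linarith
  have e : (g t)⁻¹ - 1 - -L * I / t =
      (g t)⁻¹ * (-(g t - 1 - L * I / t) + (g t - 1) * (L * I / t)) := by
    field_simp
    ring
  rw [e, norm_mul, norm_inv]
  have h1 : ‖g t‖⁻¹ ≤ 2 := by
    rw [inv_le_comm₀ (by linarith) (by norm_num)]
    linarith
  have h2 : ‖-(g t - 1 - L * I / t) + (g t - 1) * (L * I / t)‖ ≤ (E + E * E) / t ^ 2 := by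
    refine (norm_add_le _ _).trans ?_
    rw [norm_neg, norm_mul]
    have h3 : ‖g t - 1‖ * ‖L * I / (t : ℂ)‖ ≤ (E / t) * (E / t) :=
      mul_le_mul g2 g3 (norm_nonneg _) (by positivity)
    calc _ ≤ E / t ^ 2 + (E / t) * (E / t) := add_le_add g1 h3
      _ = (E + E * E) / t ^ 2 := by field_simp
  calc _ ≤ 2 * ((E + E * E) / t ^ 2) := mul_le_mul h1 h2 (norm_nonneg _) (by norm_num)
    _ = 2 * (E + E * E) / t ^ 2 := by ring

theorem As.conj {f : ℝ → ℂ} {K : ℂ} (h : As f K) :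
    As (fun t => (starRingEnd ℂ) (f t)) (-(starRingEnd ℂ) K) := by
  obtain ⟨C, T, hT, h⟩ := h
  refine ⟨C, T, hT, fun t ht => ?_⟩
  have h1 := h t ht
  rw [← Complex.norm_conj] at h1
  refine le_trans (le_of_eq ?_) h1
  congr 1
  simp only [map_sub, map_one, map_div₀, map_mul, Complex.conj_I, Complex.conj_ofReal]
  ring

theorem As.scale {f : ℝ → ℂ} {K : ℂ} (h : As f K) (l : ℝ) (hl : 0 < l) :
    As (fun t => f (l * t)) (K / l) := by
  obtain ⟨C, T, hT, h⟩ := h
  refine ⟨C / l ^ 2, T / l, by positivity, fun t ht => ?_⟩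
  have h1 : T ≤ l * t := by
    rw [div_le_iff₀ hl] at ht
    linarith
  have h2 := h (l * t) h1
  have h3 : K / l * I / t = K * I / ((l * t : ℝ) : ℂ) := by
    rw [Complex.ofReal_mul, div_mul_eq_mul_div, div_div]
  rw [h3]
  refine h2.trans (le_of_eq ?_)
  rw [mul_pow, div_div]

theorem As.prod {ι : Type*} [DecidableEq ι] (f : ι → ℝ → ℂ) (K : ι → ℂ) (s : Finset ι)
    (h : ∀ j ∈ s, As (f j) (K j)) : As (fun t => ∏ j ∈ s, f j t) (∑ j ∈ s, K j) := by
  induction s using Finset.induction_on with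
  | empty =>
    refine ⟨0, 1, one_pos, fun t _ => ?_⟩
    simp
  | insert j s hj ih =>
    have h1 := (h j (Finset.mem_insert_self j s)).mul
      (ih (fun i hi => h i (Finset.mem_insert_of_mem hi)))
    simp only [Finset.prod_insert hj, Finset.sum_insert hj]
    exact h1

theorem SS_ne (a : ℂ) (τ : ℝ) : SS a τ ≠ 0 := by
  unfold SS
  apply mul_ne_zero
  · have : Real.sqrt (2 * Real.pi) ≠ 0 := by positivity
    exact_mod_cast this
  · exact Complex.exp_ne_zero _

theorem as_gamma (a : ℂ) : As (fun τ => Gamma (τ * I + a) / SS a τ) (-BB a) := by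
  obtain ⟨C, T, hT, h⟩ := stirling_vert ‖a‖
  refine ⟨C, T, hT, fun τ hτ => ?_⟩
  obtain ⟨r, h1, h2⟩ := h a le_rfl τ hτ
  have e : Gamma (τ * I + a) / SS a τ - 1 - -BB a * I / τ = r := by
    rw [h1, mul_div_cancel_left₀ _ (SS_ne a τ)]
    ring
  rw [e]
  exact h2

/-- the quotient of the main terms -/
theorem SS_quot (l : ℝ) (hl : 0 < l) (mu : ℂ) (σ t : ℝ) (ht : 0 < t) :
    (starRingEnd ℂ) (SS (l * (1 - σ) + mu) (l * t)) / SS (l * σ + mu) (l * t) =
      cexp (-(Real.pi / 2 * (l + 2 * mu.re - 1) + 2 * mu.im * Real.log l : ℝ) * I) *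
        cexp (l * ((1 - 2 * σ - 2 * t * I) * ((Real.log l : ℂ) + Real.log t) + 2 * t * I) -
          2 * mu.im * Real.log t * I) := by
  have hs : ((Real.sqrt (2 * Real.pi) : ℝ) : ℂ) ≠ 0 := by
    have : Real.sqrt (2 * Real.pi) ≠ 0 := by positivity
    exact_mod_cast this
  unfold SS
  rw [map_mul, Complex.conj_ofReal, mul_div_mul_left _ _ hs, ← Complex.exp_conj,
    ← Complex.exp_sub, ← Complex.exp_add]
  congr 1
  have hlog : Real.log (l * t) = Real.log l + Real.log t := Real.log_mul hl.ne' ht.ne'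
  have hmu : (starRingEnd ℂ) mu = mu.re - mu.im * I := by
    apply Complex.ext <;> simp
  have hmu2 : mu = mu.re + mu.im * I := (Complex.re_add_im mu).symm
  rw [hlog]
  simp only [map_sub, map_add, map_mul, map_div₀, map_one, Complex.conj_I, Complex.conj_ofReal,
    map_ofNat, Complex.ofReal_mul, Complex.ofReal_add, Complex.ofReal_sub, Complex.ofReal_div,
    Complex.ofReal_one, Complex.ofReal_ofNat, hmu]
  generalize Real.log l = x at *
  generalize Real.log t = y at *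
  rw [hmu2]
  simp only [Complex.add_re, Complex.add_im, Complex.mul_re, Complex.mul_im, Complex.ofReal_re,
    Complex.ofReal_im, Complex.I_re, Complex.I_im, mul_zero, mul_one, sub_zero,
    add_zero, zero_add]
  ring_nf

theorem gamma_ratio {k : ℕ} (Q : ℝ) (lam : Fin k → ℝ) (mu : Fin k → ℂ) (hQ : 0 < Q)
    (hlam : ∀ j, 0 < lam j) (hdeg : ∑ j, lam j = 1) (hshift : ∑ j, (mu j).im = 0) (σ : ℝ) :
    ∃ (ω K : ℂ) (C T0 : ℝ), ‖ω‖ = 1 ∧ 0 < T0 ∧ ∀ t : ℝ, T0 ≤ t → ∃ r : ℂ,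
      (Q : ℂ) ^ (1 - 2 * (σ + t * I) : ℂ) *
        ∏ j, ((starRingEnd ℂ) (Gamma (lam j * (1 - σ + t * I) + mu j)) /
          Gamma (lam j * (σ + t * I) + mu j)) =
      ω * EE (Bp Q lam) σ t * (1 + K * I / t + r) ∧ ‖r‖ ≤ C / t ^ 2 := by
  classical
  -- the correction factors
  let f : Fin k → ℝ → ℂ := fun j t =>
    (starRingEnd ℂ) (Gamma ((lam j * t : ℝ) * I + (lam j * (1 - σ) + mu j)) /
      SS (lam j * (1 - σ) + mu j) (lam j * t)) *
    (Gamma ((lam j * t : ℝ) * I + (lam j * σ + mu j)) / SS (lam j * σ + mu j) (lam j * t))⁻¹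
  have hf : ∀ j ∈ (Finset.univ : Finset (Fin k)), As (f j)
      (-(starRingEnd ℂ) (-BB (lam j * (1 - σ) + mu j)) / lam j +
        (- -BB (lam j * σ + mu j)) / lam j) := by
    intro j _
    exact ((as_gamma _).conj.scale (lam j) (hlam j)).mul
      ((as_gamma _).inv.scale (lam j) (hlam j))
  obtain ⟨C, T, hT, hprod⟩ := As.prod f _ Finset.univ hf
  set K : ℂ := ∑ j, (-(starRingEnd ℂ) (-BB (lam j * (1 - σ) + mu j)) / lam j +
        (- -BB (lam j * σ + mu j)) / lam j) with hK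
  let om : Fin k → ℂ := fun j => cexp (-(Real.pi / 2 * (lam j + 2 * (mu j).re - 1) +
    2 * (mu j).im * Real.log (lam j) : ℝ) * I)
  have hom : ∀ j, ‖om j‖ = 1 := by
    intro j
    have : om j = cexp (((-(Real.pi / 2 * (lam j + 2 * (mu j).re - 1) +
      2 * (mu j).im * Real.log (lam j))) : ℝ) * I) := by
      simp only [om, Complex.ofReal_neg]
    rw [this, Complex.norm_exp_ofReal_mul_I]
  refine ⟨∏ j, om j, K, C, T, ?_, hT, fun t ht => ?_⟩
  · rw [norm_prod]
    exact Finset.prod_eq_one (fun j _ => hom j)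
  have ht0 : 0 < t := lt_of_lt_of_le hT ht
  refine ⟨∏ j, f j t - 1 - K * I / t, ?_, hprod t ht⟩
  have e1 : (1 + K * I / t + (∏ j, f j t - 1 - K * I / t)) = ∏ j, f j t := by ring
  rw [e1]
  -- each factor
  have e2 : ∀ j, (starRingEnd ℂ) (Gamma (lam j * (1 - σ + t * I) + mu j)) /
      Gamma (lam j * (σ + t * I) + mu j) =
      om j * cexp (lam j * ((1 - 2 * σ - 2 * t * I) *
        ((Real.log (lam j) : ℂ) + Real.log t) + 2 * t * I) -
          2 * (mu j).im * Real.log t * I) * f j t := by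
    intro j
    rw [← SS_quot (lam j) (hlam j) (mu j) σ t ht0]
    have a1 : (lam j : ℂ) * (1 - σ + t * I) + mu j =
        (lam j * t : ℝ) * I + (lam j * (1 - σ) + mu j) := by
      push_cast
      ring
    have a2 : (lam j : ℂ) * (σ + t * I) + mu j =
        (lam j * t : ℝ) * I + (lam j * σ + mu j) := by
      push_cast
      ring
    rw [a1, a2]
    simp only [f]
    have n1 := SS_ne (lam j * σ + mu j) (lam j * t)
    have n2 : (starRingEnd ℂ) (SS (lam j * (1 - σ) + mu j) (lam j * t)) ≠ 0 := by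
      rw [Ne, map_eq_zero]
      exact SS_ne _ _
    rw [map_div₀, inv_div]
    by_cases hG : Gamma ((lam j * t : ℝ) * I + (lam j * σ + mu j)) = 0
    · rw [hG]
      simp
    · field_simp
  have e5 : ∏ j, cexp (lam j * ((1 - 2 * σ - 2 * t * I) *
        ((Real.log (lam j) : ℂ) + Real.log t) + 2 * t * I) -
          2 * (mu j).im * Real.log t * I) = cexp (∑ j, (lam j * ((1 - 2 * σ - 2 * t * I) *
        ((Real.log (lam j) : ℂ) + Real.log t) + 2 * t * I) -
          2 * (mu j).im * Real.log t * I)) := (Complex.exp_sum _ _).symm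
  rw [Finset.prod_congr rfl (fun j _ => e2 j), Finset.prod_mul_distrib, Finset.prod_mul_distrib,
    e5]
  have hQc : (Q : ℂ) ≠ 0 := by exact_mod_cast hQ.ne'
  have e3 : (Q : ℂ) ^ (1 - 2 * (σ + t * I) : ℂ) =
      cexp ((1 - 2 * σ - 2 * t * I) * (Real.log Q : ℂ)) := by
    rw [Complex.cpow_def_of_ne_zero hQc, ← Complex.ofReal_log hQ.le]
    congr 1
    ring
  have hBp : Real.log (Bp Q lam) = Real.log Q + ∑ j, lam j * Real.log (lam j) := by
    unfold Bp
    have h1 : ∀ j ∈ (Finset.univ : Finset (Fin k)), (lam j) ^ (lam j) ≠ 0 := fun j _ =>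
      (Real.rpow_pos_of_pos (hlam j) _).ne'
    rw [Real.log_mul hQ.ne' (Finset.prod_ne_zero_iff.mpr h1), Real.log_prod h1]
    congr 1
    exact Finset.sum_congr rfl (fun j _ => Real.log_rpow (hlam j) _)
  have hBpos : 0 < Bp Q lam := by
    unfold Bp
    exact mul_pos hQ (Finset.prod_pos (fun j _ => Real.rpow_pos_of_pos (hlam j) _))
  have e4 : cexp (∑ j, (lam j * ((1 - 2 * σ - 2 * t * I) *
        ((Real.log (lam j) : ℂ) + Real.log t) + 2 * t * I) -
          2 * (mu j).im * Real.log t * I)) * cexp ((1 - 2 * σ - 2 * t * I) * (Real.log Q : ℂ)) =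
      EE (Bp Q lam) σ t := by
    unfold EE
    rw [← Complex.exp_add]
    congr 1
    rw [Real.log_mul hBpos.ne' ht0.ne', hBp]
    have hdc : ∑ j, (lam j : ℂ) = 1 := by exact_mod_cast hdeg
    have hsc : ∑ j, ((mu j).im : ℂ) = 0 := by exact_mod_cast hshift
    rw [Finset.sum_sub_distrib]
    have s1 : ∑ j, ((lam j : ℂ) * ((1 - 2 * σ - 2 * t * I) *
        ((Real.log (lam j) : ℂ) + Real.log t) + 2 * t * I)) =
        (1 - 2 * σ - 2 * t * I) * (∑ j, (lam j : ℂ) * Real.log (lam j)) +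
        ((1 - 2 * σ - 2 * t * I) * Real.log t + 2 * t * I) * ∑ j, (lam j : ℂ) := by
      rw [Finset.mul_sum, Finset.mul_sum, ← Finset.sum_add_distrib]
      exact Finset.sum_congr rfl (fun j _ => by ring)
    have s2 : ∑ j, (2 * ((mu j).im : ℂ) * Real.log t * I) =
        (2 * Real.log t * I) * ∑ j, ((mu j).im : ℂ) := by
      rw [Finset.mul_sum]
      exact Finset.sum_congr rfl (fun j _ => by ring)
    rw [s1, s2, hdc, hsc]
    push_cast
    ring
  rw [e3, ← e4]
  ring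

theorem norm_EE (B σ t : ℝ) (hB : 0 < B) (ht : 0 < t) : ‖EE B σ t‖ = (B * t) ^ (1 - 2 * σ) := by
  unfold EE
  rw [Complex.norm_exp, Real.rpow_def_of_pos (mul_pos hB ht)]
  congr 1
  simp
  ring

end Pool.Agent.H11.SC
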