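import Mathlib
import Pool.Agent.H11.SC.Defs
import Pool.Agent.H11.SC.GR

/-!
# CONT: the functional equation high up, and the asymptotic form

(1) `feq_high`.  Put `T0 = 1 + ∑ |μ_j| / λ_j`.  On the open connected (convex) set
`U = {s : Im s > T0 - 1/2}` (say) no `λ_j s + μ_j` is a pole of `Γ` (its imaginary part is
positive), so `s ↦ completed Q lam mu F s` is differentiable there; the same holds for
`s ↦ conj (completed Q lam mu F (1 - conj s))` (note `Im (1 - conj s) = Im s`; composition of two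
conjugations around a holomorphic function; see `DifferentiableAt.star_star`,
`DifferentiableOn.conj_conj` or write the function as `conj (H (conj s))`).  They agree (with the
factor `ε`) for `0 < Re s < 1`, an open subset, so everywhere in `U` by the identity theorem
(`AnalyticOnNhd.eqOn_of_preconnected_of_eventuallyEq`).
(2) `F_eq`: divide by `Q^s ∏ Γ(λ_j s + μ_j) ≠ 0` (`Complex.Gamma_ne_zero`); with `s = σ + it`,
`1 - conj s = 1 - σ + it`, `conj (Q^(1 - conj s)) = Q^(1 - s)`.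
(3) `F_asymp`: combine `F_eq` with `gamma_ratio` and `norm_EE`
(`(B t)^(1-2σ) * C / t^2 = C' t^(-1-2σ)`); the new `ω` is `ε` times the old one.
-/

set_option autoImplicit false

namespace Pool.Agent.H11.SC

open Complex Pool.Agent.H11.Selberg

variable {a : ℕ → ℂ} {F : ℂ → ℂ} {Q : ℝ} {k : ℕ} {lam : Fin k → ℝ} {mu : Fin k → ℂ} {ε : ℂ}

/-- the height above which everything is regular -/
noncomputable def hT {k : ℕ} (lam : Fin k → ℝ) (mu : Fin k → ℂ) : ℝ := ∑ j, ‖mu j‖ / lam j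

theorem hT_nonneg (hl : ∀ j, 0 < lam j) : 0 ≤ hT lam mu :=
  Finset.sum_nonneg (fun j _ => div_nonneg (norm_nonneg _) (hl j).le)

theorem hT_im (hl : ∀ j, 0 < lam j) {s : ℂ} (hs : hT lam mu < s.im) (j : Fin k) :
    0 < ((lam j : ℂ) * s + mu j).im := by
  have h1 : ‖mu j‖ / lam j ≤ hT lam mu :=
    Finset.single_le_sum (f := fun j => ‖mu j‖ / lam j)
      (fun j _ => div_nonneg (norm_nonneg _) (hl j).le) (Finset.mem_univ j)
  have h2 : ‖mu j‖ < lam j * s.im := by
    have h3 : ‖mu j‖ / lam j < s.im := lt_of_le_of_lt h1 hs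
    rw [div_lt_iff₀ (hl j)] at h3
    linarith
  have h4 : |(mu j).im| ≤ ‖mu j‖ := Complex.abs_im_le_norm _
  have h5 := neg_abs_le (mu j).im
  rw [Complex.add_im, Complex.im_ofReal_mul]
  linarith

theorem ne_neg_of_im {z : ℂ} (hz : 0 < z.im) (m : ℕ) : z ≠ -m := by
  intro h
  rw [h] at hz
  simp at hz

theorem completed_diff (h : FEq a F Q lam mu ε) {s : ℂ} (hs : hT lam mu < s.im) :
    DifferentiableAt ℂ (completed Q lam mu F) s := by
  have hQ : (Q : ℂ) ≠ 0 := Complex.ofReal_ne_zero.2 h.Qpos.ne'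
  unfold completed
  refine DifferentiableAt.mul (DifferentiableAt.mul ?_ ?_) (h.diff s)
  · exact DifferentiableAt.const_cpow differentiableAt_id (Or.inl hQ)
  · refine DifferentiableAt.fun_finsetProd (fun j _ => ?_)
    have h1 : DifferentiableAt ℂ Gamma ((lam j : ℂ) * s + mu j) :=
      Complex.differentiableAt_Gamma _ (ne_neg_of_im (hT_im h.lampos hs j))
    exact h1.comp s ((differentiableAt_id.const_mul _).add_const _)

theorem completed_diff2 (h : FEq a F Q lam mu ε) {s : ℂ} (hs : hT lam mu < s.im) :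
    DifferentiableAt ℂ (fun s => ε * (starRingEnd ℂ)
      (completed Q lam mu F (1 - (starRingEnd ℂ) s))) s := by
  refine DifferentiableAt.const_mul ?_ ε
  have h1 : hT lam mu < (1 - (starRingEnd ℂ) s).im := by
    simpa using hs
  have h2 := completed_diff h h1
  have h3 : DifferentiableAt ℂ (fun w => completed Q lam mu F (1 - w)) ((starRingEnd ℂ) s) := by
    have h4 : DifferentiableAt ℂ (fun w : ℂ => 1 - w) ((starRingEnd ℂ) s) :=
      differentiableAt_id.const_sub 1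
    exact DifferentiableAt.comp ((starRingEnd ℂ) s) h2 h4
  exact differentiableAt_conj_conj_iff.2 h3

theorem feq_above (h : FEq a F Q lam mu ε) {s : ℂ} (hs : hT lam mu < s.im) :
    completed Q lam mu F s =
      ε * (starRingEnd ℂ) (completed Q lam mu F (1 - (starRingEnd ℂ) s)) := by
  have hU : IsOpen {s : ℂ | hT lam mu < s.im} := isOpen_lt continuous_const Complex.continuous_im
  have hconv : Convex ℝ {s : ℂ | hT lam mu < s.im} := convex_halfSpace_im_gt _
  have hA : AnalyticOnNhd ℂ (completed Q lam mu F) {s : ℂ | hT lam mu < s.im} :=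
    DifferentiableOn.analyticOnNhd
      (fun z hz => (completed_diff h hz).differentiableWithinAt) hU
  have hB : AnalyticOnNhd ℂ (fun s => ε * (starRingEnd ℂ)
      (completed Q lam mu F (1 - (starRingEnd ℂ) s))) {s : ℂ | hT lam mu < s.im} :=
    DifferentiableOn.analyticOnNhd
      (fun z hz => (completed_diff2 h hz).differentiableWithinAt) hU
  have h0 : (⟨1 / 2, hT lam mu + 1⟩ : ℂ) ∈ {s : ℂ | hT lam mu < s.im} := by
    change hT lam mu < hT lam mu + 1
    linarith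
  refine hA.eqOn_of_preconnected_of_eventuallyEq hB hconv.isPreconnected h0 ?_ hs
  have h1 : {s : ℂ | 0 < s.re ∧ s.re < 1} ∈ nhds (⟨1 / 2, hT lam mu + 1⟩ : ℂ) := by
    refine IsOpen.mem_nhds ?_ ?_
    · exact (isOpen_lt continuous_const Complex.continuous_re).inter
        (isOpen_lt Complex.continuous_re continuous_const)
    · constructor
      · change (0 : ℝ) < 1 / 2
        norm_num
      · change (1 : ℝ) / 2 < 1
        norm_num
  filter_upwards [h1] with z hz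
  exact h.feq z hz.1 hz.2

theorem feq_high (h : FEq a F Q lam mu ε) : ∃ T0 : ℝ, 0 < T0 ∧ ∀ s : ℂ, T0 ≤ s.im →
    completed Q lam mu F s =
      ε * (starRingEnd ℂ) (completed Q lam mu F (1 - (starRingEnd ℂ) s)) := by
  refine ⟨hT lam mu + 1, by have := hT_nonneg (mu := mu) h.lampos; linarith, fun s hs => ?_⟩
  exact feq_above h (by linarith)

theorem F_eq (h : FEq a F Q lam mu ε) : ∃ T0 : ℝ, 0 < T0 ∧ ∀ σ t : ℝ, T0 ≤ t →
    F (σ + t * I) = ε * ((Q : ℂ) ^ (1 - 2 * (σ + t * I) : ℂ) *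
        ∏ j, ((starRingEnd ℂ) (Gamma (lam j * (1 - σ + t * I) + mu j)) /
          Gamma (lam j * (σ + t * I) + mu j))) * (starRingEnd ℂ) (F (1 - σ + t * I)) := by
  refine ⟨hT lam mu + 1, by have := hT_nonneg (mu := mu) h.lampos; linarith, fun σ t ht => ?_⟩
  have hQ : (Q : ℂ) ≠ 0 := Complex.ofReal_ne_zero.2 h.Qpos.ne'
  have hs : hT lam mu < ((σ : ℂ) + t * I).im := by
    have : ((σ : ℂ) + t * I).im = t := by simp
    rw [this]
    linarith
  have hw : 1 - (starRingEnd ℂ) ((σ : ℂ) + t * I) = 1 - σ + t * I := by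
    rw [map_add, map_mul, Complex.conj_ofReal, Complex.conj_ofReal, Complex.conj_I]
    ring
  have h1 := feq_above h hs
  rw [hw] at h1
  unfold completed at h1
  have hG : ∀ j, Gamma ((lam j : ℂ) * (σ + t * I) + mu j) ≠ 0 := fun j =>
    Complex.Gamma_ne_zero (ne_neg_of_im (hT_im h.lampos hs j))
  have hP : (∏ j, Gamma ((lam j : ℂ) * (σ + t * I) + mu j)) ≠ 0 :=
    Finset.prod_ne_zero_iff.2 (fun j _ => hG j)
  have hQs : (Q : ℂ) ^ ((σ : ℂ) + t * I) ≠ 0 := by
    rw [Complex.cpow_def_of_ne_zero hQ]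
    exact Complex.exp_ne_zero _
  have hcQ : (starRingEnd ℂ) ((Q : ℂ) ^ ((1 : ℂ) - σ + t * I)) = (Q : ℂ) ^ (1 - (σ + t * I) : ℂ) := by
    rw [Complex.cpow_def_of_ne_zero hQ, Complex.cpow_def_of_ne_zero hQ, ← Complex.exp_conj,
      map_mul, map_add, map_sub, map_mul, map_one, Complex.conj_ofReal, Complex.conj_ofReal,
      Complex.conj_I, ← Complex.ofReal_log h.Qpos.le, Complex.conj_ofReal]
    congr 1
    ring
  have hsplit : (Q : ℂ) ^ (1 - 2 * (σ + t * I) : ℂ) * (Q : ℂ) ^ ((σ : ℂ) + t * I) =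
      (Q : ℂ) ^ (1 - (σ + t * I) : ℂ) := by
    rw [← Complex.cpow_add _ _ hQ]
    congr 1
    ring
  rw [map_mul, map_mul, map_prod, hcQ, ← hsplit] at h1
  rw [Finset.prod_div_distrib]
  apply mul_left_cancel₀ (mul_ne_zero hQs hP)
  rw [h1]
  generalize (∏ j, Gamma ((lam j : ℂ) * (σ + t * I) + mu j)) = P at hP ⊢
  generalize (Q : ℂ) ^ ((σ : ℂ) + t * I) = R at hQs ⊢
  generalize (∏ j, (starRingEnd ℂ) (Gamma ((lam j : ℂ) * (1 - σ + t * I) + mu j))) = P'
  generalize (starRingEnd ℂ) (F (1 - σ + t * I)) = F'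
  generalize (Q : ℂ) ^ (1 - 2 * (σ + t * I) : ℂ) = R'
  field_simp

theorem Bp_pos (hQ : 0 < Q) (hl : ∀ j, 0 < lam j) : 0 < Bp Q lam :=
  mul_pos hQ (Finset.prod_pos (fun j _ => Real.rpow_pos_of_pos (hl j) _))

theorem F_asymp (h : FEq a F Q lam mu ε) (σ : ℝ) :
    ∃ (ω K : ℂ) (C T0 : ℝ), ‖ω‖ = 1 ∧ 0 < T0 ∧ ∀ t : ℝ, T0 ≤ t →
      ‖F (σ + t * I) - ω * EE (Bp Q lam) σ t * (1 + K * I / t) *
        (starRingEnd ℂ) (F (1 - σ + t * I))‖ ≤ C * t ^ (-1 - 2 * σ) * ‖F (1 - σ + t * I)‖ := by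
  obtain ⟨T1, hT1, h1⟩ := F_eq h
  obtain ⟨ω, K, C, T2, hω, hT2, h2⟩ := gamma_ratio Q lam mu h.Qpos h.lampos h.deg h.shift σ
  have hB := Bp_pos h.Qpos h.lampos
  refine ⟨ε * ω, K, (Bp Q lam) ^ (1 - 2 * σ) * C, max T1 T2, ?_, lt_max_of_lt_left hT1,
    fun t ht => ?_⟩
  · rw [norm_mul, h.eps, hω, one_mul]
  · have ht1 : T1 ≤ t := le_trans (le_max_left _ _) ht
    have ht2 : T2 ≤ t := le_trans (le_max_right _ _) ht
    have ht0 : 0 < t := lt_of_lt_of_le hT1 ht1
    obtain ⟨r, hr1, hr2⟩ := h2 t ht2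
    rw [h1 σ t ht1, hr1]
    have h3 : ε * (ω * EE (Bp Q lam) σ t * (1 + K * I / t + r)) *
        (starRingEnd ℂ) (F (1 - σ + t * I)) -
        ε * ω * EE (Bp Q lam) σ t * (1 + K * I / t) * (starRingEnd ℂ) (F (1 - σ + t * I)) =
        ε * ω * EE (Bp Q lam) σ t * r * (starRingEnd ℂ) (F (1 - σ + t * I)) := by ring
    rw [h3, norm_mul, norm_mul, norm_mul, norm_mul, h.eps, hω, norm_EE _ _ _ hB ht0, one_mul,
      one_mul, RCLike.norm_conj]
    refine mul_le_mul_of_nonneg_right ?_ (norm_nonneg _)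
    have h4 : t ^ (-1 - 2 * σ) = t ^ (1 - 2 * σ) / t ^ 2 := by
      rw [← Real.rpow_natCast t 2, ← Real.rpow_sub ht0]
      congr 1
      push_cast
      ring
    rw [Real.mul_rpow hB.le ht0.le, h4]
    calc (Bp Q lam) ^ (1 - 2 * σ) * t ^ (1 - 2 * σ) * ‖r‖
        ≤ (Bp Q lam) ^ (1 - 2 * σ) * t ^ (1 - 2 * σ) * (C / t ^ 2) := by gcongr
      _ = (Bp Q lam) ^ (1 - 2 * σ) * C * (t ^ (1 - 2 * σ) / t ^ 2) := by ring

end Pool.Agent.H11.SC
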