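import Mathlib
import Pool.Agent.H11.SC.Defs
import Pool.Agent.H11.SC.Cont
import Pool.Agent.H11.SC.Conj

/-!
# EDGE: bounds for `F` to the right of `1` and on the line `Re s = -η`

(1) `F_right`: for `Re s ≥ 1 + η`, `‖F s‖ = ‖LSeries a s‖ ≤ ∑ ‖a n‖ n^(-1-η)`, which converges
(`h.summable (1+η)`, `LSeries.norm_term_le_of_re_le_re` or similar).
(2) `F_edge`: for `t ≥ T0` use `F_asymp h (-η)`: `‖F(-η+it)‖ ≤ ‖EE‖ (1 + |K|/t) M + C t^(-1+2η) M`,
`‖EE B (-η) t‖ = (B t)^(1+2η)` (`norm_EE`), `M` the bound of (1) at `Re s = 1 + η`.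
For `t ≤ -T0` apply this to `h.conj` (`conj (F (conj s))`, `s = -η - it`).  For `|t| ≤ T0`
continuity of `F`.
-/

set_option autoImplicit false

namespace Pool.Agent.H11.SC

open Complex Pool.Agent.H11.Selberg

variable {a : ℕ → ℂ} {F : ℂ → ℂ} {Q : ℝ} {k : ℕ} {lam : Fin k → ℝ} {mu : Fin k → ℂ} {ε : ℂ}

theorem F_right (h : FEq a F Q lam mu ε) (η : ℝ) (hη : 0 < η) :
    ∃ C : ℝ, ∀ s : ℂ, 1 + η ≤ s.re → ‖F s‖ ≤ C := by
  have h1 : LSeriesSummable a ((1 + η : ℝ) : ℂ) := h.summable _ (by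
    rw [Complex.ofReal_re]
    linarith)
  have h2 : Summable (fun n => ‖LSeries.term a ((1 + η : ℝ) : ℂ) n‖) := h1.norm
  refine ⟨∑' n, ‖LSeries.term a ((1 + η : ℝ) : ℂ) n‖, fun s hs => ?_⟩
  have hs1 : 1 < s.re := by linarith
  rw [h.eqL s hs1]
  have h3 : ∀ n, ‖LSeries.term a s n‖ ≤ ‖LSeries.term a ((1 + η : ℝ) : ℂ) n‖ := fun n =>
    LSeries.norm_term_le_of_re_le_re a (by rw [Complex.ofReal_re]; exact hs) n
  have h4 : Summable (fun n => ‖LSeries.term a s n‖) := (h.summable s hs1).norm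
  exact (norm_tsum_le_tsum_norm h4).trans (h4.tsum_le_tsum h3 h2)

private theorem Bp_pos_edge (h : FEq a F Q lam mu ε) : 0 < Bp Q lam := by
  unfold Bp
  refine mul_pos h.Qpos (Finset.prod_pos (fun j _ => ?_))
  exact Real.rpow_pos_of_pos (h.lampos j) _

private theorem edge_pos (h : FEq a F Q lam mu ε) (η : ℝ) (hη : 0 < η) :
    ∃ C T : ℝ, 0 < T ∧ ∀ t : ℝ, T ≤ t → ‖F (-η + t * I)‖ ≤ C * (1 + |t|) ^ (1 + 2 * η) := by
  obtain ⟨M, hM⟩ := F_right h η hη
  obtain ⟨ω, K, C, T0, hω, hT0, hF⟩ := F_asymp h (-η)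
  have hB := Bp_pos_edge h
  set B := Bp Q lam with hBdef
  refine ⟨B ^ (1 + 2 * η) * (1 + ‖K‖) * M + |C| * M, max T0 1,
    lt_of_lt_of_le hT0 (le_max_left _ _), fun t ht => ?_⟩
  have ht0 : T0 ≤ t := (le_max_left _ _).trans ht
  have ht1 : 1 ≤ t := (le_max_right _ _).trans ht
  have htpos : 0 < t := by linarith
  have h1 := hF t ht0
  have hcast : (((-η : ℝ) : ℂ) + t * I) = (-η + t * I : ℂ) := by push_cast; ring
  have hcast2 : (1 - ((-η : ℝ) : ℂ) + t * I) = (1 + η + t * I : ℂ) := by push_cast; ring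
  rw [hcast, hcast2] at h1
  have hM' : ‖F (1 + η + t * I)‖ ≤ M := by
    apply hM
    simp
  have hM0 : 0 ≤ M := (norm_nonneg _).trans hM'
  have hpow : (0 : ℝ) ≤ (1 + |t|) ^ (1 + 2 * η) := by positivity
  have htle : t ^ (1 + 2 * η) ≤ (1 + |t|) ^ (1 + 2 * η) := by
    apply Real.rpow_le_rpow htpos.le _ (by linarith)
    rw [abs_of_pos htpos]
    linarith
  -- the main term
  have hmain : ‖ω * EE B (-η) t * (1 + K * I / t) * (starRingEnd ℂ) (F (1 + η + t * I))‖ ≤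
      B ^ (1 + 2 * η) * (1 + ‖K‖) * M * (1 + |t|) ^ (1 + 2 * η) := by
    rw [norm_mul, norm_mul, norm_mul, hω, one_mul, norm_EE B (-η) t hB htpos, RCLike.norm_conj]
    have e1 : (1 - 2 * -η : ℝ) = 1 + 2 * η := by ring
    rw [e1, Real.mul_rpow hB.le htpos.le]
    have h2 : ‖(1 + K * I / t : ℂ)‖ ≤ 1 + ‖K‖ := by
      refine (norm_add_le _ _).trans ?_
      rw [norm_one, norm_div, norm_mul, Complex.norm_I, mul_one, Complex.norm_real,
        Real.norm_of_nonneg htpos.le]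
      have : ‖K‖ / t ≤ ‖K‖ := div_le_self (norm_nonneg _) ht1
      linarith
    have hBp : 0 ≤ B ^ (1 + 2 * η) := by positivity
    calc B ^ (1 + 2 * η) * t ^ (1 + 2 * η) * ‖(1 + K * I / t : ℂ)‖ * ‖F (1 + η + t * I)‖
        ≤ B ^ (1 + 2 * η) * (1 + |t|) ^ (1 + 2 * η) * (1 + ‖K‖) * M := by gcongr
      _ = _ := by ring
  have hrem : C * t ^ (-1 - 2 * -η) * ‖F (1 + η + t * I)‖ ≤
      |C| * M * (1 + |t|) ^ (1 + 2 * η) := by
    have e1 : t ^ (-1 - 2 * -η) ≤ (1 + |t|) ^ (1 + 2 * η) := by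
      refine le_trans ?_ htle
      apply Real.rpow_le_rpow_of_exponent_le ht1
      linarith
    have e2 : 0 ≤ t ^ (-1 - 2 * -η) := by positivity
    calc C * t ^ (-1 - 2 * -η) * ‖F (1 + η + t * I)‖
        ≤ |C| * t ^ (-1 - 2 * -η) * ‖F (1 + η + t * I)‖ := by
          gcongr
          exact le_abs_self C
      _ ≤ |C| * (1 + |t|) ^ (1 + 2 * η) * M := by gcongr
      _ = _ := by ring
  have h3 : ‖F (-η + t * I)‖ ≤
      ‖ω * EE B (-η) t * (1 + K * I / t) * (starRingEnd ℂ) (F (1 + η + t * I))‖ +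
      ‖F (-η + t * I) - ω * EE B (-η) t * (1 + K * I / t) *
        (starRingEnd ℂ) (F (1 + η + t * I))‖ := by
    have := norm_add_le (ω * EE B (-η) t * (1 + K * I / t) * (starRingEnd ℂ) (F (1 + η + t * I)))
      (F (-η + t * I) - ω * EE B (-η) t * (1 + K * I / t) *
        (starRingEnd ℂ) (F (1 + η + t * I)))
    simpa using this
  calc ‖F (-η + t * I)‖ ≤ _ := h3
    _ ≤ B ^ (1 + 2 * η) * (1 + ‖K‖) * M * (1 + |t|) ^ (1 + 2 * η) +
        |C| * M * (1 + |t|) ^ (1 + 2 * η) := add_le_add hmain (h1.trans hrem)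
    _ = _ := by ring

theorem F_edge (h : FEq a F Q lam mu ε) (η : ℝ) (hη : 0 < η) :
    ∃ C : ℝ, ∀ t : ℝ, ‖F (-η + t * I)‖ ≤ C * (1 + |t|) ^ (1 + 2 * η) := by
  obtain ⟨C1, T1, hT1, h1⟩ := edge_pos h η hη
  obtain ⟨C2, T2, hT2, h2⟩ := edge_pos h.conj η hη
  have hcont : Continuous (fun t : ℝ => F (-η + t * I)) := by
    refine h.diff.continuous.comp ?_
    fun_prop
  obtain ⟨C3, h3⟩ := (isCompact_Icc (a := -(max T1 T2)) (b := max T1 T2)).exists_bound_of_continuousOn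
    hcont.continuousOn
  refine ⟨max (max C1 C2) (max C3 0), fun t => ?_⟩
  have hone : (1 : ℝ) ≤ (1 + |t|) ^ (1 + 2 * η) := by
    apply Real.one_le_rpow _ (by linarith)
    have := abs_nonneg t
    linarith
  have hpow : (0 : ℝ) ≤ (1 + |t|) ^ (1 + 2 * η) := by linarith
  rcases le_total (max T1 T2) t with ht | ht
  · refine (h1 t ((le_max_left _ _).trans ht)).trans ?_
    exact mul_le_mul_of_nonneg_right ((le_max_left _ _).trans (le_max_left _ _)) hpow
  · rcases le_total t (-(max T1 T2)) with ht' | ht'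
    · have h4 := h2 (-t) ((le_max_right _ _).trans (by linarith))
      have h5 : (starRingEnd ℂ) (-(η : ℂ) + ((-t : ℝ) : ℂ) * I) = -η + t * I := by
        rw [map_add, map_neg, map_mul, Complex.conj_ofReal, Complex.conj_ofReal, Complex.conj_I]
        push_cast
        ring
      rw [h5, RCLike.norm_conj, abs_neg] at h4
      refine h4.trans ?_
      exact mul_le_mul_of_nonneg_right ((le_max_right _ _).trans (le_max_left _ _)) hpow
    · have h6 := h3 t ⟨ht', ht⟩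
      calc ‖F (-η + t * I)‖ ≤ C3 := h6
        _ ≤ max (max C1 C2) (max C3 0) * 1 := by
            rw [mul_one]
            exact (le_max_left _ _).trans (le_max_right _ _)
        _ ≤ _ := by
            refine mul_le_mul_of_nonneg_left hone ?_
            exact (le_max_right _ _).trans (le_max_right _ _)

end Pool.Agent.H11.SC
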