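import Mathlib
import Pool.Agent.H11.SC.Defs

/-!
# VSHIFT: shifting a vertical integral

Rectangle `[a, b] × [-T, T]`: `Complex.integral_boundary_rect_eq_zero_of_differentiableOn`; the two
horizontal integrals are at most `(b - a) C e^(-θT) → 0`; both vertical integrals converge
(integrable, bounded by `C e^(-θ|t|)`), `MeasureTheory.intervalIntegral_tendsto_integral`.
-/

set_option autoImplicit false

namespace Pool.Agent.H11.SC

open Complex

/-- `e^(-θ|t|)` is integrable -/
theorem VShift.integrable_exp_neg_abs {θ : ℝ} (hθ : 0 < θ) :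
    MeasureTheory.Integrable (fun t : ℝ => Real.exp (-(θ * |t|))) := by
  rw [← MeasureTheory.integrableOn_univ, ← Set.Iic_union_Ioi (a := (0 : ℝ))]
  refine MeasureTheory.IntegrableOn.union ?_ ?_
  · have h1 : MeasureTheory.IntegrableOn (fun t : ℝ => Real.exp (θ * t)) (Set.Iic 0) :=
      integrableOn_exp_mul_Iic hθ 0
    refine h1.congr_fun (fun t ht => ?_) measurableSet_Iic
    rw [Set.mem_Iic] at ht
    simp only
    rw [abs_of_nonpos ht]
    congr 1
    ring
  · have h1 : MeasureTheory.IntegrableOn (fun t : ℝ => Real.exp (-θ * t)) (Set.Ioi 0) :=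
      exp_neg_integrableOn_Ioi 0 hθ
    refine h1.congr_fun (fun t ht => ?_) measurableSet_Ioi
    rw [Set.mem_Ioi] at ht
    simp only
    rw [abs_of_pos ht]
    congr 1
    ring

theorem vertical_shift (f : ℂ → ℂ) (a b : ℝ) (hab : a ≤ b)
    (hd : ∀ w : ℂ, a ≤ w.re → w.re ≤ b → DifferentiableAt ℂ f w) (C θ : ℝ) (hθ : 0 < θ)
    (hb : ∀ w : ℂ, a ≤ w.re → w.re ≤ b → ‖f w‖ ≤ C * Real.exp (-(θ * |w.im|))) :
    ∫ t : ℝ, f (a + t * I) = ∫ t : ℝ, f (b + t * I) := by
  open MeasureTheory Filter Topology in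
  have hint : ∀ c : ℝ, a ≤ c → c ≤ b → Integrable (fun t : ℝ => f (c + t * I)) := by
    intro c hc1 hc2
    have hcont : Continuous (fun t : ℝ => f (c + t * I)) := by
      rw [continuous_iff_continuousAt]
      intro t
      have h1 : ContinuousAt f ((c : ℂ) + t * I) :=
        (hd _ (by simpa using hc1) (by simpa using hc2)).continuousAt
      exact ContinuousAt.comp (f := fun t : ℝ => (c : ℂ) + t * I) h1 (by fun_prop)
    refine Integrable.mono' ((VShift.integrable_exp_neg_abs hθ).const_mul C)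
      hcont.aestronglyMeasurable (ae_of_all _ (fun t => ?_))
    have := hb (c + t * I) (by simpa using hc1) (by simpa using hc2)
    simpa using this
  have hlim : ∀ c : ℝ, a ≤ c → c ≤ b →
      Tendsto (fun T : ℝ => ∫ t in (-T)..T, f (c + t * I)) atTop (𝓝 (∫ t : ℝ, f (c + t * I))) :=
    fun c hc1 hc2 => intervalIntegral_tendsto_integral (hint c hc1 hc2) tendsto_neg_atTop_atBot
      tendsto_id
  -- the horizontal integrals
  have hexp : Tendsto (fun T : ℝ => C * Real.exp (-(θ * |T|)) * |b - a|) atTop (𝓝 0) := by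
    have h1 : Tendsto (fun T : ℝ => Real.exp (-(θ * |T|))) atTop (𝓝 0) := by
      refine Real.tendsto_exp_neg_atTop_nhds_zero.comp ?_
      exact Tendsto.const_mul_atTop hθ tendsto_abs_atTop_atTop
    have h2 := (h1.const_mul C).mul_const (|b - a|)
    simpa using h2
  have hhor : ∀ σ : ℝ → ℝ, (∀ T, |σ T| = |T|) →
      Tendsto (fun T : ℝ => ∫ x in a..b, f (x + (σ T : ℂ) * I)) atTop (𝓝 0) := by
    intro σ hσ
    refine squeeze_zero_norm (fun T => ?_) hexp
    refine intervalIntegral.norm_integral_le_of_norm_le_const (fun x hx => ?_)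
    rw [Set.uIoc_of_le hab] at hx
    have := hb (x + σ T * I) (by simpa using hx.1.le) (by simpa using hx.2)
    rw [← hσ T]
    simpa using this
  have h1 := hhor (fun T => -T) (fun T => abs_neg T)
  have h2 := hhor (fun T => T) (fun T => rfl)
  have h3 := hlim a le_rfl hab
  have h4 := hlim b hab le_rfl
  have h5 : Tendsto (fun T : ℝ => (∫ x in a..b, f (x + ((-T : ℝ) : ℂ) * I)) -
      (∫ x in a..b, f (x + (T : ℂ) * I)) + I • (∫ t in (-T)..T, f (b + t * I)) -
      I • (∫ t in (-T)..T, f (a + t * I))) atTop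
      (𝓝 (0 - 0 + I • (∫ t : ℝ, f (b + t * I)) - I • (∫ t : ℝ, f (a + t * I)))) :=
    ((h1.sub h2).add (h4.const_smul I)).sub (h3.const_smul I)
  have h6 : ∀ T : ℝ, (∫ x in a..b, f (x + ((-T : ℝ) : ℂ) * I)) -
      (∫ x in a..b, f (x + (T : ℂ) * I)) + I • (∫ t in (-T)..T, f (b + t * I)) -
      I • (∫ t in (-T)..T, f (a + t * I)) = 0 := by
    intro T
    have h7 := Complex.integral_boundary_rect_eq_zero_of_differentiableOn f
      ((a : ℂ) + ((-T : ℝ) : ℂ) * I) ((b : ℂ) + (T : ℂ) * I) (fun w hw => by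
        rw [mem_reProdIm] at hw
        have h8 := hw.1
        simp only [add_re, ofReal_re, mul_re, ofReal_im, I_re, I_im, mul_zero, mul_one,
          sub_zero, add_zero] at h8
        rw [Set.uIcc_of_le hab] at h8
        exact (hd w h8.1 h8.2).differentiableWithinAt)
    simpa using h7
  have h9 : (0 : ℂ) - 0 + I • (∫ t : ℝ, f (b + t * I)) - I • (∫ t : ℝ, f (a + t * I)) = 0 := by
    refine tendsto_nhds_unique h5 ?_
    refine (tendsto_const_nhds (x := (0 : ℂ))).congr (fun T => (h6 T).symm)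
  have h10 : I * ((∫ t : ℝ, f (b + t * I)) - ∫ t : ℝ, f (a + t * I)) = 0 := by
    rw [smul_eq_mul, smul_eq_mul] at h9
    linear_combination h9
  rcases mul_eq_zero.1 h10 with h | h
  · exact absurd h I_ne_zero
  · exact (sub_eq_zero.1 h).symm

end Pool.Agent.H11.SC
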