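import Mathlib
import Pool.Agent.H11.SC.Defs
import Pool.Agent.H11.SC.JF
import Pool.Agent.H11.SC.PL
import Pool.Agent.H11.SC.VShift

/-!
# KF: contour shift to `Re s = -η`

Apply `vertical_shift` to `f w = F (w - m) * Γ w * (2πx)^(-w)` with `a = m - η > 0`, `b = m + 2`
(differentiable there: `Complex.differentiableAt_Gamma`, no pole as `Re w > 0`).  Bound:
`‖F (w - m)‖ ≤ C (1+|t|)^2` (`F_strip`), `‖Γ w‖ ≤ C (1+|t|)^(m+2) e^(-π|t|/2)` (`gamma_bound`),
`‖(2πx)^(-w)‖ ≤ C`; and `(1+|t|)^(m+4) e^(-π|t|/2) ≤ C' e^(-|t|)`.  Then use `gs_VI` with `c = m+2`.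
-/

set_option autoImplicit false

namespace Pool.Agent.H11.SC

open Complex Pool.Agent.H11.Selberg

variable {a : ℕ → ℂ} {F : ℂ → ℂ} {Q : ℝ} {k : ℕ} {lam : Fin k → ℝ} {mu : Fin k → ℂ} {ε : ℂ}

/-- powers are dominated by exponentials -/
private theorem pow_le_exp (N : ℕ) (u : ℝ) (hu : 0 ≤ u) :
    (1 + u) ^ N ≤ (N.factorial * 2 ^ N * Real.exp (1 / 2)) * Real.exp (u / 2) := by
  have h1 := Real.pow_div_factorial_le_exp ((1 + u) / 2) (by linarith) N
  rw [div_le_iff₀ (by positivity)] at h1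
  have h2 : (1 + u) ^ N = ((1 + u) / 2) ^ N * 2 ^ N := by
    rw [← mul_pow]
    congr 1
    ring
  have h3 : Real.exp ((1 + u) / 2) = Real.exp (1 / 2) * Real.exp (u / 2) := by
    rw [← Real.exp_add]
    congr 1
    ring
  rw [h2]
  calc ((1 + u) / 2) ^ N * 2 ^ N ≤ (Real.exp ((1 + u) / 2) * N.factorial) * 2 ^ N :=
        mul_le_mul_of_nonneg_right h1 (by positivity)
    _ = _ := by
        rw [h3]
        ring

theorem gs_VI' (h : FEq a F Q lam mu ε) (m : ℕ) (hm : 1 ≤ m) (η x : ℝ) (hη : 0 < η)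
    (hη1 : η < 1 / 2) (hx : 0 < x) :
    gs a m x = VI (fun t => F (-η + t * I) * Gamma (m - η + t * I)) (m - η) x := by
  have hm1 : (1 : ℝ) ≤ m := by exact_mod_cast hm
  obtain ⟨C1, hC1⟩ := F_strip h η hη hη1
  obtain ⟨C2, hC2⟩ := gamma_bound (m - η) (m + 2) (by linarith)
  have hpx : 0 < 2 * Real.pi * x := by positivity
  have hbase : (2 * (Real.pi : ℂ) * (x : ℂ)) = ((2 * Real.pi * x : ℝ) : ℂ) := by
    push_cast
    ring
  have hbase0 : (2 * (Real.pi : ℂ) * (x : ℂ)) ≠ 0 := by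
    rw [hbase]
    exact_mod_cast hpx.ne'
  -- the function
  set f : ℂ → ℂ := fun w => F (w - m) * Gamma w * (2 * (Real.pi : ℂ) * x) ^ (-w) with hf
  set L : ℝ := |Real.log (2 * Real.pi * x)| with hL
  set C : ℝ := |C1| * (|C2| * ((m + 4).factorial * 2 ^ (m + 4) * Real.exp (1 / 2))) *
    Real.exp ((m + 2) * L) with hC
  have hshift := vertical_shift f (m - η) (m + 2) (by linarith) (by
    intro w hw1 hw2
    have h1 : DifferentiableAt ℂ (fun w : ℂ => F (w - m)) w :=
      (h.diff _).comp w (differentiableAt_id.sub_const _)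
    have h2 : DifferentiableAt ℂ Gamma w := by
      refine Complex.differentiableAt_Gamma w (fun n hn => ?_)
      rw [hn] at hw1
      simp only [neg_re, natCast_re] at hw1
      have : (0 : ℝ) ≤ n := Nat.cast_nonneg n
      linarith
    have h3 : DifferentiableAt ℂ (fun w : ℂ => (2 * (Real.pi : ℂ) * x) ^ (-w)) w :=
      differentiableAt_id.neg.const_cpow (Or.inl hbase0)
    exact (h1.mul h2).mul h3) C 1 one_pos (by
    intro w hw1 hw2
    have hF := hC1 (w - m) (by simp only [sub_re, natCast_re]; linarith)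
    have him : (w - (m : ℂ)).im = w.im := by simp
    rw [him] at hF
    have hG := hC2 w.re w.im hw1 hw2
    rw [re_add_im] at hG
    have hu : 0 ≤ |w.im| := abs_nonneg _
    have hu1 : 1 ≤ 1 + |w.im| := by linarith
    have hGe : (1 + |w.im|) ^ (w.re - 1 / 2) ≤ (1 + |w.im|) ^ (m + 2) := by
      rw [← Real.rpow_natCast]
      refine Real.rpow_le_rpow_of_exponent_le hu1 ?_
      push_cast
      linarith
    have hG' : ‖Gamma w‖ ≤ |C2| * (1 + |w.im|) ^ (m + 2) * Real.exp (-(Real.pi / 2 * |w.im|)) := by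
      refine hG.trans ?_
      refine mul_le_mul_of_nonneg_right ?_ (Real.exp_pos _).le
      exact mul_le_mul (le_abs_self _) hGe (by positivity) (abs_nonneg _)
    have hF' : ‖F (w - m)‖ ≤ |C1| * (1 + |w.im|) ^ 2 :=
      hF.trans (mul_le_mul_of_nonneg_right (le_abs_self _) (by positivity))
    have hP : ‖(2 * (Real.pi : ℂ) * x) ^ (-w)‖ ≤ Real.exp ((m + 2) * L) := by
      rw [hbase, Complex.norm_cpow_eq_rpow_re_of_pos hpx, Real.rpow_def_of_pos hpx]
      apply Real.exp_le_exp.2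
      rw [neg_re]
      have h1 : Real.log (2 * Real.pi * x) * -w.re ≤ |Real.log (2 * Real.pi * x)| * |w.re| := by
        calc _ ≤ |Real.log (2 * Real.pi * x) * -w.re| := le_abs_self _
          _ = _ := by rw [abs_mul, abs_neg]
      have h2 : |w.re| ≤ m + 2 := by
        rw [abs_of_nonneg (by linarith)]
        exact hw2
      have h3 := mul_le_mul_of_nonneg_left h2 (abs_nonneg (Real.log (2 * Real.pi * x)))
      rw [hL]
      linarith
    have hpe := pow_le_exp (m + 4) |w.im| hu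
    have hexp : Real.exp (|w.im| / 2) * Real.exp (-(Real.pi / 2 * |w.im|)) ≤
        Real.exp (-(1 * |w.im|)) := by
      rw [← Real.exp_add]
      apply Real.exp_le_exp.2
      have := Real.pi_gt_three
      nlinarith
    rw [hf]
    simp only
    rw [norm_mul, norm_mul]
    calc ‖F (w - m)‖ * ‖Gamma w‖ * ‖(2 * (Real.pi : ℂ) * x) ^ (-w)‖
        ≤ (|C1| * (1 + |w.im|) ^ 2) * (|C2| * (1 + |w.im|) ^ (m + 2) *
            Real.exp (-(Real.pi / 2 * |w.im|))) * Real.exp ((m + 2) * L) := by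
          refine mul_le_mul (mul_le_mul hF' hG' (norm_nonneg _) (by positivity)) hP
            (norm_nonneg _) (by positivity)
      _ = |C1| * |C2| * Real.exp ((m + 2) * L) * ((1 + |w.im|) ^ (m + 4) *
            Real.exp (-(Real.pi / 2 * |w.im|))) := by
          have : (1 + |w.im|) ^ (m + 4) = (1 + |w.im|) ^ 2 * (1 + |w.im|) ^ (m + 2) := by
            rw [← pow_add]
            congr 1
            ring
          rw [this]
          ring
      _ ≤ |C1| * |C2| * Real.exp ((m + 2) * L) *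
            (((m + 4).factorial * 2 ^ (m + 4) * Real.exp (1 / 2)) * Real.exp (-(1 * |w.im|))) := by
          refine mul_le_mul_of_nonneg_left ?_ (by positivity)
          calc (1 + |w.im|) ^ (m + 4) * Real.exp (-(Real.pi / 2 * |w.im|))
              ≤ (((m + 4).factorial * 2 ^ (m + 4) * Real.exp (1 / 2)) * Real.exp (|w.im| / 2)) *
                Real.exp (-(Real.pi / 2 * |w.im|)) :=
                mul_le_mul_of_nonneg_right hpe (Real.exp_pos _).le
            _ = ((m + 4).factorial * 2 ^ (m + 4) * Real.exp (1 / 2)) *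
                (Real.exp (|w.im| / 2) * Real.exp (-(Real.pi / 2 * |w.im|))) := by ring
            _ ≤ _ := mul_le_mul_of_nonneg_left hexp (by positivity)
      _ = C * Real.exp (-(1 * |w.im|)) := by
          rw [hC]
          ring)
  have hgs := gs_VI h m hm (m + 2) x (by linarith) hx
  rw [hgs]
  unfold VI
  congr 1
  rw [hf] at hshift
  simp only at hshift
  have e1 : (∫ t : ℝ, F (((m + 2 : ℝ) : ℂ) - m + t * I) * Gamma (((m + 2 : ℝ) : ℂ) + t * I) *
      (2 * (Real.pi : ℂ) * x) ^ (-(((m + 2 : ℝ) : ℂ) + t * I : ℂ))) =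
      ∫ t : ℝ, F (((m + 2 : ℝ) : ℂ) + t * I - m) * Gamma (((m + 2 : ℝ) : ℂ) + t * I) *
      (2 * (Real.pi : ℂ) * x) ^ (-(((m + 2 : ℝ) : ℂ) + t * I)) := by
    congr 1
    funext t
    have : (((m + 2 : ℝ) : ℂ) - m + t * I) = (((m + 2 : ℝ) : ℂ) + t * I - m) := by ring
    rw [this]
  rw [e1, ← hshift]
  congr 1
  funext t
  have e2 : (((m - η : ℝ) : ℂ) + t * I - m) = -η + t * I := by
    push_cast
    ring
  have e3 : (((m - η : ℝ) : ℂ) + t * I) = m - η + t * I := by
    push_cast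
    ring
  rw [e2, e3]

end Pool.Agent.H11.SC
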