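import Mathlib
import Pool.Agent.H11.SC.Defs
import Pool.Agent.H11.SC.MelX
import Pool.Agent.H11.SC.Edge

/-!
# MAINT: evaluation of the main terms

`conj (F (1 + η + it)) = ∑ conj(a n) n^(-(1 + η - it))`.  Termwise, with `w = 1 + η + k - it`:
`B^(1+2η-2it) = B^(-1-2k) B^(2w)`, `n^(-(1+η-it)) = n^k n^(-w)`,
`(2πx)^(-(m-η+it)) = (2πx)^(-(1+k+m)) (2πx)^w`.  So the term is
`conj(a n) n^k B^(-1-2k) (2πx)^(-(1+k+m)) * (1/2π) ∫ Γ(w) (n/(2πx B^2))^(-w) dt`
and `t ↦ -t` together with `mellin_exp (1+η+k) (n/(2πxB^2))` gives `exp (-n/(2πxB^2))`,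
`n/(2πxB^2) = 2πn * (1/(4π^2 B^2 x))`.  Interchange of sum and integral: norms
`‖a n‖ n^(-1-η) * const * ‖Γ(1+η+k-it)‖`.  (`k ≥ 1` kills the term `n = 0` of `gs`.)
-/

set_option autoImplicit false

namespace Pool.Agent.H11.SC

open Complex Pool.Agent.H11.Selberg

variable {a : ℕ → ℂ} {F : ℂ → ℂ} {Q : ℝ} {r : ℕ} {lam : Fin r → ℝ} {mu : Fin r → ℂ} {ε : ℂ}

/-- powers of positive reals as exponentials -/
private theorem cpow_exp {b : ℝ} (hb : 0 < b) (z : ℂ) :
    (b : ℂ) ^ z = cexp ((Real.log b : ℂ) * z) := by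
  rw [cpow_def_of_ne_zero (by exact_mod_cast hb.ne'), ofReal_log hb.le]

private theorem pow_exp {b : ℝ} (hb : 0 < b) (j : ℕ) :
    (b : ℂ) ^ j = cexp ((Real.log b : ℂ) * j) := by
  rw [← cpow_exp hb, cpow_natCast]

/-- the termwise identity -/
private theorem term_id (B η x : ℝ) (k m : ℕ) (hB : 0 < B) (hx : 0 < x) (n : ℕ) (hn : n ≠ 0)
    (A G : ℂ) (t : ℝ) :
    (B : ℂ) ^ (1 + 2 * η - 2 * t * I : ℂ) * G * (A / (n : ℂ) ^ (1 + η - t * I : ℂ)) *
        (2 * (Real.pi : ℂ) * x) ^ (-((((m : ℝ) - η : ℝ) : ℂ) + t * I)) =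
      A * (n : ℂ) ^ k * (((B ^ (1 + 2 * k) : ℝ) : ℂ)⁻¹ *
        (((2 * Real.pi * x) ^ (1 + k + m) : ℝ) : ℂ)⁻¹) *
        (G * (((n : ℝ) / (2 * Real.pi * x * B ^ 2) : ℝ) : ℂ) ^
          (-(((1 + η + k : ℝ) : ℂ) - t * I))) := by
  have hn0 : (0 : ℝ) < n := by exact_mod_cast Nat.pos_of_ne_zero hn
  have hpi := Real.pi_pos
  have h2 : (0 : ℝ) < 2 * Real.pi * x := by positivity
  have hX : (0 : ℝ) < (n : ℝ) / (2 * Real.pi * x * B ^ 2) := by positivity
  have hlogX : Real.log ((n : ℝ) / (2 * Real.pi * x * B ^ 2)) =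
      Real.log n - Real.log (2 * Real.pi * x) - 2 * Real.log B := by
    rw [Real.log_div hn0.ne' (by positivity), Real.log_mul h2.ne' (by positivity), Real.log_pow]
    push_cast
    ring
  have e1 : (n : ℂ) = ((n : ℝ) : ℂ) := by push_cast; rfl
  have e2 : (2 * (Real.pi : ℂ) * x) = ((2 * Real.pi * x : ℝ) : ℂ) := by push_cast; rfl
  rw [e2, e1, cpow_exp hB, cpow_exp h2, cpow_exp hn0, pow_exp hn0, cpow_exp hX, hlogX,
    ofReal_pow, ofReal_pow, pow_exp hB, pow_exp h2, ← Complex.exp_neg, ← Complex.exp_neg,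
    div_eq_mul_inv, ← Complex.exp_neg]
  rw [show ∀ p q s u : ℂ, p * G * (A * q) * s = (A * G) * (p * q * s) from by intros; ring]
  rw [show ∀ p q s u v : ℂ, A * p * (q * s) * (G * u) = (A * G) * (p * q * s * u) from by
    intros; ring]
  · rw [← Complex.exp_add, ← Complex.exp_add, ← Complex.exp_add, ← Complex.exp_add,
      ← Complex.exp_add]
    congr 2
    push_cast
    ring
  all_goals exact 0

/-- the norm of the real power -/
private theorem norm_pow (X : ℝ) (hX : 0 < X) (c t : ℝ) :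
    ‖(X : ℂ) ^ (-((c : ℂ) - t * I))‖ = X ^ (-c) := by
  rw [norm_cpow_eq_rpow_re_of_pos hX]
  simp

theorem main_term (h : FEq a F Q lam mu ε) (B η x : ℝ) (k m : ℕ) (hk : 1 ≤ k) (hB : 0 < B)
    (hη : 0 < η) (hx : 0 < x) :
    VI (fun t => (B : ℂ) ^ (1 + 2 * η - 2 * t * I : ℂ) * Gamma (1 + η - t * I + k) *
        (starRingEnd ℂ) (F (1 + η + t * I))) (m - η) x =
      ((B ^ (1 + 2 * k) : ℝ) : ℂ)⁻¹ * (((2 * Real.pi * x) ^ (1 + k + m) : ℝ) : ℂ)⁻¹ *
        gs (cj a) k (1 / (4 * Real.pi ^ 2 * B ^ 2 * x) : ℝ) := by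
  have hpi := Real.pi_pos
  set c : ℝ := 1 + η + k with hc
  have hcpos : 0 < c := by positivity
  obtain ⟨A0, hA0⟩ : ∃ A0 : ℂ, A0 =
    ((B ^ (1 + 2 * k) : ℝ) : ℂ)⁻¹ * (((2 * Real.pi * x) ^ (1 + k + m) : ℝ) : ℂ)⁻¹ := ⟨_, rfl⟩
  let X : ℕ → ℝ := fun n => (n : ℝ) / (2 * Real.pi * x * B ^ 2)
  have hXpos : ∀ n : ℕ, n ≠ 0 → 0 < X n := by
    intro n hn
    have : (0 : ℝ) < n := by exact_mod_cast Nat.pos_of_ne_zero hn
    simp only [X]
    positivity
  let T : ℕ → ℝ → ℂ := fun n t => (starRingEnd ℂ) (a n) * (n : ℂ) ^ k * A0 *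
    (Gamma ((c : ℂ) - t * I) * (X n : ℂ) ^ (-((c : ℂ) - t * I)))
  have hT0 : ∀ t, T 0 t = 0 := by
    intro t
    simp only [T]
    rw [Nat.cast_zero, zero_pow (by omega)]
    simp
  -- integrability of the Gamma function on the vertical line
  have hG : MeasureTheory.Integrable (fun t : ℝ => ‖Gamma ((c : ℂ) - t * I)‖) := by
    have h1 := (gamma_int c hcpos 0).comp_neg
    refine h1.congr (Filter.Eventually.of_forall (fun t => ?_))
    simp only [Real.rpow_zero, one_mul]
    congr 2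
    push_cast
    ring
  have hGc : Continuous (fun t : ℝ => Gamma ((c : ℂ) - t * I)) := by
    rw [continuous_iff_continuousAt]
    intro t
    have h1 : ContinuousAt Gamma ((c : ℂ) - t * I) := by
      apply (differentiableAt_Gamma _ _).continuousAt
      intro j hj
      have := congrArg Complex.re hj
      simp at this
      have hj0 : (0 : ℝ) ≤ j := by positivity
      linarith
    exact ContinuousAt.comp (f := fun t : ℝ => (c : ℂ) - t * I) h1 (by fun_prop)
  -- norms of the terms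
  have hnorm : ∀ n : ℕ, n ≠ 0 → ∀ t : ℝ, ‖T n t‖ =
      (‖a n‖ / (n : ℝ) ^ (1 + η)) * (‖A0‖ * (2 * Real.pi * x * B ^ 2) ^ c *
        ‖Gamma ((c : ℂ) - t * I)‖) := by
    intro n hn t
    have hn0 : (0 : ℝ) < n := by exact_mod_cast Nat.pos_of_ne_zero hn
    simp only [T]
    rw [norm_mul, norm_mul, norm_mul, norm_mul, norm_pow (X n) (hXpos n hn), RCLike.norm_conj,
      _root_.norm_pow, Complex.norm_natCast]
    have h1 : (X n) ^ (-c) = (n : ℝ) ^ (-c) * (2 * Real.pi * x * B ^ 2) ^ c := by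
      simp only [X]
      rw [Real.div_rpow hn0.le (by positivity), Real.rpow_neg (by positivity : (0:ℝ) ≤
        2 * Real.pi * x * B ^ 2)]
      rw [div_inv_eq_mul]
    have h2 : (n : ℝ) ^ (-c) = ((n : ℝ) ^ (1 + η))⁻¹ * ((n : ℝ) ^ k)⁻¹ := by
      rw [Real.rpow_neg hn0.le, hc, Real.rpow_add hn0, Real.rpow_natCast, mul_inv]
    rw [h1, h2]
    have h3 : (n : ℝ) ^ k ≠ 0 := by positivity
    field_simp
  -- the Dirichlet series
  have hsum0 : Summable (fun n : ℕ => ‖a n‖ / (n : ℝ) ^ (1 + η)) := by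
    have h1 := (h.summable (1 + η) (by simp [hη])).norm
    refine Summable.of_nonneg_of_le (fun n => by positivity) (fun n => ?_)
      (h1.add (summable_of_ne_finset_zero (s := {0}) (f := fun n : ℕ => if n = 0 then
        ‖a n‖ / (n : ℝ) ^ (1 + η) else 0) (fun n hn => by
          rw [Finset.mem_singleton] at hn
          exact if_neg hn)))
    by_cases hn : n = 0
    · rw [if_pos hn]
      have : (0 : ℝ) ≤ ‖LSeries.term a (1 + η) n‖ := norm_nonneg _
      linarith
    · rw [if_neg hn, add_zero, LSeries.norm_term_eq, if_neg hn]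
      simp
  have hint : ∀ n, MeasureTheory.Integrable (T n) := by
    intro n
    by_cases hn : n = 0
    · subst hn
      have : T 0 = fun _ => 0 := funext hT0
      rw [this]
      exact MeasureTheory.integrable_zero _ _ _
    · have h1 : Continuous (T n) := by
        have hX0 : (X n : ℂ) ≠ 0 := by exact_mod_cast (hXpos n hn).ne'
        have h2 : Continuous (fun t : ℝ => (X n : ℂ) ^ (-((c : ℂ) - t * I))) := by
          refine Continuous.const_cpow (by fun_prop) (Or.inl hX0)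
        simp only [T]
        exact continuous_const.mul (hGc.mul h2)
      refine MeasureTheory.Integrable.mono' (g := fun t : ℝ =>
        (‖a n‖ / (n : ℝ) ^ (1 + η)) * (‖A0‖ * (2 * Real.pi * x * B ^ 2) ^ c *
        ‖Gamma ((c : ℂ) - t * I)‖)) ((hG.const_mul _).const_mul _) h1.aestronglyMeasurable
        (Filter.Eventually.of_forall (fun t => (hnorm n hn t).le))
  have hsumint : Summable (fun n => ∫ t, ‖T n t‖) := by
    have h1 : ∀ n, ∫ t, ‖T n t‖ ≤ (‖a n‖ / (n : ℝ) ^ (1 + η)) *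
        ∫ t : ℝ, (‖A0‖ * (2 * Real.pi * x * B ^ 2) ^ c * ‖Gamma ((c : ℂ) - t * I)‖) := by
      intro n
      rw [← MeasureTheory.integral_const_mul]
      by_cases hn : n = 0
      · subst hn
        simp only [hT0, norm_zero, MeasureTheory.integral_zero]
        apply MeasureTheory.integral_nonneg
        intro t
        have : (0 : ℝ) ≤ 2 * Real.pi * x * B ^ 2 := by positivity
        positivity
      · refine le_of_eq ?_
        congr 1
        funext t
        exact hnorm n hn t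
    refine Summable.of_nonneg_of_le (fun n => MeasureTheory.integral_nonneg
      (fun t => norm_nonneg _)) h1 (hsum0.mul_right _)
  -- the integrals of the terms
  have hTint : ∀ n, ((1 / (2 * Real.pi) : ℝ) : ℂ) * ∫ t, T n t =
      (starRingEnd ℂ) (a n) * (n : ℂ) ^ k * A0 * cexp (-(X n : ℂ)) := by
    intro n
    by_cases hn : n = 0
    · subst hn
      simp only [hT0, MeasureTheory.integral_zero, mul_zero]
      rw [Nat.cast_zero, zero_pow (by omega)]
      simp
    · have h1 := mellin_exp c (X n) hcpos (hXpos n hn)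
      have h2 : ∫ t : ℝ, Gamma (c + t * I) * (X n : ℂ) ^ (-(c + t * I : ℂ)) =
          ∫ t : ℝ, Gamma ((c : ℂ) - t * I) * (X n : ℂ) ^ (-((c : ℂ) - t * I)) := by
        rw [← MeasureTheory.integral_neg_eq_self (fun t : ℝ => Gamma (c + t * I) *
          (X n : ℂ) ^ (-(c + t * I : ℂ)))]
        congr 1
        funext t
        congr 2 <;> push_cast <;> ring
      rw [h2] at h1
      simp only [T]
      rw [MeasureTheory.integral_const_mul, ← h1]
      ring
  -- the pointwise sum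
  have hpt : ∀ t : ℝ, (B : ℂ) ^ (1 + 2 * η - 2 * t * I : ℂ) * Gamma (1 + η - t * I + k) *
        (starRingEnd ℂ) (F (1 + η + t * I)) *
        (2 * (Real.pi : ℂ) * x) ^ (-((((m : ℝ) - η : ℝ) : ℂ) + t * I)) = ∑' n, T n t := by
    intro t
    have hre : (1 : ℝ) < (1 + (η : ℂ) + t * I).re := by simp [hη]
    rw [h.eqL _ hre]
    have e0 : (starRingEnd ℂ) (LSeries a (1 + η + t * I)) =
        ∑' n, (starRingEnd ℂ) (LSeries.term a (1 + η + t * I) n) := by
      unfold LSeries
      exact Complex.conj_tsum _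
    rw [e0, ← tsum_mul_left, ← tsum_mul_right]
    refine tsum_congr (fun n => ?_)
    by_cases hn : n = 0
    · subst hn
      rw [hT0]
      simp
    · rw [LSeries.term_of_ne_zero hn, map_div₀]
      have e1 : (starRingEnd ℂ) ((n : ℂ) ^ (1 + (η : ℂ) + t * I)) =
          (n : ℂ) ^ (1 + η - t * I : ℂ) := by
        have h1 := Complex.cpow_conj (n : ℂ) (1 + (η : ℂ) + t * I) (by
          rw [Complex.natCast_arg]
          exact hpi.ne)
        rw [Complex.conj_natCast] at h1
        rw [← h1]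
        congr 1
        simp [sub_eq_add_neg]
      have e2 : Gamma (1 + η - t * I + k) = Gamma ((c : ℂ) - t * I) := by
        congr 1
        rw [hc]
        push_cast
        ring
      rw [e1, e2, term_id B η x k m hB hx n hn, ← hA0]
  rw [← hA0]
  unfold VI
  simp only [hpt]
  rw [← (MeasureTheory.hasSum_integral_of_summable_integral_norm hint hsumint).tsum_eq,
    ← tsum_mul_left]
  unfold gs cj
  rw [← tsum_mul_left]
  refine tsum_congr (fun n => ?_)
  rw [hTint]
  have e3 : cexp (-(X n : ℂ)) = cexp (-(2 * (Real.pi : ℂ) * n *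
      ((1 / (4 * Real.pi ^ 2 * B ^ 2 * x) : ℝ) : ℂ))) := by
    congr 2
    simp only [X]
    have : ((n : ℝ) / (2 * Real.pi * x * B ^ 2) : ℝ) =
        2 * Real.pi * n * (1 / (4 * Real.pi ^ 2 * B ^ 2 * x)) := by
      field_simp
      ring
    rw [this]
    push_cast
    ring
  rw [e3]
  ring

end Pool.Agent.H11.SC
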