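import Mathlib
import Pool.Agent.H11.SC.Defs
import Pool.Agent.H11.SC.Edge
import Pool.Agent.H11.SC.GamB

/-!
# RHO: the remainder `rho` on the line `Re s = -η`

`B = Bp Q lam`, `s = -η + it`.  Let `G(t) = B^(1+2η-2it) Γ(1+η-it+m)/Γ(m-η+it)`.  Apply
`gamma_ratio` with one factor (`Fin 1`, `lam = 1`, `mu = m` (real), `Q = B`, so `Bp = B`) and
`σ = -η`: `conj Γ(1 + η + it + m) = Γ(1 + η - it + m)`, so
`G(t) = ω_m E(t) (1 + K_m I/t + r_m)`, `E = EE B (-η) t`, for `t ≥ T0`.  By `F_asymp h (-η)`,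
`F(s) = ω_F E(t) (1 + K_F I/t) conj F(1+η+it) + O(t^(-1+2η))` (`F` bounded at `Re = 1+η`).
Put `ω = ω_F/ω_m`, `κ = K_F - K_m`.  Since `Γ(1+η-it+m) = (m+η-it) Γ(η-it+m)` and
`1/(m+η-it) = I/t + O(t^(-2))`,
`(Γ(1+η-it+m) + κ Γ(η-it+m)) B^(..)/Γ(m-η+it) = G(t) (1 + κ/(m+η-it)) = G(t)(1 + κ I/t + O(t^(-2)))
 = ω_m E(t) (1 + K_F I/t + O(t^(-2)))`.
So `rho = O(|E| t^(-2)) + O(t^(-1+2η)) = O(t^(2η-1))` for `t ≥ T0` (`|E| = (Bt)^(1+2η)`).
For `0 ≤ t ≤ T0`: `rho` is continuous (`Γ(m-η+it) ≠ 0`, no poles because `m ≥ 2`), so bounded.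
For `t ≤ 0`: `‖F(-η+it)‖ ≤ C(1+|t|)^(1+2η)` (`F_edge`), `F(1+η+it)` bounded, and
`‖G(t)(1 + κ/(m+η-it))‖ ≤ C ‖G(t)‖`, `‖G(t)‖ = ‖G(-t)‖` (all Gamma factors are conjugated),
`‖G(-t)‖ ≤ C (1+|t|)^(1+2η)` by the asymptotics for large `-t` and continuity otherwise.
-/

set_option autoImplicit false

namespace Pool.Agent.H11.SC

open Complex Pool.Agent.H11.Selberg

variable {a : ℕ → ℂ} {F : ℂ → ℂ} {Q : ℝ} {k : ℕ} {lam : Fin k → ℝ} {mu : Fin k → ℂ} {ε : ℂ}

/-- from an asymptotic bound and continuity to a bound for all `t ≥ 0` -/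
theorem bound_of_cont {g : ℝ → ℝ} (hg : Continuous g) (e T D : ℝ)
    (h : ∀ t : ℝ, T ≤ t → 0 ≤ t → g t ≤ D * (1 + t) ^ e) :
    ∃ C : ℝ, ∀ t : ℝ, 0 ≤ t → g t ≤ C * (1 + t) ^ e := by
  have hc : Continuous (fun t : ℝ => g t / (1 + |t|) ^ e) := by
    refine hg.div ?_ ?_
    · refine Continuous.rpow_const (by fun_prop) ?_
      intro t
      left
      have := abs_nonneg t
      positivity
    · intro t
      have := abs_nonneg t
      positivity
  obtain ⟨C1, hC1⟩ := (isCompact_Icc (a := (0 : ℝ)) (b := T)).exists_bound_of_continuousOn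
    (f := fun t : ℝ => g t / (1 + |t|) ^ e) hc.continuousOn
  refine ⟨max C1 D, fun t ht => ?_⟩
  have hpos : 0 < (1 + t) ^ e := by positivity
  by_cases hT : T ≤ t
  · exact (h t hT ht).trans (mul_le_mul_of_nonneg_right (le_max_right _ _) hpos.le)
  · have h1 := hC1 t ⟨ht, (not_le.1 hT).le⟩
    rw [abs_of_nonneg ht] at h1
    have h2 : g t / (1 + t) ^ e ≤ C1 := (le_abs_self _).trans h1
    have h3 : g t ≤ C1 * (1 + t) ^ e := by
      rwa [div_le_iff₀ hpos] at h2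
    exact h3.trans (mul_le_mul_of_nonneg_right (le_max_left _ _) hpos.le)

/-- the quotient of Gamma factors of the target function -/
noncomputable def Gf (B η : ℝ) (m : ℕ) (t : ℝ) : ℂ :=
  (B : ℂ) ^ (1 + 2 * η - 2 * t * I : ℂ) * (Gamma (1 + η - t * I + m) / Gamma (m - η + t * I))

theorem Bp_pos_rho (hQ : 0 < Q) (hl : ∀ j, 0 < lam j) : 0 < Bp Q lam := by
  unfold Bp
  exact mul_pos hQ (Finset.prod_pos fun j _ => Real.rpow_pos_of_pos (hl j) _)

theorem Gamma_continuous_of {f : ℝ → ℂ} (hf : Continuous f) (h : ∀ t, 0 < (f t).re) :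
    Continuous (fun t => Gamma (f t)) := by
  rw [continuous_iff_continuousAt]
  intro t
  have h1 : ContinuousAt Gamma (f t) := by
    refine (differentiableAt_Gamma (f t) ?_).continuousAt
    intro n hn
    have h2 := h t
    rw [hn] at h2
    simp at h2
    have : (0 : ℝ) ≤ n := Nat.cast_nonneg n
    linarith
  exact ContinuousAt.comp (f := f) h1 hf.continuousAt

theorem Gf_cont {B : ℝ} (hB : 0 < B) (m : ℕ) (hm : 2 ≤ m) (η : ℝ) (hη : 0 < η)
    (hη1 : η < 1 / 2) : Continuous (Gf B η m) := by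
  have hm' : (2 : ℝ) ≤ m := by exact_mod_cast hm
  unfold Gf
  refine Continuous.mul ?_ (Continuous.div ?_ ?_ ?_)
  · refine Continuous.const_cpow (by fun_prop) (Or.inl ?_)
    exact_mod_cast hB.ne'
  · refine Gamma_continuous_of (by fun_prop) ?_
    intro t
    simp
    linarith
  · refine Gamma_continuous_of (by fun_prop) ?_
    intro t
    simp
    linarith
  · intro t
    refine Gamma_ne_zero_of_re_pos ?_
    simp
    linarith

theorem Gf_neg {B : ℝ} (hB : 0 < B) (m : ℕ) (η : ℝ) (t : ℝ) : ‖Gf B η m (-t)‖ = ‖Gf B η m t‖ := by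
  unfold Gf
  rw [norm_mul, norm_mul, norm_div, norm_div, norm_cpow_eq_rpow_re_of_pos hB,
    norm_cpow_eq_rpow_re_of_pos hB]
  have h1 : (1 + 2 * η - 2 * ((-t : ℝ) : ℂ) * I : ℂ).re = (1 + 2 * η - 2 * t * I : ℂ).re := by
    simp
  have h2 : Gamma (1 + η - ((-t : ℝ) : ℂ) * I + m) = (starRingEnd ℂ) (Gamma (1 + η - t * I + m)) := by
    rw [← Gamma_conj]
    congr 1
    simp
  have h3 : Gamma (m - η + ((-t : ℝ) : ℂ) * I) = (starRingEnd ℂ) (Gamma (m - η + t * I)) := by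
    rw [← Gamma_conj]
    congr 1
    simp
  rw [h1, h2, h3, RCLike.norm_conj, RCLike.norm_conj]

theorem Gf_asymp {B : ℝ} (hB : 0 < B) (m : ℕ) (η : ℝ) :
    ∃ (ω K : ℂ) (C T0 : ℝ), ‖ω‖ = 1 ∧ 0 < T0 ∧ ∀ t : ℝ, T0 ≤ t → ∃ r : ℂ,
      Gf B η m t = ω * EE B (-η) t * (1 + K * I / t + r) ∧ ‖r‖ ≤ C / t ^ 2 := by
  obtain ⟨ω, K, C, T0, h1, h2, h3⟩ := gamma_ratio B (fun _ : Fin 1 => (1 : ℝ))
    (fun _ : Fin 1 => (m : ℂ)) hB (fun _ => one_pos) (by simp) (by simp) (-η)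
  refine ⟨ω, K, C, T0, h1, h2, fun t ht => ?_⟩
  obtain ⟨r, hr1, hr2⟩ := h3 t ht
  refine ⟨r, ?_, hr2⟩
  have hBp : Bp B (fun _ : Fin 1 => (1 : ℝ)) = B := by simp [Bp]
  rw [hBp] at hr1
  rw [← hr1]
  unfold Gf
  simp only [Fin.prod_univ_one]
  have e1 : (1 + 2 * η - 2 * t * I : ℂ) = (1 - 2 * (((-η : ℝ) : ℂ) + t * I) : ℂ) := by
    push_cast
    ring
  have e2 : (m - η + t * I : ℂ) = (((1 : ℝ) : ℂ) * (((-η : ℝ) : ℂ) + t * I) + m) := by
    push_cast
    ring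
  have e3 : (starRingEnd ℂ) (Gamma (((1 : ℝ) : ℂ) * (1 - ((-η : ℝ) : ℂ) + t * I) + m)) =
      Gamma (1 + η - t * I + m) := by
    rw [← Gamma_conj]
    congr 1
    simp
    ring
  rw [e3, e1, e2]

theorem Gf_bound {B : ℝ} (hB : 0 < B) (m : ℕ) (hm : 2 ≤ m) (η : ℝ) (hη : 0 < η)
    (hη1 : η < 1 / 2) : ∃ C : ℝ, ∀ t : ℝ, ‖Gf B η m t‖ ≤ C * (1 + |t|) ^ (1 + 2 * η) := by
  obtain ⟨ω, K, C, T0, hω, hT0, h⟩ := Gf_asymp hB m η
  have hC : 0 ≤ C := by
    obtain ⟨r, -, hr⟩ := h T0 le_rfl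
    have h1 : 0 ≤ C / T0 ^ 2 := (norm_nonneg _).trans hr
    have h2 : 0 < T0 ^ 2 := by positivity
    by_contra hneg
    have := div_neg_of_neg_of_pos (not_le.1 hneg) h2
    linarith
  have h4 : ∀ t : ℝ, T0 ≤ t → 0 ≤ t → ‖Gf B η m t‖ ≤
      (B ^ (1 + 2 * η) * (1 + ‖K‖ / T0 + C / T0 ^ 2)) * (1 + t) ^ (1 + 2 * η) := by
    intro t ht ht0
    obtain ⟨r, hr1, hr2⟩ := h t ht
    have htpos : 0 < t := hT0.trans_le ht
    rw [hr1, norm_mul, norm_mul, hω, one_mul, norm_EE _ _ _ hB htpos]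
    have e1 : (B * t) ^ (1 - 2 * -η) = B ^ (1 + 2 * η) * t ^ (1 + 2 * η) := by
      rw [← Real.mul_rpow hB.le ht0]
      congr 1
      ring
    rw [e1]
    have h5 : ‖1 + K * I / t + r‖ ≤ 1 + ‖K‖ / T0 + C / T0 ^ 2 := by
      have h6 : ‖(1 : ℂ) + K * I / t + r‖ ≤ ‖(1 : ℂ)‖ + ‖K * I / t‖ + ‖r‖ := norm_add₃_le
      have h7 : ‖K * I / t‖ = ‖K‖ / t := by
        rw [norm_div, norm_mul, norm_I, mul_one, norm_real, Real.norm_of_nonneg ht0]
      have h8 : ‖K‖ / t ≤ ‖K‖ / T0 := div_le_div_of_nonneg_left (norm_nonneg _) hT0 ht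
      have h9 : C / t ^ 2 ≤ C / T0 ^ 2 :=
        div_le_div_of_nonneg_left hC (by positivity) (by gcongr)
      rw [h7, norm_one] at h6
      linarith
    have h10 : t ^ (1 + 2 * η) ≤ (1 + t) ^ (1 + 2 * η) :=
      Real.rpow_le_rpow ht0 (by linarith) (by linarith)
    have hBe : 0 < B ^ (1 + 2 * η) := Real.rpow_pos_of_pos hB _
    calc B ^ (1 + 2 * η) * t ^ (1 + 2 * η) * ‖1 + K * I / t + r‖
        ≤ B ^ (1 + 2 * η) * (1 + t) ^ (1 + 2 * η) * (1 + ‖K‖ / T0 + C / T0 ^ 2) := by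
          gcongr
      _ = _ := by ring
  obtain ⟨C1, hC1⟩ := bound_of_cont (Gf_cont hB m hm η hη hη1).norm (1 + 2 * η) T0 _ h4
  refine ⟨C1, fun t => ?_⟩
  have h5 := hC1 |t| (abs_nonneg t)
  rcases abs_choice t with h6 | h6
  · rw [h6] at h5 ⊢
    exact h5
  · rw [h6, Gf_neg hB] at h5
    rw [h6]
    exact h5

theorem rho_eq {B : ℝ} (m : ℕ) (hm : 2 ≤ m) (η : ℝ) (hη : 0 < η) (ω κ : ℂ) (t : ℝ) :
    rho F B η m ω κ t = F (-η + t * I) -
      ω * Gf B η m t * (1 + κ / (m + η - t * I)) * (starRingEnd ℂ) (F (1 + η + t * I)) := by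
  have hm' : (2 : ℝ) ≤ m := by exact_mod_cast hm
  have h0 : (η - t * I + m : ℂ) ≠ 0 := by
    intro h1
    have h2 := congrArg Complex.re h1
    simp at h2
    linarith
  have h1 : Gamma (1 + η - t * I + m) = (η - t * I + m) * Gamma (η - t * I + m) := by
    rw [← Gamma_add_one _ h0]
    congr 1
    ring
  have h0' : (m + η - t * I : ℂ) ≠ 0 := by
    intro h2
    apply h0
    rw [← h2]
    ring
  have h3 : (Gamma (1 + η - t * I + m) + κ * Gamma (η - t * I + m)) =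
      Gamma (1 + η - t * I + m) * (1 + κ / (m + η - t * I)) := by
    rw [h1]
    have h4 : (η - t * I + m : ℂ) = m + η - t * I := by ring
    rw [h4]
    field_simp
  unfold rho Gf
  rw [h3]
  ring

theorem rho_continuous (h : FEq a F Q lam mu ε) (m : ℕ) (hm : 2 ≤ m) (η : ℝ) (hη : 0 < η)
    (hη1 : η < 1 / 2) (ω κ : ℂ) : Continuous (rho F (Bp Q lam) η m ω κ) := by
  have hm' : (2 : ℝ) ≤ m := by exact_mod_cast hm
  have hB := Bp_pos_rho (lam := lam) h.Qpos h.lampos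
  have hF := h.diff.continuous
  have h1 : rho F (Bp Q lam) η m ω κ = fun t : ℝ => F (-η + t * I) -
      ω * Gf (Bp Q lam) η m t * (1 + κ / (m + η - t * I)) *
        (starRingEnd ℂ) (F (1 + η + t * I)) := by
    funext t
    exact rho_eq m hm η hη ω κ t
  rw [h1]
  have h2 := Gf_cont hB m hm η hη hη1
  have h3 : Continuous (fun t : ℝ => (1 + κ / (m + η - t * I) : ℂ)) := by
    refine continuous_const.add (Continuous.div continuous_const (by fun_prop) ?_)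
    intro t h4
    have h5 := congrArg Complex.re h4
    simp at h5
    linarith
  have h4 : Continuous (fun t : ℝ => F (-η + t * I)) := hF.comp (by fun_prop)
  have h5 : Continuous (fun t : ℝ => (starRingEnd ℂ) (F (1 + η + t * I))) :=
    Complex.continuous_conj.comp (hF.comp (by fun_prop))
  exact h4.sub (((continuous_const.mul h2).mul h3).mul h5)

theorem rho_bound (h : FEq a F Q lam mu ε) (m : ℕ) (hm : 2 ≤ m) (η : ℝ) (hη : 0 < η)
    (hη1 : η < 1 / 2) :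
    ∃ (ω κ : ℂ) (C : ℝ), ‖ω‖ = 1 ∧
      (∀ t : ℝ, 0 ≤ t → ‖rho F (Bp Q lam) η m ω κ t‖ ≤ C * (1 + t) ^ (2 * η - 1)) ∧
      (∀ t : ℝ, t ≤ 0 → ‖rho F (Bp Q lam) η m ω κ t‖ ≤ C * (1 + |t|) ^ (1 + 2 * η)) := by
  have hm' : (2 : ℝ) ≤ m := by exact_mod_cast hm
  set B := Bp Q lam with hBdef
  have hB : 0 < B := Bp_pos_rho (lam := lam) h.Qpos h.lampos
  obtain ⟨ωm, Km, Cm, Tm, hωm, hTm, hG⟩ := Gf_asymp hB m η
  obtain ⟨ωF, KF, CF, TF, hωF, hTF, hFa⟩ := F_asymp h (-η)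
  obtain ⟨M, hM⟩ := F_right h η hη
  obtain ⟨CE, hCE⟩ := F_edge h η hη
  obtain ⟨CG, hCG⟩ := Gf_bound hB m hm η hη hη1
  have hM0 : 0 ≤ M := (norm_nonneg _).trans (hM (1 + η) (by simp))
  have hMt : ∀ t : ℝ, ‖F (1 + η + t * I)‖ ≤ M := fun t => hM _ (by simp)
  have hωm0 : ωm ≠ 0 := by
    intro h0
    rw [h0, norm_zero] at hωm
    exact zero_ne_one hωm
  set κ := KF - Km with hκ
  set ω := ωF / ωm with hω
  have hω1 : ‖ω‖ = 1 := by rw [hω, norm_div, hωm, hωF, div_one]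
  -- the estimate for large `t`
  have hCm : 0 ≤ Cm := by
    obtain ⟨r, -, hr⟩ := hG Tm le_rfl
    have h1 : 0 ≤ Cm / Tm ^ 2 := (norm_nonneg _).trans hr
    have h2 : 0 < Tm ^ 2 := by positivity
    by_contra hneg
    have := div_neg_of_neg_of_pos (not_le.1 hneg) h2
    linarith
  set D := ‖κ‖ * (m + 1) + ‖Km‖ * ‖κ‖ + Cm * (1 + ‖κ‖) with hD
  have hD0 : 0 ≤ D := by positivity
  set T := max 1 (max Tm TF) with hT
  have hlarge : ∀ t : ℝ, T ≤ t → 0 ≤ t → ‖rho F B η m ω κ t‖ ≤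
      ((|CF| * M + B ^ (1 + 2 * η) * D * M) * 2) * (1 + t) ^ (2 * η - 1) := by
    intro t ht _
    have ht1 : 1 ≤ t := (le_max_left _ _).trans ht
    have htm : Tm ≤ t := ((le_max_left _ _).trans (le_max_right _ _)).trans ht
    have htF : TF ≤ t := ((le_max_right _ _).trans (le_max_right _ _)).trans ht
    have htpos : 0 < t := by linarith
    have htc : (t : ℂ) ≠ 0 := by exact_mod_cast htpos.ne'
    obtain ⟨r, hr1, hr2⟩ := hG t htm
    have hF1 := hFa t htF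
    have hden : (m + η - t * I : ℂ) ≠ 0 := by
      intro h2
      have h3 := congrArg Complex.re h2
      simp at h3
      linarith
    -- norm of the denominator
    have hdn : t ≤ ‖(m + η - t * I : ℂ)‖ := by
      have h1 := Complex.abs_im_le_norm (m + η - t * I : ℂ)
      have h2 : (m + η - t * I : ℂ).im = -t := by simp
      rw [h2, abs_neg, abs_of_pos htpos] at h1
      exact h1
    have hinv : ‖(1 : ℂ) / (m + η - t * I)‖ ≤ 1 / t := by
      rw [norm_div, norm_one]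
      exact one_div_le_one_div_of_le htpos hdn
    -- the key algebraic identity
    set δ : ℂ := (1 : ℂ) / (m + η - t * I) with hδ
    have hδ2 : δ = I / t - I * (m + η) * δ / t := by
      rw [hδ]
      field_simp
      ring_nf
      rw [I_sq]
      ring
    have hkey : rho F B η m ω κ t = (F (-η + t * I) - ωF * EE B (-η) t * (1 + KF * I / t) *
          (starRingEnd ℂ) (F (1 + η + t * I))) -
        ωF * EE B (-η) t * (-(κ * (I * (m + η) * δ / t)) + Km * I / t * (κ * δ) +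
          r * (1 + κ * δ)) * (starRingEnd ℂ) (F (1 + η + t * I)) := by
      rw [rho_eq m hm η hη, hr1]
      have e1 : κ / (m + η - t * I) = κ * δ := by
        rw [hδ]
        ring
      have e2 : ω * (ωm * EE B (-η) t * (1 + Km * I / t + r)) =
          ωF * EE B (-η) t * (1 + Km * I / t + r) := by
        rw [hω]
        field_simp
      rw [e1, e2]
      have e3 : (1 + Km * I / t + r) * (1 + κ * δ) = (1 + KF * I / t) +
          (-(κ * (I * (m + η) * δ / t)) + Km * I / t * (κ * δ) + r * (1 + κ * δ)) := by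
        have e4 : κ * δ = κ * (I / t) - κ * (I * (m + η) * δ / t) := by
          conv_lhs => rw [hδ2]
          ring
        have e5 : KF = Km + κ := by rw [hκ]; ring
        rw [e5]
        linear_combination e4
      linear_combination (-(ωF * EE B (-η) t * (starRingEnd ℂ) (F (1 + η + t * I)))) * e3
    have hF1' : ‖F (-η + t * I) - ωF * EE B (-η) t * (1 + KF * I / t) *
          (starRingEnd ℂ) (F (1 + η + t * I))‖ ≤ |CF| * M * t ^ (2 * η - 1) := by
      have e1 : (((-η : ℝ) : ℂ) + t * I) = (-η + t * I : ℂ) := by push_cast; ring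
      have e2 : (1 - ((-η : ℝ) : ℂ) + t * I) = (1 + η + t * I : ℂ) := by push_cast; ring
      rw [e1, e2] at hF1
      refine hF1.trans ?_
      have e3 : (-1 - 2 * -η : ℝ) = 2 * η - 1 := by ring
      rw [e3]
      have h1 : 0 < t ^ (2 * η - 1) := Real.rpow_pos_of_pos htpos _
      calc CF * t ^ (2 * η - 1) * ‖F (1 + η + t * I)‖
          ≤ |CF| * t ^ (2 * η - 1) * M := by
            gcongr
            · exact le_abs_self _
            · exact hMt t
        _ = _ := by ring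
    have hnm : ‖(m + η : ℂ)‖ ≤ m + 1 := by
      have h1 : (m + η : ℂ) = ((m + η : ℝ) : ℂ) := by push_cast; ring
      rw [h1, norm_real, Real.norm_of_nonneg (by positivity)]
      linarith
    have hI : ‖I / (t : ℂ)‖ = 1 / t := by
      rw [norm_div, norm_I, norm_real, Real.norm_of_nonneg htpos.le]
    have hbr : ‖-(κ * (I * (m + η) * δ / t)) + Km * I / t * (κ * δ) + r * (1 + κ * δ)‖ ≤
        D / t ^ 2 := by
      have h1 : ‖-(κ * (I * (m + η) * δ / t))‖ ≤ ‖κ‖ * (m + 1) / t ^ 2 := by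
        rw [norm_neg]
        have e1 : κ * (I * (m + η) * δ / t) = κ * ((m + η) * (δ * (I / t))) := by ring
        rw [e1, norm_mul, norm_mul, norm_mul, hI]
        calc ‖κ‖ * (‖(m + η : ℂ)‖ * (‖δ‖ * (1 / t))) ≤ ‖κ‖ * ((m + 1) * ((1 / t) * (1 / t))) := by
              gcongr
          _ = _ := by field_simp
      have h2 : ‖Km * I / t * (κ * δ)‖ ≤ ‖Km‖ * ‖κ‖ / t ^ 2 := by
        have e1 : Km * I / t * (κ * δ) = Km * (κ * (δ * (I / t))) := by ring
        rw [e1, norm_mul, norm_mul, norm_mul, hI]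
        calc ‖Km‖ * (‖κ‖ * (‖δ‖ * (1 / t))) ≤ ‖Km‖ * (‖κ‖ * ((1 / t) * (1 / t))) := by
              gcongr
          _ = _ := by field_simp
      have h3 : ‖r * (1 + κ * δ)‖ ≤ Cm * (1 + ‖κ‖) / t ^ 2 := by
        rw [norm_mul]
        have h4 : ‖1 + κ * δ‖ ≤ 1 + ‖κ‖ := by
          refine (norm_add_le _ _).trans ?_
          rw [norm_one, norm_mul]
          have h5 : ‖δ‖ ≤ 1 := hinv.trans (by rw [div_le_one htpos]; exact ht1)
          have h6 : ‖κ‖ * ‖δ‖ ≤ ‖κ‖ * 1 := by gcongr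
          linarith
        calc ‖r‖ * ‖1 + κ * δ‖ ≤ Cm / t ^ 2 * (1 + ‖κ‖) := by gcongr
          _ = _ := by ring
      have h4 := norm_add₃_le (a := -(κ * (I * (m + η) * δ / t))) (b := Km * I / t * (κ * δ))
        (c := r * (1 + κ * δ))
      have h5 : D / t ^ 2 = ‖κ‖ * (m + 1) / t ^ 2 + ‖Km‖ * ‖κ‖ / t ^ 2 +
          Cm * (1 + ‖κ‖) / t ^ 2 := by
        rw [hD]
        ring
      rw [h5]
      linarith
    have hE : ‖EE B (-η) t‖ = B ^ (1 + 2 * η) * t ^ (1 + 2 * η) := by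
      rw [norm_EE _ _ _ hB htpos, ← Real.mul_rpow hB.le htpos.le]
      congr 1
      ring
    have hpw : t ^ (1 + 2 * η) / t ^ 2 = t ^ (2 * η - 1) := by
      rw [← Real.rpow_natCast t 2, ← Real.rpow_sub htpos]
      congr 1
      push_cast
      ring
    have hsec : ‖ωF * EE B (-η) t * (-(κ * (I * (m + η) * δ / t)) + Km * I / t * (κ * δ) +
          r * (1 + κ * δ)) * (starRingEnd ℂ) (F (1 + η + t * I))‖ ≤
        B ^ (1 + 2 * η) * D * M * t ^ (2 * η - 1) := by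
      rw [norm_mul, norm_mul, norm_mul, hωF, one_mul, hE, RCLike.norm_conj]
      have hBe : 0 < B ^ (1 + 2 * η) := Real.rpow_pos_of_pos hB _
      calc B ^ (1 + 2 * η) * t ^ (1 + 2 * η) * ‖-(κ * (I * (m + η) * δ / t)) +
            Km * I / t * (κ * δ) + r * (1 + κ * δ)‖ * ‖F (1 + η + t * I)‖
          ≤ B ^ (1 + 2 * η) * t ^ (1 + 2 * η) * (D / t ^ 2) * M := by
            gcongr
            exact hMt t
        _ = B ^ (1 + 2 * η) * D * M * (t ^ (1 + 2 * η) / t ^ 2) := by ring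
        _ = _ := by rw [hpw]
    have htot : ‖rho F B η m ω κ t‖ ≤ (|CF| * M + B ^ (1 + 2 * η) * D * M) * t ^ (2 * η - 1) := by
      rw [hkey]
      refine (norm_sub_le _ _).trans ?_
      linarith
    have hBe : 0 < B ^ (1 + 2 * η) := Real.rpow_pos_of_pos hB _
    have hcomp : t ^ (2 * η - 1) ≤ 2 * (1 + t) ^ (2 * η - 1) := by
      have h1 : t ^ (2 * η - 1) ≤ ((1 + t) / 2) ^ (2 * η - 1) :=
        Real.rpow_le_rpow_of_nonpos (by positivity) (by linarith) (by linarith)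
      have h2 : ((1 + t) / 2) ^ (2 * η - 1) = (1 + t) ^ (2 * η - 1) / 2 ^ (2 * η - 1) :=
        Real.div_rpow (by positivity) (by norm_num) _
      have h3 : (1 : ℝ) / 2 ^ (2 * η - 1) ≤ 2 := by
        rw [one_div, ← Real.rpow_neg (by norm_num)]
        calc (2 : ℝ) ^ (-(2 * η - 1)) ≤ 2 ^ (1 : ℝ) :=
              Real.rpow_le_rpow_of_exponent_le (by norm_num) (by linarith)
          _ = 2 := by norm_num
      have h4 : 0 < (1 + t) ^ (2 * η - 1) := by positivity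
      rw [h2] at h1
      calc t ^ (2 * η - 1) ≤ (1 + t) ^ (2 * η - 1) / 2 ^ (2 * η - 1) := h1
        _ = (1 / 2 ^ (2 * η - 1)) * (1 + t) ^ (2 * η - 1) := by ring
        _ ≤ 2 * (1 + t) ^ (2 * η - 1) := by gcongr
    calc ‖rho F B η m ω κ t‖ ≤ (|CF| * M + B ^ (1 + 2 * η) * D * M) * t ^ (2 * η - 1) := htot
      _ ≤ (|CF| * M + B ^ (1 + 2 * η) * D * M) * (2 * (1 + t) ^ (2 * η - 1)) := by
          gcongr
      _ = _ := by ring
  obtain ⟨C1, hC1⟩ := bound_of_cont (rho_continuous h m hm η hη hη1 ω κ).norm (2 * η - 1) T _ hlarge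
  -- negative `t`
  have hneg : ∀ t : ℝ, ‖rho F B η m ω κ t‖ ≤ (CE + CG * (1 + ‖κ‖) * M) *
      (1 + |t|) ^ (1 + 2 * η) := by
    intro t
    have hpos : 0 < (1 + |t|) ^ (1 + 2 * η) := by
      have := abs_nonneg t
      positivity
    rw [rho_eq m hm η hη]
    refine (norm_sub_le _ _).trans ?_
    have h1 := hCE t
    have h2 := hCG t
    have hCG0 : 0 ≤ CG * (1 + |t|) ^ (1 + 2 * η) := (norm_nonneg _).trans h2
    have h3 : ‖(1 + κ / (m + η - t * I) : ℂ)‖ ≤ 1 + ‖κ‖ := by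
      refine (norm_add_le _ _).trans ?_
      rw [norm_one, norm_div]
      have h4 : 1 ≤ ‖(m + η - t * I : ℂ)‖ := by
        have h5 := Complex.abs_re_le_norm (m + η - t * I : ℂ)
        have h6 : (m + η - t * I : ℂ).re = m + η := by simp
        rw [h6, abs_of_nonneg (by positivity)] at h5
        linarith
      have h7 : ‖κ‖ / ‖(m + η - t * I : ℂ)‖ ≤ ‖κ‖ := div_le_self (norm_nonneg _) h4
      linarith
    have h4 : ‖ω * Gf B η m t * (1 + κ / (m + η - t * I)) *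
        (starRingEnd ℂ) (F (1 + η + t * I))‖ ≤
        (CG * (1 + |t|) ^ (1 + 2 * η)) * (1 + ‖κ‖) * M := by
      rw [norm_mul, norm_mul, norm_mul, hω1, one_mul, RCLike.norm_conj]
      gcongr
      exact hMt t
    calc ‖F (-η + t * I)‖ + ‖ω * Gf B η m t * (1 + κ / (m + η - t * I)) *
        (starRingEnd ℂ) (F (1 + η + t * I))‖ ≤ CE * (1 + |t|) ^ (1 + 2 * η) +
        (CG * (1 + |t|) ^ (1 + 2 * η)) * (1 + ‖κ‖) * M := add_le_add h1 h4
      _ = _ := by ring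
  refine ⟨ω, κ, max C1 (CE + CG * (1 + ‖κ‖) * M), hω1, ?_, ?_⟩
  · intro t ht
    have hpos : 0 < (1 + t) ^ (2 * η - 1) := by positivity
    exact (hC1 t ht).trans (mul_le_mul_of_nonneg_right (le_max_left _ _) hpos.le)
  · intro t _
    have hpos : 0 < (1 + |t|) ^ (1 + 2 * η) := by
      have := abs_nonneg t
      positivity
    exact (hneg t).trans (mul_le_mul_of_nonneg_right (le_max_right _ _) hpos.le)

end Pool.Agent.H11.SC
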