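import Mathlib
import Pool.Agent.H11.SC.Defs

/-!
# PINT: holomorphy in the right half plane

(1) `VI_diff`: `VI G c ξ = (1/2π) ∫ G(t) (2πξ)^(-(c+it)) dt`.  For `Re ξ > 0`, `|arg ξ| < π/2`,
`‖(2πξ)^(-(c+it))‖ = (2π‖ξ‖)^(-c) e^(t arg ξ)` (`Complex.norm_cpow_of_ne_zero`), and the derivative
of `ξ ↦ (2πξ)^(-(c+it))` is `-(c+it) (2πξ)^(-(c+it)) / ξ`.  Near a fixed `ξ0`, `|arg ξ| ≤ π/2 - θ`
(`θ > 0`) and `‖ξ‖` lies between two positive constants, so the integrand of the derivative is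
dominated by `C' (1+|t|)^(A+1) e^(-θ|t|)`, integrable.  Use
`hasDerivAt_integral_of_dominated_loc_of_deriv_le`.
(`G` continuous gives measurability; `A ≥ 0` w.l.o.g.)
(2) `gs_diff`: on `Re ξ > y0 > 0` the series is dominated by `‖a n‖ n^m e^(-2πn y0)`, summable;
`differentiableOn_tsum_of_summable_norm` on the open half plane, for every `y0 > 0`.
-/

set_option autoImplicit false

namespace Pool.Agent.H11.SC

open Complex

/-- polynomial weights times a decaying exponential -/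
private theorem pint_wt (B δ : ℝ) (hδ : 0 < δ) : ∃ K : ℝ, 0 ≤ K ∧ ∀ t : ℝ,
    (1 + |t|) ^ B * Real.exp (-(δ * |t|)) ≤ K * (1 + t ^ 2)⁻¹ := by
  obtain ⟨N, hN⟩ := exists_nat_ge (B + 2)
  refine ⟨Real.exp δ * (N.factorial / δ ^ N), by positivity, fun t => ?_⟩
  have hx : 1 ≤ 1 + |t| := by have := abs_nonneg t; linarith
  have hx0 : 0 < 1 + |t| := by linarith
  have h1 : (1 + |t|) ^ (B + 2) ≤ (1 + |t|) ^ N := by
    rw [← Real.rpow_natCast]
    exact Real.rpow_le_rpow_of_exponent_le hx hN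
  have h2 : (1 + |t|) ^ (B + 2) = (1 + |t|) ^ B * (1 + |t|) ^ 2 := by
    rw [Real.rpow_add hx0]
    norm_cast
  have h3 : 1 + t ^ 2 ≤ (1 + |t|) ^ 2 := by
    have h4 := sq_abs t
    have h5 := abs_nonneg t
    nlinarith
  have h4 : (δ * (1 + |t|)) ^ N / N.factorial ≤ Real.exp (δ * (1 + |t|)) :=
    Real.pow_div_factorial_le_exp _ (by positivity) N
  have h5 : (1 + |t|) ^ N ≤ Real.exp (δ * (1 + |t|)) * (N.factorial / δ ^ N) := by
    rw [mul_pow] at h4
    rw [div_le_iff₀ (by positivity)] at h4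
    rw [← mul_div_assoc, le_div_iff₀ (by positivity)]
    linarith
  have h6 : Real.exp (δ * (1 + |t|)) = Real.exp δ * Real.exp (δ * |t|) := by
    rw [← Real.exp_add]; ring_nf
  have h7 : (0 : ℝ) < 1 + t ^ 2 := by positivity
  rw [← div_eq_mul_inv, le_div_iff₀ h7]
  have h8 : 0 ≤ (1 + |t|) ^ B := Real.rpow_nonneg hx0.le _
  have h9 : Real.exp (-(δ * |t|)) * Real.exp (δ * |t|) = 1 := by
    rw [← Real.exp_add]; simp
  calc (1 + |t|) ^ B * Real.exp (-(δ * |t|)) * (1 + t ^ 2)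
      ≤ (1 + |t|) ^ B * Real.exp (-(δ * |t|)) * (1 + |t|) ^ 2 :=
        mul_le_mul_of_nonneg_left h3 (by positivity)
    _ = (1 + |t|) ^ (B + 2) * Real.exp (-(δ * |t|)) := by rw [h2]; ring
    _ ≤ (1 + |t|) ^ N * Real.exp (-(δ * |t|)) :=
        mul_le_mul_of_nonneg_right h1 (Real.exp_pos _).le
    _ ≤ (Real.exp (δ * (1 + |t|)) * (N.factorial / δ ^ N)) * Real.exp (-(δ * |t|)) :=
        mul_le_mul_of_nonneg_right h5 (Real.exp_pos _).le
    _ = Real.exp δ * (N.factorial / δ ^ N) * (Real.exp (-(δ * |t|)) * Real.exp (δ * |t|)) := by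
        rw [h6]; ring
    _ = Real.exp δ * (N.factorial / δ ^ N) := by rw [h9, mul_one]

private theorem pint_norm (c t : ℝ) (w : ℂ) :
    ‖cexp (w * (-(c + t * I)))‖ = Real.exp (-c * w.re + t * w.im) := by
  rw [norm_exp]
  congr 1
  simp
  ring

/-- the integral as a function of the logarithm -/
private theorem pint_strip (G : ℝ → ℂ) (hG : Continuous G) (C A c : ℝ)
    (hb : ∀ t : ℝ, ‖G t‖ ≤ C * (1 + |t|) ^ A * Real.exp (-(Real.pi / 2 * |t|)))
    (w₀ : ℂ) (hw : |w₀.im| < Real.pi / 2) :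
    DifferentiableAt ℂ (fun w : ℂ => ∫ t : ℝ, G t * cexp (w * (-(c + t * I)))) w₀ := by
  obtain ⟨δ, hδ, hδw⟩ : ∃ δ : ℝ, 0 < δ ∧ |w₀.im| + δ = Real.pi / 2 - δ :=
    ⟨(Real.pi / 2 - |w₀.im|) / 2, by linarith, by ring⟩
  obtain ⟨K, hK, hKt⟩ := pint_wt (A + 1) δ hδ
  set R : ℝ := |w₀.re| + δ with hR
  have hC : 0 ≤ C := by
    have h1 := (norm_nonneg _).trans (hb 0)
    simp at h1
    exact h1
  have hball : ∀ w ∈ Metric.ball w₀ δ, |w.re| ≤ R ∧ |w.im| ≤ Real.pi / 2 - δ := by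
    intro w hwb
    rw [Metric.mem_ball, dist_eq_norm] at hwb
    have h1 := abs_re_le_norm (w - w₀)
    have h2 := abs_im_le_norm (w - w₀)
    rw [sub_re] at h1
    rw [sub_im] at h2
    constructor
    · have h3 : |w.re| ≤ |w.re - w₀.re| + |w₀.re| := by
        have := abs_add_le (w.re - w₀.re) w₀.re
        simpa using this
      linarith
    · have h3 : |w.im| ≤ |w.im - w₀.im| + |w₀.im| := by
        have := abs_add_le (w.im - w₀.im) w₀.im
        simpa using this
      linarith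
  have hexp : ∀ w ∈ Metric.ball w₀ δ, ∀ t : ℝ, ‖G t * cexp (w * (-(c + t * I)))‖ ≤
      C * Real.exp (|c| * R) * ((1 + |t|) ^ A * Real.exp (-(δ * |t|))) := by
    intro w hwb t
    obtain ⟨h1, h2⟩ := hball w hwb
    rw [norm_mul, pint_norm]
    have h3 : -c * w.re + t * w.im ≤ |c| * R + |t| * (Real.pi / 2 - δ) := by
      have h4 : -c * w.re ≤ |c| * R := by
        calc -c * w.re ≤ |(-c) * w.re| := le_abs_self _
          _ = |c| * |w.re| := by rw [abs_mul, abs_neg]
          _ ≤ |c| * R := mul_le_mul_of_nonneg_left h1 (abs_nonneg _)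
      have h5 : t * w.im ≤ |t| * (Real.pi / 2 - δ) := by
        calc t * w.im ≤ |t * w.im| := le_abs_self _
          _ = |t| * |w.im| := abs_mul _ _
          _ ≤ |t| * (Real.pi / 2 - δ) := mul_le_mul_of_nonneg_left h2 (abs_nonneg _)
      linarith
    have hx0 : 0 ≤ (1 + |t|) ^ A := Real.rpow_nonneg (by positivity) _
    calc ‖G t‖ * Real.exp (-c * w.re + t * w.im)
        ≤ (C * (1 + |t|) ^ A * Real.exp (-(Real.pi / 2 * |t|))) *
            Real.exp (|c| * R + |t| * (Real.pi / 2 - δ)) :=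
          mul_le_mul (hb t) (Real.exp_le_exp.2 h3) (Real.exp_pos _).le (by positivity)
      _ = C * (1 + |t|) ^ A * (Real.exp (-(Real.pi / 2 * |t|)) *
            Real.exp (|c| * R + |t| * (Real.pi / 2 - δ))) := by ring
      _ = C * (1 + |t|) ^ A * (Real.exp (|c| * R) * Real.exp (-(δ * |t|))) := by
          rw [← Real.exp_add, ← Real.exp_add]
          congr 2
          ring
      _ = _ := by ring
  have hlin : ∀ t : ℝ, ‖(-(c + t * I) : ℂ)‖ ≤ (1 + |c|) * (1 + |t|) := by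
    intro t
    rw [norm_neg]
    calc ‖(c + t * I : ℂ)‖ ≤ ‖(c : ℂ)‖ + ‖(t * I : ℂ)‖ := norm_add_le _ _
      _ = |c| + |t| := by simp
      _ ≤ (1 + |c|) * (1 + |t|) := by
          have := abs_nonneg c
          have := abs_nonneg t
          nlinarith
  set D : ℝ := C * Real.exp (|c| * R) * (1 + |c|) with hD
  have hD0 : 0 ≤ D := by positivity
  have hstep : ∀ t : ℝ, (1 + |c|) * (1 + |t|) *
      (C * Real.exp (|c| * R) * ((1 + |t|) ^ A * Real.exp (-(δ * |t|)))) ≤
      D * (K * (1 + t ^ 2)⁻¹) := by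
    intro t
    have h1 : (1 + |t|) ^ (A + 1) = (1 + |t|) ^ A * (1 + |t|) := by
      rw [Real.rpow_add (by positivity), Real.rpow_one]
    calc (1 + |c|) * (1 + |t|) *
        (C * Real.exp (|c| * R) * ((1 + |t|) ^ A * Real.exp (-(δ * |t|))))
        = D * ((1 + |t|) ^ (A + 1) * Real.exp (-(δ * |t|))) := by rw [h1, hD]; ring
      _ ≤ D * (K * (1 + t ^ 2)⁻¹) := mul_le_mul_of_nonneg_left (hKt t) hD0
  have hbound : MeasureTheory.Integrable (fun t : ℝ => D * (K * (1 + t ^ 2)⁻¹)) :=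
    (integrable_inv_one_add_sq.const_mul K).const_mul D
  have hcont : ∀ w : ℂ, Continuous (fun t : ℝ => G t * cexp (w * (-(c + t * I)))) := by
    intro w
    exact hG.mul (by fun_prop)
  have hcont' : ∀ w : ℂ,
      Continuous (fun t : ℝ => G t * (cexp (w * (-(c + t * I))) * (-(c + t * I)))) := by
    intro w
    exact hG.mul (by fun_prop)
  have hmem : w₀ ∈ Metric.ball w₀ δ := Metric.mem_ball_self hδ
  have hmain := hasDerivAt_integral_of_dominated_loc_of_deriv_le (𝕜 := ℂ)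
    (μ := MeasureTheory.volume)
    (F := fun (w : ℂ) (t : ℝ) => G t * cexp (w * (-(c + t * I)))) (x₀ := w₀)
    (F' := fun (w : ℂ) (t : ℝ) => G t * (cexp (w * (-(c + t * I))) * (-(c + t * I))))
    (bound := fun t : ℝ => D * (K * (1 + t ^ 2)⁻¹))
    (Metric.ball_mem_nhds w₀ hδ)
    (Filter.Eventually.of_forall (fun w => (hcont w).aestronglyMeasurable)) ?_
    (hcont' w₀).aestronglyMeasurable ?_ hbound ?_
  · exact hmain.2.differentiableAt
  · refine hbound.mono' (hcont w₀).aestronglyMeasurable (Filter.Eventually.of_forall ?_)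
    intro t
    refine (hexp w₀ hmem t).trans (le_trans ?_ (hstep t))
    have h0 : 0 ≤ C * Real.exp (|c| * R) * ((1 + |t|) ^ A * Real.exp (-(δ * |t|))) := by
      have : 0 ≤ (1 + |t|) ^ A := Real.rpow_nonneg (by positivity) _
      positivity
    have h1 : 1 ≤ (1 + |c|) * (1 + |t|) := by
      have := abs_nonneg c
      have := abs_nonneg t
      nlinarith
    exact le_mul_of_one_le_left h0 h1
  · refine Filter.Eventually.of_forall (fun t w hwb => ?_)
    have h1 : G t * (cexp (w * (-(c + t * I))) * (-(c + t * I))) =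
        (-(c + t * I)) * (G t * cexp (w * (-(c + t * I)))) := by ring
    rw [h1, norm_mul]
    refine le_trans ?_ (hstep t)
    exact mul_le_mul (hlin t) (hexp w hwb t) (norm_nonneg _) (by positivity)
  · refine Filter.Eventually.of_forall (fun t w _ => ?_)
    have h1 : HasDerivAt (fun w : ℂ => w * (-(c + t * I) : ℂ)) (-(c + t * I) : ℂ) w := by
      simpa using (hasDerivAt_id w).mul_const (-(c + t * I) : ℂ)
    exact (h1.cexp).const_mul (G t)

theorem VI_diff (G : ℝ → ℂ) (hG : Continuous G) (C A c : ℝ)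
    (hb : ∀ t : ℝ, ‖G t‖ ≤ C * (1 + |t|) ^ A * Real.exp (-(Real.pi / 2 * |t|))) :
    DifferentiableOn ℂ (VI G c) {ξ : ℂ | 0 < ξ.re} := by
  intro ξ₀ hξ₀
  have hξ₀' : 0 < ξ₀.re := hξ₀
  refine DifferentiableAt.differentiableWithinAt ?_
  have hopen : {ξ : ℂ | 0 < ξ.re} ∈ nhds ξ₀ :=
    (isOpen_lt continuous_const continuous_re).mem_nhds hξ₀
  have hre : ∀ ξ : ℂ, (2 * (Real.pi : ℂ) * ξ).re = 2 * Real.pi * ξ.re := by
    intro ξ
    simp
  have heq : VI G c =ᶠ[nhds ξ₀] fun ξ => ((1 / (2 * Real.pi) : ℝ) : ℂ) *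
      (fun w : ℂ => ∫ t : ℝ, G t * cexp (w * (-(c + t * I)))) (log (2 * (Real.pi : ℂ) * ξ)) := by
    filter_upwards [hopen] with ξ hξ
    have hξ' : 0 < ξ.re := hξ
    have hne : (2 * (Real.pi : ℂ) * ξ) ≠ 0 := by
      intro h0
      have h1 : 0 < (2 * (Real.pi : ℂ) * ξ).re := by
        rw [hre]; positivity
      rw [h0] at h1
      simp at h1
    unfold VI
    congr 1
    refine MeasureTheory.integral_congr_ae (Filter.Eventually.of_forall (fun t => ?_))
    simp only
    rw [cpow_def_of_ne_zero hne]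
  refine DifferentiableAt.congr_of_eventuallyEq ?_ heq
  refine DifferentiableAt.const_mul ?_ _
  have hpos : 0 < (2 * (Real.pi : ℂ) * ξ₀).re := by
    rw [hre]; positivity
  have him : |(log (2 * (Real.pi : ℂ) * ξ₀)).im| < Real.pi / 2 := by
    rw [log_im]
    exact abs_arg_lt_pi_div_two_iff.2 (Or.inl hpos)
  have hlog : DifferentiableAt ℂ (fun ξ : ℂ => log (2 * (Real.pi : ℂ) * ξ)) ξ₀ := by
    have h1 : DifferentiableAt ℂ (fun ξ : ℂ => 2 * (Real.pi : ℂ) * ξ) ξ₀ :=
      differentiableAt_id.const_mul _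
    exact h1.clog (Or.inl hpos)
  exact DifferentiableAt.comp (f := fun ξ : ℂ => log (2 * (Real.pi : ℂ) * ξ))
    (g := fun w : ℂ => ∫ t : ℝ, G t * cexp (w * (-(c + t * I)))) ξ₀
    (pint_strip G hG C A c hb _ him) hlog

theorem gs_diff (a : ℕ → ℂ) (ha : ∃ C : ℝ, ∀ n : ℕ, 1 ≤ n → ‖a n‖ ≤ C * (n : ℝ) ^ (1 : ℝ))
    (m : ℕ) (hm : 1 ≤ m) : DifferentiableOn ℂ (gs a m) {ξ : ℂ | 0 < ξ.re} := by
  obtain ⟨C, hC⟩ := ha
  intro ξ₀ hξ₀
  have hξ₀' : 0 < ξ₀.re := hξ₀
  refine DifferentiableAt.differentiableWithinAt ?_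
  set y0 : ℝ := ξ₀.re / 2 with hy0
  have hy0' : 0 < y0 := by rw [hy0]; linarith
  set U : Set ℂ := {ξ : ℂ | y0 < ξ.re} with hU
  have hUo : IsOpen U := isOpen_lt continuous_const continuous_re
  have hmem : ξ₀ ∈ U := by
    change y0 < ξ₀.re
    rw [hy0]; linarith
  have hsum : Summable (fun n : ℕ => C * ((n : ℝ) ^ (m + 1) *
      Real.exp (-(2 * Real.pi * y0) * n))) :=
    (Real.summable_pow_mul_exp_neg_nat_mul (m + 1) (by positivity)).mul_left C
  have hd : DifferentiableOn ℂ (fun ξ : ℂ => ∑' n : ℕ, a n * (n : ℂ) ^ m *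
      cexp (-(2 * (Real.pi : ℂ) * n * ξ))) U := by
    refine differentiableOn_tsum_of_summable_norm hsum ?_ hUo ?_
    · intro n
      exact (Differentiable.differentiableOn (by fun_prop))
    · intro n ξ hξ
      have hξ' : y0 < ξ.re := hξ
      have hnorm : ‖cexp (-(2 * (Real.pi : ℂ) * n * ξ))‖ = Real.exp (-(2 * Real.pi * n * ξ.re)) := by
        rw [norm_exp]
        congr 1
        simp
      rw [norm_mul, norm_mul, norm_pow, norm_natCast, hnorm]
      rcases Nat.eq_zero_or_pos n with h0 | h0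
      · subst h0
        have : m ≠ 0 := by omega
        simp [this]
      · have h1 := hC n h0
        rw [Real.rpow_one] at h1
        have h2 : Real.exp (-(2 * Real.pi * n * ξ.re)) ≤ Real.exp (-(2 * Real.pi * y0) * n) := by
          apply Real.exp_le_exp.2
          have hn : (0 : ℝ) ≤ n := Nat.cast_nonneg n
          have h3 : 2 * Real.pi * n * y0 ≤ 2 * Real.pi * n * ξ.re :=
            mul_le_mul_of_nonneg_left hξ'.le (by positivity)
          linarith
        have h4 : (0 : ℝ) ≤ C * n := (norm_nonneg _).trans h1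
        calc ‖a n‖ * (n : ℝ) ^ m * Real.exp (-(2 * Real.pi * n * ξ.re))
            ≤ (C * n) * (n : ℝ) ^ m * Real.exp (-(2 * Real.pi * y0) * n) := by
              refine mul_le_mul ?_ h2 (Real.exp_pos _).le (by positivity)
              exact mul_le_mul_of_nonneg_right h1 (by positivity)
          _ = _ := by ring
  exact (hd.differentiableAt (hUo.mem_nhds hmem))

end Pool.Agent.H11.SC
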