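import Mathlib
import Pool.Agent.H11.SC.Defs
import Pool.Agent.H11.SC.IdX
import Pool.Agent.H11.SC.PInt

/-!
# IDC: the approximate modularity identity for complex `ξ`, `Re ξ > 0`

Both sides of `id_real` (with `x` replaced by `ξ`) are holomorphic in the right half plane
(`gs_diff`, `VI_diff`; `1/(4π²B²ξ)` maps the right half plane to itself; the bound needed for
`VI_diff` follows from the hypotheses on `rho` and `gamma_bound` with `σ = m - η`,
`max(2η - 1, 1 + 2η) = 1 + 2η`, and `rho_continuous`, continuity of `Γ` on the line) and agree for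
real positive `ξ`, hence everywhere by the identity theorem
(`AnalyticOnNhd.eqOn_of_preconnected_of_frequently_eq` at the point `1`; the right half plane is
convex, hence preconnected; `DifferentiableOn.analyticOnNhd` with `isOpen`).
-/

set_option autoImplicit false

namespace Pool.Agent.H11.SC

open Complex Pool.Agent.H11.Selberg

variable {a : ℕ → ℂ} {F : ℂ → ℂ} {Q : ℝ} {k : ℕ} {lam : Fin k → ℝ} {mu : Fin k → ℂ} {ε : ℂ}

theorem Bp_pos_idc (h : FEq a F Q lam mu ε) : 0 < Bp Q lam :=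
  mul_pos h.Qpos (Finset.prod_pos fun j _ => Real.rpow_pos_of_pos (h.lampos j) _)

/-- the map `ξ ↦ 1/(4π²B²ξ)` preserves the right half plane -/
theorem inv_map_re {B : ℝ} (hB : 0 < B) {ξ : ℂ} (hξ : 0 < ξ.re) :
    0 < (1 / (4 * (Real.pi : ℂ) ^ 2 * (B : ℂ) ^ 2 * ξ)).re := by
  have h1 : (4 * (Real.pi : ℂ) ^ 2 * (B : ℂ) ^ 2 * ξ) =
      ((4 * Real.pi ^ 2 * B ^ 2 : ℝ) : ℂ) * ξ := by
    push_cast
    ring
  have hc : 0 < 4 * Real.pi ^ 2 * B ^ 2 := by positivity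
  rw [h1, one_div, inv_re]
  have h2 : (((4 * Real.pi ^ 2 * B ^ 2 : ℝ) : ℂ) * ξ).re = (4 * Real.pi ^ 2 * B ^ 2) * ξ.re := by
    rw [re_ofReal_mul]
  have h3 : 0 < (((4 * Real.pi ^ 2 * B ^ 2 : ℝ) : ℂ) * ξ).re := by
    rw [h2]
    positivity
  refine div_pos h3 (normSq_pos.2 ?_)
  intro h4
  rw [h4] at h3
  simp at h3

theorem inv_map_diff {B : ℝ} (hB : 0 < B) :
    DifferentiableOn ℂ (fun ξ : ℂ => 1 / (4 * (Real.pi : ℂ) ^ 2 * (B : ℂ) ^ 2 * ξ))
      {ξ : ℂ | 0 < ξ.re} := by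
  refine DifferentiableOn.div (differentiableOn_const _) (by fun_prop) ?_
  intro ξ hξ
  have h0 : ξ ≠ 0 := by
    rintro rfl
    simp at hξ
  have h1 : (Real.pi : ℂ) ≠ 0 := by
    exact_mod_cast Real.pi_ne_zero
  have h2 : (B : ℂ) ≠ 0 := by
    exact_mod_cast hB.ne'
  exact mul_ne_zero (mul_ne_zero (mul_ne_zero (by norm_num) (pow_ne_zero _ h1))
    (pow_ne_zero _ h2)) h0

theorem id_complex (h : FEq a F Q lam mu ε) (m : ℕ) (hm : 2 ≤ m) (η : ℝ) (hη : 0 < η)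
    (hη1 : η < 1 / 2) (ω κ : ℂ) (C : ℝ)
    (h1 : ∀ t : ℝ, 0 ≤ t → ‖rho F (Bp Q lam) η m ω κ t‖ ≤ C * (1 + t) ^ (2 * η - 1))
    (h2 : ∀ t : ℝ, t ≤ 0 → ‖rho F (Bp Q lam) η m ω κ t‖ ≤ C * (1 + |t|) ^ (1 + 2 * η))
    (ξ : ℂ) (hξ : 0 < ξ.re) :
    gs a m ξ =
      ω * ((((Bp Q lam) ^ (1 + 2 * m) : ℝ) : ℂ)⁻¹ * ((2 * (Real.pi : ℂ) * ξ) ^ (1 + m + m))⁻¹ *
        gs (cj a) m (1 / (4 * (Real.pi : ℂ) ^ 2 * (Bp Q lam : ℂ) ^ 2 * ξ))) +
      ω * κ * ((((Bp Q lam) ^ (1 + 2 * (m - 1)) : ℝ) : ℂ)⁻¹ *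
        ((2 * (Real.pi : ℂ) * ξ) ^ (1 + (m - 1) + m))⁻¹ *
        gs (cj a) (m - 1) (1 / (4 * (Real.pi : ℂ) ^ 2 * (Bp Q lam : ℂ) ^ 2 * ξ))) +
      VI (fun t => rho F (Bp Q lam) η m ω κ t * Gamma (m - η + t * I)) (m - η) ξ := by
  have hB : 0 < Bp Q lam := Bp_pos_idc h
  set U : Set ℂ := {ξ : ℂ | 0 < ξ.re} with hU
  have hUo : IsOpen U := isOpen_lt continuous_const continuous_re
  have hUc : IsPreconnected U := (convex_halfSpace_re_gt 0).isPreconnected
  have hηR : (0 : ℝ) < m - η := by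
    have : (2 : ℝ) ≤ m := by exact_mod_cast hm
    linarith
  -- coefficients
  have ha : ∃ C : ℝ, ∀ n : ℕ, 1 ≤ n → ‖a n‖ ≤ C * (n : ℝ) ^ (1 : ℝ) := h.ram 1 one_pos
  have hca : ∃ C : ℝ, ∀ n : ℕ, 1 ≤ n → ‖cj a n‖ ≤ C * (n : ℝ) ^ (1 : ℝ) := by
    obtain ⟨C, hC⟩ := ha
    refine ⟨C, fun n hn => ?_⟩
    unfold cj
    rw [norm_conj]
    exact hC n hn
  have hg := gs_diff a ha m (by omega)
  have hg1 := gs_diff (cj a) hca m (by omega)
  have hg2 := gs_diff (cj a) hca (m - 1) (by omega)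
  have hmap : Set.MapsTo (fun ξ : ℂ => 1 / (4 * (Real.pi : ℂ) ^ 2 * (Bp Q lam : ℂ) ^ 2 * ξ))
      U U := fun ξ hξ => inv_map_re hB hξ
  have hinv := inv_map_diff hB
  have hc1 := hg1.comp hinv hmap
  have hc2 := hg2.comp hinv hmap
  have hpow : ∀ n : ℕ, DifferentiableOn ℂ (fun ξ : ℂ => ((2 * (Real.pi : ℂ) * ξ) ^ n)⁻¹) U := by
    intro n
    refine DifferentiableOn.inv (by fun_prop) ?_
    intro ξ hξ
    have h0 : ξ ≠ 0 := by
      rintro rfl
      simp [hU] at hξ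
    have h1 : (Real.pi : ℂ) ≠ 0 := by
      exact_mod_cast Real.pi_ne_zero
    exact pow_ne_zero _ (mul_ne_zero (mul_ne_zero (by norm_num) h1) h0)
  -- the vertical integral
  have hVI : DifferentiableOn ℂ (VI (fun t => rho F (Bp Q lam) η m ω κ t *
      Gamma (m - η + t * I)) (m - η)) U := by
    obtain ⟨C2, hC2⟩ := gamma_bound (m - η) (m - η) hηR
    refine VI_diff _ ?_ (|C| * |C2|) ((1 + 2 * η) + (m - η - 1 / 2)) _ ?_
    · refine (rho_continuous h m hm η hη hη1 ω κ).mul ?_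
      refine continuous_iff_continuousAt.2 fun t => ?_
      have hd : DifferentiableAt ℂ Gamma ((m : ℂ) - η + t * I) := by
        refine differentiableAt_Gamma _ fun n hn => ?_
        have h3 := congrArg Complex.re hn
        simp at h3
        have h4 : (0 : ℝ) ≤ n := Nat.cast_nonneg n
        linarith
      exact ContinuousAt.comp (f := fun t : ℝ => (m : ℂ) - η + t * I) hd.continuousAt
        (by fun_prop)
    · intro t
      have hb : (1 : ℝ) ≤ 1 + |t| := by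
        have := abs_nonneg t
        linarith
      have hr : ‖rho F (Bp Q lam) η m ω κ t‖ ≤ |C| * (1 + |t|) ^ (1 + 2 * η) := by
        rcases le_total 0 t with ht | ht
        · refine (h1 t ht).trans ?_
          rw [abs_of_nonneg ht] at hb ⊢
          have h3 : 0 ≤ (1 + t) ^ (2 * η - 1) := Real.rpow_nonneg (by linarith) _
          calc C * (1 + t) ^ (2 * η - 1) ≤ |C| * (1 + t) ^ (2 * η - 1) := by
                gcongr
                exact le_abs_self C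
            _ ≤ |C| * (1 + t) ^ (1 + 2 * η) := by
                gcongr ?_ * ?_
                exact Real.rpow_le_rpow_of_exponent_le hb (by linarith)
        · refine (h2 t ht).trans ?_
          gcongr
          exact le_abs_self C
      have hG := hC2 (m - η) t le_rfl le_rfl
      have hG' : ‖Gamma (m - η + t * I)‖ ≤
          |C2| * (1 + |t|) ^ ((m : ℝ) - η - 1 / 2) * Real.exp (-(Real.pi / 2 * |t|)) := by
        have h3 : ((m : ℂ) - η + t * I) = (((m : ℝ) - η : ℝ) : ℂ) + t * I := by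
          push_cast
          ring
        rw [h3]
        refine hG.trans ?_
        gcongr
        exact le_abs_self C2
      rw [norm_mul]
      calc ‖rho F (Bp Q lam) η m ω κ t‖ * ‖Gamma (m - η + t * I)‖
          ≤ (|C| * (1 + |t|) ^ (1 + 2 * η)) *
            (|C2| * (1 + |t|) ^ ((m : ℝ) - η - 1 / 2) * Real.exp (-(Real.pi / 2 * |t|))) := by
            gcongr
        _ = |C| * |C2| * (1 + |t|) ^ ((1 + 2 * η) + ((m : ℝ) - η - 1 / 2)) *
            Real.exp (-(Real.pi / 2 * |t|)) := by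
            rw [Real.rpow_add (y := 1 + 2 * η) (z := (m : ℝ) - η - 1 / 2) (by linarith)]
            simp only [mul_assoc, mul_left_comm, mul_comm]
  -- the identity theorem
  have hR : DifferentiableOn ℂ (fun ξ : ℂ =>
      ω * ((((Bp Q lam) ^ (1 + 2 * m) : ℝ) : ℂ)⁻¹ * ((2 * (Real.pi : ℂ) * ξ) ^ (1 + m + m))⁻¹ *
        gs (cj a) m (1 / (4 * (Real.pi : ℂ) ^ 2 * (Bp Q lam : ℂ) ^ 2 * ξ))) +
      ω * κ * ((((Bp Q lam) ^ (1 + 2 * (m - 1)) : ℝ) : ℂ)⁻¹ *
        ((2 * (Real.pi : ℂ) * ξ) ^ (1 + (m - 1) + m))⁻¹ *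
        gs (cj a) (m - 1) (1 / (4 * (Real.pi : ℂ) ^ 2 * (Bp Q lam : ℂ) ^ 2 * ξ))) +
      VI (fun t => rho F (Bp Q lam) η m ω κ t * Gamma (m - η + t * I)) (m - η) ξ) U := by
    refine ((DifferentiableOn.const_mul ?_ ω).add (DifferentiableOn.const_mul ?_ (ω * κ))).add hVI
    · exact ((hpow _).const_mul _).mul hc1
    · exact ((hpow _).const_mul _).mul hc2
  have hmem : (1 : ℂ) ∈ U := by simp [hU]
  refine AnalyticOnNhd.eqOn_of_preconnected_of_frequently_eq (hg.analyticOnNhd hUo)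
    (hR.analyticOnNhd hUo) hUc hmem ?_ hξ
  have htend : Filter.Tendsto (fun x : ℝ => (x : ℂ)) (nhdsWithin 1 {1}ᶜ)
      (nhdsWithin (1 : ℂ) {1}ᶜ) := by
    refine tendsto_nhdsWithin_iff.2 ⟨?_, ?_⟩
    · have h3 : Filter.Tendsto (fun x : ℝ => (x : ℂ)) (nhds 1) (nhds ((1 : ℝ) : ℂ)) :=
        continuous_ofReal.continuousAt
      rw [ofReal_one] at h3
      exact h3.mono_left nhdsWithin_le_nhds
    · filter_upwards [self_mem_nhdsWithin] with x hx
      intro h3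
      have h4 : (x : ℂ) = 1 := h3
      exact hx (by exact_mod_cast h4)
  refine htend.frequently (Filter.Eventually.frequently ?_)
  have h4 : ∀ᶠ x : ℝ in nhdsWithin 1 {1}ᶜ, 0 < x :=
    nhdsWithin_le_nhds (lt_mem_nhds one_pos)
  filter_upwards [h4] with x hx
  have h5 := id_real h m hm η hη hη1 ω κ x hx
  rw [h5]
  push_cast
  rfl

end Pool.Agent.H11.SC
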