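import Mathlib
import Pool.Agent.H11.SC.Defs

/-!
# RB: bound for the remainder integral

`‖(2πξ)^(-(c+it))‖ = (2π‖ξ‖)^(-c) e^(t α)`, `α = arg ξ ∈ [0, π/2)` (`Complex.norm_cpow_of_ne_zero`,
`arg (2πξ) = arg ξ`).  With `β = π/2 - α ∈ (0, π/2]`:
for `t ≥ 0` the integrand is at most `C (2π‖ξ‖)^(-c) (1+t)^p e^(-βt)`, and
`∫_0^∞ (1+t)^p e^(-βt) dt ≤ C_p β^(-(p+1))`: if `p ≥ 0`, `(1+t)^p ≤ 2^p (1 + t^p)`, and
`∫ e^(-βt) = 1/β ≤ (π/2)^p β^(-p-1)`, `∫ t^p e^(-βt) = Γ(p+1) β^(-p-1)`; if `-1 < p < 0`,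
`(1+t)^p ≤ t^p` and the same formula (`Real.integral_rpow_mul_exp_neg_mul_Ioi`).
For `t ≤ 0`, `e^(tα) ≤ 1` and the integrand is at most
`C (2π‖ξ‖)^(-c) (1+|t|)^P e^(-π|t|/2)`, integral `≤ C' (2π‖ξ‖)^(-c) ≤ C'' ‖ξ‖^(-c) β^(-(p+1))`.
Finally `Re ξ/‖ξ‖ = cos α = sin β ≤ β`, so `β^(-(p+1)) ≤ (‖ξ‖/Re ξ)^(p+1)`.
(If the integrand is not integrable the integral is `0` and there is nothing to prove, but in fact
`norm_integral_le_of_norm_le` only needs the bound to be integrable.)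
-/

set_option autoImplicit false

namespace Pool.Agent.H11.SC

open Complex MeasureTheory Set

theorem rb_intOn (s b : ℝ) (hs : -1 < s) (hb : 0 < b) :
    IntegrableOn (fun t : ℝ => t ^ s * Real.exp (-(b * t))) (Ioi 0) := by
  have h := integrableOn_rpow_mul_exp_neg_mul_rpow (p := 1) (s := s) (b := b) hs one_pos hb
  refine h.congr_fun (fun t ht => ?_) measurableSet_Ioi
  simp [Real.rpow_one]

theorem rb_int_le (s b : ℝ) (hs : -1 < s) (hb : 0 < b) :
    ∫ t in Ioi (0 : ℝ), t ^ s * Real.exp (-(b * t)) = b ^ (-(s + 1)) * Real.Gamma (s + 1) := by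
  have h := Real.integral_rpow_mul_exp_neg_mul_Ioi (a := s + 1) (r := b) (by linarith) hb
  have h2 : s + 1 - 1 = s := by ring
  rw [h2] at h
  rw [h, Real.rpow_neg hb.le, one_div, Real.inv_rpow hb.le]

/-- the key one-sided integral -/
theorem rb_one_side (p : ℝ) (hp : -1 < p) : ∃ K : ℝ, 0 ≤ K ∧ ∀ β : ℝ, 0 < β → β ≤ Real.pi / 2 →
    IntegrableOn (fun t : ℝ => (1 + t) ^ p * Real.exp (-(β * t))) (Ioi 0) ∧
    ∫ t in Ioi (0 : ℝ), (1 + t) ^ p * Real.exp (-(β * t)) ≤ K * β ^ (-(p + 1)) := by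
  have hmeas : ∀ β : ℝ, AEStronglyMeasurable
      (fun t : ℝ => (1 + t) ^ p * Real.exp (-(β * t))) (volume.restrict (Ioi 0)) := by
    intro β
    apply Measurable.aestronglyMeasurable
    fun_prop
  rcases le_or_gt 0 p with h0 | h0
  · refine ⟨2 ^ p * ((Real.pi / 2) ^ p + Real.Gamma (p + 1)), ?_, ?_⟩
    · have : 0 < Real.Gamma (p + 1) := Real.Gamma_pos_of_pos (by linarith)
      have h3 : (0:ℝ) ≤ (Real.pi / 2) ^ p := Real.rpow_nonneg (by positivity) _
      positivity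
    intro β hβ hβ2
    have hle : ∀ t ∈ Ioi (0 : ℝ), (1 + t) ^ p * Real.exp (-(β * t)) ≤
        2 ^ p * (t ^ (0 : ℝ) * Real.exp (-(β * t)) + t ^ p * Real.exp (-(β * t))) := by
      intro t ht
      have ht0 : (0:ℝ) < t := ht
      have h1 : (1 + t) ^ p ≤ 2 ^ p * (t ^ (0 : ℝ) + t ^ p) := by
        rw [Real.rpow_zero]
        rcases le_or_gt t 1 with h | h
        · calc (1 + t) ^ p ≤ 2 ^ p := Real.rpow_le_rpow (by linarith) (by linarith) h0
            _ ≤ 2 ^ p * (1 + t ^ p) := by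
              have : 0 ≤ t ^ p := Real.rpow_nonneg ht0.le _
              have h2 : (0:ℝ) < 2 ^ p := Real.rpow_pos_of_pos (by norm_num) _
              nlinarith
        · calc (1 + t) ^ p ≤ (2 * t) ^ p := Real.rpow_le_rpow (by linarith) (by linarith) h0
            _ = 2 ^ p * t ^ p := Real.mul_rpow (by norm_num) ht0.le
            _ ≤ 2 ^ p * (1 + t ^ p) := by
              have h2 : (0:ℝ) < 2 ^ p := Real.rpow_pos_of_pos (by norm_num) _
              nlinarith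
      calc (1 + t) ^ p * Real.exp (-(β * t)) ≤ 2 ^ p * (t ^ (0 : ℝ) + t ^ p) * Real.exp (-(β * t)) :=
            mul_le_mul_of_nonneg_right h1 (Real.exp_nonneg _)
        _ = _ := by ring
    have hnn : ∀ t ∈ Ioi (0 : ℝ), 0 ≤ (1 + t) ^ p * Real.exp (-(β * t)) := by
      intro t ht
      have ht0 : (0:ℝ) < t := ht
      have : (0:ℝ) ≤ (1 + t) ^ p := Real.rpow_nonneg (by linarith) _
      positivity
    have hI0 := rb_intOn 0 β (by norm_num) hβ
    have hIp := rb_intOn p β hp hβ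
    have hI2 : IntegrableOn (fun t : ℝ =>
        2 ^ p * (t ^ (0 : ℝ) * Real.exp (-(β * t)) + t ^ p * Real.exp (-(β * t)))) (Ioi 0) :=
      (hI0.add hIp).const_mul _
    have hI : IntegrableOn (fun t : ℝ => (1 + t) ^ p * Real.exp (-(β * t))) (Ioi 0) := by
      refine Integrable.mono' hI2 (hmeas β) ?_
      refine (ae_restrict_iff' measurableSet_Ioi).mpr (Filter.Eventually.of_forall ?_)
      intro t ht
      rw [Real.norm_of_nonneg (hnn t ht)]
      exact hle t ht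
    refine ⟨hI, ?_⟩
    calc ∫ t in Ioi (0 : ℝ), (1 + t) ^ p * Real.exp (-(β * t))
        ≤ ∫ t in Ioi (0 : ℝ), 2 ^ p * (t ^ (0 : ℝ) * Real.exp (-(β * t)) +
            t ^ p * Real.exp (-(β * t))) := setIntegral_mono_on hI hI2 measurableSet_Ioi hle
      _ = 2 ^ p * (β ^ (-(0 + 1) : ℝ) * Real.Gamma (0 + 1) +
            β ^ (-(p + 1)) * Real.Gamma (p + 1)) := by
          rw [integral_const_mul, integral_add hI0 hIp, rb_int_le 0 β (by norm_num) hβ,
            rb_int_le p β hp hβ]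
      _ ≤ 2 ^ p * ((Real.pi / 2) ^ p + Real.Gamma (p + 1)) * β ^ (-(p + 1)) := by
          have h2 : (0:ℝ) < 2 ^ p := Real.rpow_pos_of_pos (by norm_num) _
          have h3 : β ^ (-(0 + 1) : ℝ) = β ^ p * β ^ (-(p + 1)) := by
            rw [← Real.rpow_add hβ]; congr 1; ring
          have h4 : β ^ p ≤ (Real.pi / 2) ^ p := Real.rpow_le_rpow hβ.le hβ2 h0
          have h5 : (0:ℝ) < β ^ (-(p + 1)) := Real.rpow_pos_of_pos hβ _
          rw [zero_add, Real.Gamma_one, mul_one, mul_assoc]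
          apply mul_le_mul_of_nonneg_left _ h2.le
          rw [zero_add] at h3
          rw [h3]
          nlinarith [mul_le_mul_of_nonneg_right h4 h5.le]
  · refine ⟨Real.Gamma (p + 1), (Real.Gamma_pos_of_pos (by linarith)).le, ?_⟩
    intro β hβ hβ2
    have hle : ∀ t ∈ Ioi (0 : ℝ), (1 + t) ^ p * Real.exp (-(β * t)) ≤
        t ^ p * Real.exp (-(β * t)) := by
      intro t ht
      have ht0 : (0:ℝ) < t := ht
      have h1 : (1 + t) ^ p ≤ t ^ p := Real.rpow_le_rpow_of_nonpos ht0 (by linarith) h0.le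
      exact mul_le_mul_of_nonneg_right h1 (Real.exp_nonneg _)
    have hnn : ∀ t ∈ Ioi (0 : ℝ), 0 ≤ (1 + t) ^ p * Real.exp (-(β * t)) := by
      intro t ht
      have ht0 : (0:ℝ) < t := ht
      have : (0:ℝ) ≤ (1 + t) ^ p := Real.rpow_nonneg (by linarith) _
      positivity
    have hIp := rb_intOn p β hp hβ
    have hI : IntegrableOn (fun t : ℝ => (1 + t) ^ p * Real.exp (-(β * t))) (Ioi 0) := by
      refine Integrable.mono' hIp (hmeas β) ?_
      refine (ae_restrict_iff' measurableSet_Ioi).mpr (Filter.Eventually.of_forall ?_)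
      intro t ht
      rw [Real.norm_of_nonneg (hnn t ht)]
      exact hle t ht
    refine ⟨hI, ?_⟩
    calc ∫ t in Ioi (0 : ℝ), (1 + t) ^ p * Real.exp (-(β * t))
        ≤ ∫ t in Ioi (0 : ℝ), t ^ p * Real.exp (-(β * t)) :=
          setIntegral_mono_on hI hIp measurableSet_Ioi hle
      _ = Real.Gamma (p + 1) * β ^ (-(p + 1)) := by
          rw [rb_int_le p β hp hβ]; ring

theorem VI_bound (C c p P : ℝ) (hp : -1 < p) : ∃ D : ℝ, ∀ G : ℝ → ℂ,
    (∀ t : ℝ, 0 ≤ t → ‖G t‖ ≤ C * (1 + t) ^ p * Real.exp (-(Real.pi / 2 * t))) →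
    (∀ t : ℝ, t ≤ 0 → ‖G t‖ ≤ C * (1 + |t|) ^ P * Real.exp (-(Real.pi / 2 * |t|))) →
    ∀ ξ : ℂ, 0 < ξ.re → 0 ≤ ξ.im →
      ‖VI G c ξ‖ ≤ D * ‖ξ‖ ^ (-c) * (‖ξ‖ / ξ.re) ^ (p + 1) := by
  obtain ⟨K1, hK1, H1⟩ := rb_one_side p hp
  obtain ⟨K2, hK2, H2⟩ := rb_one_side (max P 0) (by
    have := le_max_right P 0
    linarith)
  have hpi : (0:ℝ) < Real.pi / 2 := by positivity
  obtain ⟨HI2, HB2⟩ := H2 (Real.pi / 2) hpi le_rfl
  set J : ℝ := ∫ t in Ioi (0 : ℝ), (1 + t) ^ (max P 0) * Real.exp (-(Real.pi / 2 * t)) with hJ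
  have hJ0 : 0 ≤ J := by
    apply setIntegral_nonneg measurableSet_Ioi
    intro t ht
    have ht0 : (0:ℝ) < t := ht
    have : (0:ℝ) ≤ (1 + t) ^ (max P 0) := Real.rpow_nonneg (by linarith) _
    positivity
  refine ⟨(1 / (2 * Real.pi)) * ((2 * Real.pi) ^ (-c) * |C| *
    (K1 + J * (Real.pi / 2) ^ (p + 1))), ?_⟩
  intro G hG1 hG2 ξ hre him
  have hξ : ξ ≠ 0 := by
    intro h; rw [h] at hre; simp at hre
  have hnξ : 0 < ‖ξ‖ := norm_pos_iff.mpr hξ
  have hC : 0 ≤ C := by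
    have := hG1 0 le_rfl
    simp at this
    exact le_trans (norm_nonneg _) this
  set α : ℝ := arg ξ with hα
  have hα0 : 0 ≤ α := Complex.arg_nonneg_iff.mpr him
  have hα1 : α < Real.pi / 2 := by
    have := (Complex.abs_arg_lt_pi_div_two_iff (z := ξ)).mpr (Or.inl hre)
    exact lt_of_le_of_lt (le_abs_self _) this
  set β : ℝ := Real.pi / 2 - α with hβdef
  have hβ : 0 < β := by rw [hβdef]; linarith
  have hβ2 : β ≤ Real.pi / 2 := by rw [hβdef]; linarith
  obtain ⟨HI1, HB1⟩ := H1 β hβ hβ2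
  have h2pi : (2 * (Real.pi : ℂ) * ξ) ≠ 0 := by
    have : (Real.pi : ℂ) ≠ 0 := by exact_mod_cast Real.pi_ne_zero
    simp [hξ, this]
  have hnorm : ‖(2 * (Real.pi : ℂ) * ξ)‖ = 2 * Real.pi * ‖ξ‖ := by
    rw [norm_mul, norm_mul]
    simp [abs_of_pos Real.pi_pos]
  have harg : arg (2 * (Real.pi : ℂ) * ξ) = α := by
    have : (2 * (Real.pi : ℂ) * ξ) = ((2 * Real.pi : ℝ) : ℂ) * ξ := by push_cast; ring
    rw [this, Complex.arg_real_mul ξ (by positivity)]
  have hcp : ∀ t : ℝ, ‖(2 * (Real.pi : ℂ) * ξ) ^ (-(c + t * I : ℂ))‖ =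
      (2 * Real.pi * ‖ξ‖) ^ (-c) * Real.exp (α * t) := by
    intro t
    rw [Complex.norm_cpow_of_ne_zero h2pi, hnorm, harg]
    have e1 : (-((c : ℂ) + t * I)).re = -c := by simp
    have e2 : (-((c : ℂ) + t * I)).im = -t := by simp
    rw [e1, e2, div_eq_mul_inv, ← Real.exp_neg]
    congr 2
    ring
  set W : ℝ := (2 * Real.pi * ‖ξ‖) ^ (-c) with hW
  have hW0 : 0 < W := Real.rpow_pos_of_pos (by positivity) _
  -- the bound functions
  have hbd1 : ∀ t ∈ Ioi (0:ℝ), ‖G t * (2 * (Real.pi : ℂ) * ξ) ^ (-(c + t * I : ℂ))‖ ≤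
      W * C * ((1 + t) ^ p * Real.exp (-(β * t))) := by
    intro t ht
    have ht0 : (0:ℝ) < t := ht
    rw [norm_mul, hcp t]
    have h1 := hG1 t ht0.le
    have h2 : 0 ≤ W * Real.exp (α * t) := by positivity
    calc ‖G t‖ * (W * Real.exp (α * t)) ≤
        (C * (1 + t) ^ p * Real.exp (-(Real.pi / 2 * t))) * (W * Real.exp (α * t)) :=
          mul_le_mul_of_nonneg_right h1 h2
      _ = W * C * ((1 + t) ^ p * (Real.exp (-(Real.pi / 2 * t)) * Real.exp (α * t))) := by ring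
      _ = _ := by
        rw [← Real.exp_add]
        congr 3
        rw [hβdef]; ring_nf
  have hbd2 : ∀ t ∈ Ioi (0:ℝ), ‖G (-t) * (2 * (Real.pi : ℂ) * ξ) ^ (-(c + (-t : ℝ) * I : ℂ))‖ ≤
      W * C * ((1 + t) ^ (max P 0) * Real.exp (-(Real.pi / 2 * t))) := by
    intro t ht
    have ht0 : (0:ℝ) < t := ht
    rw [norm_mul, hcp (-t)]
    have h1 := hG2 (-t) (by linarith)
    rw [abs_neg, abs_of_pos ht0] at h1
    have h3 : (1 + t) ^ P ≤ (1 + t) ^ (max P 0) :=
      Real.rpow_le_rpow_of_exponent_le (by linarith) (le_max_left _ _)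
    have h2 : Real.exp (α * (-t)) ≤ 1 := by
      apply Real.exp_le_one_iff.mpr
      nlinarith
    have h5 : 0 ≤ (1 + t) ^ (max P 0) := Real.rpow_nonneg (by linarith) _
    calc ‖G (-t)‖ * (W * Real.exp (α * (-t))) ≤
        (C * (1 + t) ^ (max P 0) * Real.exp (-(Real.pi / 2 * t))) * (W * 1) := by
          apply mul_le_mul
          · refine h1.trans ?_
            apply mul_le_mul_of_nonneg_right _ (Real.exp_nonneg _)
            exact mul_le_mul_of_nonneg_left h3 hC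
          · exact mul_le_mul_of_nonneg_left h2 hW0.le
          · positivity
          · positivity
      _ = _ := by ring
  have hIb1 : IntegrableOn (fun t : ℝ => W * C * ((1 + t) ^ p * Real.exp (-(β * t)))) (Ioi 0) :=
    HI1.const_mul _
  have hIb2 : IntegrableOn (fun t : ℝ => W * C * ((1 + t) ^ (max P 0) *
      Real.exp (-(Real.pi / 2 * t)))) (Ioi 0) := HI2.const_mul _
  have key : ‖∫ t : ℝ, G t * (2 * (Real.pi : ℂ) * ξ) ^ (-(c + t * I : ℂ))‖ ≤
      W * C * (K1 * β ^ (-(p + 1))) + W * C * J := by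
    by_cases hint : Integrable (fun t : ℝ => G t * (2 * (Real.pi : ℂ) * ξ) ^ (-(c + t * I : ℂ)))
    · have hsplit : ∫ t : ℝ, G t * (2 * (Real.pi : ℂ) * ξ) ^ (-(c + t * I : ℂ)) =
          (∫ t in Iic (0:ℝ), G t * (2 * (Real.pi : ℂ) * ξ) ^ (-(c + t * I : ℂ))) +
          ∫ t in Ioi (0:ℝ), G t * (2 * (Real.pi : ℂ) * ξ) ^ (-(c + t * I : ℂ)) := by
        rw [← intervalIntegral.integral_Iic_add_Ioi hint.integrableOn hint.integrableOn]
      rw [hsplit]
      have hneg : (∫ t in Iic (0:ℝ), G t * (2 * (Real.pi : ℂ) * ξ) ^ (-(c + t * I : ℂ))) =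
          ∫ t in Ioi (0:ℝ), G (-t) * (2 * (Real.pi : ℂ) * ξ) ^ (-(c + (-t : ℝ) * I : ℂ)) := by
        have := integral_comp_neg_Ioi (0:ℝ)
          (fun t : ℝ => G t * (2 * (Real.pi : ℂ) * ξ) ^ (-(c + t * I : ℂ)))
        rw [neg_zero] at this
        rw [← this]
      rw [hneg]
      have b1 : ‖∫ t in Ioi (0:ℝ), G t * (2 * (Real.pi : ℂ) * ξ) ^ (-(c + t * I : ℂ))‖ ≤
          W * C * (K1 * β ^ (-(p + 1))) := by
        calc _ ≤ ∫ t in Ioi (0:ℝ), W * C * ((1 + t) ^ p * Real.exp (-(β * t))) := by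
              apply norm_integral_le_of_norm_le hIb1
              exact (ae_restrict_iff' measurableSet_Ioi).mpr (Filter.Eventually.of_forall hbd1)
          _ = W * C * ∫ t in Ioi (0:ℝ), ((1 + t) ^ p * Real.exp (-(β * t))) := by
              rw [integral_const_mul]
          _ ≤ _ := mul_le_mul_of_nonneg_left HB1 (by positivity)
      have b2 : ‖∫ t in Ioi (0:ℝ), G (-t) * (2 * (Real.pi : ℂ) * ξ) ^ (-(c + (-t : ℝ) * I : ℂ))‖ ≤
          W * C * J := by
        calc _ ≤ ∫ t in Ioi (0:ℝ), W * C * ((1 + t) ^ (max P 0) *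
                Real.exp (-(Real.pi / 2 * t))) := by
              apply norm_integral_le_of_norm_le hIb2
              exact (ae_restrict_iff' measurableSet_Ioi).mpr (Filter.Eventually.of_forall hbd2)
          _ = W * C * J := by rw [integral_const_mul]
      calc _ ≤ _ := norm_add_le _ _
        _ ≤ W * C * J + W * C * (K1 * β ^ (-(p + 1))) := add_le_add b2 b1
        _ = _ := by ring
    · rw [integral_undef hint, norm_zero]
      have : 0 < β ^ (-(p + 1)) := Real.rpow_pos_of_pos hβ _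
      positivity
  have hβξ : ξ.re / ‖ξ‖ ≤ β := by
    have h1 := Complex.cos_arg hξ
    rw [← h1, ← hα]
    have h2 : Real.cos α = Real.sin β := by rw [hβdef, Real.sin_pi_div_two_sub]
    rw [h2]
    exact Real.sin_le hβ.le
  have hr0 : 0 < ξ.re / ‖ξ‖ := by positivity
  have hβpow : β ^ (-(p + 1)) ≤ (‖ξ‖ / ξ.re) ^ (p + 1) := by
    have h1 : β ^ (-(p + 1)) ≤ (ξ.re / ‖ξ‖) ^ (-(p + 1)) :=
      Real.rpow_le_rpow_of_nonpos hr0 hβξ (by linarith)
    refine h1.trans (le_of_eq ?_)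
    rw [Real.rpow_neg hr0.le, ← Real.inv_rpow hr0.le, inv_div]
  have hone : 1 ≤ (Real.pi / 2) ^ (p + 1) * (‖ξ‖ / ξ.re) ^ (p + 1) := by
    rw [← Real.mul_rpow hpi.le (by positivity)]
    apply Real.one_le_rpow _ (by linarith)
    have h1 : 1 ≤ ‖ξ‖ / ξ.re := by
      rw [le_div_iff₀ hre, one_mul]
      exact (le_abs_self _).trans (Complex.abs_re_le_norm ξ)
    have h2 : (1:ℝ) ≤ Real.pi / 2 := by
      have := Real.pi_gt_three
      linarith
    nlinarith
  unfold VI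
  rw [norm_mul]
  have hn1 : ‖((1 / (2 * Real.pi) : ℝ) : ℂ)‖ = 1 / (2 * Real.pi) := by
    rw [Complex.norm_real, Real.norm_of_nonneg (by positivity)]
  rw [hn1]
  have hWe : W = (2 * Real.pi) ^ (-c) * ‖ξ‖ ^ (-c) := by
    rw [hW, Real.mul_rpow (by positivity) hnξ.le]
  set R : ℝ := (‖ξ‖ / ξ.re) ^ (p + 1) with hR
  have hR0 : 0 < R := Real.rpow_pos_of_pos (by positivity) _
  have hfin : W * C * (K1 * β ^ (-(p + 1))) + W * C * J ≤
      W * C * ((K1 + J * (Real.pi / 2) ^ (p + 1)) * R) := by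
    have hWC : 0 ≤ W * C := by positivity
    have a1 : K1 * β ^ (-(p + 1)) ≤ K1 * R := mul_le_mul_of_nonneg_left hβpow hK1
    have a2 : J ≤ J * ((Real.pi / 2) ^ (p + 1) * R) := by
      nlinarith
    calc W * C * (K1 * β ^ (-(p + 1))) + W * C * J = W * C * (K1 * β ^ (-(p + 1)) + J) := by ring
      _ ≤ W * C * (K1 * R + J * ((Real.pi / 2) ^ (p + 1) * R)) :=
        mul_le_mul_of_nonneg_left (add_le_add a1 a2) hWC
      _ = _ := by ring
  calc 1 / (2 * Real.pi) * ‖∫ t : ℝ, G t * (2 * (Real.pi : ℂ) * ξ) ^ (-(c + t * I : ℂ))‖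
      ≤ 1 / (2 * Real.pi) * (W * C * ((K1 + J * (Real.pi / 2) ^ (p + 1)) * R)) := by
        apply mul_le_mul_of_nonneg_left (key.trans hfin) (by positivity)
    _ = _ := by
      rw [hWe, abs_of_nonneg hC]
      ring

end Pool.Agent.H11.SC
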