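import Mathlib
import Pool.Agent.H11.SC.Defs
import Pool.Agent.H11.SC.Step
import Pool.Agent.H11.SC.Conj

/-!
# APPR: `Psi a` is an approximately invariant function

* `phi_refl`: `phi a (-conj z) = phi (cj a) z`: same imaginary part, and
  `-i(-conj z) = i conj z = conj (-i z)`, `gs_conj`.
* `nonneg`: clear.  `per`: `exp(-2πn(-i(z+1))) = exp(-2πn(-iz)) exp(2πin)`.
* `top`: `gs_top` with `m = 3`, `δ = 1`: `phi a z ≤ C y^(7/2) e^(-πy)` for `y = Im z ≥ y0`, and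
  `y^(7/2) e^(-πy)` is bounded.
* `step`: for `Re z ≤ 0`: `one_step h` and `one_step h.conj` (`cj_cj`) give
  `|phi a z - phi (cj a) z'| ≤ C y^θ`, `|phi (cj a) z - phi a z'| ≤ C y^θ`; add.  For `Re z ≥ 0` apply
  the same two inequalities at `-conj z`: `-1/(q(-conj z)) = -conj(z')`, and use `phi_refl`.
* `Psi_pos`: `gs_pos` at `z = iv`: `-i(iv) = v`.
-/

set_option autoImplicit false

namespace Pool.Agent.H11.SC

open Complex Pool.Agent.H11.Selberg

variable {a : ℕ → ℂ} {F : ℂ → ℂ} {Q : ℝ} {k : ℕ} {lam : Fin k → ℝ} {mu : Fin k → ℂ} {ε : ℂ}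

theorem phi_refl (a : ℕ → ℂ) (z : ℂ) : phi a (-(starRingEnd ℂ) z) = phi (cj a) z := by
  unfold phi
  have h1 : (-(starRingEnd ℂ) z).im = z.im := by simp
  have h2 : -(I * (-(starRingEnd ℂ) z)) = (starRingEnd ℂ) (-(I * z)) := by
    simp
  rw [h1, h2]
  have h3 := gs_conj (cj a) 3 (-(I * z))
  rw [cj_cj] at h3
  rw [← h3, Complex.norm_conj]

theorem phi_nonneg (a : ℕ → ℂ) (z : ℂ) (hz : 0 < z.im) : 0 ≤ phi a z := by
  unfold phi
  have : (0:ℝ) ≤ z.im ^ (7/2 : ℝ) := Real.rpow_nonneg hz.le _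
  positivity

theorem phi_per (a : ℕ → ℂ) (z : ℂ) : phi a (z + 1) = phi a z := by
  unfold phi
  have h1 : (z + 1).im = z.im := by simp
  have h2 : gs a 3 (-(I * (z + 1))) = gs a 3 (-(I * z)) := by
    unfold gs
    apply tsum_congr
    intro n
    congr 1
    rw [Complex.exp_eq_exp_iff_exists_int]
    refine ⟨n, ?_⟩
    push_cast
    ring
  rw [h1, h2]

theorem phi_top (a : ℕ → ℂ) (ha : ∃ C : ℝ, ∀ n : ℕ, 1 ≤ n → ‖a n‖ ≤ C * (n : ℝ) ^ (1 : ℝ))
    (y0 : ℝ) (hy0 : 0 < y0) : ∃ M : ℝ, ∀ z : ℂ, y0 ≤ z.im → phi a z ≤ M := by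
  obtain ⟨C, hC⟩ := gs_top a 3 (by norm_num) 1 ha y0 hy0
  refine ⟨(7/2) ^ (7/2 : ℝ) * |C|, fun z hz => ?_⟩
  have hy : 0 < z.im := lt_of_lt_of_le hy0 hz
  have hre : (-(I * z)).re = z.im := by simp
  have h1 := hC (-(I * z)) (by rw [hre]; exact hz)
  rw [hre] at h1
  have h2 : z.im ^ (7/2 : ℝ) ≤ (7/2) ^ (7/2 : ℝ) * Real.exp z.im := by
    have e1 : z.im ≤ (7/2) * Real.exp (z.im * (2/7)) := by
      have := Real.add_one_le_exp (z.im * (2/7))
      nlinarith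
    calc z.im ^ (7/2 : ℝ) ≤ ((7/2) * Real.exp (z.im * (2/7))) ^ (7/2 : ℝ) :=
          Real.rpow_le_rpow hy.le e1 (by norm_num)
      _ = (7/2) ^ (7/2 : ℝ) * Real.exp z.im := by
          rw [Real.mul_rpow (by norm_num) (Real.exp_nonneg _), ← Real.exp_mul]
          congr 2
          ring
  unfold phi
  calc z.im ^ (7/2 : ℝ) * ‖gs a 3 (-(I * z))‖ ≤
      ((7/2) ^ (7/2 : ℝ) * Real.exp z.im) * (|C| * Real.exp (-(Real.pi * z.im))) := by
        apply mul_le_mul h2 _ (norm_nonneg _) (by positivity)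
        refine h1.trans ?_
        exact mul_le_mul_of_nonneg_right (le_abs_self _) (Real.exp_nonneg _)
    _ = (7/2) ^ (7/2 : ℝ) * |C| * Real.exp (z.im + -(Real.pi * z.im)) := by
        rw [Real.exp_add]; ring
    _ ≤ (7/2) ^ (7/2 : ℝ) * |C| * 1 := by
        apply mul_le_mul_of_nonneg_left _ (by positivity)
        rw [Real.exp_le_one_iff]
        have := Real.pi_gt_three
        nlinarith
    _ = _ := by ring

theorem cj_ram (a : ℕ → ℂ) (δ : ℝ) (ha : ∃ C : ℝ, ∀ n : ℕ, 1 ≤ n → ‖a n‖ ≤ C * (n : ℝ) ^ δ) :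
    ∃ C : ℝ, ∀ n : ℕ, 1 ≤ n → ‖cj a n‖ ≤ C * (n : ℝ) ^ δ := by
  obtain ⟨C, hC⟩ := ha
  refine ⟨C, fun n hn => ?_⟩
  unfold cj
  rw [Complex.norm_conj]
  exact hC n hn

/-- both halves of the step -/
theorem step_both (h : FEq a F Q lam mu ε) : ∃ C : ℝ, ∀ z : ℂ, 0 < z.im → z.im ≤ 1 →
    ‖z‖ ≤ 2 →
    |phi a z - phi (cj a) (-1 / (((2 * Real.pi * Bp Q lam) ^ 2 : ℝ) * z))| ≤
      C * z.im ^ (1 / 4 : ℝ) := by
  obtain ⟨C1, h1⟩ := one_step h
  obtain ⟨C2, h2⟩ := one_step h.conj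
  refine ⟨max C1 C2, fun z hy hy1 hz => ?_⟩
  have hp : 0 ≤ z.im ^ (1/4 : ℝ) := Real.rpow_nonneg hy.le _
  rcases le_total z.re 0 with hx | hx
  · exact (h1 z hy hy1 hz hx).trans (mul_le_mul_of_nonneg_right (le_max_left _ _) hp)
  · have h3 := h2 (-(starRingEnd ℂ) z) (by simpa using hy) (by simpa using hy1)
      (by simpa using hz) (by simpa using hx)
    have e1 : (-(starRingEnd ℂ) z).im = z.im := by simp
    rw [cj_cj, e1] at h3
    have e2 : phi (cj a) (-(starRingEnd ℂ) z) = phi a z := by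
      rw [phi_refl, cj_cj]
    have e3 : (-1 / ((((2 * Real.pi * Bp Q lam) ^ 2 : ℝ) : ℂ) * (-(starRingEnd ℂ) z))) =
        -(starRingEnd ℂ) (-1 / ((((2 * Real.pi * Bp Q lam) ^ 2 : ℝ) : ℂ) * z)) := by
      rw [map_div₀, map_mul, Complex.conj_ofReal, map_neg, map_one, mul_neg, div_neg]
    rw [e2, e3, phi_refl] at h3
    exact h3.trans (mul_le_mul_of_nonneg_right (le_max_right _ _) hp)

theorem Psi_approx (h : FEq a F Q lam mu ε) :
    Approx ((2 * Real.pi * Bp Q lam) ^ 2) (Psi a) := by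
  have hram := h.ram 1 (by norm_num)
  have hram2 := cj_ram a 1 hram
  refine ⟨?_, ?_, ?_, ?_⟩
  · intro z hz
    unfold Psi
    exact add_nonneg (phi_nonneg a z hz) (phi_nonneg _ z hz)
  · intro z
    unfold Psi
    rw [phi_per, phi_per]
  · intro y0 hy0
    obtain ⟨M1, hM1⟩ := phi_top a hram y0 hy0
    obtain ⟨M2, hM2⟩ := phi_top (cj a) hram2 y0 hy0
    refine ⟨M1 + M2, fun z hz => ?_⟩
    unfold Psi
    exact add_le_add (hM1 z hz) (hM2 z hz)
  · obtain ⟨C1, h1⟩ := step_both h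
    obtain ⟨C2, h2⟩ := step_both h.conj
    refine ⟨C1 + C2, 1/4, by norm_num, fun z hy hy1 hz => ?_⟩
    have a1 := h1 z hy hy1 hz
    have a2 := h2 z hy hy1 hz
    rw [cj_cj] at a2
    unfold Psi
    rw [add_mul]
    refine le_trans ?_ (add_le_add a1 a2)
    refine le_trans (le_of_eq ?_) (abs_add_le _ _)
    congr 1
    ring

theorem Psi_pos (h : FEq a F Q lam mu ε) : ∃ v0 : ℝ, ∀ v : ℝ, v0 ≤ v → 0 < Psi a (v * I) := by
  have hram := h.ram 1 (by norm_num)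
  obtain ⟨v0, hv0⟩ := gs_pos a 3 (by norm_num) 1 hram h.one
  refine ⟨max v0 1, fun v hv => ?_⟩
  have h1 : v0 ≤ v := (le_max_left _ _).trans hv
  have h2 : 1 ≤ v := (le_max_right _ _).trans hv
  have him : (v * I : ℂ).im = v := by simp
  have hre : -(I * (v * I : ℂ)) = (v : ℂ) := by
    have : -(I * (v * I : ℂ)) = -(I * I) * v := by ring
    rw [this, Complex.I_mul_I]; ring
  unfold Psi
  have p1 : 0 < phi a (v * I) := by
    unfold phi
    rw [him, hre]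
    have := hv0 v h1
    have h3 : (0:ℝ) < v ^ (7/2 : ℝ) := Real.rpow_pos_of_pos (by linarith) _
    positivity
  have p2 : 0 ≤ phi (cj a) (v * I) := phi_nonneg _ _ (by rw [him]; linarith)
  linarith

end Pool.Agent.H11.SC
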