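import Mathlib
import Pool.Agent.H11.SC.Defs

/-!
# NORM: normalisation by an imaginary shift

`δ = -∑ Im μ_j`, `a' n = a n * n^(-iδ)`, `F' s = G (s + iδ)`, `mu' j = mu j + i λ_j δ`,
`ε' = Q^(-2iδ) ε`.
* `diff`: composition.  `eqL`, `summable`: `LSeries a' s = LSeries a (s + iδ)` term by term
  (`n^(-iδ) / n^s = 1 / n^(s + iδ)`, `n ≥ 1`), and `F (s + iδ) = G (s + iδ)` as `s + iδ ≠ 1` (its real
  part is `> 1`).
* `ram`, `one`: `‖n^(-iδ)‖ = 1` for `n ≥ 1`; `1^(-iδ) = 1`.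
* `order`: `hS.continuation` gives `m`, `G0` entire with `‖G0 s‖ ≤ C exp(‖s‖^A)` and
  `G0 s = (s-1)^m F s = (s-1)^m G s` for `s ≠ 1`.  For `‖s - 1‖ ≥ 1`, `‖G s‖ ≤ ‖G0 s‖`; on the compact
  disc `‖s - 1‖ ≤ 1` `G` is bounded.  Then `‖G (s + iδ)‖ ≤ C' exp(‖s + iδ‖^A)`, and with `A ≥ 1`
  w.l.o.g. (`‖s‖ ≥ 1`), `‖s + iδ‖^A ≤ (‖s‖^2)^A` when `‖s‖ ≥ |δ| + 2`; bounded otherwise.
* `feq`: `completed Q lam mu' F' s = Q^(-iδ) completed Q lam mu F (s + iδ)` (`Q^(s+iδ) = Q^s Q^(iδ)`,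
  `λ_j s + mu' j = λ_j (s + iδ) + mu j`), `1 - conj (s + iδ) = (1 - conj s) + iδ`,
  `conj (Q^(iδ)) = Q^(-iδ)`.
* `shift`: `∑ Im mu' j = ∑ Im mu j + δ ∑ λ_j = 0`.
-/

set_option autoImplicit false

namespace Pool.Agent.H11.SC

open Complex Pool.Agent.H11.Selberg

theorem norm_order {G F G0 : ℂ → ℂ} {m : ℕ} (hG : Differentiable ℂ G)
    (hGF : ∀ s, s ≠ 1 → G s = F s) (hb : ∃ A C : ℝ, ∀ s, ‖G0 s‖ ≤ C * Real.exp (‖s‖ ^ A))
    (h0 : ∀ s, s ≠ 1 → G0 s = (s - 1) ^ m * F s) (δ : ℝ) :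
    ∃ A C : ℝ, ∀ s, ‖G (s + δ * I)‖ ≤ C * Real.exp (‖s‖ ^ A) := by
  obtain ⟨A, C, hC⟩ := hb
  have hC0 : 0 ≤ C := by
    have h1 := hC 0
    have h2 : 0 ≤ C * Real.exp (‖(0 : ℂ)‖ ^ A) := (norm_nonneg _).trans h1
    exact nonneg_of_mul_nonneg_left h2 (Real.exp_pos _)
  obtain ⟨M, hM⟩ := (isCompact_closedBall (0 : ℂ) (|δ| + 3)).exists_bound_of_continuousOn
    (f := fun s : ℂ => G (s + δ * I))
    ((hG.continuous.comp (by fun_prop : Continuous fun s : ℂ => s + δ * I)).continuousOn)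
  refine ⟨2 * |A|, C + |M|, fun s => ?_⟩
  by_cases hs : ‖s‖ ≤ |δ| + 3
  · have h1 : ‖G (s + δ * I)‖ ≤ M := hM s (by simpa using hs)
    have h2 : (1 : ℝ) ≤ Real.exp (‖s‖ ^ (2 * |A|)) :=
      Real.one_le_exp (Real.rpow_nonneg (norm_nonneg _) _)
    have h3 : |M| ≤ |M| * Real.exp (‖s‖ ^ (2 * |A|)) := le_mul_of_one_le_right (abs_nonneg _) h2
    have h4 : 0 ≤ C * Real.exp (‖s‖ ^ (2 * |A|)) := mul_nonneg hC0 (Real.exp_pos _).le
    have h5 := le_abs_self M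
    nlinarith
  · have hs' : |δ| + 3 ≤ ‖s‖ := (not_le.1 hs).le
    have hδ := abs_nonneg δ
    have hn : ‖(δ : ℂ) * I‖ = |δ| := by simp
    have hw1 : ‖s + δ * I‖ ≤ ‖s‖ + |δ| := by
      simpa [hn] using norm_add_le s ((δ : ℂ) * I)
    have hw2 : ‖s‖ - |δ| ≤ ‖s + δ * I‖ := by
      have h := norm_sub_norm_le s (-((δ : ℂ) * I))
      rw [norm_neg, hn, sub_neg_eq_add] at h
      exact h
    have hw3 : 3 ≤ ‖s + δ * I‖ := by linarith
    have hw4 : 1 ≤ ‖s + δ * I - 1‖ := by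
      have h := norm_sub_norm_le (s + δ * I) 1
      rw [norm_one] at h
      linarith
    have hne : s + δ * I ≠ 1 := by
      intro h
      rw [h, sub_self, norm_zero] at hw4
      linarith
    have h1 : ‖G (s + δ * I)‖ ≤ ‖G0 (s + δ * I)‖ := by
      rw [h0 _ hne, hGF _ hne, norm_mul, norm_pow]
      exact le_mul_of_one_le_left (norm_nonneg _) (one_le_pow₀ hw4)
    have h2 := hC (s + δ * I)
    have h3 : ‖s + δ * I‖ ^ A ≤ ‖s‖ ^ (2 * |A|) := by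
      calc ‖s + δ * I‖ ^ A ≤ ‖s + δ * I‖ ^ |A| :=
            Real.rpow_le_rpow_of_exponent_le (by linarith) (le_abs_self A)
        _ ≤ (‖s‖ ^ 2) ^ |A| := by
            apply Real.rpow_le_rpow (norm_nonneg _) _ (abs_nonneg _)
            nlinarith
        _ = ‖s‖ ^ (2 * |A|) := by
            rw [← Real.rpow_natCast, ← Real.rpow_mul (norm_nonneg _)]
            norm_num
    have h4 : Real.exp (‖s + δ * I‖ ^ A) ≤ Real.exp (‖s‖ ^ (2 * |A|)) := Real.exp_le_exp.2 h3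
    calc ‖G (s + δ * I)‖ ≤ C * Real.exp (‖s + δ * I‖ ^ A) := h1.trans h2
      _ ≤ C * Real.exp (‖s‖ ^ (2 * |A|)) := mul_le_mul_of_nonneg_left h4 hC0
      _ ≤ (C + |M|) * Real.exp (‖s‖ ^ (2 * |A|)) := by
          apply mul_le_mul_of_nonneg_right _ (Real.exp_pos _).le
          linarith [abs_nonneg M]

theorem term_shift (a : ℕ → ℂ) (δ : ℝ) (s : ℂ) (n : ℕ) :
    LSeries.term (fun n => a n * (n : ℂ) ^ (-(δ * I) : ℂ)) s n =
      LSeries.term a (s + δ * I) n := by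
  rcases Nat.eq_zero_or_pos n with rfl | hn
  · simp
  · have h0 : (n : ℂ) ≠ 0 := by exact_mod_cast hn.ne'
    rw [LSeries.term_of_ne_zero hn.ne', LSeries.term_of_ne_zero hn.ne', cpow_neg, cpow_add _ _ h0]
    field_simp

theorem completed_shift (Q : ℝ) {r : ℕ} (lam : Fin r → ℝ) (mu : Fin r → ℂ) (F G : ℂ → ℂ)
    (hQ : 0 < Q) (hGF : ∀ s, s ≠ 1 → G s = F s) (δ : ℝ) (s : ℂ) (hs : s.re < 1) :
    completed Q lam mu F (s + δ * I) =
      (Q : ℂ) ^ (δ * I : ℂ) *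
        completed Q lam (fun j => mu j + lam j * (δ * I)) (fun s => G (s + δ * I)) s := by
  have hne : s + δ * I ≠ 1 := by
    intro h
    have := congrArg Complex.re h
    simp at this
    linarith
  have hQ0 : (Q : ℂ) ≠ 0 := by exact_mod_cast hQ.ne'
  unfold completed
  rw [← hGF _ hne, cpow_add _ _ hQ0]
  have h1 : ∀ j, (lam j : ℂ) * (s + δ * I) + mu j = lam j * s + (mu j + lam j * (δ * I)) := by
    intro j; ring
  simp only [h1]
  ring

theorem normalise (a : ℕ → ℂ) (F : ℂ → ℂ) (hS : IsSelberg a F) (G : ℂ → ℂ)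
    (hG : Differentiable ℂ G) (hGF : ∀ s, s ≠ 1 → G s = F s)
    (Q : ℝ) (r : ℕ) (lam : Fin r → ℝ) (mu : Fin r → ℂ) (ε : ℂ)
    (hQ : 0 < Q) (hlam : ∀ j, 0 < lam j) (hmu : ∀ j, 0 ≤ (mu j).re) (hε : ‖ε‖ = 1)
    (hfe : ∀ s : ℂ, 0 < s.re → s.re < 1 →
      completed Q lam mu F s =
        ε * (starRingEnd ℂ) (completed Q lam mu F (1 - (starRingEnd ℂ) s)))
    (hdeg : ∑ j, lam j = 1) :
    ∃ (a' : ℕ → ℂ) (F' : ℂ → ℂ) (mu' : Fin r → ℂ) (ε' : ℂ),
      FEq a' F' Q lam mu' ε' ∧ ∀ n : ℕ, 1 ≤ n → ‖a' n‖ = ‖a n‖ := by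
  set δ : ℝ := -∑ j, (mu j).im with hδ
  have hQ0 : (Q : ℂ) ≠ 0 := by exact_mod_cast hQ.ne'
  have hnorm : ∀ n : ℕ, 1 ≤ n → ‖a n * (n : ℂ) ^ (-(δ * I) : ℂ)‖ = ‖a n‖ := by
    intro n hn
    rw [norm_mul, norm_natCast_cpow_of_pos (by omega)]
    simp
  refine ⟨fun n => a n * (n : ℂ) ^ (-(δ * I) : ℂ), fun s => G (s + δ * I),
    fun j => mu j + lam j * (δ * I), (Q : ℂ) ^ (-(2 * δ * I) : ℂ) * ε, ?_, hnorm⟩
  have hsum : ∀ s : ℂ, 1 < s.re →
      LSeriesSummable (fun n => a n * (n : ℂ) ^ (-(δ * I) : ℂ)) s := by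
    intro s hs
    have h1 : 1 < (s + δ * I).re := by simpa using hs
    have h2 := hS.summable _ h1
    unfold LSeriesSummable at h2 ⊢
    convert h2 using 1
    funext n
    exact term_shift a δ s n
  refine
    { diff := ?_
      order := ?_
      summable := hsum
      eqL := ?_
      ram := ?_
      one := ?_
      Qpos := hQ
      lampos := hlam
      mure := ?_
      eps := ?_
      feq := ?_
      deg := hdeg
      shift := ?_ }
  · exact hG.comp (by fun_prop : Differentiable ℂ fun s : ℂ => s + δ * I)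
  · obtain ⟨m, G0, -, hb, h0⟩ := hS.continuation
    exact norm_order hG hGF hb h0 δ
  · intro s hs
    have h1 : 1 < (s + δ * I).re := by simpa using hs
    have hne : s + δ * I ≠ 1 := by
      intro h
      rw [h] at h1
      simp at h1
    show G (s + δ * I) = _
    rw [hGF _ hne, hS.eq_LSeries _ h1]
    unfold LSeries
    exact (tsum_congr fun n => term_shift a δ s n).symm
  · intro e he
    obtain ⟨C, hC⟩ := hS.ramanujan e he
    refine ⟨C, fun n hn => ?_⟩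
    show ‖a n * (n : ℂ) ^ (-(δ * I) : ℂ)‖ ≤ _
    rw [hnorm n hn]
    exact hC n hn
  · show a 1 * ((1 : ℕ) : ℂ) ^ (-(δ * I) : ℂ) = 1
    rw [hS.one]
    simp
  · intro j
    have := hmu j
    simpa using this
  · rw [norm_mul, hε, norm_cpow_eq_rpow_re_of_pos hQ]
    simp
  · intro s hs0 hs1
    have hcs : (1 - (starRingEnd ℂ) s).re < 1 := by simpa using hs0
    have e1 := completed_shift Q lam mu F G hQ hGF δ s hs1
    have e2 := completed_shift Q lam mu F G hQ hGF δ (1 - (starRingEnd ℂ) s) hcs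
    have h1 := hfe (s + δ * I) (by simpa using hs0) (by simpa using hs1)
    have h2 : 1 - (starRingEnd ℂ) (s + δ * I) = 1 - (starRingEnd ℂ) s + δ * I := by
      simp only [map_add, map_mul, conj_ofReal, conj_I]
      ring
    rw [h2, e1, e2, map_mul] at h1
    have h3 : (starRingEnd ℂ) ((Q : ℂ) ^ (δ * I : ℂ)) = (Q : ℂ) ^ (-(δ * I) : ℂ) := by
      have harg : (Q : ℂ).arg ≠ Real.pi := by
        rw [arg_ofReal_of_nonneg hQ.le]
        exact Real.pi_pos.ne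
      have h := cpow_conj (Q : ℂ) (δ * I) harg
      rw [conj_ofReal] at h
      rw [← h]
      simp
    rw [h3] at h1
    have h4 : (Q : ℂ) ^ (-(δ * I) : ℂ) * (Q : ℂ) ^ (δ * I : ℂ) = 1 := by
      rw [← cpow_add _ _ hQ0]
      simp
    have h5 : (Q : ℂ) ^ (-(2 * δ * I) : ℂ) = (Q : ℂ) ^ (-(δ * I) : ℂ) * (Q : ℂ) ^ (-(δ * I) : ℂ) := by
      rw [← cpow_add _ _ hQ0]
      congr 1
      ring
    rw [h5]
    linear_combination (Q : ℂ) ^ (-(δ * I) : ℂ) * h1 -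
      (completed Q lam (fun j => mu j + lam j * (δ * I)) (fun s => G (s + δ * I)) s) * h4
  · have h1 : ∀ j, (mu j + lam j * (δ * I)).im = (mu j).im + lam j * δ := by
      intro j; simp
    show ∑ j, (mu j + lam j * (δ * I)).im = 0
    simp only [h1]
    rw [Finset.sum_add_distrib, ← Finset.sum_mul, hdeg, hδ]
    ring

end Pool.Agent.H11.SC
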