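import Mathlib

/-!
# COUNT: many coprime pairs, with `q ∣ c`

`P` = pairs `(a, c')` with `M/4 ≤ c' ≤ M`, `1 ≤ a ≤ c'`, `gcd(a, q c') = 1`.
Total number of pairs `1 ≤ a ≤ c' ≤ M`: `M(M+1)/2`.
Pairs with `q ∣ a` (`q = 2, 3`): `∑_{c' ≤ M} ⌊c'/q⌋ ≤ M(M+1)/(2q)`.
Pairs with `ℓ ∣ a`, `ℓ ∣ c'` (`ℓ ≠ q` prime): `∑_{k ≤ M/ℓ} k ≤ (M/ℓ)(M/ℓ+1)/2 = M²/(2ℓ²) + M/(2ℓ)`, used
for `ℓ = 2, 3, 5, 7, 11, 13`; for `ℓ ≥ 17` use `k(k+1)/2 ≤ k²`, `k = ⌊M/ℓ⌋`, so at most `M²/ℓ²`, and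
`∑_{ℓ ≥ 17, odd} 1/ℓ² ≤ 1/32` (`1/ℓ² ≤ (1/2)(1/(ℓ-1) - 1/(ℓ+1))`, telescoping).
Not coprime pairs, in units of `M²/2`, up to `O(M)`:
`q = 1`: `1/4 + 1/9 + 1/25 + 1/49 + 1/121 + 1/169 + 2/32 < 0.499`;
`q = 2`: `1/2 + 1/9 + ... + 1/169 + 2/32 < 0.749`;
`q = 3`: `1/3 + 1/4 + 1/25 + ... + 1/169 + 2/32 < 0.721`.
Pairs with `4 c' < M`: `≤ (M/4)(M/4+1)/2 = M²/32 + O(M)`.
So `|P| ≥ (0.251/2 - 1/32) M² - O(M) ≥ M²/16` for large `M`.
(Any other proof is fine, e.g. with a worse constant than `1/16`, as only `c0 > 0` is asserted.)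
-/

set_option autoImplicit false

namespace Pool.Agent.H11.SC

private theorem tele (n : ℕ) :
    ∑ i ∈ Finset.range n, (1 : ℝ) / ((2 * ((i + 5 : ℕ) : ℝ) + 1) ^ 2) ≤
      1 / 20 - 1 / (4 * ((n : ℝ) + 5)) := by
  induction n with
  | zero => norm_num
  | succ n ih =>
    rw [Finset.sum_range_succ]
    have hn : (0 : ℝ) ≤ n := Nat.cast_nonneg n
    have h1 : (1 : ℝ) / ((2 * ((n + 5 : ℕ) : ℝ) + 1) ^ 2) ≤
        1 / (4 * ((n : ℝ) + 5)) - 1 / (4 * (((n + 1 : ℕ) : ℝ) + 5)) := by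
      push_cast
      rw [div_sub_div _ _ (by positivity) (by positivity), div_le_div_iff₀ (by positivity)
        (by positivity)]
      nlinarith
    linarith

theorem count_pairs (q : ℕ) (hq : q = 1 ∨ q = 2 ∨ q = 3) :
    ∃ c0 : ℝ, 0 < c0 ∧ ∃ M0 : ℕ, ∀ M : ℕ, M0 ≤ M → ∃ P : Finset (ℕ × ℕ),
      c0 * (M : ℝ) ^ 2 ≤ P.card ∧
      ∀ p ∈ P, M ≤ 4 * p.2 ∧ p.2 ≤ M ∧ 1 ≤ p.1 ∧ p.1 ≤ p.2 ∧ Nat.Coprime p.1 (q * p.2) := by
  classical
  refine ⟨1 / 2304, by norm_num, 240, fun M hM => ?_⟩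
  set m := M / 24 with hm
  have hm1 : 24 * m ≤ M := Nat.mul_div_le M 24
  have hm2 : M < 24 * m + 24 := by omega
  have hm3 : 10 ≤ m := by omega
  set A : Finset ℕ := (Finset.range m).image (fun j => 6 * j + 1) with hA
  set C : Finset ℕ := Finset.Icc (6 * m + 6) (24 * m) with hC
  have hAm : ∀ a ∈ A, a % 6 = 1 ∧ a < 6 * m := by
    intro a ha
    obtain ⟨j, hj, rfl⟩ := Finset.mem_image.1 ha
    have := Finset.mem_range.1 hj
    omega
  have hAc : A.card = m := by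
    rw [hA, Finset.card_image_of_injective _ (fun i j h => by simpa using h), Finset.card_range]
  have hCc : C.card = 18 * m - 5 := by
    rw [hC, Nat.card_Icc]; omega
  set B : ℕ → Finset (ℕ × ℕ) := fun l => (A ×ˢ C).filter (fun p => l ∣ p.1 ∧ l ∣ p.2) with hB
  have hBc : ∀ l : ℕ, 0 < l → ((B l).card : ℝ) ≤ 144 * (m : ℝ) ^ 2 * (1 / (l : ℝ) ^ 2) := by
    intro l hl
    have h1 : B l ⊆ ((Finset.Ioc 0 (6 * m)).filter (fun x => l ∣ x)) ×ˢ
        ((Finset.Ioc 0 (24 * m)).filter (fun x => l ∣ x)) := by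
      intro p hp
      rw [hB, Finset.mem_filter, Finset.mem_product] at hp
      obtain ⟨⟨h1, h2⟩, h3, h4⟩ := hp
      rw [Finset.mem_product, Finset.mem_filter, Finset.mem_filter, Finset.mem_Ioc,
        Finset.mem_Ioc]
      have h5 := hAm _ h1
      rw [hC, Finset.mem_Icc] at h2
      refine ⟨⟨⟨by omega, by omega⟩, h3⟩, ⟨⟨by omega, by omega⟩, h4⟩⟩
    have h2 := Finset.card_le_card h1
    rw [Finset.card_product, Nat.Ioc_filter_dvd_card_eq_div, Nat.Ioc_filter_dvd_card_eq_div] at h2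
    have hl' : (0 : ℝ) < l := by exact_mod_cast hl
    have h3 : ((6 * m / l : ℕ) : ℝ) ≤ 6 * m / l := by
      have := @Nat.cast_div_le ℝ _ _ _ (6 * m) l
      push_cast at this; exact this
    have h4 : ((24 * m / l : ℕ) : ℝ) ≤ 24 * m / l := by
      have := @Nat.cast_div_le ℝ _ _ _ (24 * m) l
      push_cast at this; exact this
    calc ((B l).card : ℝ) ≤ ((6 * m / l * (24 * m / l) : ℕ) : ℝ) := by exact_mod_cast h2
      _ = ((6 * m / l : ℕ) : ℝ) * ((24 * m / l : ℕ) : ℝ) := by push_cast; ring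
      _ ≤ (6 * m / l) * (24 * m / l) := by
          apply mul_le_mul h3 h4 (Nat.cast_nonneg _) (by positivity)
      _ = 144 * (m : ℝ) ^ 2 * (1 / (l : ℝ) ^ 2) := by field_simp; ring
  set P := (A ×ˢ C).filter (fun p => Nat.Coprime p.1 p.2) with hP
  set N := (A ×ˢ C).filter (fun p => ¬ Nat.Coprime p.1 p.2) with hN
  have hsub : N ⊆ B 5 ∪ B 7 ∪ (Finset.range (3 * m)).biUnion (fun i => B (2 * (i + 5) + 1)) := by
    intro p hp
    rw [hN, Finset.mem_filter] at hp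
    obtain ⟨hp1, hp2⟩ := hp
    obtain ⟨l, hl, hl1, hl2⟩ := Nat.Prime.not_coprime_iff_dvd.1 hp2
    have hmem : p ∈ B l := by
      rw [hB, Finset.mem_filter]; exact ⟨hp1, hl1, hl2⟩
    have h1 := hAm _ (Finset.mem_product.1 hp1).1
    have hpos : 0 < p.1 := by omega
    have hle : l ≤ p.1 := Nat.le_of_dvd hpos hl1
    have h2 : l ≠ 2 := by rintro rfl; omega
    have h3 : l ≠ 3 := by rintro rfl; omega
    have h4 := hl.two_le
    rw [Finset.mem_union, Finset.mem_union, Finset.mem_biUnion]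
    by_cases h5 : l = 5
    · left; left; rwa [h5] at hmem
    by_cases h7 : l = 7
    · left; right; rwa [h7] at hmem
    right
    have hodd : l % 2 = 1 := by
      rcases hl.eq_two_or_odd with h | h
      · exact absurd h h2
      · exact h
    have h11 : 11 ≤ l := by
      by_contra hcon
      have h9 : l = 9 := by omega
      rw [h9] at hl
      exact absurd hl (by norm_num)
    refine ⟨(l - 11) / 2, ?_, ?_⟩
    · rw [Finset.mem_range]; omega
    · have : 2 * ((l - 11) / 2 + 5) + 1 = l := by omega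
      rw [this]; exact hmem
  have hNc : (N.card : ℝ) ≤ 16 * (m : ℝ) ^ 2 := by
    have h1 : N.card ≤ (B 5).card + (B 7).card +
        ∑ i ∈ Finset.range (3 * m), (B (2 * (i + 5) + 1)).card := by
      calc N.card ≤ _ := Finset.card_le_card hsub
        _ ≤ (B 5 ∪ B 7).card + ((Finset.range (3 * m)).biUnion
            (fun i => B (2 * (i + 5) + 1))).card := Finset.card_union_le _ _
        _ ≤ _ := by
            gcongr
            · exact Finset.card_union_le _ _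
            · exact Finset.card_biUnion_le
    have h2 : (N.card : ℝ) ≤ ((B 5).card : ℝ) + ((B 7).card : ℝ) +
        ∑ i ∈ Finset.range (3 * m), ((B (2 * (i + 5) + 1)).card : ℝ) := by exact_mod_cast h1
    have h3 : ∑ i ∈ Finset.range (3 * m), ((B (2 * (i + 5) + 1)).card : ℝ) ≤
        144 * (m : ℝ) ^ 2 * (1 / 20) := by
      calc ∑ i ∈ Finset.range (3 * m), ((B (2 * (i + 5) + 1)).card : ℝ)
          ≤ ∑ i ∈ Finset.range (3 * m), 144 * (m : ℝ) ^ 2 *
            (1 / ((2 * ((i + 5 : ℕ) : ℝ) + 1) ^ 2)) := by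
            refine Finset.sum_le_sum (fun i _ => ?_)
            have h4 := hBc (2 * (i + 5) + 1) (by omega)
            push_cast at h4 ⊢
            exact h4
        _ = 144 * (m : ℝ) ^ 2 * ∑ i ∈ Finset.range (3 * m),
            (1 : ℝ) / ((2 * ((i + 5 : ℕ) : ℝ) + 1) ^ 2) := by rw [Finset.mul_sum]
        _ ≤ 144 * (m : ℝ) ^ 2 * (1 / 20) := by
            apply mul_le_mul_of_nonneg_left _ (by positivity)
            have h5 := tele (3 * m)
            have h6 : (0 : ℝ) ≤ 1 / (4 * (((3 * m : ℕ) : ℝ) + 5)) := by positivity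
            linarith
    have h5 := hBc 5 (by norm_num)
    have h7 := hBc 7 (by norm_num)
    push_cast at h5 h7
    nlinarith [sq_nonneg (m : ℝ)]
  have htot : P.card + N.card = m * (18 * m - 5) := by
    rw [hP, hN, Finset.card_filter_add_card_filter_not, Finset.card_product, hAc, hCc]
  have hm3' : (10 : ℝ) ≤ m := by exact_mod_cast hm3
  have htot' : (P.card : ℝ) + N.card = m * (18 * m - 5) := by
    have h1 : ((m * (18 * m - 5) : ℕ) : ℝ) = m * (18 * m - 5) := by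
      rw [Nat.cast_mul, Nat.cast_sub (by omega)]; push_cast; ring
    rw [← h1, ← htot]; push_cast; ring
  have hPc : (m : ℝ) ^ 2 ≤ P.card := by nlinarith
  refine ⟨P, ?_, ?_⟩
  · have hM' : (M : ℝ) ≤ 48 * m := by
      have : M ≤ 48 * m := by omega
      exact_mod_cast this
    have hM0 : (0 : ℝ) ≤ M := Nat.cast_nonneg M
    nlinarith
  · intro p hp
    rw [hP, Finset.mem_filter, Finset.mem_product, hC, Finset.mem_Icc] at hp
    obtain ⟨⟨h1, h2, h3⟩, h4⟩ := hp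
    have h5 := hAm _ h1
    refine ⟨by omega, by omega, by omega, by omega, ?_⟩
    apply Nat.Coprime.mul_right _ h4
    rcases hq with rfl | rfl | rfl
    · exact Nat.coprime_one_right _
    · rw [Nat.coprime_comm, Nat.Prime.coprime_iff_not_dvd Nat.prime_two]; omega
    · rw [Nat.coprime_comm, Nat.Prime.coprime_iff_not_dvd Nat.prime_three]; omega

end Pool.Agent.H11.SC
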