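import Mathlib

/-!
# DOM: the bounded domain of the dual variable (elementary case check)

`Dom q x u` (`x` = real part of the current point, `u` = inverse of the current pole):
`q = 1`: `|u| ≤ 1`.
`q = 2`: `|u| ≤ 1/0.69`; `x > 0.02 → u ≤ 1/1.69`; `x < -0.02 → -1/1.69 ≤ u`.
`q = 3`: `|u| ≤ 1/0.57`; `x > 0.07 → u ≤ 1/0.78`; `x > 1/3 + 0.02 → u ≤ 1/1.56`, and symmetrically.

`dom_step`: `|x| ≤ 1/2`, `x ≠ 0`, `t` real with `|t + 1/(q x)| ≤ 0.001`, `b` an integer with
`|t - b| ≤ 1/2`.  Then `b + u/q ≠ 0` and `Dom q (t - b) (-1/(b + u/q))`.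

PROOF.  By the symmetry `(x, u, t, b) ↦ (-x, -u, -t, -b)` let `x > 0`, so `t ≤ -1/(qx) + 0.001 < 0`.
* `q = 1`: `t ≤ -1.999`, so `b ≤ -2` and `b + u ≤ -1`, `0 < u' ≤ 1`.
* `q = 2`: `t ≤ -0.999`, `b ≤ -1`.
  If `x ≤ 0.02`, `t ≤ -24.9`, `b ≤ -24`, `b + u/2 ≤ -23`, everything clear.
  If `x > 0.02`, `u/2 ≤ 1/3.38 < 0.296`.  `b ≤ -2`: `b + u/2 ≤ -1.704`, `u' ≤ 0.587 ≤ 1/1.69`, fine.
  `b = -1`: `b + u/2 ≤ -0.704`, `0 < u' ≤ 1.4205 ≤ 1/0.69`, and `t - b = t + 1 ≤ 0.001 ≤ 0.02`, so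
  the condition for `x' > 0.02` is empty (the condition for `x' < -0.02` holds as `u' > 0`).
* `q = 3`: `t ≤ -2/3 + 0.001`, `b ≤ -1`; always `u/3 ≤ 1/1.71 < 0.585`.
  `b ≤ -3`: `b + u/3 ≤ -2.4`, `0 < u' ≤ 0.42`, fine.
  `b = -2` (`t ≥ -2.5`, `1/(3x) ≤ 2.501`, `x ≥ 0.1332 > 0.07`, `u/3 ≤ 1/2.34 < 0.4274`):
  `b + u/3 ≤ -1.5726`, `0 < u' ≤ 0.636 ≤ 1/1.56`, fine.
  `b = -1` (`t ≥ -1.5`, `1/(3x) ≤ 1.501`, `x ≥ 0.222 > 0.07`, `u/3 < 0.4274`):
  `b + u/3 ≤ -0.5726`, `0 < u' ≤ 1.7465 ≤ 1/0.57`; `x' = t + 1 ≤ 1/3 + 0.001`, so the condition for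
  `x' > 1/3 + 0.02` is empty; if `x' > 0.07` then `t > -0.93`, `1/(3x) < 0.931`, `x > 0.358 > 1/3 + 0.02`,
  so `u/3 ≤ 1/4.68 < 0.2137`, `b + u/3 ≤ -0.7863`, `u' ≤ 1.2719 ≤ 1/0.78`.
-/

set_option autoImplicit false

namespace Pool.Agent.H11.SC

/-- the domain of the pair (real part, inverse of the pole) -/
def Dom (q : ℕ) (x u : ℝ) : Prop :=
  (q = 1 ∧ |u| ≤ 1) ∨
  (q = 2 ∧ |u| ≤ 1 / 0.69 ∧ (0.02 < x → u ≤ 1 / 1.69) ∧ (x < -0.02 → -(1 / 1.69) ≤ u)) ∨
  (q = 3 ∧ |u| ≤ 1 / 0.57 ∧ (0.07 < x → u ≤ 1 / 0.78) ∧ (x < -0.07 → -(1 / 0.78) ≤ u) ∧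
    (1 / 3 + 0.02 < x → u ≤ 1 / 1.56) ∧ (x < -(1 / 3 + 0.02) → -(1 / 1.56) ≤ u))

theorem dom_zero (q : ℕ) (hq : q = 1 ∨ q = 2 ∨ q = 3) (x : ℝ) : Dom q x 0 := by
  rcases hq with rfl | rfl | rfl
  · left
    norm_num
  · right; left
    norm_num
  · right; right
    norm_num

theorem dom_bound (q : ℕ) (x u : ℝ) (h : Dom q x u) : |u / q| ≤ 1 := by
  rcases h with ⟨rfl, h⟩ | ⟨rfl, h, -⟩ | ⟨rfl, h, -⟩
  · rw [Nat.cast_one, div_one]
    exact h
  · rw [abs_div, div_le_iff₀ (by norm_num)]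
    refine h.trans ?_
    norm_num
  · rw [abs_div, div_le_iff₀ (by norm_num)]
    refine h.trans ?_
    norm_num

theorem dom_neg {q : ℕ} {x u : ℝ} (h : Dom q x u) : Dom q (-x) (-u) := by
  rcases h with ⟨rfl, h⟩ | ⟨rfl, h, h1, h2⟩ | ⟨rfl, h, h1, h2, h3, h4⟩
  · exact Or.inl ⟨rfl, by rwa [abs_neg]⟩
  · refine Or.inr (Or.inl ⟨rfl, by rwa [abs_neg], fun hx => ?_, fun hx => ?_⟩)
    · have := h2 (by linarith)
      linarith
    · have := h1 (by linarith)
      linarith
  · refine Or.inr (Or.inr ⟨rfl, by rwa [abs_neg], fun hx => ?_, fun hx => ?_, fun hx => ?_,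
      fun hx => ?_⟩)
    · have := h2 (by linarith)
      linarith
    · have := h1 (by linarith)
      linarith
    · have := h4 (by linarith)
      linarith
    · have := h3 (by linarith)
      linarith

theorem inv_bd {w r c : ℝ} (hr : 0 < r) (hw : w ≤ -r) (hc : 1 / r ≤ c) :
    w ≠ 0 ∧ 0 < -1 / w ∧ -1 / w ≤ c := by
  have h1 : 0 < -w := by linarith
  have h2 : -1 / w = 1 / (-w) := by
    rw [neg_div, one_div_neg_eq_neg_one_div]
  refine ⟨fun h => by rw [h] at hw; linarith, ?_, ?_⟩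
  · rw [h2]
    exact one_div_pos.2 h1
  · rw [h2]
    exact (one_div_le_one_div_of_le hr (by linarith)).trans hc

theorem dom_step_pos (q : ℕ) (x u t : ℝ) (b : ℤ) (h : Dom q x u) (hx : x ≤ 1 / 2) (hx0 : 0 < x)
    (ht : |t + 1 / (q * x)| ≤ 0.001) (hb : |t - b| ≤ 1 / 2) :
    (b : ℝ) + u / q ≠ 0 ∧ Dom q (t - b) (-1 / (b + u / q)) := by
  have hq0 : (0 : ℝ) < q := by
    rcases h with ⟨rfl, -⟩ | ⟨rfl, -⟩ | ⟨rfl, -⟩ <;> norm_num
  obtain ⟨s, hs⟩ : ∃ s : ℝ, s = 1 / ((q : ℝ) * x) := ⟨_, rfl⟩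
  rw [← hs] at ht
  have hs0 : 0 < s := by
    rw [hs]
    positivity
  have hsx : s * ((q : ℝ) * x) = 1 := by
    rw [hs]
    field_simp
  clear hs hq0
  rw [abs_le] at ht hb
  obtain ⟨ht1, ht2⟩ := ht
  obtain ⟨hb1, hb2⟩ := hb
  rcases h with ⟨rfl, h⟩ | ⟨rfl, h, h1, h2⟩ | ⟨rfl, h, h1, h2, h3, h4⟩
  · -- q = 1
    rw [Nat.cast_one] at hsx ⊢
    rw [one_mul] at hsx
    rw [abs_le] at h
    have hs : 2 ≤ s := by nlinarith
    have hb3 : (b : ℝ) < ((-1 : ℤ) : ℝ) := by
      push_cast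
      norm_num at *
      linarith
    have hb4 : b ≤ -2 := by
      have := Int.cast_lt.1 hb3
      omega
    have hb5 : (b : ℝ) ≤ -2 := by exact_mod_cast hb4
    have hw : (b : ℝ) + u / 1 ≤ -1 := by
      rw [div_one]
      linarith [h.2]
    obtain ⟨e1, e2, e3⟩ := inv_bd (c := 1) one_pos hw (by norm_num)
    refine ⟨e1, Or.inl ⟨rfl, ?_⟩⟩
    rw [abs_of_pos e2]
    exact e3
  · -- q = 2
    have hq : ((2 : ℕ) : ℝ) = 2 := by norm_num
    rw [hq] at hsx ⊢
    rw [abs_le] at h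
    have hs1 : 1 ≤ s := by nlinarith
    have hb3 : (b : ℝ) < ((0 : ℤ) : ℝ) := by
      rw [Int.cast_zero]
      norm_num at ht2 hb1
      linarith
    have hb4 : b ≤ -1 := by
      have := Int.cast_lt.1 hb3
      omega
    have hb5 : (b : ℝ) ≤ -1 := by exact_mod_cast hb4
    by_cases hx2 : x ≤ 0.02
    · have hs2 : 25 ≤ s := by
        by_contra hcon
        push Not at hcon
        have : s * (2 * x) < 25 * (2 * 0.02) := by
          have hh : s * (2 * x) ≤ s * (2 * 0.02) := by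
            apply mul_le_mul_of_nonneg_left _ hs0.le
            linarith
          have hh2 : s * (2 * 0.02) < 25 * (2 * 0.02) := by
            apply mul_lt_mul_of_pos_right hcon
            norm_num
          linarith
        rw [hsx] at this
        norm_num at this
      have hw : (b : ℝ) + u / 2 ≤ -2 := by
        have hu := h.2
        norm_num at hu hb1 hb2 ht1 ht2 ⊢
        linarith
      obtain ⟨e1, e2, e3⟩ := inv_bd (c := 1 / 1.69) (by norm_num) hw (by norm_num)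
      refine ⟨e1, Or.inr (Or.inl ⟨rfl, ?_, fun _ => e3, fun _ => ?_⟩)⟩
      · rw [abs_of_pos e2]
        refine e3.trans ?_
        norm_num
      · refine le_trans ?_ e2.le
        norm_num
    · push Not at hx2
      have hu := h1 hx2
      by_cases hb6 : b ≤ -2
      · have hb7 : (b : ℝ) ≤ -2 := by exact_mod_cast hb6
        have hw : (b : ℝ) + u / 2 ≤ -1.704 := by
          norm_num at hu ⊢
          linarith
        obtain ⟨e1, e2, e3⟩ := inv_bd (c := 1 / 1.69) (by norm_num) hw (by norm_num)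
        refine ⟨e1, Or.inr (Or.inl ⟨rfl, ?_, fun _ => e3, fun _ => ?_⟩)⟩
        · rw [abs_of_pos e2]
          refine e3.trans ?_
          norm_num
        · refine le_trans ?_ e2.le
          norm_num
      · have hb7 : b = -1 := by omega
        subst hb7
        have hw : (((-1 : ℤ) : ℝ)) + u / 2 ≤ -0.704 := by
          push_cast
          norm_num at hu ⊢
          linarith
        obtain ⟨e1, e2, e3⟩ := inv_bd (c := 1 / 0.69) (by norm_num) hw (by norm_num)
        refine ⟨e1, Or.inr (Or.inl ⟨rfl, ?_, fun hc => ?_, fun _ => ?_⟩)⟩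
        · rw [abs_of_pos e2]
          exact e3
        · exfalso
          push_cast at hc
          norm_num at hc ht2
          linarith
        · refine le_trans ?_ e2.le
          norm_num
  · -- q = 3
    have hq : ((3 : ℕ) : ℝ) = 3 := by norm_num
    rw [hq] at hsx ⊢
    rw [abs_le] at h
    have hs1 : 2 / 3 ≤ s := by nlinarith
    have hlow : ∀ c d : ℝ, s ≤ c → c * (3 * d) < 1 → d < x := by
      intro c d hc hcd
      by_contra hcon
      push Not at hcon
      have h5 : s * (3 * x) ≤ c * (3 * x) := mul_le_mul_of_nonneg_right hc (by linarith)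
      have h6 : c * (3 * x) ≤ c * (3 * d) :=
        mul_le_mul_of_nonneg_left (by linarith) (hs0.le.trans hc)
      linarith
    have hb3 : (b : ℝ) < ((0 : ℤ) : ℝ) := by
      rw [Int.cast_zero]
      norm_num at ht2 hb1
      linarith
    have hb4 : b ≤ -1 := by
      have := Int.cast_lt.1 hb3
      omega
    by_cases hb6 : b ≤ -3
    · have hb7 : (b : ℝ) ≤ -3 := by exact_mod_cast hb6
      have hu := h.2
      have hw : (b : ℝ) + u / 3 ≤ -2.4 := by
        norm_num at hu ⊢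
        linarith
      obtain ⟨e1, e2, e3⟩ := inv_bd (c := 1 / 1.56) (by norm_num) hw (by norm_num)
      refine ⟨e1, Or.inr (Or.inr ⟨rfl, ?_, fun _ => e3.trans (by norm_num), fun _ => ?_,
        fun _ => e3, fun _ => ?_⟩)⟩
      · rw [abs_of_pos e2]
        refine e3.trans ?_
        norm_num
      · refine le_trans ?_ e2.le
        norm_num
      · refine le_trans ?_ e2.le
        norm_num
    · rcases (by omega : b = -2 ∨ b = -1) with hb7 | hb7
      · subst hb7
        have hs2 : s ≤ 2.501 := by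
          push_cast at hb1 hb2
          norm_num at hb1 hb2 ht1 ht2 ⊢
          linarith
        have hx7 := hlow 2.501 0.07 hs2 (by norm_num)
        have hu := h1 hx7
        have hw : (((-2 : ℤ) : ℝ)) + u / 3 ≤ -1.57 := by
          push_cast
          norm_num at hu ⊢
          linarith
        obtain ⟨e1, e2, e3⟩ := inv_bd (c := 1 / 1.56) (by norm_num) hw (by norm_num)
        refine ⟨e1, Or.inr (Or.inr ⟨rfl, ?_, fun _ => e3.trans (by norm_num), fun _ => ?_,
          fun _ => e3, fun _ => ?_⟩)⟩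
        · rw [abs_of_pos e2]
          refine e3.trans ?_
          norm_num
        · refine le_trans ?_ e2.le
          norm_num
        · refine le_trans ?_ e2.le
          norm_num
      · subst hb7
        have hs2 : s ≤ 1.501 := by
          push_cast at hb1 hb2
          norm_num at hb1 hb2 ht1 ht2 ⊢
          linarith
        have hx7 := hlow 1.501 0.07 hs2 (by norm_num)
        have hu := h1 hx7
        have hw : (((-1 : ℤ) : ℝ)) + u / 3 ≤ -0.5726 := by
          push_cast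
          norm_num at hu ⊢
          linarith
        obtain ⟨e1, e2, e3⟩ := inv_bd (c := 1 / 0.57) (by norm_num) hw (by norm_num)
        refine ⟨e1, Or.inr (Or.inr ⟨rfl, ?_, fun hc => ?_, fun _ => ?_,
          fun hc => ?_, fun _ => ?_⟩)⟩
        · rw [abs_of_pos e2]
          exact e3
        · have hs3 : s ≤ 0.931 := by
            push_cast at hc
            norm_num at hc ht1 ht2 ⊢
            linarith
          have hx8 := hlow 0.931 (1 / 3 + 0.02) hs3 (by norm_num)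
          have hu2 := h3 hx8
          have hw2 : (((-1 : ℤ) : ℝ)) + u / 3 ≤ -0.786 := by
            push_cast
            norm_num at hu2 ⊢
            linarith
          exact (inv_bd (c := 1 / 0.78) (by norm_num) hw2 (by norm_num)).2.2
        · refine le_trans ?_ e2.le
          norm_num
        · exfalso
          push_cast at hc
          norm_num at hc ht2
          linarith
        · refine le_trans ?_ e2.le
          norm_num

theorem dom_step (q : ℕ) (x u t : ℝ) (b : ℤ) (h : Dom q x u) (hx : |x| ≤ 1 / 2) (hx0 : x ≠ 0)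
    (ht : |t + 1 / (q * x)| ≤ 0.001) (hb : |t - b| ≤ 1 / 2) :
    (b : ℝ) + u / q ≠ 0 ∧ Dom q (t - b) (-1 / (b + u / q)) := by
  rcases lt_or_gt_of_ne hx0 with hneg | hpos
  · have ht' : |(-t) + 1 / (q * (-x))| ≤ 0.001 := by
      have : (-t) + 1 / (q * (-x)) = -(t + 1 / (q * x)) := by
        rw [mul_neg, one_div_neg_eq_neg_one_div]
        ring
      rw [this, abs_neg]
      exact ht
    have hb' : |(-t) - ((-b : ℤ) : ℝ)| ≤ 1 / 2 := by
      have : (-t) - ((-b : ℤ) : ℝ) = -(t - b) := by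
        push_cast
        ring
      rw [this, abs_neg]
      exact hb
    have hx' : -x ≤ 1 / 2 := (neg_le_abs x).trans hx
    obtain ⟨e1, e2⟩ := dom_step_pos q (-x) (-u) (-t) (-b) (dom_neg h) hx' (by linarith) ht' hb'
    have h3 : ((-b : ℤ) : ℝ) + (-u) / q = -(b + u / q) := by
      push_cast
      ring
    rw [h3] at e1 e2
    refine ⟨fun h0 => e1 (by rw [h0, neg_zero]), ?_⟩
    have e3 := dom_neg e2
    have h4 : -((-t) - ((-b : ℤ) : ℝ)) = t - b := by
      push_cast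
      ring
    have h5 : -(-1 / (-((b : ℝ) + u / q))) = -1 / (b + u / q) := by
      rw [neg_div_neg_eq, ← neg_div]
    rw [h4, h5] at e3
    exact e3
  · exact dom_step_pos q x u t b h ((le_abs_self x).trans hx) hpos ht hb

end Pool.Agent.H11.SC
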