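import Mathlib

/-!
# GEO: geometry of one nonterminal step

`z = x + iy`, `0 < y ≤ 1/v`, `v ≥ 10^4`, `|x| ≤ 1/2`, `w = -1/(qz)`, `Im w = y/(q(x²+y²)) ≤ 1/v`.
So `q(x²+y²) ≥ v y`, `q x² ≥ v y - q y² ≥ v y/2 > 0` (`q y ≤ 3/v ≤ v/2`).  Hence `x ≠ 0`.
`Re w = -x/(q(x²+y²))`, `Re w + 1/(qx) = y²/(q x (x²+y²))`, absolute value
`≤ y²/(|x| v y) = y/(v |x|)`, and `(y/(v|x|))² = y²/(v² x²) ≤ 2 q y/v³ ≤ 6/v⁴ ≤ 10^(-6)`.
`Im w ≥ 1.3 y`: `q(x²+y²) ≤ 3/4 + 3·10^(-8) ≤ 1/1.3`.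
-/

set_option autoImplicit false

namespace Pool.Agent.H11.SC

open Complex

theorem geo_re (q : ℝ) (z : ℂ) : (-1 / ((q : ℂ) * z)).re = -z.re / (q * normSq z) := by
  have h : (-1 / ((q : ℂ) * z)) = -((q : ℂ) * z)⁻¹ := by rw [neg_div, one_div]
  rw [h, neg_re, inv_re, normSq_mul, normSq_ofReal, re_ofReal_mul]
  by_cases hq : q = 0
  · simp [hq]
  · field_simp

theorem geo_im (q : ℝ) (z : ℂ) : (-1 / ((q : ℂ) * z)).im = z.im / (q * normSq z) := by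
  have h : (-1 / ((q : ℂ) * z)) = -((q : ℂ) * z)⁻¹ := by rw [neg_div, one_div]
  rw [h, neg_im, inv_im, normSq_mul, normSq_ofReal, im_ofReal_mul]
  by_cases hq : q = 0
  · simp [hq]
  · field_simp

theorem geo_step (q : ℕ) (hq : q = 1 ∨ q = 2 ∨ q = 3) (v : ℝ) (hv : 10 ^ 4 ≤ v) (z : ℂ)
    (hy : 0 < z.im) (hyv : z.im ≤ 1 / v) (hx : |z.re| ≤ 1 / 2) (hw : (-1 / (q * z)).im ≤ 1 / v) :
    z.re ≠ 0 ∧ |(-1 / (q * z)).re + 1 / (q * z.re)| ≤ 0.001 ∧ 1.3 * z.im ≤ (-1 / (q * z)).im := by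
  have hcast : (q : ℂ) = ((q : ℝ) : ℂ) := by push_cast; rfl
  rw [hcast, geo_im] at hw
  rw [hcast, geo_im, geo_re]
  have hq1 : (1 : ℝ) ≤ (q : ℝ) := by
    rcases hq with h | h | h <;> · rw [h]; norm_num
  have hq3 : (q : ℝ) ≤ 3 := by
    rcases hq with h | h | h <;> · rw [h]; norm_num
  generalize (q : ℝ) = Q at *
  have hv0 : (0 : ℝ) < v := by linarith
  set x := z.re with hxd
  set y := z.im with hyd
  have hN : normSq z = x ^ 2 + y ^ 2 := by rw [normSq_apply]; ring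
  rw [hN] at hw ⊢
  have hNpos : 0 < x ^ 2 + y ^ 2 := by positivity
  have hQ0 : 0 < Q := by linarith
  have hQN : 0 < Q * (x ^ 2 + y ^ 2) := by positivity
  -- y v ≤ 1
  have hyv' : y * v ≤ 1 := by
    rwa [le_div_iff₀ hv0] at hyv
  have hw' : v * y ≤ Q * (x ^ 2 + y ^ 2) := by
    rw [div_le_div_iff₀ hQN hv0] at hw
    linarith
  have hy4 : y ≤ 1 / 10 ^ 4 := by
    rw [le_div_iff₀ (by norm_num)]
    nlinarith
  have hx2 : v * y / 2 ≤ Q * x ^ 2 := by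
    have h1 : Q * y ^ 2 ≤ v * y / 2 := by
      have : Q * y ≤ v / 2 := by nlinarith
      nlinarith
    nlinarith
  have hx2pos : 0 < x ^ 2 := by
    have : 0 < v * y / 2 := by positivity
    by_contra hcon
    have : x ^ 2 ≤ 0 := not_lt.1 hcon
    nlinarith
  have hx0 : x ≠ 0 := by
    rintro h
    rw [h] at hx2pos
    norm_num at hx2pos
  refine ⟨hx0, ?_, ?_⟩
  · have heq : -x / (Q * (x ^ 2 + y ^ 2)) + 1 / (Q * x) = y ^ 2 / (Q * (x ^ 2 + y ^ 2) * x) := by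
      field_simp
      ring
    rw [heq]
    apply abs_le_of_sq_le_sq _ (by norm_num)
    rw [div_pow, div_le_iff₀ (by positivity)]
    have h2 : (v * y) ^ 2 ≤ (Q * (x ^ 2 + y ^ 2)) ^ 2 := by
      apply pow_le_pow_left₀ (by positivity) hw'
    have h3 : (v * y) ^ 2 * (v * y / 2) ≤ (Q * (x ^ 2 + y ^ 2)) ^ 2 * (Q * x ^ 2) := by
      apply mul_le_mul h2 hx2 (by positivity) (by positivity)
    have h4 : (y ^ 2) ^ 2 * Q ≤ (0.001) ^ 2 * ((v * y) ^ 2 * (v * y / 2)) := by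
      have h5 : (y ^ 2) ^ 2 * Q = (y ^ 3) * (y * Q) := by ring
      have h6 : (v * y) ^ 2 * (v * y / 2) = y ^ 3 * (v ^ 3 / 2) := by ring
      rw [h5, h6]
      have h7 : y * Q ≤ (0.001) ^ 2 * (v ^ 3 / 2) := by
        have h8 : y * Q ≤ 1 := by nlinarith
        have h9 : (10 ^ 4 : ℝ) ^ 3 ≤ v ^ 3 := pow_le_pow_left₀ (by norm_num) hv 3
        norm_num at h9 ⊢
        linarith
      have h10 : 0 < y ^ 3 := by positivity
      nlinarith
    have h11 : (y ^ 2) ^ 2 * Q ≤ ((0.001) ^ 2 * (Q * (x ^ 2 + y ^ 2) * x) ^ 2) * Q := by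
      nlinarith
    exact le_of_mul_le_mul_right h11 hQ0
  · rw [le_div_iff₀ hQN]
    have hx' : x ^ 2 ≤ 1 / 4 := by
      have := sq_le_sq' (by linarith [abs_le.1 hx]) (abs_le.1 hx).2
      norm_num at this ⊢
      linarith
    have hy' : y ^ 2 ≤ 1 / 10 ^ 8 := by
      have := pow_le_pow_left₀ hy.le hy4 2
      norm_num at this ⊢
      linarith
    have : Q * (x ^ 2 + y ^ 2) ≤ 3 * (1 / 4 + 1 / 10 ^ 8) := by
      apply mul_le_mul hq3 (by linarith) (by positivity) (by norm_num)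
    nlinarith

/-- the height of the point before the last one -/
theorem geo_last (q : ℕ) (hq : q = 1 ∨ q = 2 ∨ q = 3) (v : ℝ) (hv : 10 ^ 4 ≤ v) (z : ℂ)
    (hy : 0 < z.im) (k : ℤ) (n : ℕ) (hn : 2 ≤ n) (hk : (n : ℝ) - 1 ≤ |(k : ℝ)|)
    (hw : -1 / (q * z) = v * I + k) :
    z.im ≤ v / ((n : ℝ) - 1) ^ 2 := by
  have hcast : (q : ℂ) = ((q : ℝ) : ℂ) := by push_cast; rfl
  have hq1 : (1 : ℝ) ≤ (q : ℝ) := by
    rcases hq with h | h | h <;> · rw [h]; norm_num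
  have hv0 : (0 : ℝ) < v := by linarith
  have hz : z ≠ 0 := by
    rintro rfl
    simp at hy
  have hqc : (q : ℂ) ≠ 0 := by
    have : (q : ℝ) ≠ 0 := by positivity
    exact_mod_cast this
  have hne : (v : ℂ) * I + k ≠ 0 := by
    intro h
    have := congrArg Complex.im h
    simp at this
    linarith
  have hzeq : z = -1 / ((q : ℂ) * (v * I + k)) := by
    rw [← hw]
    field_simp
  have him := congrArg Complex.im hzeq
  rw [hcast, geo_im] at him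
  have hns : normSq ((v : ℂ) * I + k) = (k : ℝ) ^ 2 + v ^ 2 := by
    rw [normSq_apply]
    simp
    ring
  have him2 : ((v : ℂ) * I + k).im = v := by simp
  rw [hns, him2] at him
  rw [him]
  have hn1 : (0 : ℝ) < (n : ℝ) - 1 := by
    have : (2 : ℝ) ≤ n := by exact_mod_cast hn
    linarith
  apply div_le_div_of_nonneg_left hv0.le (by positivity)
  have h1 : ((n : ℝ) - 1) ^ 2 ≤ (k : ℝ) ^ 2 := by
    rw [← sq_abs (k : ℝ)]
    exact pow_le_pow_left₀ hn1.le hk 2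
  nlinarith [sq_nonneg (k : ℝ), sq_nonneg v]

end Pool.Agent.H11.SC
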