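import Mathlib

/-!
# STATE: the points of the orbit of `iv` and the dual variable

Two types of points, `w0 = v i`, `r0` real:
(A) `z = (a w0 + b)/(c w0 + d)`, `a d - b c = 1`, `q ∣ c`, `c ≠ 0`, `c r0 + d = u (a r0 + b)`;
(B) `z = (q a w0 + b)/(q (c w0 + d))`, `q a d - b c = 1`, `c ≠ 0`, `q (c r0 + d) = u (q a r0 + b)`.

* `St.im`: type A: `Im z = v/(c² v² + d²)`, type B: `Im z = v/(q (c² v² + d²))` (`Im (M z) = det M
  Im z/|cz+d|²`); with `c ≠ 0` integer, `≤ 1/v`.
* `St.next`: let `z' = -1/(q z)`, `m` an integer with `m + u/q ≠ 0`, `u' = -1/(m + u/q)`.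
  A → B: `z' - m = (q a' w0 + b')/(q (c' w0 + d'))` with `a' = -c/q - m a`, `b' = -d - m q b`,
  `c' = a`, `d' = b`; `q a' d' - b' c' = -c b + d a = 1`;
  `q a' r0 + b' = -(c r0 + d) - m q (a r0 + b) = -(u + m q)(a r0 + b)`, so
  `u' (q a' r0 + b') = q (a r0 + b) = q (c' r0 + d')`.
  B → A: `a' = -c - m q a`, `b' = -d - m b`, `c' = q a`, `d' = b`; `a' d' - b' c' = q a d - b c = 1`;
  `a' r0 + b' = -(c r0 + d) - m (q a r0 + b) = -(u/q + m)(q a r0 + b)`, so
  `u' (a' r0 + b') = q a r0 + b = c' r0 + d'`.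
  This is again a state provided `c' ≠ 0`, that is `a ≠ 0`.
* terminal case `a = 0`.  Type A: `b c = -1`, `q ∣ c`, so `q = 1`, `c = -b = ± 1`;
  `-1/z = -(c w0 + d)/b = w0 - d b` (`-c/b = 1`, `1/b = b`); `u = (c r0 + d)/b = -r0 + d b`.  So
  `k = -d b`, `-u/q = r0 + k`.  Type B: `b c = -1`; `-1/(qz) = -(c w0 + d)/b = w0 - d b`;
  `-u/q = -(c r0 + d)/b = r0 - d b`.  `k = - d b`.
* `St.start` (the first point, shifted by an integer, `u = 0`):
  type A with `a` replaced by `a - m c`, `b` by `b - m d`, `c r0 + d = 0`.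
-/

set_option autoImplicit false

namespace Pool.Agent.H11.SC

open Complex

/-- the states -/
def St (q : ℕ) (v r0 : ℝ) (z : ℂ) (u : ℝ) : Prop :=
  (∃ a b c d : ℤ, a * d - b * c = 1 ∧ (q : ℤ) ∣ c ∧ c ≠ 0 ∧
    z = (a * (v * I) + b) / (c * (v * I) + d) ∧ c * r0 + d = u * (a * r0 + b)) ∨
  (∃ a b c d : ℤ, q * a * d - b * c = 1 ∧ c ≠ 0 ∧
    z = (q * a * (v * I) + b) / (q * (c * (v * I) + d)) ∧
    q * (c * r0 + d) = u * (q * a * r0 + b))

theorem lin_ne {v : ℝ} (hv : 0 < v) {c d : ℝ} (hc : c ≠ 0) : (c * (v * I) + d : ℂ) ≠ 0 := by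
  intro h
  have h1 := congrArg Complex.im h
  simp at h1
  rcases h1 with h1 | h1
  · exact hc h1
  · exact hv.ne' h1

theorem frac_im (a b c d v : ℝ) : ((a * (v * I) + b) / (c * (v * I) + d) : ℂ).im =
    v * (a * d - b * c) / (c ^ 2 * v ^ 2 + d ^ 2) := by
  rw [Complex.div_im]
  simp [Complex.normSq_apply]
  ring

theorem St.im {q : ℕ} {v r0 : ℝ} {z : ℂ} {u : ℝ} (hq : 1 ≤ q) (hv : 0 < v) (h : St q v r0 z u) :
    0 < z.im ∧ z.im ≤ 1 / v := by
  have hq' : (1 : ℝ) ≤ q := by exact_mod_cast hq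
  rcases h with ⟨a, b, c, d, hdet, -, hc, rfl, -⟩ | ⟨a, b, c, d, hdet, hc, rfl, -⟩
  · have h1 := frac_im a b c d v
    push_cast at h1
    rw [h1]
    have hdet' : (a : ℝ) * d - b * c = 1 := by exact_mod_cast hdet
    have hc1 : (1 : ℝ) ≤ (c : ℝ) ^ 2 := by
      have : (1 : ℤ) ≤ c ^ 2 := by
        have := Int.one_le_abs hc
        nlinarith [sq_abs c]
      exact_mod_cast this
    rw [hdet', mul_one]
    have hden : v ^ 2 ≤ (c : ℝ) ^ 2 * v ^ 2 + d ^ 2 := by nlinarith [sq_nonneg v, sq_nonneg (d : ℝ)]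
    have hden0 : 0 < (c : ℝ) ^ 2 * v ^ 2 + d ^ 2 := by nlinarith [sq_pos_of_pos hv]
    refine ⟨by positivity, ?_⟩
    rw [div_le_div_iff₀ hden0 hv]
    nlinarith
  · have h1 := frac_im (q * a) b (q * c) (q * d) v
    push_cast at h1
    have h2 : ((q : ℂ) * a * (v * I) + b) / (q * (c * (v * I) + d)) =
        ((q : ℂ) * a * (v * I) + b) / (q * c * (v * I) + q * d) := by
      congr 1
      ring
    rw [h2, h1]
    have hdet' : (q : ℝ) * a * d - b * c = 1 := by exact_mod_cast hdet
    have hc1 : (1 : ℝ) ≤ (c : ℝ) ^ 2 := by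
      have : (1 : ℤ) ≤ c ^ 2 := by
        have := Int.one_le_abs hc
        nlinarith [sq_abs c]
      exact_mod_cast this
    have e1 : v * ((q : ℝ) * a * (q * d) - b * (q * c)) = v * q := by
      have : ((q : ℝ) * a * (q * d) - b * (q * c)) = q * (q * a * d - b * c) := by ring
      rw [this, hdet']
      ring
    rw [e1]
    have hq2 : (q : ℝ) ≤ (q : ℝ) ^ 2 := by nlinarith
    have hden1 : v ^ 2 ≤ (c : ℝ) ^ 2 * v ^ 2 + (d : ℝ) ^ 2 := by
      nlinarith [sq_nonneg v, sq_nonneg (d : ℝ)]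
    have hden2 : (q : ℝ) * v ^ 2 ≤ ((q : ℝ) * c) ^ 2 * v ^ 2 + ((q : ℝ) * d) ^ 2 := by
      have e2 : ((q : ℝ) * c) ^ 2 * v ^ 2 + ((q : ℝ) * d) ^ 2 =
          (q : ℝ) ^ 2 * ((c : ℝ) ^ 2 * v ^ 2 + (d : ℝ) ^ 2) := by ring
      rw [e2]
      have hv2 : 0 ≤ v ^ 2 := by positivity
      calc (q : ℝ) * v ^ 2 ≤ (q : ℝ) ^ 2 * v ^ 2 := by gcongr
        _ ≤ _ := by gcongr
    have hpos : 0 < (q : ℝ) * v ^ 2 := by positivity
    have hden0 : 0 < ((q : ℝ) * c) ^ 2 * v ^ 2 + ((q : ℝ) * d) ^ 2 := hpos.trans_le hden2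
    refine ⟨div_pos (by positivity) hden0, ?_⟩
    rw [div_le_div_iff₀ hden0 hv]
    nlinarith

theorem unit_case {b c : ℤ} (h : -(b * c) = 1) : b = -c ∧ c * c = 1 := by
  have h1 : IsUnit c := by
    rw [Int.isUnit_iff]
    have h2 : c ∣ 1 := ⟨-b, by linarith⟩
    have h3 := Int.isUnit_iff.1 (isUnit_of_dvd_one h2)
    exact h3
  rcases Int.isUnit_iff.1 h1 with rfl | rfl
  · constructor <;> linarith
  · constructor <;> linarith

theorem St.next {q : ℕ} {v r0 : ℝ} {z : ℂ} {u : ℝ} (hq : 1 ≤ q) (hv : 0 < v)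
    (h : St q v r0 z u) :
    (∃ k : ℤ, -1 / (q * z) = v * I + k ∧ -(u / q) = r0 + k) ∨
    (∀ m : ℤ, (m : ℝ) + u / q ≠ 0 → St q v r0 (-1 / (q * z) - m) (-1 / (m + u / q))) := by
  have hq' : (1 : ℝ) ≤ q := by exact_mod_cast hq
  have hq0 : (q : ℝ) ≠ 0 := by positivity
  have hqc : (q : ℂ) ≠ 0 := by
    have : q ≠ 0 := by omega
    exact_mod_cast this
  rcases h with ⟨a, b, c, d, hdet, hdvd, hc, rfl, hu⟩ | ⟨a, b, c, d, hdet, hc, rfl, hu⟩
  · by_cases ha : a = 0
    · left
      subst ha
      obtain ⟨hb, hcc⟩ := unit_case (b := b) (c := c) (by linarith)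
      have hq1 : q = 1 := by
        have h1 : (q : ℤ) ∣ 1 := by
          rw [← hcc]
          exact hdvd.mul_right c
        have h2 := Int.eq_one_of_dvd_one (by positivity) h1
        exact_mod_cast h2
      subst hq1
      subst hb
      have hcC : (c : ℂ) * c = 1 := by exact_mod_cast hcc
      have hcR : (c : ℝ) * c = 1 := by exact_mod_cast hcc
      have hc0 : (c : ℂ) ≠ 0 := by exact_mod_cast hc
      have hc0' : (c : ℝ) ≠ 0 := by exact_mod_cast hc
      have hden : ((c : ℂ) * (v * I) + d) ≠ 0 := by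
        have := lin_ne hv (c := (c : ℝ)) (d := (d : ℝ)) hc0'
        push_cast at this
        exact this
      refine ⟨d * c, ?_, ?_⟩
      · push_cast
        rw [zero_mul, zero_add]
        have h1 : (-1 : ℂ) / (1 * (-(c : ℂ) / ((c : ℂ) * (v * I) + d))) =
            ((c : ℂ) * (v * I) + d) / c := by
          field_simp
        rw [h1, div_eq_iff hc0]
        linear_combination (-(d : ℂ)) * hcC
      · have h1 : (c : ℝ) * r0 + d = -(u * c) := by
          rw [hu]
          push_cast
          ring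
        have h2 : -u = r0 + d * c := by
          have h3 : -u * (c * c) = (c * r0 + d) * c := by
            rw [h1]
            ring
          rw [hcR] at h3
          linear_combination h3 + r0 * hcR
        push_cast
        rw [div_one]
        exact h2
    · right
      intro m hm
      obtain ⟨e, rfl⟩ := hdvd
      right
      have hc0' : ((q * e : ℤ) : ℝ) ≠ 0 := by exact_mod_cast hc
      have ha0' : (a : ℝ) ≠ 0 := by exact_mod_cast ha
      have hden : (((q * e : ℤ) : ℂ) * (v * I) + d) ≠ 0 := by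
        have := lin_ne hv (c := ((q * e : ℤ) : ℝ)) (d := (d : ℝ)) hc0'
        push_cast at this ⊢
        exact this
      have hnum : ((a : ℂ) * (v * I) + b) ≠ 0 := by
        have := lin_ne hv (c := (a : ℝ)) (d := (b : ℝ)) ha0'
        push_cast at this
        exact this
      refine ⟨-e - m * a, -d - m * q * b, a, b, ?_, ha, ?_, ?_⟩
      · linear_combination hdet
      · push_cast at hden ⊢
        have h1 : (-1 : ℂ) / (q * (((a : ℂ) * (v * I) + b) / ((q : ℂ) * e * (v * I) + d))) =
            -((q : ℂ) * e * (v * I) + d) / (q * ((a : ℂ) * (v * I) + b)) := by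
          rw [mul_div_assoc', div_div_eq_mul_div]
          ring
        rw [h1, eq_div_iff (mul_ne_zero hqc hnum), sub_mul,
          div_mul_cancel₀ _ (mul_ne_zero hqc hnum)]
        ring
      · push_cast at hu ⊢
        have hm' : (m * q + u : ℝ) ≠ 0 := by
          intro h0
          apply hm
          field_simp
          rw [h0, mul_zero]
        have h1 : (-1 : ℝ) / (m + u / q) = -q / (m * q + u) := by
          field_simp
        rw [h1, div_mul_eq_mul_div, eq_div_iff hm']
        linear_combination (-(q : ℝ)) * hu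
  · by_cases ha : a = 0
    · left
      subst ha
      obtain ⟨hb, hcc⟩ := unit_case (b := b) (c := c) (by linarith)
      subst hb
      have hcC : (c : ℂ) * c = 1 := by exact_mod_cast hcc
      have hcR : (c : ℝ) * c = 1 := by exact_mod_cast hcc
      have hc0 : (c : ℂ) ≠ 0 := by exact_mod_cast hc
      have hc0' : (c : ℝ) ≠ 0 := by exact_mod_cast hc
      have hden : ((c : ℂ) * (v * I) + d) ≠ 0 := by
        have := lin_ne hv (c := (c : ℝ)) (d := (d : ℝ)) hc0'
        push_cast at this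
        exact this
      refine ⟨d * c, ?_, ?_⟩
      · push_cast
        rw [mul_zero, zero_mul, zero_add]
        have h1 : (-1 : ℂ) / (q * (-(c : ℂ) / (q * ((c : ℂ) * (v * I) + d)))) =
            ((c : ℂ) * (v * I) + d) / c := by
          field_simp
        rw [h1, div_eq_iff hc0]
        linear_combination (-(d : ℂ)) * hcC
      · have h1 : q * ((c : ℝ) * r0 + d) = -(u * c) := by
          rw [hu]
          push_cast
          ring
        have h2 : -(u / q) = r0 + d * c := by
          have h3 : -(u / q) * (c * c) = (c * r0 + d) * c := by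
            have h4 : (c * r0 + d : ℝ) = -(u * c) / q := by
              rw [eq_div_iff hq0, ← h1]
              ring
            rw [h4]
            ring
          rw [hcR] at h3
          linear_combination h3 + r0 * hcR
        push_cast
        exact h2
    · right
      intro m hm
      left
      have hc0' : (c : ℝ) ≠ 0 := by exact_mod_cast hc
      have ha0' : (q * a : ℝ) ≠ 0 := mul_ne_zero hq0 (by exact_mod_cast ha)
      have hden : ((c : ℂ) * (v * I) + d) ≠ 0 := by
        have := lin_ne hv (c := (c : ℝ)) (d := (d : ℝ)) hc0'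
        push_cast at this
        exact this
      have hnum : ((q : ℂ) * a * (v * I) + b) ≠ 0 := by
        have := lin_ne hv (c := (q * a : ℝ)) (d := (b : ℝ)) ha0'
        push_cast at this
        exact this
      refine ⟨-c - m * q * a, -d - m * b, q * a, b, ?_, ⟨a, rfl⟩, ?_, ?_, ?_⟩
      · linear_combination hdet
      · refine mul_ne_zero ?_ ha
        have : q ≠ 0 := by omega
        exact_mod_cast this
      · push_cast
        have h1 : (-1 : ℂ) / (q * (((q : ℂ) * a * (v * I) + b) /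
            (q * ((c : ℂ) * (v * I) + d)))) =
            -((c : ℂ) * (v * I) + d) / ((q : ℂ) * a * (v * I) + b) := by
          rw [← mul_div_assoc, mul_div_mul_left _ _ hqc, div_div_eq_mul_div]
          ring
        rw [h1, eq_div_iff hnum, sub_mul, div_mul_cancel₀ _ hnum]
        ring
      · push_cast at hu ⊢
        have hm' : (m * q + u : ℝ) ≠ 0 := by
          intro h0
          apply hm
          field_simp
          rw [h0, mul_zero]
        have h1 : (-1 : ℝ) / (m + u / q) = -q / (m * q + u) := by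
          field_simp
        rw [h1, div_mul_eq_mul_div, eq_div_iff hm']
        linear_combination (-1 : ℝ) * hu

theorem St.start {q : ℕ} {v : ℝ} (a b c d m : ℤ) (hdet : a * d - b * c = 1) (hqc : (q : ℤ) ∣ c)
    (hc : c ≠ 0) (hv : 0 < v) :
    St q v (-(d : ℝ) / c) ((a * (v * I) + b) / (c * (v * I) + d) - m) 0 := by
  have hc0' : (c : ℝ) ≠ 0 := by exact_mod_cast hc
  have hden : ((c : ℂ) * (v * I) + d) ≠ 0 := by
    have := lin_ne hv (c := (c : ℝ)) (d := (d : ℝ)) hc0'
    push_cast at this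
    exact this
  left
  refine ⟨a - m * c, b - m * d, c, d, by linear_combination hdet, hqc, hc, ?_, ?_⟩
  · push_cast
    rw [eq_div_iff hden, sub_mul, div_mul_cancel₀ _ hden]
    ring
  · field_simp
    ring

end Pool.Agent.H11.SC
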