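import Mathlib
import Pool.Agent.H11.SC.Defs

/-!
# SUP: for `0 < q < 4` an approximately invariant function is bounded

Choose `y1 ∈ (0, 1]` with `q/4 + q y1² < 1` and put `ρ = 1/(q/4 + q y1²) > 1`.  If `|Re z| ≤ 1/2`
and `0 < y = Im z ≤ y1`, then `z' = -1/(qz)` has height `y/(q‖z‖²) ≥ ρ y`, and `‖z‖ ≤ 2`.
`M0` = bound of `Ψ` on `Im z ≥ y1` (`h.top`), `C, θ` from `h.step` (`C ≥ 0` w.l.o.g.).
Induction on `n`: for `Im z ≥ y1 ρ^(-n)`, `Ψ z ≤ M0 + C ∑_{i<n} (y1 ρ^(-i))^θ`.  Step: if
`y1 ρ^(-(n+1)) ≤ Im z < y1 ρ^(-n)`, shift `z` by an integer so that `|Re z| ≤ 1/2` (`h.per`,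
also for negative shifts; induction on integers), then `Im z' ≥ y1 ρ^(-n)` and
`Ψ z ≤ Ψ z' + C (Im z)^θ ≤ Ψ z' + C (y1 ρ^(-n))^θ`.  The geometric series
`∑ (y1 ρ^(-i))^θ` converges.  Every `z` with `Im z > 0` is reached.
-/

set_option autoImplicit false

namespace Pool.Agent.H11.SC

open Complex

theorem Approx.shift {q : ℝ} {Ψ : ℂ → ℝ} (h : Approx q Ψ) (z : ℂ) (k : ℤ) : Ψ (z + k) = Ψ z := by
  induction k using Int.induction_on with
  | zero => simp
  | succ k ih =>
    rw [← ih, ← h.per (z + ((k : ℤ) : ℂ))]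
    congr 1
    push_cast
    ring
  | pred k ih =>
    rw [← ih, ← h.per (z + ((-(k : ℤ) - 1 : ℤ) : ℂ))]
    congr 1
    push_cast
    ring

theorem Approx.bounded {q : ℝ} {Ψ : ℂ → ℝ} (h : Approx q Ψ) (hq : 0 < q) (hq4 : q < 4) :
    ∃ M : ℝ, ∀ z : ℂ, 0 < z.im → Ψ z ≤ M := by
  -- the height `y1`
  obtain ⟨y1, hy0, hy1, hys⟩ : ∃ y1 : ℝ, 0 < y1 ∧ y1 ≤ 1 ∧ q / 4 + q * y1 ^ 2 < 1 := by
    refine ⟨min 1 ((1 - q / 4) / (2 * q)), lt_min one_pos (by apply div_pos <;> linarith),
      min_le_left _ _, ?_⟩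
    set y : ℝ := min 1 ((1 - q / 4) / (2 * q)) with hy
    have h0 : 0 < y := lt_min one_pos (by apply div_pos <;> linarith)
    have h1 : y ≤ 1 := min_le_left _ _
    have h2 : y ≤ (1 - q / 4) / (2 * q) := min_le_right _ _
    rw [le_div_iff₀ (by linarith)] at h2
    have h3 : y ^ 2 ≤ y := by nlinarith
    nlinarith
  obtain ⟨M0, hM0⟩ := h.top y1 hy0
  obtain ⟨C, θ, hθ, hC⟩ := h.step
  set r : ℝ := q / 4 + q * y1 ^ 2 with hr
  have hr0 : 0 < r := by positivity
  set t : ℝ := r ^ θ with ht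
  have ht0 : 0 < t := Real.rpow_pos_of_pos hr0 θ
  have ht1 : t < 1 := Real.rpow_lt_one hr0.le hys hθ
  have key : ∀ n : ℕ, ∀ z : ℂ, y1 * r ^ n ≤ z.im →
      Ψ z ≤ M0 + |C| * ∑ i ∈ Finset.range n, t ^ i := by
    intro n
    induction n with
    | zero =>
      intro z hz
      simpa using hM0 z (by simpa using hz)
    | succ n ih =>
      intro z hz
      rw [Finset.sum_range_succ]
      have htn : 0 < t ^ n := pow_pos ht0 n
      rcases le_or_gt (y1 * r ^ n) z.im with h1 | h1
      · have h2 := ih z h1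
        have h3 : 0 ≤ |C| * t ^ n := by positivity
        rw [mul_add]
        linarith
      · have hrn : 0 < r ^ n := pow_pos hr0 n
        have hrn1 : r ^ n ≤ 1 := pow_le_one₀ hr0.le hys.le
        have hzpos : 0 < z.im := lt_of_lt_of_le (by positivity) hz
        have hzy1 : z.im ≤ y1 := by
          have : y1 * r ^ n ≤ y1 * 1 := by gcongr
          linarith
        set z0 : ℂ := z + ((-round z.re : ℤ) : ℂ) with hz0
        have hz0im : z0.im = z.im := by
          rw [hz0]
          simp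
        have hz0re : |z0.re| ≤ 1 / 2 := by
          rw [hz0]
          have := abs_sub_round z.re
          simpa [sub_eq_add_neg] using this
        have hΨ : Ψ z0 = Ψ z := h.shift z _
        have hre2 : z0.re ^ 2 ≤ 1 / 4 := by
          have h5 := sq_abs z0.re
          have h6 : |z0.re| ^ 2 ≤ (1 / 2) ^ 2 := by gcongr
          nlinarith
        have hns : normSq z0 ≤ 1 / 4 + y1 ^ 2 := by
          rw [normSq_apply, hz0im]
          have : z.im ^ 2 ≤ y1 ^ 2 := by gcongr
          nlinarith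
        have hns0 : 0 < normSq z0 := by
          rw [normSq_apply, hz0im]
          nlinarith [mul_pos hzpos hzpos, mul_self_nonneg z0.re]
        have hn2 : ‖z0‖ ≤ 2 := by
          have h5 : ‖z0‖ ^ 2 ≤ 2 ^ 2 := by
            rw [← normSq_eq_norm_sq]
            nlinarith
          exact le_of_sq_le_sq h5 (by norm_num)
        have him : (-1 / ((q : ℂ) * z0)).im = z.im / (q * normSq z0) := by
          rw [neg_div, neg_im, one_div, inv_im, map_mul, normSq_ofReal]
          rw [show ((q : ℂ) * z0).im = q * z.im by simp [hz0im]]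
          field_simp
        have hstep := hC z0 (by rw [hz0im]; exact hzpos) (by rw [hz0im]; linarith) hn2
        have hbig : y1 * r ^ n ≤ (-1 / ((q : ℂ) * z0)).im := by
          rw [him, le_div_iff₀ (by positivity)]
          have h7 : q * normSq z0 ≤ r := by
            rw [hr]
            have : q * normSq z0 ≤ q * (1 / 4 + y1 ^ 2) := by gcongr
            linarith
          calc y1 * r ^ n * (q * normSq z0) ≤ y1 * r ^ n * r := by gcongr
            _ = y1 * r ^ (n + 1) := by ring
            _ ≤ z.im := hz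
        have h8 := ih _ hbig
        have h9 : z.im ^ θ ≤ t ^ n := by
          calc z.im ^ θ ≤ (r ^ n) ^ θ := by
                apply Real.rpow_le_rpow hzpos.le _ hθ.le
                have : y1 * r ^ n ≤ 1 * r ^ n := by gcongr
                linarith
            _ = t ^ n := by
                rw [ht, ← Real.rpow_natCast, ← Real.rpow_natCast, ← Real.rpow_mul hr0.le,
                  ← Real.rpow_mul hr0.le, mul_comm]
        have h10 : C * z0.im ^ θ ≤ |C| * t ^ n := by
          rw [hz0im]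
          have h11 : 0 ≤ z.im ^ θ := Real.rpow_nonneg hzpos.le θ
          calc C * z.im ^ θ ≤ |C| * z.im ^ θ := by
                gcongr
                exact le_abs_self C
            _ ≤ |C| * t ^ n := by gcongr
        have h12 := le_abs_self (Ψ z0 - Ψ (-1 / ((q : ℂ) * z0)))
        rw [mul_add]
        linarith
  refine ⟨M0 + |C| * (1 - t)⁻¹, fun z hz => ?_⟩
  obtain ⟨n, hn⟩ := exists_pow_lt_of_lt_one (div_pos hz hy0) hys
  have h1 : y1 * r ^ n ≤ z.im := by
    rw [lt_div_iff₀ hy0] at hn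
    linarith
  refine (key n z h1).trans ?_
  have h2 : ∑ i ∈ Finset.range n, t ^ i ≤ (1 - t)⁻¹ := by
    rw [← tsum_geometric_of_lt_one ht0.le ht1]
    exact (summable_geometric_of_lt_one ht0.le ht1).sum_le_tsum _ (fun i _ => by positivity)
  gcongr

end Pool.Agent.H11.SC
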