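import Mathlib
import Pool.Agent.H11.SC.Defs
import Pool.Agent.H11.SC.Dom
import Pool.Agent.H11.SC.Geo
import Pool.Agent.H11.SC.State
import Pool.Agent.H11.SC.Sup

/-!
# PATH: the values of `Ψ` at the orbit points whose pole is far away

`C ≥ 0, θ > 0` from `h.step`.  Let `n ≥ 2`, `r0 ∈ [n, n+1]`, `Y = v/(n-1)²`, `ρ = 1.3`.
CLAIM: for every state `St q v r0 z u` with `|Re z| ≤ 1/2` and `Dom q (Re z) u` there is `N ≥ 1` with
`Im z ≤ Y ρ^(-(N-1))` and `Ψ z ≥ Ψ (v i) - C ∑_{i<N} (Y ρ^(-i))^θ`.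
Induction on `j`: the claim for all states with `Im z ≥ ρ^(-j)/v`.
Let `w = -1/(qz)`.  By `St.next` there are two cases.
Terminal: `w = v i + k`, `-(u/q) = r0 + k`; `|u/q| ≤ 1` (`dom_bound`), so `|k| ≥ r0 - 1 ≥ n - 1`, and
`geo_last` gives `Im z ≤ Y`; `Ψ w = Ψ (v i)` (`Approx.shift`), `Ψ z ≥ Ψ w - C (Im z)^θ ≥ Ψ (v i) - C Y^θ`
(`‖z‖ ≤ 2`, `Im z ≤ 1`).  `N = 1`.
Not terminal: let `m = round (Re w)`.  `w - m'` is a state for every `m'` with `m' + u/q ≠ 0`; there is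
such an `m'`, so `Im w ≤ 1/v` (`St.im`).  `geo_step` and `dom_step` (`t = Re w`, `b = m`) give
`m + u/q ≠ 0`, `Dom q (Re (w - m)) u'`, `Im w ≥ 1.3 Im z`.  If `j = 0` this contradicts `Im w ≤ 1/v`
(`Im z ≥ 1/v`); otherwise the claim holds for `w - m` with some `N'`, and `N = N' + 1` works:
`Im z ≤ Im w/ρ ≤ Y ρ^(-N')`, `Ψ z ≥ Ψ w - C (Im z)^θ ≥ Ψ (v i) - C ∑_{i<N'} - C (Y ρ^(-N'))^θ`.
CONCLUSION: `∑_i (Y ρ^(-i))^θ ≤ Y^θ/(1 - ρ^(-θ)) → 0` as `n → ∞`, so there is `n0` (w.r.t. `v, C, θ,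
Ψ (v i)`) such that the sum times `C` is `≤ Ψ (v i)/2` for `n ≥ n0`.  Start with `St.start`,
`m = round (Re γ(vi))`, `r0 = -d/c ∈ [n, n+1]`, `dom_zero`, `Approx.shift`.
-/

set_option autoImplicit false

namespace Pool.Agent.H11.SC

open Complex

/-- existence of an integer `m` with `m + x ≠ 0` -/
theorem exists_int_add_ne (x : ℝ) : ∃ m : ℤ, (m : ℝ) + x ≠ 0 := by
  by_cases h : x = 0
  · exact ⟨1, by rw [h]; norm_num⟩
  · exact ⟨0, by simpa using h⟩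

theorem path_claim (q : ℕ) (hq : q = 1 ∨ q = 2 ∨ q = 3) (Ψ : ℂ → ℝ) (h : Approx (q : ℝ) Ψ)
    (v : ℝ) (hv : 10 ^ 4 ≤ v) (C θ : ℝ) (hC : 0 ≤ C) (hθ : 0 < θ)
    (hstep : ∀ z : ℂ, 0 < z.im → z.im ≤ 1 → ‖z‖ ≤ 2 →
      |Ψ z - Ψ (-1 / ((q : ℝ) * z))| ≤ C * z.im ^ θ)
    (n : ℕ) (hn : 2 ≤ n) (r0 : ℝ) (hr0 : (n : ℝ) ≤ r0) (j : ℕ) :
    ∀ (z : ℂ) (u : ℝ), St q v r0 z u → |z.re| ≤ 1 / 2 → Dom q z.re u →
      1 / ((1.3 : ℝ) ^ j * v) ≤ z.im →
      ∃ N : ℕ, z.im ≤ v / ((n : ℝ) - 1) ^ 2 * (1 / 1.3 : ℝ) ^ N ∧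
        Ψ (v * I) - C * ∑ i ∈ Finset.range (N + 1),
          (v / ((n : ℝ) - 1) ^ 2 * (1 / 1.3 : ℝ) ^ i) ^ θ ≤ Ψ z := by
  have hv0 : 0 < v := by linarith [show (0 : ℝ) < 10 ^ 4 by norm_num]
  have hq1 : 1 ≤ q := by rcases hq with h | h | h <;> omega
  have hn1 : (1 : ℝ) ≤ (n : ℝ) - 1 := by
    have : (2 : ℝ) ≤ n := by exact_mod_cast hn
    linarith
  have hY : 0 < v / ((n : ℝ) - 1) ^ 2 := by positivity
  induction j with
  | zero =>
    intro z u hst hre hdom hlow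
    obtain ⟨him0, him1⟩ := hst.im hq1 hv0
    have h1v : 1 / v ≤ 1 := by
      rw [div_le_one hv0]; linarith [show (1 : ℝ) < 10 ^ 4 by norm_num]
    have hnorm : ‖z‖ ≤ 2 := by
      refine (Complex.norm_le_abs_re_add_abs_im z).trans ?_
      rw [abs_of_pos him0]; linarith
    have hs := hstep z him0 (him1.trans h1v) hnorm
    rcases hst.next hq1 hv0 with ⟨k, hk1, hk2⟩ | hnext
    · have hdb := dom_bound q z.re u hdom
      have hkabs : (n : ℝ) - 1 ≤ |(k : ℝ)| := by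
        have h1 : |r0 + k| ≤ 1 := by rw [← hk2, abs_neg]; exact hdb
        have h2 := (abs_le.mp h1).2
        have h3 : -(k : ℝ) ≤ |(k : ℝ)| := neg_le_abs _
        linarith
      have hlast := geo_last q hq v hv z him0 k n hn hkabs hk1
      refine ⟨0, by simpa using hlast, ?_⟩
      have hΨ : Ψ (-1 / ((q : ℝ) * z)) = Ψ (v * I) := by
        have : (-1 / (((q : ℝ) : ℂ) * z)) = v * I + k := by
          rw [← hk1]; push_cast; rfl
        rw [this, h.shift]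
      rw [hΨ] at hs
      have h4 := (abs_le.mp hs).1
      have h5 : z.im ^ θ ≤ (v / ((n : ℝ) - 1) ^ 2) ^ θ :=
        Real.rpow_le_rpow him0.le hlast hθ.le
      have h6 := mul_le_mul_of_nonneg_left h5 hC
      simp only [zero_add, Finset.range_one, Finset.sum_singleton, pow_zero, mul_one]
      linarith
    · exfalso
      obtain ⟨m', hm'⟩ := exists_int_add_ne (u / q)
      have hst' := (hnext m' hm').im hq1 hv0
      have hwim : (-1 / ((q : ℂ) * z)).im ≤ 1 / v := by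
        have := hst'.2
        simpa using this
      obtain ⟨-, -, hg⟩ := geo_step q hq v hv z him0 him1 hre hwim
      have hlow' : 1 / v ≤ z.im := by simpa using hlow
      linarith
  | succ j ih =>
    intro z u hst hre hdom hlow
    obtain ⟨him0, him1⟩ := hst.im hq1 hv0
    have h1v : 1 / v ≤ 1 := by
      rw [div_le_one hv0]; linarith [show (1 : ℝ) < 10 ^ 4 by norm_num]
    have hnorm : ‖z‖ ≤ 2 := by
      refine (Complex.norm_le_abs_re_add_abs_im z).trans ?_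
      rw [abs_of_pos him0]; linarith
    have hs := hstep z him0 (him1.trans h1v) hnorm
    rcases hst.next hq1 hv0 with ⟨k, hk1, hk2⟩ | hnext
    · have hdb := dom_bound q z.re u hdom
      have hkabs : (n : ℝ) - 1 ≤ |(k : ℝ)| := by
        have h1 : |r0 + k| ≤ 1 := by rw [← hk2, abs_neg]; exact hdb
        have h2 := (abs_le.mp h1).2
        have h3 : -(k : ℝ) ≤ |(k : ℝ)| := neg_le_abs _
        linarith
      have hlast := geo_last q hq v hv z him0 k n hn hkabs hk1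
      refine ⟨0, by simpa using hlast, ?_⟩
      have hΨ : Ψ (-1 / ((q : ℝ) * z)) = Ψ (v * I) := by
        have : (-1 / (((q : ℝ) : ℂ) * z)) = v * I + k := by
          rw [← hk1]; push_cast; rfl
        rw [this, h.shift]
      rw [hΨ] at hs
      have h4 := (abs_le.mp hs).1
      have h5 : z.im ^ θ ≤ (v / ((n : ℝ) - 1) ^ 2) ^ θ :=
        Real.rpow_le_rpow him0.le hlast hθ.le
      have h6 := mul_le_mul_of_nonneg_left h5 hC
      simp only [zero_add, Finset.range_one, Finset.sum_singleton, pow_zero, mul_one]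
      linarith
    · obtain ⟨m', hm'⟩ := exists_int_add_ne (u / q)
      have hst' := (hnext m' hm').im hq1 hv0
      have hwim : (-1 / ((q : ℂ) * z)).im ≤ 1 / v := by
        have := hst'.2
        simpa using this
      obtain ⟨hre0, ht, hg⟩ := geo_step q hq v hv z him0 him1 hre hwim
      set w : ℂ := -1 / ((q : ℂ) * z) with hwdef
      obtain ⟨hb0, hdom'⟩ := dom_step q z.re u w.re (round w.re) hdom hre hre0 ht
        (abs_sub_round w.re)
      have hst2 := hnext (round w.re) hb0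
      have hre2 : (w - ((round w.re : ℤ) : ℂ)).re = w.re - (round w.re : ℤ) := by simp
      have him2 : (w - ((round w.re : ℤ) : ℂ)).im = w.im := by simp
      obtain ⟨N, hN1, hN2⟩ := ih (w - ((round w.re : ℤ) : ℂ)) _ hst2
        (by rw [hre2]; exact abs_sub_round w.re) (by rw [hre2]; exact hdom')
        (by
          rw [him2]
          refine le_trans ?_ hg
          have e : 1 / ((1.3 : ℝ) ^ j * v) = 1.3 * (1 / ((1.3 : ℝ) ^ (j + 1) * v)) := by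
            rw [pow_succ]; field_simp
          rw [e]
          exact mul_le_mul_of_nonneg_left hlow (by norm_num))
      rw [him2] at hN1
      have hΨw : Ψ (w - ((round w.re : ℤ) : ℂ)) = Ψ w := by
        have := h.shift (w - ((round w.re : ℤ) : ℂ)) (round w.re)
        rw [← this]; congr 1; ring
      rw [hΨw] at hN2
      have hzY : z.im ≤ v / ((n : ℝ) - 1) ^ 2 * (1 / 1.3 : ℝ) ^ (N + 1) := by
        rw [pow_succ (1 / 1.3 : ℝ) N, ← mul_assoc]
        have : z.im ≤ w.im * (1 / 1.3) := by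
          rw [mul_one_div, le_div_iff₀ (by norm_num)]; linarith
        exact this.trans (mul_le_mul_of_nonneg_right hN1 (by norm_num))
      refine ⟨N + 1, hzY, ?_⟩
      have hw' : (-1 / (((q : ℝ) : ℂ) * z)) = w := by rw [hwdef]; push_cast; rfl
      rw [hw'] at hs
      have h4 := (abs_le.mp hs).1
      have h5 : z.im ^ θ ≤ (v / ((n : ℝ) - 1) ^ 2 * (1 / 1.3 : ℝ) ^ (N + 1)) ^ θ :=
        Real.rpow_le_rpow him0.le hzY hθ.le
      have h6 := mul_le_mul_of_nonneg_left h5 hC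
      rw [Finset.sum_range_succ, mul_add]
      linarith

theorem path_sum (θ : ℝ) (hθ : 0 < θ) (Y : ℝ) (hY : 0 < Y) (N : ℕ) :
    ∑ i ∈ Finset.range N, (Y * (1 / 1.3 : ℝ) ^ i) ^ θ ≤ Y ^ θ * (1 - (1 / 1.3 : ℝ) ^ θ)⁻¹ := by
  have hr1 : (1 / 1.3 : ℝ) ^ θ < 1 := Real.rpow_lt_one (by norm_num) (by norm_num) hθ
  have hr0 : 0 ≤ (1 / 1.3 : ℝ) ^ θ := Real.rpow_nonneg (by norm_num) _
  have e : ∀ i : ℕ, (Y * (1 / 1.3 : ℝ) ^ i) ^ θ = Y ^ θ * ((1 / 1.3 : ℝ) ^ θ) ^ i := by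
    intro i
    rw [Real.mul_rpow hY.le (by positivity), ← Real.rpow_natCast, ← Real.rpow_mul (by norm_num),
      mul_comm (i : ℝ) θ, Real.rpow_mul (by norm_num), Real.rpow_natCast]
  rw [Finset.sum_congr rfl (fun i _ => e i), ← Finset.mul_sum]
  refine mul_le_mul_of_nonneg_left ?_ (Real.rpow_nonneg hY.le _)
  rw [← tsum_geometric_of_lt_one hr0 hr1]
  exact (summable_geometric_of_lt_one hr0 hr1).sum_le_tsum _ (fun i _ => pow_nonneg hr0 i)

theorem orbit_lower (q : ℕ) (hq : q = 1 ∨ q = 2 ∨ q = 3) (Ψ : ℂ → ℝ) (h : Approx (q : ℝ) Ψ)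
    (v : ℝ) (hv : 10 ^ 4 ≤ v) (hpos : 0 < Ψ (v * I)) :
    ∃ n0 : ℕ, ∀ n : ℕ, n0 ≤ n → ∀ a b c d : ℤ, a * d - b * c = 1 → (q : ℤ) ∣ c → 0 < c →
      -((n : ℤ) + 1) * c ≤ d → d ≤ -(n : ℤ) * c →
      Ψ (v * I) / 2 ≤ Ψ ((a * (v * I) + b) / (c * (v * I) + d)) := by
  have hv0 : 0 < v := by linarith [show (0 : ℝ) < 10 ^ 4 by norm_num]
  have hq1 : 1 ≤ q := by rcases hq with h | h | h <;> omega
  obtain ⟨C0, θ, hθ, hstep0⟩ := h.step
  set C : ℝ := max C0 0 with hCdef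
  have hC : 0 ≤ C := le_max_right _ _
  have hstep : ∀ z : ℂ, 0 < z.im → z.im ≤ 1 → ‖z‖ ≤ 2 →
      |Ψ z - Ψ (-1 / ((q : ℝ) * z))| ≤ C * z.im ^ θ := by
    intro z h1 h2 h3
    refine (hstep0 z h1 h2 h3).trans ?_
    exact mul_le_mul_of_nonneg_right (le_max_left _ _) (Real.rpow_nonneg h1.le _)
  set K : ℝ := C * (1 - (1 / 1.3 : ℝ) ^ θ)⁻¹ with hK
  -- the error tends to zero
  have htend : Filter.Tendsto (fun n : ℕ => K * (v / ((n : ℝ) - 1) ^ 2) ^ θ) Filter.atTop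
      (nhds 0) := by
    have h1 : Filter.Tendsto (fun n : ℕ => ((n : ℝ) - 1)) Filter.atTop Filter.atTop :=
      Filter.tendsto_atTop_add_const_right _ (-1) tendsto_natCast_atTop_atTop
    have h2 : Filter.Tendsto (fun n : ℕ => ((n : ℝ) - 1) ^ 2) Filter.atTop Filter.atTop :=
      (Filter.tendsto_pow_atTop (by norm_num)).comp h1
    have h3 : Filter.Tendsto (fun n : ℕ => v / ((n : ℝ) - 1) ^ 2) Filter.atTop (nhds 0) :=
      h2.const_div_atTop v
    have h4 : Filter.Tendsto (fun n : ℕ => (v / ((n : ℝ) - 1) ^ 2) ^ θ) Filter.atTop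
        (nhds ((0 : ℝ) ^ θ)) := h3.rpow_const (Or.inr hθ.le)
    rw [Real.zero_rpow hθ.ne'] at h4
    simpa using h4.const_mul K
  have hev : ∀ᶠ n : ℕ in Filter.atTop, K * (v / ((n : ℝ) - 1) ^ 2) ^ θ < Ψ (v * I) / 2 :=
    htend.eventually_lt_const (by linarith)
  obtain ⟨n1, hn1⟩ := Filter.eventually_atTop.mp hev
  refine ⟨max n1 2, ?_⟩
  intro n hn a b c d hdet hqc hc hd1 hd2
  have hn2 : 2 ≤ n := (le_max_right _ _).trans hn
  have hsmall := hn1 n ((le_max_left _ _).trans hn)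
  set z0 : ℂ := (a * (v * I) + b) / (c * (v * I) + d) with hz0
  have hcR : (0 : ℝ) < c := by exact_mod_cast hc
  have hr0 : (n : ℝ) ≤ -(d : ℝ) / c := by
    rw [le_div_iff₀ hcR]
    have : (d : ℝ) ≤ -(n : ℝ) * c := by exact_mod_cast hd2
    linarith
  have hst : St q v (-(d : ℝ) / c) (z0 - ((round z0.re : ℤ) : ℂ)) 0 :=
    St.start a b c d (round z0.re) hdet hqc hc.ne' hv0
  have hre : (z0 - ((round z0.re : ℤ) : ℂ)).re = z0.re - (round z0.re : ℤ) := by simp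
  obtain ⟨him0, -⟩ := hst.im hq1 hv0
  -- a large power
  obtain ⟨j, hj⟩ : ∃ j : ℕ, 1 / ((1.3 : ℝ) ^ j * v) ≤ (z0 - ((round z0.re : ℤ) : ℂ)).im := by
    obtain ⟨j, hj⟩ := pow_unbounded_of_one_lt
      (1 / ((z0 - ((round z0.re : ℤ) : ℂ)).im * v)) (show (1 : ℝ) < 1.3 by norm_num)
    refine ⟨j, ?_⟩
    rw [div_le_iff₀ (by positivity)]
    rw [div_lt_iff₀ (by positivity)] at hj
    nlinarith
  obtain ⟨N, hN1, hN2⟩ := path_claim q hq Ψ h v hv C θ hC hθ hstep n hn2 _ hr0 j _ 0 hst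
    (by rw [hre]; exact abs_sub_round z0.re) (dom_zero q hq _) hj
  have hΨ : Ψ (z0 - ((round z0.re : ℤ) : ℂ)) = Ψ z0 := by
    have := h.shift (z0 - ((round z0.re : ℤ) : ℂ)) (round z0.re)
    rw [← this]; congr 1; ring
  rw [hΨ] at hN2
  have hn1' : (1 : ℝ) ≤ (n : ℝ) - 1 := by
    have : (2 : ℝ) ≤ n := by exact_mod_cast hn2
    linarith
  have hY : 0 < v / ((n : ℝ) - 1) ^ 2 := by positivity
  have hsum := path_sum θ hθ (v / ((n : ℝ) - 1) ^ 2) hY (N + 1)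
  have hsum' := mul_le_mul_of_nonneg_left hsum hC
  have : C * ((v / ((n : ℝ) - 1) ^ 2) ^ θ * (1 - (1 / 1.3 : ℝ) ^ θ)⁻¹)
      = K * (v / ((n : ℝ) - 1) ^ 2) ^ θ := by rw [hK]; ring
  linarith

end Pool.Agent.H11.SC
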