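import Mathlib

/-!
# KERN: the periodic Poisson kernel

For `0 ≤ ρ < 1`: `Poi ρ t = (1 - ρ²)/(1 - 2ρ cos 2πt + ρ²) = ∑_{m ∈ ℤ} ρ^|m| e(mt)`.
* `Poi_pos`: the denominator is `(1-ρ)² + 2ρ(1 - cos 2πt) > 0`.
* `Poi_coeff`: `∫_0^1 e(nt) Poi ρ (x - t) dt = ρ^n e(nx)` for `n : ℕ`.  With `w = ρ e(s)`,
  `Poi ρ s = 1/(1-w) + 1/(1 - conj w) - 1 = 1 + ∑_{m≥1} (w^m + conj w^m)` (geometric series,
  uniformly convergent); integrate term by term (`∫_0^1 e(kt) dt = 0` for `k ≠ 0`).  `n = 0` gives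
  `∫ Poi = 1`.
* `Poi_le`: `ρ = e^(-2πη)`, `0 < η ≤ 1`, `s` real, `m` an integer with `|s - m| ≤ 1/2`:
  `Poi ρ s ≤ C η/(η² + (s-m)²)`.  Numerator `1 - e^(-4πη) ≤ 4πη`.  Denominator
  `(1-ρ)² + 4ρ sin²(πs)`, `1 - e^(-2πη) ≥ (1 - e^(-2π)) η ≥ η/2` (concavity; or
  `1 - e^(-u) ≥ u/(1+u)`), `ρ ≥ e^(-2π)`, `sin²(πs) = sin²(π(s-m)) ≥ 4 (s-m)²`
  (`Real.mul_le_sin` / Jordan).
-/

set_option autoImplicit false

namespace Pool.Agent.H11.SC

open Complex

/-- the periodic Poisson kernel -/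
noncomputable def Poi (ρ t : ℝ) : ℝ :=
  (1 - ρ ^ 2) / (1 - 2 * ρ * Real.cos (2 * Real.pi * t) + ρ ^ 2)

theorem Poi_den_pos (ρ t : ℝ) (h0 : 0 ≤ ρ) (h1 : ρ < 1) :
    0 < 1 - 2 * ρ * Real.cos (2 * Real.pi * t) + ρ ^ 2 := by
  have h2 : ρ * Real.cos (2 * Real.pi * t) ≤ ρ * 1 :=
    mul_le_mul_of_nonneg_left (Real.cos_le_one _) h0
  have h3 : 0 < (1 - ρ) ^ 2 := by
    have : 0 < 1 - ρ := by linarith
    positivity
  nlinarith

theorem Poi_pos (ρ t : ℝ) (h0 : 0 ≤ ρ) (h1 : ρ < 1) : 0 < Poi ρ t := by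
  unfold Poi
  apply div_pos _ (Poi_den_pos ρ t h0 h1)
  nlinarith

theorem Poi_continuous (ρ : ℝ) (h0 : 0 ≤ ρ) (h1 : ρ < 1) : Continuous (Poi ρ) := by
  unfold Poi
  apply Continuous.div
  · fun_prop
  · fun_prop
  · intro t
    exact (Poi_den_pos ρ t h0 h1).ne'

/-- integrals of characters -/
theorem int_char (k : ℤ) : ∫ t in (0 : ℝ)..1, cexp (2 * (Real.pi : ℂ) * I * k * t) =
    if k = 0 then 1 else 0 := by
  by_cases hk : k = 0
  · subst hk
    simp
  · rw [if_neg hk]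
    have hc : (2 * (Real.pi : ℂ) * I * k) ≠ 0 := by
      have : (k : ℂ) ≠ 0 := by exact_mod_cast hk
      have h2 : (Real.pi : ℂ) ≠ 0 := by exact_mod_cast Real.pi_ne_zero
      have h3 := I_ne_zero
      exact mul_ne_zero (mul_ne_zero (mul_ne_zero two_ne_zero h2) h3) this
    rw [integral_exp_mul_complex hc]
    have : cexp (2 * (Real.pi : ℂ) * I * k * ((1 : ℝ) : ℂ)) = 1 := by
      rw [← Complex.exp_int_mul_two_pi_mul_I k]
      congr 1
      push_cast
      ring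
    rw [this]
    simp

/-- pointwise expansion of the Poisson kernel -/
theorem Poi_hasSum (ρ : ℝ) (h0 : 0 ≤ ρ) (h1 : ρ < 1) (s : ℝ) :
    HasSum (fun m : ℕ => (ρ : ℂ) ^ m * cexp (2 * (Real.pi : ℂ) * I * m * s) +
      (ρ : ℂ) ^ m * cexp (-(2 * (Real.pi : ℂ) * I * m * s))) ((Poi ρ s : ℂ) + 1) := by
  set w : ℂ := (ρ : ℂ) * cexp (2 * (Real.pi : ℂ) * I * s) with hw
  set w' : ℂ := (ρ : ℂ) * cexp (-(2 * (Real.pi : ℂ) * I * s)) with hw'
  have n1 : ‖cexp (2 * (Real.pi : ℂ) * I * s)‖ = 1 := by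
    have : 2 * (Real.pi : ℂ) * I * s = ((2 * Real.pi * s : ℝ) : ℂ) * I := by
      push_cast; ring
    rw [this]
    exact Complex.norm_exp_ofReal_mul_I _
  have n2 : ‖cexp (-(2 * (Real.pi : ℂ) * I * s))‖ = 1 := by
    have : -(2 * (Real.pi : ℂ) * I * s) = ((-(2 * Real.pi * s) : ℝ) : ℂ) * I := by
      push_cast; ring
    rw [this]
    exact Complex.norm_exp_ofReal_mul_I _
  have hwn : ‖w‖ < 1 := by
    rw [hw, norm_mul, n1, mul_one, Complex.norm_real, Real.norm_of_nonneg h0]; exact h1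
  have hwn' : ‖w'‖ < 1 := by
    rw [hw', norm_mul, n2, mul_one, Complex.norm_real, Real.norm_of_nonneg h0]; exact h1
  have hs1 := hasSum_geometric_of_norm_lt_one hwn
  have hs2 := hasSum_geometric_of_norm_lt_one hwn'
  have hs := hs1.add hs2
  have hexp : cexp (2 * (Real.pi : ℂ) * I * s) * cexp (-(2 * (Real.pi : ℂ) * I * s)) = 1 := by
    rw [← Complex.exp_add]; simp
  have hcos : (Real.cos (2 * Real.pi * s) : ℂ) =
      (cexp (2 * (Real.pi : ℂ) * I * s) + cexp (-(2 * (Real.pi : ℂ) * I * s))) / 2 := by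
    rw [Complex.ofReal_cos, Complex.cos]
    congr 2
    · congr 1
      push_cast; ring
    · congr 1
      push_cast; ring
  have hprod : w * w' = (ρ : ℂ) ^ 2 := by
    rw [hw, hw']
    calc (ρ : ℂ) * cexp (2 * (Real.pi : ℂ) * I * s) * (ρ * cexp (-(2 * (Real.pi : ℂ) * I * s)))
        = (ρ : ℂ) ^ 2 * (cexp (2 * (Real.pi : ℂ) * I * s) *
          cexp (-(2 * (Real.pi : ℂ) * I * s))) := by ring
      _ = (ρ : ℂ) ^ 2 := by rw [hexp, mul_one]
  have hsum : w + w' = 2 * ρ * (Real.cos (2 * Real.pi * s) : ℂ) := by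
    rw [hcos, hw, hw']; ring
  have hw1 : 1 - w ≠ 0 := by
    intro h
    have : w = 1 := by linear_combination -h
    rw [this] at hwn
    simp at hwn
  have hw1' : 1 - w' ≠ 0 := by
    intro h
    have : w' = 1 := by linear_combination -h
    rw [this] at hwn'
    simp at hwn'
  have hden : (1 - w) * (1 - w') =
      ((1 - 2 * ρ * Real.cos (2 * Real.pi * s) + ρ ^ 2 : ℝ) : ℂ) := by
    rw [Complex.ofReal_add, Complex.ofReal_sub, Complex.ofReal_mul, Complex.ofReal_mul,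
      Complex.ofReal_one, Complex.ofReal_pow, Complex.ofReal_ofNat]
    linear_combination hprod - hsum
  have hval : (1 - w)⁻¹ + (1 - w')⁻¹ = (Poi ρ s : ℂ) + 1 := by
    have hD : ((1 - 2 * ρ * Real.cos (2 * Real.pi * s) + ρ ^ 2 : ℝ) : ℂ) ≠ 0 := by
      exact_mod_cast (Poi_den_pos ρ s h0 h1).ne'
    have e1 : (1 - w)⁻¹ + (1 - w')⁻¹ = (2 - (w + w')) / ((1 - w) * (1 - w')) := by
      field_simp
      ring
    rw [e1, hden, hsum]
    unfold Poi
    push_cast at hD ⊢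
    field_simp
    ring
  rw [hval] at hs
  have hfun : (fun m : ℕ => (ρ : ℂ) ^ m * cexp (2 * (Real.pi : ℂ) * I * m * s) +
      (ρ : ℂ) ^ m * cexp (-(2 * (Real.pi : ℂ) * I * m * s))) = fun m : ℕ => w ^ m + w' ^ m := by
    funext m
    have e1 : w ^ m = (ρ : ℂ) ^ m * cexp (2 * (Real.pi : ℂ) * I * m * s) := by
      have : 2 * (Real.pi : ℂ) * I * m * s = (m : ℂ) * (2 * (Real.pi : ℂ) * I * s) := by ring
      rw [this, Complex.exp_nat_mul, ← mul_pow]
    have e2 : w' ^ m = (ρ : ℂ) ^ m * cexp (-(2 * (Real.pi : ℂ) * I * m * s)) := by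
      have : -(2 * (Real.pi : ℂ) * I * m * s) = (m : ℂ) * (-(2 * (Real.pi : ℂ) * I * s)) := by
        ring
      rw [this, Complex.exp_nat_mul, ← mul_pow]
    rw [e1, e2]
  rw [hfun]
  exact hs

theorem Poi_coeff (ρ : ℝ) (h0 : 0 ≤ ρ) (h1 : ρ < 1) (n : ℕ) (x : ℝ) :
    ∫ t in (0 : ℝ)..1, cexp (2 * (Real.pi : ℂ) * I * n * t) * (Poi ρ (x - t) : ℂ) =
      (ρ : ℂ) ^ n * cexp (2 * (Real.pi : ℂ) * I * n * x) := by
  obtain ⟨A, hA⟩ : ∃ A : ℕ → ℂ, A = fun m : ℕ =>
    (ρ : ℂ) ^ m * cexp (2 * (Real.pi : ℂ) * I * m * x) := ⟨_, rfl⟩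
  obtain ⟨A', hA'⟩ : ∃ A' : ℕ → ℂ, A' = fun m : ℕ =>
    (ρ : ℂ) ^ m * cexp (-(2 * (Real.pi : ℂ) * I * m * x)) := ⟨_, rfl⟩
  obtain ⟨F, hF⟩ : ∃ F : ℕ → ℝ → ℂ, F = fun (m : ℕ) (t : ℝ) =>
    A m * cexp (2 * (Real.pi : ℂ) * I * (((n : ℤ) - (m : ℤ) : ℤ) : ℂ) * t) +
      A' m * cexp (2 * (Real.pi : ℂ) * I * (((n : ℤ) + (m : ℤ) : ℤ) : ℂ) * t) := ⟨_, rfl⟩
  have hnorm : ∀ (k : ℤ) (t : ℝ), ‖cexp (2 * (Real.pi : ℂ) * I * (k : ℂ) * t)‖ = 1 := by
    intro k t
    have : 2 * (Real.pi : ℂ) * I * (k : ℂ) * t = ((2 * Real.pi * k * t : ℝ) : ℂ) * I := by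
      push_cast; ring
    rw [this]
    exact Complex.norm_exp_ofReal_mul_I _
  have hAn : ∀ m, ‖A m‖ = ρ ^ m := by
    intro m
    have : 2 * (Real.pi : ℂ) * I * m * x = ((2 * Real.pi * m * x : ℝ) : ℂ) * I := by
      push_cast; ring
    rw [hA]
    simp only
    rw [this, norm_mul, Complex.norm_exp_ofReal_mul_I, mul_one, norm_pow, Complex.norm_real,
      Real.norm_of_nonneg h0]
  have hAn' : ∀ m, ‖A' m‖ = ρ ^ m := by
    intro m
    have : -(2 * (Real.pi : ℂ) * I * m * x) = ((-(2 * Real.pi * m * x) : ℝ) : ℂ) * I := by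
      push_cast; ring
    rw [hA']
    simp only
    rw [this, norm_mul, Complex.norm_exp_ofReal_mul_I, mul_one, norm_pow, Complex.norm_real,
      Real.norm_of_nonneg h0]
  have hFc : ∀ m, Continuous (F m) := by
    intro m
    rw [hF]
    fun_prop
  have hlim : ∀ t : ℝ, HasSum (fun m => F m t)
      (cexp (2 * (Real.pi : ℂ) * I * n * t) * ((Poi ρ (x - t) : ℂ) + 1)) := by
    intro t
    have h2 := (Poi_hasSum ρ h0 h1 (x - t)).mul_left (cexp (2 * (Real.pi : ℂ) * I * n * t))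
    have hfun : (fun m => F m t) = fun m : ℕ => cexp (2 * (Real.pi : ℂ) * I * n * t) *
        ((ρ : ℂ) ^ m * cexp (2 * (Real.pi : ℂ) * I * m * ((x - t : ℝ) : ℂ)) +
        (ρ : ℂ) ^ m * cexp (-(2 * (Real.pi : ℂ) * I * m * ((x - t : ℝ) : ℂ)))) := by
      funext m
      have e1 : cexp (2 * (Real.pi : ℂ) * I * m * x) *
          cexp (2 * (Real.pi : ℂ) * I * (((n : ℤ) - (m : ℤ) : ℤ) : ℂ) * t) =
          cexp (2 * (Real.pi : ℂ) * I * n * t) *
            cexp (2 * (Real.pi : ℂ) * I * m * ((x - t : ℝ) : ℂ)) := by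
        rw [← Complex.exp_add, ← Complex.exp_add]
        congr 1
        push_cast
        ring
      have e2 : cexp (-(2 * (Real.pi : ℂ) * I * m * x)) *
          cexp (2 * (Real.pi : ℂ) * I * (((n : ℤ) + (m : ℤ) : ℤ) : ℂ) * t) =
          cexp (2 * (Real.pi : ℂ) * I * n * t) *
            cexp (-(2 * (Real.pi : ℂ) * I * m * ((x - t : ℝ) : ℂ))) := by
        rw [← Complex.exp_add, ← Complex.exp_add]
        congr 1
        push_cast
        ring
      rw [hF, hA, hA']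
      linear_combination (ρ : ℂ) ^ m * e1 + (ρ : ℂ) ^ m * e2
    rw [hfun]
    exact h2
  have hsum := intervalIntegral.hasSum_integral_of_dominated_convergence
    (μ := MeasureTheory.volume) (a := (0 : ℝ)) (b := 1) (F := F)
    (f := fun t : ℝ => cexp (2 * (Real.pi : ℂ) * I * n * t) * ((Poi ρ (x - t) : ℂ) + 1))
    (fun m _ => 2 * ρ ^ m)
    (fun m => (hFc m).aestronglyMeasurable)
    (fun m => Filter.Eventually.of_forall (fun t _ => by
      rw [hF]
      simp only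
      refine (norm_add_le _ _).trans ?_
      rw [norm_mul, norm_mul, hnorm, hnorm, hAn, hAn']
      linarith))
    (Filter.Eventually.of_forall (fun t _ =>
      (summable_geometric_of_lt_one h0 h1).mul_left 2))
    (by simp)
    (Filter.Eventually.of_forall (fun t _ => hlim t))
  have hint : ∀ m, ∫ t in (0 : ℝ)..1, F m t =
      A m * (if (n : ℤ) - (m : ℤ) = 0 then 1 else 0) +
        A' m * (if (n : ℤ) + (m : ℤ) = 0 then 1 else 0) := by
    intro m
    rw [hF]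
    simp only
    rw [intervalIntegral.integral_add, intervalIntegral.integral_const_mul,
      intervalIntegral.integral_const_mul, int_char, int_char]
    · apply Continuous.intervalIntegrable
      fun_prop
    · apply Continuous.intervalIntegrable
      fun_prop
  have hs2 : HasSum (fun m => ∫ t in (0 : ℝ)..1, F m t)
      (A n + (if (n : ℤ) = 0 then 1 else 0)) := by
    have t1 : HasSum (fun m : ℕ => A m * (if (n : ℤ) - (m : ℤ) = 0 then 1 else 0)) (A n) := by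
      have := hasSum_single (f := fun m : ℕ => A m * (if (n : ℤ) - (m : ℤ) = 0 then 1 else 0)) n
        (by
          intro m hm
          rw [if_neg (by omega), mul_zero])
      simpa using this
    have t2 : HasSum (fun m : ℕ => A' m * (if (n : ℤ) + (m : ℤ) = 0 then 1 else 0))
        (if (n : ℤ) = 0 then 1 else 0) := by
      have := hasSum_single (f := fun m : ℕ => A' m * (if (n : ℤ) + (m : ℤ) = 0 then 1 else 0)) 0
        (by
          intro m hm
          rw [if_neg (by omega), mul_zero])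
      have e0 : A' 0 = 1 := by rw [hA']; simp
      simpa [e0] using this
    have := t1.add t2
    have hfun : (fun m => ∫ t in (0 : ℝ)..1, F m t) = fun m : ℕ =>
        A m * (if (n : ℤ) - (m : ℤ) = 0 then 1 else 0) +
        A' m * (if (n : ℤ) + (m : ℤ) = 0 then 1 else 0) := funext hint
    rw [hfun]
    exact this
  have heq := hsum.unique hs2
  have hcont : Continuous fun t : ℝ => (Poi ρ (x - t) : ℂ) := by
    have := Poi_continuous ρ h0 h1
    fun_prop
  have hsplit : ∫ t in (0 : ℝ)..1,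
      cexp (2 * (Real.pi : ℂ) * I * n * t) * ((Poi ρ (x - t) : ℂ) + 1) =
      (∫ t in (0 : ℝ)..1, cexp (2 * (Real.pi : ℂ) * I * n * t) * (Poi ρ (x - t) : ℂ)) +
        ∫ t in (0 : ℝ)..1, cexp (2 * (Real.pi : ℂ) * I * ((n : ℤ) : ℂ) * t) := by
    rw [← intervalIntegral.integral_add]
    · apply intervalIntegral.integral_congr
      intro t _
      simp only [Int.cast_natCast]
      ring
    · apply Continuous.intervalIntegrable
      fun_prop
    · apply Continuous.intervalIntegrable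
      fun_prop
  rw [hsplit, int_char] at heq
  have := add_right_cancel heq
  rw [this, hA]

theorem Poi_int (ρ : ℝ) (h0 : 0 ≤ ρ) (h1 : ρ < 1) (x : ℝ) :
    ∫ t in (0 : ℝ)..1, Poi ρ (x - t) = 1 := by
  have h := Poi_coeff ρ h0 h1 0 x
  simp only [Nat.cast_zero, mul_zero, zero_mul, Complex.exp_zero, one_mul, pow_zero] at h
  rw [intervalIntegral.integral_ofReal] at h
  exact_mod_cast h

theorem Poi_le : ∃ C : ℝ, 0 < C ∧ ∀ η s : ℝ, 0 < η → η ≤ 1 → ∀ m : ℤ, |s - m| ≤ 1 / 2 →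
    Poi (Real.exp (-(2 * Real.pi * η))) s ≤ C * η / (η ^ 2 + (s - m) ^ 2) := by
  set c0 : ℝ := Real.exp (-(2 * Real.pi)) / 4 with hc0
  have hc0pos : 0 < c0 := by positivity
  have hpi := Real.pi_pos
  refine ⟨4 * Real.pi / c0, by positivity, fun η s hη hη1 m hm => ?_⟩
  set ρ := Real.exp (-(2 * Real.pi * η)) with hρ
  have hρ0 : 0 < ρ := Real.exp_pos _
  have hρ1 : ρ < 1 := by
    rw [hρ, Real.exp_lt_one_iff]
    have : 0 < 2 * Real.pi * η := by positivity
    linarith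
  have hρlow : Real.exp (-(2 * Real.pi)) ≤ ρ := by
    rw [hρ]
    apply Real.exp_le_exp.2
    nlinarith
  have hnum : 1 - ρ ^ 2 ≤ 4 * Real.pi * η := by
    have e : ρ ^ 2 = Real.exp (-(4 * Real.pi * η)) := by
      rw [hρ, ← Real.exp_nat_mul]
      congr 1
      push_cast
      ring
    rw [e]
    have := Real.add_one_le_exp (-(4 * Real.pi * η))
    linarith
  have h1ρ : η / 2 ≤ 1 - ρ := by
    have h2 : 2 * Real.pi * η + 1 ≤ Real.exp (2 * Real.pi * η) := Real.add_one_le_exp _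
    have h3 : ρ * Real.exp (2 * Real.pi * η) = 1 := by
      rw [hρ, ← Real.exp_add]; simp
    have h4 : ρ * (2 * Real.pi * η + 1) ≤ 1 :=
      le_trans (mul_le_mul_of_nonneg_left h2 hρ0.le) h3.le
    have h5 : 3 < Real.pi := Real.pi_gt_three
    by_contra hcon
    push Not at hcon
    have h6 : 1 - η / 2 < ρ := by linarith
    have h7 : (1 - η / 2) * (2 * Real.pi * η + 1) < 1 := by
      have : (1 - η / 2) * (2 * Real.pi * η + 1) < ρ * (2 * Real.pi * η + 1) := by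
        apply mul_lt_mul_of_pos_right h6
        positivity
      linarith
    nlinarith [mul_pos hη hpi]
  have hcosm : Real.cos (2 * Real.pi * s) = Real.cos (2 * Real.pi * (s - m)) := by
    have : 2 * Real.pi * (s - m) = 2 * Real.pi * s - m * (2 * Real.pi) := by ring
    rw [this, Real.cos_sub_int_mul_two_pi]
  have hcos : Real.cos (2 * Real.pi * (s - m)) ≤ 1 - 8 * (s - m) ^ 2 := by
    have h2 : |2 * Real.pi * (s - m)| ≤ Real.pi := by
      rw [abs_mul, abs_of_pos (by positivity : (0 : ℝ) < 2 * Real.pi)]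
      nlinarith
    have h3 := Real.cos_le_one_sub_mul_cos_sq h2
    have h4 : 2 / Real.pi ^ 2 * (2 * Real.pi * (s - m)) ^ 2 = 8 * (s - m) ^ 2 := by
      field_simp
      ring
    rw [h4] at h3
    exact h3
  have hden : c0 * (η ^ 2 + (s - m) ^ 2) ≤
      1 - 2 * ρ * Real.cos (2 * Real.pi * s) + ρ ^ 2 := by
    rw [hcosm]
    have e : 1 - 2 * ρ * Real.cos (2 * Real.pi * (s - m)) + ρ ^ 2 =
        (1 - ρ) ^ 2 + 2 * ρ * (1 - Real.cos (2 * Real.pi * (s - m))) := by ring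
    rw [e]
    have h2 : (η / 2) ^ 2 ≤ (1 - ρ) ^ 2 := by
      apply pow_le_pow_left₀ (by positivity) h1ρ
    have h3 : 2 * ρ * (8 * (s - m) ^ 2) ≤
        2 * ρ * (1 - Real.cos (2 * Real.pi * (s - m))) := by
      apply mul_le_mul_of_nonneg_left _ (by positivity)
      linarith
    have h4 : c0 ≤ 1 / 4 := by
      rw [hc0]
      have : Real.exp (-(2 * Real.pi)) ≤ 1 := by
        rw [Real.exp_le_one_iff]; linarith
      linarith
    have h5 : c0 * η ^ 2 ≤ (η / 2) ^ 2 := by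
      have : c0 * η ^ 2 ≤ 1 / 4 * η ^ 2 := mul_le_mul_of_nonneg_right h4 (by positivity)
      linarith
    have h6 : c0 * (s - m) ^ 2 ≤ 2 * ρ * (8 * (s - m) ^ 2) := by
      have h7 : c0 ≤ 2 * ρ * 8 := by
        rw [hc0]; linarith
      have : c0 * (s - m) ^ 2 ≤ (2 * ρ * 8) * (s - m) ^ 2 :=
        mul_le_mul_of_nonneg_right h7 (by positivity)
      linarith
    rw [mul_add]
    linarith
  have hpos : 0 < η ^ 2 + (s - m) ^ 2 := by positivity
  unfold Poi
  rw [div_le_div_iff₀ (Poi_den_pos ρ s hρ0.le hρ1) hpos]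
  have hD := Poi_den_pos ρ s hρ0.le hρ1
  calc (1 - ρ ^ 2) * (η ^ 2 + (s - m) ^ 2) ≤ (4 * Real.pi * η) * (η ^ 2 + (s - m) ^ 2) :=
        mul_le_mul_of_nonneg_right hnum hpos.le
    _ = 4 * Real.pi / c0 * η * (c0 * (η ^ 2 + (s - m) ^ 2)) := by field_simp
    _ ≤ 4 * Real.pi / c0 * η * (1 - 2 * ρ * Real.cos (2 * Real.pi * s) + ρ ^ 2) := by
        apply mul_le_mul_of_nonneg_left hden
        positivity

end Pool.Agent.H11.SC
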