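import Mathlib

/-!
# PARS: Parseval's formula for absolutely convergent series

`‖∑ c n e(nx)‖² = ∑_{m,n} c m conj(c n) e((m-n)x)`, absolutely convergent double series; integrate
term by term over `[0,1]`.  (Or use Mathlib's `tsum_sq_fourierCoeff` /
`hasSum_fourier_series_L2`.)

-/

set_option autoImplicit false

namespace Pool.Agent.H11.SC

open Complex

private theorem int_e (k : ℤ) :
    ∫ x in (0 : ℝ)..1, cexp (2 * (Real.pi : ℂ) * I * k * x) = if k = 0 then 1 else 0 := by
  split_ifs with h
  · subst h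
    simp
  · have hc : (2 * (Real.pi : ℂ) * I * k) ≠ 0 := by
      have h1 : (Real.pi : ℂ) ≠ 0 := by exact_mod_cast Real.pi_ne_zero
      have h2 : (k : ℂ) ≠ 0 := by exact_mod_cast h
      exact mul_ne_zero (mul_ne_zero (mul_ne_zero two_ne_zero h1) I_ne_zero) h2
    rw [integral_exp_mul_complex hc]
    have h3 : cexp (2 * (Real.pi : ℂ) * I * k * (1 : ℝ)) = 1 := by
      rw [Complex.exp_eq_one_iff]
      exact ⟨k, by push_cast; ring⟩
    rw [h3]
    simp

private theorem norm_e (k : ℤ) (x : ℝ) : ‖cexp (2 * (Real.pi : ℂ) * I * k * x)‖ = 1 := by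
  have : (2 * (Real.pi : ℂ) * I * k * x) = ((2 * Real.pi * k * x : ℝ) : ℂ) * I := by
    push_cast
    ring
  rw [this, Complex.norm_exp_ofReal_mul_I]

private theorem coef (d : ℕ → ℂ) (hd : Summable (fun n => ‖d n‖)) (s : ℤ) (hs : s ≠ 0) (n : ℕ) :
    ∫ x in (0 : ℝ)..1, (∑' m : ℕ, d m * cexp (2 * (Real.pi : ℂ) * I * (s * m : ℤ) * x)) *
      cexp (2 * (Real.pi : ℂ) * I * (-(s * n) : ℤ) * x) = d n := by
  have hsum : ∀ x : ℝ, Summable (fun m : ℕ => d m * cexp (2 * (Real.pi : ℂ) * I * (s * m : ℤ) * x)) := by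
    intro x
    refine Summable.of_norm ?_
    simpa only [norm_mul, norm_e, mul_one] using hd
  have key : HasSum (fun m : ℕ => ∫ x in (0 : ℝ)..1,
      d m * cexp (2 * (Real.pi : ℂ) * I * (s * m - s * n : ℤ) * x))
      (∫ x in (0 : ℝ)..1, (∑' m : ℕ, d m * cexp (2 * (Real.pi : ℂ) * I * (s * m : ℤ) * x)) *
        cexp (2 * (Real.pi : ℂ) * I * (-(s * n) : ℤ) * x)) := by
    refine intervalIntegral.hasSum_integral_of_dominated_convergence (fun m _ => ‖d m‖) ?_ ?_ ?_ ?_ ?_
    · intro m
      exact (Continuous.aestronglyMeasurable (by fun_prop))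
    · intro m
      refine Filter.Eventually.of_forall (fun x _ => ?_)
      rw [norm_mul, norm_e, mul_one]
    · exact Filter.Eventually.of_forall (fun x _ => hd)
    · exact intervalIntegrable_const
    · refine Filter.Eventually.of_forall (fun x _ => ?_)
      have h1 := (hsum x).hasSum.mul_right (cexp (2 * (Real.pi : ℂ) * I * (-(s * n) : ℤ) * x))
      refine h1.congr_fun ?_
      intro m
      have h5 : cexp (2 * (Real.pi : ℂ) * I * (s * m : ℤ) * x) *
          cexp (2 * (Real.pi : ℂ) * I * (-(s * n) : ℤ) * x) =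
          cexp (2 * (Real.pi : ℂ) * I * (s * m - s * n : ℤ) * x) := by
        rw [← Complex.exp_add]
        congr 1
        push_cast
        ring
      rw [mul_assoc (d m), h5]
  have h2 : ∀ m : ℕ, ∫ x in (0 : ℝ)..1,
      d m * cexp (2 * (Real.pi : ℂ) * I * (s * m - s * n : ℤ) * x) = if m = n then d n else 0 := by
    intro m
    rw [intervalIntegral.integral_const_mul, int_e]
    by_cases h : m = n
    · subst h
      simp
    · have h3 : s * (m : ℤ) - s * n ≠ 0 := by
        rw [← mul_sub]
        refine mul_ne_zero hs ?_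
        intro h4
        apply h
        omega
      rw [if_neg h3, if_neg h, mul_zero]
  simp only [h2] at key
  exact (key.unique (hasSum_ite_eq n (d n)))

theorem parseval (c : ℕ → ℂ) (hc : Summable (fun n => ‖c n‖)) :
    ∫ x in (0 : ℝ)..1, ‖∑' n : ℕ, c n * cexp (2 * (Real.pi : ℂ) * I * n * x)‖ ^ 2 =
      ∑' n : ℕ, ‖c n‖ ^ 2 := by
  set f : ℝ → ℂ := fun x => ∑' n : ℕ, c n * cexp (2 * (Real.pi : ℂ) * I * n * x) with hf
  set g : ℝ → ℂ := fun x =>
    ∑' m : ℕ, (starRingEnd ℂ) (c m) * cexp (2 * (Real.pi : ℂ) * I * ((-1) * m : ℤ) * x) with hg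
  have hgf : ∀ x, g x = (starRingEnd ℂ) (f x) := by
    intro x
    rw [hf, hg]
    simp only []
    rw [← Complex.conjCLE_apply, ContinuousLinearEquiv.map_tsum]
    refine tsum_congr (fun m => ?_)
    rw [Complex.conjCLE_apply, map_mul, ← Complex.exp_conj]
    congr 2
    simp only [map_mul, Complex.conj_ofReal, Complex.conj_I, map_ofNat, map_natCast]
    push_cast
    ring
  have hcc : Summable (fun n => ‖(starRingEnd ℂ) (c n)‖) := by simpa using hc
  have hsumf : ∀ x : ℝ, Summable (fun m : ℕ => c m * cexp (2 * (Real.pi : ℂ) * I * m * x)) := by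
    intro x
    refine Summable.of_norm ?_
    have h1 : ∀ m : ℕ, ‖c m * cexp (2 * (Real.pi : ℂ) * I * m * x)‖ = ‖c m‖ := by
      intro m
      have := norm_e m x
      rw [norm_mul]
      push_cast at this
      rw [this, mul_one]
    simpa only [h1] using hc
  have hfc : Continuous f := by
    refine continuous_tsum (u := fun m => ‖c m‖) (fun m => by fun_prop) hc (fun m x => ?_)
    have := norm_e m x
    rw [norm_mul]
    push_cast at this
    rw [this, mul_one]
  have hgc : Continuous g := by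
    have : g = fun x => (starRingEnd ℂ) (f x) := funext hgf
    rw [this]
    exact Complex.continuous_conj.comp hfc
  -- bound for `g`
  have hgb : ∀ x, ‖g x‖ ≤ ∑' m, ‖c m‖ := by
    intro x
    rw [hgf, RCLike.norm_conj]
    refine tsum_of_norm_bounded hc.hasSum (fun m => ?_)
    have := norm_e m x
    rw [norm_mul]
    push_cast at this
    rw [this, mul_one]
  have key : HasSum (fun n : ℕ => ∫ x in (0 : ℝ)..1,
      c n * (g x * cexp (2 * (Real.pi : ℂ) * I * (-((-1) * n) : ℤ) * x)))
      (∫ x in (0 : ℝ)..1, f x * g x) := by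
    refine intervalIntegral.hasSum_integral_of_dominated_convergence
      (fun n _ => ‖c n‖ * ∑' m, ‖c m‖) ?_ ?_ ?_ ?_ ?_
    · intro n
      refine Continuous.aestronglyMeasurable ?_
      exact continuous_const.mul (hgc.mul (by fun_prop))
    · intro n
      refine Filter.Eventually.of_forall (fun x _ => ?_)
      rw [norm_mul, norm_mul, norm_e, mul_one]
      exact mul_le_mul_of_nonneg_left (hgb x) (norm_nonneg _)
    · exact Filter.Eventually.of_forall (fun x _ => hc.mul_right _)
    · exact intervalIntegrable_const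
    · refine Filter.Eventually.of_forall (fun x _ => ?_)
      have h1 := (hsumf x).hasSum.mul_right (g x)
      refine h1.congr_fun ?_
      intro n
      push_cast
      ring_nf
  have h2 : ∀ n : ℕ, ∫ x in (0 : ℝ)..1,
      c n * (g x * cexp (2 * (Real.pi : ℂ) * I * (-((-1) * n) : ℤ) * x)) =
        ((‖c n‖ ^ 2 : ℝ) : ℂ) := by
    intro n
    rw [intervalIntegral.integral_const_mul, coef _ hcc (-1) (by norm_num) n, Complex.mul_conj,
      Complex.normSq_eq_norm_sq]
  simp only [h2] at key
  have h3 : ∫ x in (0 : ℝ)..1, f x * g x = ((∫ x in (0 : ℝ)..1, ‖f x‖ ^ 2 : ℝ) : ℂ) := by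
    rw [← intervalIntegral.integral_ofReal]
    refine intervalIntegral.integral_congr (fun x _ => ?_)
    show f x * g x = ((‖f x‖ ^ 2 : ℝ) : ℂ)
    rw [hgf, Complex.mul_conj, Complex.normSq_eq_norm_sq]
  rw [h3] at key
  have h4 := Complex.hasSum_ofReal.1 key
  exact h4.tsum_eq.symm

end Pool.Agent.H11.SC
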