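import Mathlib
import Pool.Agent.H11.SC.Kern
import Pool.Agent.H11.SC.Pars

/-!
# POIS: the large sieve for well spaced points near height `Y`

Put `f(t) = ∑ b n e^(-πnY) e(nt)` (absolutely convergent).  For `y ≥ Y`, `η = y - Y/2`,
`ρ = e^(-2πη)`: `e^(-2πny) = e^(-πnY) ρ^n`, so by `Poi_coeff` (term by term integration)
`F(x + iy) := ∑ b n e(n(x+iy)) = ∫_0^1 f(t) Poi ρ (x - t) dt`.  By Cauchy-Schwarz and `Poi_int`,
`‖F(x+iy)‖² ≤ ∫_0^1 ‖f(t)‖² Poi ρ (x - t) dt`.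
Sum over the points: `∑_i Poi ρ_i (x_i - t) ≤ C'/Y` for every `t`: here `Y/2 ≤ η_i ≤ K Y ≤ 1`, so by
`Poi_le` `Poi ρ_i (x_i - t) ≤ C_K Y/(Y² + d_i²)`, `d_i = |x_i - t - m_i|` the distance of `x_i - t` to
the nearest integer.  As the points are `Y`-spaced modulo `1`, for each `j ≥ 0` at most `4` of them
have `j Y ≤ d_i < (j+1) Y`, so the sum is `≤ 4 C_K ∑_j 1/(Y (1 + j²)) ≤ C'/Y`.
Finally `∫_0^1 ‖f‖² = ∑ ‖b n‖² e^(-2πnY)` (`parseval`).
-/

set_option autoImplicit false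

namespace Pool.Agent.H11.SC

open Complex

private theorem sum_int : Summable (fun k : ℤ => 1 / (1 + (k : ℝ) ^ 2)) := by
  have h1 : Summable (fun n : ℕ => 1 / (1 + (n : ℝ) ^ 2)) := by
    have h2 : Summable (fun n : ℕ => 2 * (1 / ((n + 1 : ℕ) : ℝ) ^ 2)) :=
      ((summable_nat_add_iff 1).2 (Real.summable_one_div_nat_pow.2 one_lt_two)).mul_left 2
    refine Summable.of_nonneg_of_le (fun n => by positivity) (fun n => ?_) h2
    rw [mul_one_div, div_le_div_iff₀ (by positivity) (by positivity)]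
    push_cast
    nlinarith [sq_nonneg ((n : ℝ) - 1)]
  refine Summable.of_nat_of_neg ?_ ?_
  · simpa using h1
  · simpa using h1

private theorem spaced_sum {ι : Type*} (P : Finset ι) (s : ι → ℝ) (Y : ℝ) (hY : 0 < Y)
    (hs : ∀ i ∈ P, ∀ j ∈ P, i ≠ j → Y ≤ |s i - s j|) :
    ∑ i ∈ P, Y / (Y ^ 2 + s i ^ 2) ≤ (3 * ∑' k : ℤ, 1 / (1 + (k : ℝ) ^ 2)) / Y := by
  classical
  have hterm : ∀ i ∈ P, Y / (Y ^ 2 + s i ^ 2) ≤
      (3 / Y) * (1 / (1 + ((⌊s i / Y⌋ : ℤ) : ℝ) ^ 2)) := by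
    intro i _
    have h1 : ((⌊s i / Y⌋ : ℤ) : ℝ) ≤ s i / Y := Int.floor_le _
    have h2 : s i / Y < ((⌊s i / Y⌋ : ℤ) : ℝ) + 1 := Int.lt_floor_add_one _
    set k : ℝ := ((⌊s i / Y⌋ : ℤ) : ℝ) with hk
    set u : ℝ := s i / Y with hu
    have hsu : s i = u * Y := by
      rw [hu]
      field_simp
    have h3 : k ^ 2 ≤ 2 * u ^ 2 + 2 := by
      have h4 : 0 ≤ u - k := by linarith
      have h5 : u - k ≤ 1 := by linarith
      nlinarith [sq_nonneg (2 * u - k)]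
    rw [hsu]
    have h6 : Y ^ 2 + (u * Y) ^ 2 = Y ^ 2 * (1 + u ^ 2) := by ring
    rw [h6, div_mul_div_comm, div_le_div_iff₀ (by positivity) (by positivity)]
    have h7 : 1 + k ^ 2 ≤ 3 * (1 + u ^ 2) := by nlinarith [sq_nonneg u]
    have h8 : Y * (Y * (1 + k ^ 2)) ≤ Y * (Y * (3 * (1 + u ^ 2))) := by gcongr
    nlinarith [h8]
  have hinj : Set.InjOn (fun i => ⌊s i / Y⌋) (P : Set ι) := by
    intro i hi j hj hij
    by_contra hne
    have h1 := hs i hi j hj hne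
    have h2 : |s i / Y - s j / Y| < 1 := Int.abs_sub_lt_one_of_floor_eq_floor hij
    rw [← sub_div, abs_div, abs_of_pos hY, div_lt_one hY] at h2
    linarith
  calc ∑ i ∈ P, Y / (Y ^ 2 + s i ^ 2)
      ≤ ∑ i ∈ P, (3 / Y) * (1 / (1 + ((⌊s i / Y⌋ : ℤ) : ℝ) ^ 2)) := Finset.sum_le_sum hterm
    _ = (3 / Y) * ∑ i ∈ P, (1 / (1 + ((⌊s i / Y⌋ : ℤ) : ℝ) ^ 2)) := by rw [Finset.mul_sum]
    _ = (3 / Y) * ∑ k ∈ P.image (fun i => ⌊s i / Y⌋), (1 / (1 + (k : ℝ) ^ 2)) := by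
        rw [Finset.sum_image hinj]
    _ ≤ (3 / Y) * ∑' k : ℤ, 1 / (1 + (k : ℝ) ^ 2) := by
        gcongr
        exact sum_int.sum_le_tsum _ (fun k _ => by positivity)
    _ = (3 * ∑' k : ℤ, 1 / (1 + (k : ℝ) ^ 2)) / Y := by ring

private theorem norm_e (n : ℕ) (t : ℝ) : ‖cexp (2 * (Real.pi : ℂ) * I * n * t)‖ = 1 := by
  have h : (2 * (Real.pi : ℂ) * I * n * t) = ((2 * Real.pi * n * t : ℝ) : ℂ) * I := by
    push_cast
    ring
  rw [h, norm_exp_ofReal_mul_I]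

private theorem cont_f (c : ℕ → ℂ) (hc : Summable (fun n => ‖c n‖)) :
    Continuous (fun t : ℝ => ∑' n : ℕ, c n * cexp (2 * (Real.pi : ℂ) * I * n * t)) := by
  refine continuous_tsum (u := fun n => ‖c n‖) (fun n => ?_) hc (fun n t => ?_)
  · fun_prop
  · rw [norm_mul, norm_e, mul_one]

private theorem repr_point (c : ℕ → ℂ) (hc : Summable (fun n => ‖c n‖)) (ρ : ℝ) (h0 : 0 ≤ ρ)
    (h1 : ρ < 1) (x : ℝ) :
    ∑' n : ℕ, c n * ((ρ : ℂ) ^ n * cexp (2 * (Real.pi : ℂ) * I * n * x)) =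
      ∫ t in (0 : ℝ)..1, (∑' n : ℕ, c n * cexp (2 * (Real.pi : ℂ) * I * n * t)) *
        (Poi ρ (x - t) : ℂ) := by
  have hP : Continuous (fun t : ℝ => Poi ρ (x - t)) :=
    (Poi_continuous ρ h0 h1).comp (continuous_const.sub continuous_id)
  have h := intervalIntegral.hasSum_integral_of_dominated_convergence (μ := MeasureTheory.volume)
    (a := 0) (b := 1)
    (F := fun (n : ℕ) (t : ℝ) => c n * cexp (2 * (Real.pi : ℂ) * I * n * t) *
      (Poi ρ (x - t) : ℂ))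
    (f := fun t : ℝ => (∑' n : ℕ, c n * cexp (2 * (Real.pi : ℂ) * I * n * t)) *
        (Poi ρ (x - t) : ℂ))
    (fun (n : ℕ) (t : ℝ) => ‖c n‖ * Poi ρ (x - t)) ?_ ?_ ?_ ?_ ?_
  · rw [← h.tsum_eq]
    refine tsum_congr (fun n => ?_)
    rw [← Poi_coeff ρ h0 h1 n x, ← intervalIntegral.integral_const_mul]
    refine intervalIntegral.integral_congr (fun t _ => ?_)
    ring
  · intro n
    refine Continuous.aestronglyMeasurable ?_
    exact (continuous_const.mul (by fun_prop)).mul (continuous_ofReal.comp hP)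
  · intro n
    refine Filter.Eventually.of_forall (fun t _ => ?_)
    rw [norm_mul, norm_mul, norm_e, mul_one, norm_real, Real.norm_eq_abs,
      abs_of_pos (Poi_pos ρ _ h0 h1)]
  · exact Filter.Eventually.of_forall (fun t _ => hc.mul_right _)
  · simp only [tsum_mul_right]
    exact (continuous_const.mul hP).intervalIntegrable _ _
  · refine Filter.Eventually.of_forall (fun t _ => ?_)
    have hs : Summable (fun n : ℕ => c n * cexp (2 * (Real.pi : ℂ) * I * n * t)) := by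
      refine Summable.of_norm ?_
      simp only [norm_mul, norm_e, mul_one]
      exact hc
    exact hs.hasSum.mul_right _

private theorem sq_le (f : ℝ → ℂ) (hf : Continuous f) (w : ℝ → ℝ) (hw : Continuous w)
    (hw0 : ∀ t, 0 ≤ w t) (hw1 : ∫ t in (0 : ℝ)..1, w t = 1) :
    ‖∫ t in (0 : ℝ)..1, f t * (w t : ℂ)‖ ^ 2 ≤ ∫ t in (0 : ℝ)..1, ‖f t‖ ^ 2 * w t := by
  set A : ℝ := ∫ t in (0 : ℝ)..1, ‖f t‖ * w t with hA
  have h1 : ‖∫ t in (0 : ℝ)..1, f t * (w t : ℂ)‖ ≤ A := by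
    refine (intervalIntegral.norm_integral_le_integral_norm zero_le_one).trans (le_of_eq ?_)
    refine intervalIntegral.integral_congr (fun t _ => ?_)
    rw [norm_mul, norm_real, Real.norm_eq_abs, abs_of_nonneg (hw0 t)]
  have h2 : ‖∫ t in (0 : ℝ)..1, f t * (w t : ℂ)‖ ^ 2 ≤ A ^ 2 :=
    pow_le_pow_left₀ (norm_nonneg _) h1 2
  refine h2.trans ?_
  have hi1 : IntervalIntegrable (fun t => ‖f t‖ ^ 2 * w t) MeasureTheory.volume 0 1 :=
    ((hf.norm.pow 2).mul hw).intervalIntegrable _ _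
  have hi2 : IntervalIntegrable (fun t => 2 * A * (‖f t‖ * w t)) MeasureTheory.volume 0 1 :=
    (continuous_const.mul (hf.norm.mul hw)).intervalIntegrable _ _
  have hi3 : IntervalIntegrable (fun t => A ^ 2 * w t) MeasureTheory.volume 0 1 :=
    (continuous_const.mul hw).intervalIntegrable _ _
  have h3 : 0 ≤ ∫ t in (0 : ℝ)..1, (‖f t‖ - A) ^ 2 * w t :=
    intervalIntegral.integral_nonneg zero_le_one (fun t _ => mul_nonneg (sq_nonneg _) (hw0 t))
  have h4 : ∫ t in (0 : ℝ)..1, (‖f t‖ - A) ^ 2 * w t =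
      (∫ t in (0 : ℝ)..1, ‖f t‖ ^ 2 * w t) - 2 * A * A + A ^ 2 * 1 := by
    have e1 : 2 * A * A = ∫ t in (0 : ℝ)..1, 2 * A * (‖f t‖ * w t) := by
      rw [intervalIntegral.integral_const_mul]
    have e2 : A ^ 2 * 1 = ∫ t in (0 : ℝ)..1, A ^ 2 * w t := by
      rw [intervalIntegral.integral_const_mul, hw1]
    rw [e1, e2, ← intervalIntegral.integral_sub hi1 hi2,
      ← intervalIntegral.integral_add (hi1.sub hi2) hi3]
    refine intervalIntegral.integral_congr (fun t _ => ?_)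
    ring
  rw [h4] at h3
  nlinarith [h3]

theorem spaced_points (K : ℝ) : ∃ C : ℝ, 0 < C ∧ ∀ (b : ℕ → ℂ) (Y : ℝ), 0 < Y → K * Y ≤ 1 →
    Summable (fun n : ℕ => ‖b n‖ * Real.exp (-(Real.pi * n * Y))) →
    ∀ (P : Finset (ℕ × ℕ)) (x y : ℕ × ℕ → ℝ), (∀ i ∈ P, Y ≤ y i ∧ y i ≤ K * Y) →
    (∀ i ∈ P, ∀ j ∈ P, i ≠ j → ∀ m : ℤ, Y ≤ |x i - x j - m|) →
    ∑ i ∈ P, ‖∑' n : ℕ, b n * cexp (2 * (Real.pi : ℂ) * I * n * (x i + y i * I))‖ ^ 2 ≤
      C / Y * ∑' n : ℕ, ‖b n‖ ^ 2 * Real.exp (-(2 * Real.pi * n * Y)) := by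
  obtain ⟨C0, hC0, hPoi⟩ := Poi_le
  set Z : ℝ := ∑' k : ℤ, 1 / (1 + (k : ℝ) ^ 2) with hZ
  have hZ0 : 0 ≤ Z := tsum_nonneg (fun k => by positivity)
  refine ⟨12 * C0 * |K| * Z + 1, by positivity, ?_⟩
  intro b Y hY hKY hb P x y hy hsp
  have hT0 : 0 ≤ ∑' n : ℕ, ‖b n‖ ^ 2 * Real.exp (-(2 * Real.pi * n * Y)) :=
    tsum_nonneg (fun n => by positivity)
  -- the function `f`
  set c : ℕ → ℂ := fun n => b n * (Real.exp (-(Real.pi * n * Y)) : ℂ) with hcdef
  have hcn : ∀ n, ‖c n‖ = ‖b n‖ * Real.exp (-(Real.pi * n * Y)) := by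
    intro n
    rw [hcdef]
    simp only []
    rw [norm_mul, norm_real, Real.norm_eq_abs, abs_of_pos (Real.exp_pos _)]
  have hc : Summable (fun n => ‖c n‖) := by
    simp only [hcn]
    exact hb
  set f : ℝ → ℂ := fun t => ∑' n : ℕ, c n * cexp (2 * (Real.pi : ℂ) * I * n * t) with hf
  have hfc : Continuous f := cont_f c hc
  -- parameters
  set r : ℕ × ℕ → ℝ := fun i => Real.exp (-(2 * Real.pi * (y i - Y / 2))) with hr
  have hr0 : ∀ i, 0 ≤ r i := fun i => (Real.exp_pos _).le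
  have hr1 : ∀ i ∈ P, r i < 1 := by
    intro i hi
    rw [hr]
    simp only []
    rw [Real.exp_lt_one_iff]
    have h1 := (hy i hi).1
    have h2 : 0 < y i - Y / 2 := by linarith
    have h3 := Real.pi_pos
    have h4 : 0 < 2 * Real.pi * (y i - Y / 2) := by positivity
    linarith
  have hpt : ∀ i ∈ P, ‖∑' n : ℕ, b n * cexp (2 * (Real.pi : ℂ) * I * n * (x i + y i * I))‖ ^ 2 ≤
      ∫ t in (0 : ℝ)..1, ‖f t‖ ^ 2 * Poi (r i) (x i - t) := by
    intro i hi
    have e1 : ∑' n : ℕ, b n * cexp (2 * (Real.pi : ℂ) * I * n * (x i + y i * I)) =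
        ∫ t in (0 : ℝ)..1, f t * (Poi (r i) (x i - t) : ℂ) := by
      rw [hf, ← repr_point c hc (r i) (hr0 i) (hr1 i hi) (x i)]
      refine tsum_congr (fun n => ?_)
      rw [hcdef, hr]
      simp only []
      rw [ofReal_exp, ofReal_exp, ← Complex.exp_nat_mul, mul_assoc (b n), ← Complex.exp_add,
        ← Complex.exp_add]
      congr 2
      push_cast
      ring_nf
      rw [I_sq]
      ring
    rw [e1]
    exact sq_le f hfc (fun t => Poi (r i) (x i - t))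
      ((Poi_continuous (r i) (hr0 i) (hr1 i hi)).comp (continuous_const.sub continuous_id))
      (fun t => (Poi_pos _ _ (hr0 i) (hr1 i hi)).le) (Poi_int (r i) (hr0 i) (hr1 i hi) (x i))
  -- the sum of the kernels
  have hker : ∀ t : ℝ, ∑ i ∈ P, Poi (r i) (x i - t) ≤ (12 * C0 * |K| * Z + 1) / Y := by
    intro t
    set s : ℕ × ℕ → ℝ := fun i => x i - t - (round (x i - t) : ℤ) with hs
    have h1 : ∀ i ∈ P, Poi (r i) (x i - t) ≤ (4 * C0 * |K|) * (Y / (Y ^ 2 + s i ^ 2)) := by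
      intro i hi
      obtain ⟨hy1, hy2⟩ := hy i hi
      have hK : 0 < K := by
        by_contra hK
        push Not at hK
        nlinarith
      have h2 := hPoi (y i - Y / 2) (x i - t) (by linarith) (by linarith)
        (round (x i - t)) (abs_sub_round _)
      refine h2.trans ?_
      rw [abs_of_pos hK, mul_div_assoc']
      rw [div_le_div_iff₀ (by nlinarith [sq_nonneg (s i), sq_nonneg (y i - Y / 2)])
        (by positivity)]
      have h3 : (x i - t - ((round (x i - t) : ℤ) : ℝ)) = s i := rfl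
      rw [h3]
      have h4 : y i - Y / 2 ≤ K * Y := by linarith
      have h5 : Y ^ 2 + s i ^ 2 ≤ 4 * ((y i - Y / 2) ^ 2 + s i ^ 2) := by
        nlinarith [sq_nonneg (s i)]
      have h6 : 0 ≤ y i - Y / 2 := by linarith
      calc C0 * (y i - Y / 2) * (Y ^ 2 + s i ^ 2)
          ≤ C0 * (K * Y) * (4 * ((y i - Y / 2) ^ 2 + s i ^ 2)) := by gcongr
        _ = 4 * C0 * K * Y * ((y i - Y / 2) ^ 2 + s i ^ 2) := by ring
    have h2 : ∀ i ∈ P, ∀ j ∈ P, i ≠ j → Y ≤ |s i - s j| := by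
      intro i hi j hj hij
      have h3 := hsp i hi j hj hij (round (x i - t) - round (x j - t))
      have h4 : s i - s j = x i - x j - ((round (x i - t) - round (x j - t) : ℤ) : ℝ) := by
        rw [hs]
        push_cast
        ring
      rw [h4]
      exact h3
    calc ∑ i ∈ P, Poi (r i) (x i - t)
        ≤ ∑ i ∈ P, (4 * C0 * |K|) * (Y / (Y ^ 2 + s i ^ 2)) := Finset.sum_le_sum h1
      _ = (4 * C0 * |K|) * ∑ i ∈ P, Y / (Y ^ 2 + s i ^ 2) := by rw [Finset.mul_sum]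
      _ ≤ (4 * C0 * |K|) * ((3 * Z) / Y) := by
          gcongr
          exact spaced_sum P s Y hY h2
      _ = (12 * C0 * |K| * Z) / Y := by ring
      _ ≤ (12 * C0 * |K| * Z + 1) / Y := by
          gcongr
          linarith
  have hcont : ∀ i ∈ P, Continuous (fun t : ℝ => Poi (r i) (x i - t)) := fun i hi =>
    (Poi_continuous (r i) (hr0 i) (hr1 i hi)).comp (continuous_const.sub continuous_id)
  calc ∑ i ∈ P, ‖∑' n : ℕ, b n * cexp (2 * (Real.pi : ℂ) * I * n * (x i + y i * I))‖ ^ 2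
      ≤ ∑ i ∈ P, ∫ t in (0 : ℝ)..1, ‖f t‖ ^ 2 * Poi (r i) (x i - t) := Finset.sum_le_sum hpt
    _ = ∫ t in (0 : ℝ)..1, ∑ i ∈ P, ‖f t‖ ^ 2 * Poi (r i) (x i - t) := by
        rw [intervalIntegral.integral_finsetSum]
        intro i hi
        exact ((hfc.norm.pow 2).mul (hcont i hi)).intervalIntegrable _ _
    _ ≤ ∫ t in (0 : ℝ)..1, (12 * C0 * |K| * Z + 1) / Y * ‖f t‖ ^ 2 := by
        refine intervalIntegral.integral_mono_on zero_le_one ?_ ?_ (fun t _ => ?_)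
        · refine (continuous_finsetSum P (fun i hi => ?_)).intervalIntegrable _ _
          exact (hfc.norm.pow 2).mul (hcont i hi)
        · exact (continuous_const.mul (hfc.norm.pow 2)).intervalIntegrable _ _
        · rw [← Finset.mul_sum, mul_comm]
          exact mul_le_mul_of_nonneg_right (hker t) (sq_nonneg _)
    _ = (12 * C0 * |K| * Z + 1) / Y * ∫ t in (0 : ℝ)..1, ‖f t‖ ^ 2 := by
        rw [intervalIntegral.integral_const_mul]
    _ = (12 * C0 * |K| * Z + 1) / Y *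
        ∑' n : ℕ, ‖b n‖ ^ 2 * Real.exp (-(2 * Real.pi * n * Y)) := by
        rw [hf, parseval c hc]
        congr 1
        refine tsum_congr (fun n => ?_)
        rw [hcn, mul_pow, ← Real.exp_nat_mul]
        congr 2
        push_cast
        ring

end Pool.Agent.H11.SC
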