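import Mathlib

/-!
# PTS: the orbit points over a reduced fraction

* `exists_bd`: `gcd(a, c) = 1`: choose `d` with `a d ≡ 1 mod c` (`Int.gcd_eq_gcd_ab` or
  `Nat.Coprime` + Bezout), shifted by a multiple of `c` into `[-(n+1)c, -nc]`; `b = (a d - 1)/c`.
* `orbit_point`: `w = v i`: `(a w + b)/(c w + d) = a/c - 1/(c (c w + d))`;
  `Im = v/(c² v² + d²)`, and `n c ≤ |d| ≤ (n+1) c`; `|Re z - a/c| ≤ 1/(c |c w + d|) ≤ 1/(c |d|)`.
* `frac_spacing`: the integer `a c2 - a2 c - m c c2` is not zero: otherwise `a/c - a2/c2 = m`,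
  both fractions are in `(0, 1]`, so `m = 0`, and reduced fractions that are equal have the same
  numerators and denominators.
-/

set_option autoImplicit false

namespace Pool.Agent.H11.SC

open Complex

theorem exists_bd (a c : ℕ) (hc : 1 ≤ c) (hac : Nat.Coprime a c) (n : ℕ) :
    ∃ b d : ℤ, (a : ℤ) * d - b * c = 1 ∧ -((n : ℤ) + 1) * c ≤ d ∧ d ≤ -(n : ℤ) * c := by
  have h := Int.isCoprime_iff_gcd_eq_one.2 (by exact_mod_cast hac : Int.gcd (a : ℤ) (c : ℤ) = 1)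
  obtain ⟨x, y, hxy⟩ := h
  have hc' : (0 : ℤ) < c := by exact_mod_cast hc
  have h1 := Int.emod_nonneg x hc'.ne'
  have h2 := Int.emod_lt_of_pos x hc'
  have h3 := Int.mul_ediv_add_emod x c
  refine ⟨-y - (x / c + (n + 1)) * a, x - (x / c + (n + 1)) * c, ?_, ?_, ?_⟩
  · linear_combination hxy
  · nlinarith
  · nlinarith

theorem orbit_point (v : ℝ) (hv : 0 < v) (a b c d : ℤ) (hdet : a * d - b * c = 1) (hc : 0 < c)
    (n : ℕ) (hn : 1 ≤ n) (hd1 : -((n : ℤ) + 1) * c ≤ d) (hd2 : d ≤ -(n : ℤ) * c) :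
    v / ((c : ℝ) ^ 2 * (v ^ 2 + ((n : ℝ) + 1) ^ 2)) ≤
        (((a : ℂ) * (v * I) + b) / (c * (v * I) + d)).im ∧
      (((a : ℂ) * (v * I) + b) / (c * (v * I) + d)).im ≤
        v / ((c : ℝ) ^ 2 * (v ^ 2 + (n : ℝ) ^ 2)) ∧
      |(((a : ℂ) * (v * I) + b) / (c * (v * I) + d)).re - (a : ℝ) / c| ≤
        1 / ((n : ℝ) * (c : ℝ) ^ 2) := by
  have hc' : (0 : ℝ) < c := by exact_mod_cast hc
  have hn' : (1 : ℝ) ≤ n := by exact_mod_cast hn
  have hdet' : (a : ℝ) * d - b * c = 1 := by exact_mod_cast hdet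
  have hd1' : -((n : ℝ) + 1) * c ≤ d := by exact_mod_cast hd1
  have hd2' : (d : ℝ) ≤ -(n : ℝ) * c := by exact_mod_cast hd2
  have hnc : 0 < (n : ℝ) * c := by positivity
  have hdneg : (d : ℝ) < 0 := by nlinarith
  set D : ℝ := (c : ℝ) ^ 2 * v ^ 2 + (d : ℝ) ^ 2 with hD
  have hDpos : 0 < D := by positivity
  have hden : (c : ℂ) * (v * I) + d ≠ 0 := by
    intro h
    have h1 := congrArg Complex.re h
    simp at h1
    rw [h1] at hdneg
    simp at hdneg
  have hz : ((a : ℂ) * (v * I) + b) / (c * (v * I) + d) =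
      ⟨((b : ℝ) * d + a * c * v ^ 2) / D, v / D⟩ := by
    rw [div_eq_iff hden]
    apply Complex.ext
    · simp
      field_simp
      rw [hD]
      linear_combination (-(v : ℝ) ^ 2 * c) * hdet'
    · simp
      field_simp
      rw [hD]
      linear_combination (d : ℝ) * hdet'
  rw [hz]
  have hd3 : (d : ℝ) ^ 2 ≤ ((n : ℝ) + 1) ^ 2 * c ^ 2 := by nlinarith
  have hd4 : (n : ℝ) ^ 2 * c ^ 2 ≤ (d : ℝ) ^ 2 := by nlinarith
  refine ⟨?_, ?_, ?_⟩
  · show _ ≤ v / D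
    apply div_le_div_of_nonneg_left hv.le hDpos
    rw [hD]; nlinarith
  · show v / D ≤ _
    apply div_le_div_of_nonneg_left hv.le (by positivity)
    rw [hD]; nlinarith
  · show |((b : ℝ) * d + a * c * v ^ 2) / D - (a : ℝ) / c| ≤ _
    have h1 : ((b : ℝ) * d + a * c * v ^ 2) / D - (a : ℝ) / c = -d / (c * D) := by
      rw [div_sub_div _ _ hDpos.ne' hc'.ne', div_eq_div_iff (by positivity) (by positivity)]
      rw [hD]
      linear_combination (-(d : ℝ) * (c * (c ^ 2 * v ^ 2 + d ^ 2))) * hdet'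
    rw [h1, abs_of_pos (div_pos (by linarith) (by positivity)), div_le_div_iff₀ (by positivity)
      (by positivity)]
    have h2 : (d : ℝ) ^ 2 ≤ D := by rw [hD]; nlinarith [mul_pos (pow_pos hc' 2) (pow_pos hv 2)]
    have h3 : -(d : ℝ) * (n * c) ≤ (d : ℝ) ^ 2 := by nlinarith
    nlinarith

theorem frac_spacing (a c a2 c2 : ℕ) (h1 : Nat.Coprime a c) (h2 : Nat.Coprime a2 c2)
    (ha : 1 ≤ a) (hac : a ≤ c) (ha2 : 1 ≤ a2) (hac2 : a2 ≤ c2) (hne : ¬ (a = a2 ∧ c = c2)) (m : ℤ) :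
    1 / ((c : ℝ) * c2) ≤ |(a : ℝ) / c - (a2 : ℝ) / c2 - m| := by
  have hc : 0 < c := by omega
  have hc2 : 0 < c2 := by omega
  have hcr : (0 : ℝ) < c := by exact_mod_cast hc
  have hc2r : (0 : ℝ) < c2 := by exact_mod_cast hc2
  have hnz : (a : ℤ) * c2 - a2 * c - m * (c * c2) ≠ 0 := by
    intro h
    have hcz : (0 : ℤ) < c := by exact_mod_cast hc
    have hc2z : (0 : ℤ) < c2 := by exact_mod_cast hc2
    have haz : (1 : ℤ) ≤ a := by exact_mod_cast ha
    have ha2z : (1 : ℤ) ≤ a2 := by exact_mod_cast ha2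
    have hacz : (a : ℤ) ≤ c := by exact_mod_cast hac
    have hac2z : (a2 : ℤ) ≤ c2 := by exact_mod_cast hac2
    have hcc : (0 : ℤ) < c * c2 := by positivity
    have hm0 : m = 0 := by
      have h3 : m * (c * c2) < 1 * ((c : ℤ) * c2) := by nlinarith
      have h4 : (-1) * ((c : ℤ) * c2) < m * (c * c2) := by nlinarith
      have h5 := lt_of_mul_lt_mul_right h3 hcc.le
      have h6 := lt_of_mul_lt_mul_right h4 hcc.le
      omega
    rw [hm0] at h
    have h3 : a * c2 = a2 * c := by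
      have : (a : ℤ) * c2 = a2 * c := by linarith
      exact_mod_cast this
    apply hne
    have h4 : a ∣ a2 := h1.dvd_of_dvd_mul_right (Dvd.intro _ h3)
    have h5 : a2 ∣ a := h2.dvd_of_dvd_mul_right (Dvd.intro _ h3.symm)
    have h6 : a = a2 := Nat.dvd_antisymm h4 h5
    refine ⟨h6, ?_⟩
    rw [← h6] at h3
    exact (Nat.eq_of_mul_eq_mul_left (by omega) h3).symm
  have h3 : (a : ℝ) / c - (a2 : ℝ) / c2 - m =
      (((a : ℤ) * c2 - a2 * c - m * (c * c2) : ℤ) : ℝ) / (c * c2) := by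
    push_cast
    field_simp
  rw [h3, abs_div, abs_of_pos (by positivity : (0 : ℝ) < c * c2)]
  apply div_le_div_of_nonneg_right _ (by positivity)
  have h4 : (1 : ℤ) ≤ |(a : ℤ) * c2 - a2 * c - m * (c * c2)| := Int.one_le_abs hnz
  exact_mod_cast h4

end Pool.Agent.H11.SC
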