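import Mathlib
import Pool.Agent.H11.SC.Defs
import Pool.Agent.H11.SC.Path
import Pool.Agent.H11.SC.Count
import Pool.Agent.H11.SC.Pts
import Pool.Agent.H11.SC.Pois

/-!
# LOW1: a lower bound for the energy at height `Y`

`n0` from `orbit_lower` (`Ψ = Psi a`), `n = max n0 64`, `δ = Psi a (v i) > 0`, `c0, M0` from
`count_pairs`.  `κ1 = v/(q² (v² + (n+1)²))`, `κ2 = 16 v/(q² (v² + n²))`, `K = 4 κ2/κ1`.
For `0 < Y ≤ Y0` let `M = ⌊√(κ1/Y)⌋`, `Y0` so small that `M ≥ M0`, `M ≥ 1`, `M ≥ √(κ1/Y)/2`, `K Y0 ≤ 1`.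
For `p = (a', c') ∈ P` put `c = q c'`, take `b, d` from `exists_bd`, and
`z_p = (a' w + b)/(c w + d)`, `w = v i`.  By `orbit_point` and `q M/4 ≤ c ≤ q M`:
`Y ≤ κ1/M² ≤ Im z_p ≤ κ2/M² ≤ K Y`, `|Re z_p - a'/c| ≤ 1/(n c²) ≤ 16/(n q² M²)`.
`frac_spacing`: for `p ≠ p'` and every integer `m`,
`|Re z_p - Re z_p' - m| ≥ 1/(q² M²) - 32/(n q² M²) ≥ 1/(2 q² M²) ≥ κ1/M² ≥ Y` (`n ≥ 64`,
`2 v ≤ v² + (n+1)²`).
`orbit_lower`: `Psi a (z_p) ≥ δ/2`, so `δ²/8 ≤ phi a z_p ^ 2 + phi (cj a) z_p ^ 2`, and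
`phi a z ^ 2 = (Im z)^7 ‖gs a 3 (-iz)‖² ≤ (K Y)^7 ‖∑ a n n³ e(n z)‖²`.  Sum over `P` with
`spaced_points` (`b n = a n n³` and `cj a n n³`):
`c0 M² δ²/8 ≤ 2 (K Y)^7 (C/Y) ∑ ‖a n‖² n^6 e^(-2πnY)`, `M² ≥ κ1/(4Y)`.
-/

set_option autoImplicit false

namespace Pool.Agent.H11.SC

open Complex

theorem gs_eq_e (a : ℕ → ℂ) (z : ℂ) :
    gs a 3 (-(I * z)) = ∑' n : ℕ, (a n * (n : ℂ) ^ 3) *
      cexp (2 * (Real.pi : ℂ) * I * n * ((z.re : ℂ) + z.im * I)) := by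
  unfold gs
  refine tsum_congr (fun n => ?_)
  rw [Complex.re_add_im]
  congr 2
  ring

theorem phi_sq (a : ℕ → ℂ) (z : ℂ) (hz : 0 ≤ z.im) :
    phi a z ^ 2 = z.im ^ 7 * ‖gs a 3 (-(I * z))‖ ^ 2 := by
  unfold phi
  rw [mul_pow, ← Real.rpow_natCast (z.im ^ (7 / 2 : ℝ)) 2, ← Real.rpow_mul hz]
  congr 1
  rw [← Real.rpow_natCast z.im 7]
  norm_num

theorem low_summable (a : ℕ → ℂ) (C : ℝ) (hC : ∀ n : ℕ, 1 ≤ n → ‖a n‖ ≤ C * (n : ℝ) ^ (1 : ℝ))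
    (Y : ℝ) (hY : 0 < Y) :
    Summable (fun n : ℕ => ‖a n * (n : ℂ) ^ 3‖ * Real.exp (-(Real.pi * n * Y))) := by
  have h0 := Real.summable_pow_mul_exp_neg_nat_mul 4 (show 0 < Real.pi * Y by positivity)
  refine Summable.of_nonneg_of_le (fun n => by positivity) (fun n => ?_) (h0.mul_left |C|)
  rcases Nat.eq_zero_or_pos n with hn | hn
  · subst hn; simp
  · have h1 : ‖a n * (n : ℂ) ^ 3‖ ≤ |C| * (n : ℝ) ^ 4 := by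
      rw [norm_mul, norm_pow, Complex.norm_natCast]
      have h2 := hC n hn
      rw [Real.rpow_one] at h2
      have h3 : C * (n : ℝ) ≤ |C| * n :=
        mul_le_mul_of_nonneg_right (le_abs_self C) (Nat.cast_nonneg n)
      calc ‖a n‖ * (n : ℝ) ^ 3 ≤ (|C| * n) * (n : ℝ) ^ 3 :=
            mul_le_mul_of_nonneg_right (h2.trans h3) (by positivity)
        _ = |C| * (n : ℝ) ^ 4 := by ring
    have e : -(Real.pi * n * Y) = -(Real.pi * Y) * n := by ring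
    rw [e, ← mul_assoc]
    exact mul_le_mul_of_nonneg_right h1 (Real.exp_pos _).le

theorem low_term (a : ℕ → ℂ) (Y : ℝ) (n : ℕ) :
    ‖a n * (n : ℂ) ^ 3‖ ^ 2 * Real.exp (-(2 * Real.pi * n * Y)) =
      ‖a n‖ ^ 2 * (n : ℝ) ^ 6 * Real.exp (-(2 * Real.pi * n * Y)) := by
  rw [norm_mul, norm_pow, Complex.norm_natCast]; ring

/-- sums of `phi ^ 2` over the points -/
theorem low_sum (K : ℝ) (hK : 0 < K) (Csp : ℝ)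
    (hsp : ∀ (b : ℕ → ℂ) (Y : ℝ), 0 < Y → K * Y ≤ 1 →
      Summable (fun n : ℕ => ‖b n‖ * Real.exp (-(Real.pi * n * Y))) →
      ∀ (P : Finset (ℕ × ℕ)) (x y : ℕ × ℕ → ℝ), (∀ i ∈ P, Y ≤ y i ∧ y i ≤ K * Y) →
      (∀ i ∈ P, ∀ j ∈ P, i ≠ j → ∀ m : ℤ, Y ≤ |x i - x j - m|) →
      ∑ i ∈ P, ‖∑' n : ℕ, b n * cexp (2 * (Real.pi : ℂ) * I * n * (x i + y i * I))‖ ^ 2 ≤
        Csp / Y * ∑' n : ℕ, ‖b n‖ ^ 2 * Real.exp (-(2 * Real.pi * n * Y)))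
    (a : ℕ → ℂ) (C : ℝ) (hC : ∀ n : ℕ, 1 ≤ n → ‖a n‖ ≤ C * (n : ℝ) ^ (1 : ℝ))
    (Y : ℝ) (hY : 0 < Y) (hKY : K * Y ≤ 1) (P : Finset (ℕ × ℕ)) (z : ℕ × ℕ → ℂ)
    (hz : ∀ i ∈ P, Y ≤ (z i).im ∧ (z i).im ≤ K * Y)
    (hsep : ∀ i ∈ P, ∀ j ∈ P, i ≠ j → ∀ m : ℤ, Y ≤ |(z i).re - (z j).re - m|) :
    ∑ i ∈ P, phi a (z i) ^ 2 ≤ (K * Y) ^ 7 * (Csp / Y *
      ∑' n : ℕ, ‖a n‖ ^ 2 * (n : ℝ) ^ 6 * Real.exp (-(2 * Real.pi * n * Y))) := by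
  have h1 := hsp (fun n => a n * (n : ℂ) ^ 3) Y hY hKY (low_summable a C hC Y hY) P
    (fun i => (z i).re) (fun i => (z i).im) hz hsep
  simp only [low_term] at h1
  refine le_trans ?_ (mul_le_mul_of_nonneg_left h1 (by positivity))
  rw [Finset.mul_sum]
  refine Finset.sum_le_sum (fun i hi => ?_)
  have him : 0 ≤ (z i).im := hY.le.trans (hz i hi).1
  rw [phi_sq a (z i) him, gs_eq_e]
  refine mul_le_mul_of_nonneg_right ?_ (by positivity)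
  exact pow_le_pow_left₀ him (hz i hi).2 7

theorem low_energy (q : ℕ) (hq : q = 1 ∨ q = 2 ∨ q = 3) (a : ℕ → ℂ)
    (ha : ∃ C : ℝ, ∀ n : ℕ, 1 ≤ n → ‖a n‖ ≤ C * (n : ℝ) ^ (1 : ℝ))
    (hΨ : Approx (q : ℝ) (Psi a)) (v : ℝ) (hv : 10 ^ 4 ≤ v) (hpos : 0 < Psi a (v * I)) :
    ∃ c Y0 : ℝ, 0 < c ∧ 0 < Y0 ∧ ∀ Y : ℝ, 0 < Y → Y ≤ Y0 →
      c ≤ Y ^ 7 * ∑' n : ℕ, ‖a n‖ ^ 2 * (n : ℝ) ^ 6 * Real.exp (-(2 * Real.pi * n * Y)) := by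
  obtain ⟨C, hC⟩ := ha
  have hC' : ∀ n : ℕ, 1 ≤ n → ‖cj a n‖ ≤ C * (n : ℝ) ^ (1 : ℝ) := by
    intro n hn
    unfold cj
    rw [RCLike.norm_conj]
    exact hC n hn
  have hv0 : 0 < v := by linarith [show (0 : ℝ) < 10 ^ 4 by norm_num]
  have hv2 : 2 ≤ v := by linarith [show (2 : ℝ) ≤ 10 ^ 4 by norm_num]
  have hq1 : 1 ≤ q := by rcases hq with h | h | h <;> omega
  have hqR : (0 : ℝ) < q := by exact_mod_cast hq1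
  obtain ⟨n0, hn0⟩ := orbit_lower q hq (Psi a) hΨ v hv hpos
  obtain ⟨c0, hc0, M0, hM0⟩ := count_pairs q hq
  set n : ℕ := max n0 64 with hn
  have hn64 : (64 : ℝ) ≤ n := by exact_mod_cast le_max_right n0 64
  have hnpos : (0 : ℝ) < n := by linarith
  set κ1 : ℝ := v / ((q : ℝ) ^ 2 * (v ^ 2 + ((n : ℝ) + 1) ^ 2)) with hκ1
  set κ2 : ℝ := 16 * v / ((q : ℝ) ^ 2 * (v ^ 2 + (n : ℝ) ^ 2)) with hκ2
  have hκ1p : 0 < κ1 := by positivity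
  have hκ2p : 0 < κ2 := by positivity
  set K : ℝ := 4 * κ2 / κ1 with hK
  have hKp : 0 < K := by positivity
  obtain ⟨Csp, hCsp, hsp⟩ := spaced_points K
  set δ : ℝ := Psi a (v * I) with hδ
  refine ⟨c0 * κ1 * δ ^ 2 / (64 * K ^ 7 * Csp), min (κ1 / ((M0 : ℝ) + 2) ^ 2) (1 / K),
    by positivity, by positivity, ?_⟩
  intro Y hY hYle
  have hY1 : Y ≤ κ1 / ((M0 : ℝ) + 2) ^ 2 := hYle.trans (min_le_left _ _)
  have hKY : K * Y ≤ 1 := by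
    have := hYle.trans (min_le_right _ _)
    rw [le_div_iff₀ hKp] at this
    linarith
  -- the number `M`
  set x : ℝ := Real.sqrt (κ1 / Y) with hx
  have hxsq : x ^ 2 = κ1 / Y := Real.sq_sqrt (by positivity)
  have hxM0 : (M0 : ℝ) + 2 ≤ x := by
    rw [hx]
    refine Real.le_sqrt_of_sq_le ?_
    rw [le_div_iff₀ hY]
    rw [le_div_iff₀ (by positivity)] at hY1
    linarith
  set M : ℕ := ⌊x⌋₊ with hM
  have hx0 : 0 ≤ x := Real.sqrt_nonneg _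
  have hMle : (M : ℝ) ≤ x := Nat.floor_le hx0
  have hMlt : x < M + 1 := Nat.lt_floor_add_one x
  have hMM0 : M0 ≤ M := by
    have : (M0 : ℝ) < M := by linarith
    exact_mod_cast this.le
  have hMhalf : x / 2 ≤ M := by
    have : (0 : ℝ) ≤ M0 := Nat.cast_nonneg _
    linarith
  have hMpos : (0 : ℝ) < M := by
    have : (0 : ℝ) ≤ M0 := Nat.cast_nonneg _
    linarith
  have hM2 : (M : ℝ) ^ 2 * Y ≤ κ1 := by
    have h1 : (M : ℝ) ^ 2 ≤ κ1 / Y := by rw [← hxsq]; exact pow_le_pow_left₀ hMpos.le hMle 2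
    rwa [le_div_iff₀ hY] at h1
  have hM3 : κ1 ≤ 4 * ((M : ℝ) ^ 2 * Y) := by
    have h1 : κ1 / Y ≤ 4 * (M : ℝ) ^ 2 := by
      rw [← hxsq]; nlinarith
    rw [div_le_iff₀ hY] at h1
    linarith
  obtain ⟨P, hPcard, hP⟩ := hM0 M hMM0
  -- the matrices
  have hex : ∀ p : ℕ × ℕ, ∃ b d : ℤ, p ∈ P →
      ((p.1 : ℤ) * d - b * ((q * p.2 : ℕ) : ℤ) = 1 ∧
        -((n : ℤ) + 1) * ((q * p.2 : ℕ) : ℤ) ≤ d ∧ d ≤ -(n : ℤ) * ((q * p.2 : ℕ) : ℤ)) := by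
    intro p
    by_cases hp : p ∈ P
    · obtain ⟨h1, h2, h3, h4, h5⟩ := hP p hp
      obtain ⟨b, d, h6⟩ := exists_bd p.1 (q * p.2) (by nlinarith) h5 n
      exact ⟨b, d, fun _ => h6⟩
    · exact ⟨0, 0, fun h => absurd h hp⟩
  choose bf df hbd using hex
  set z : ℕ × ℕ → ℂ := fun p => ((((p.1 : ℕ) : ℤ) : ℂ) * (v * I) + (bf p : ℂ)) /
    ((((q * p.2 : ℕ) : ℤ) : ℂ) * (v * I) + (df p : ℂ)) with hz
  have hcpos : ∀ p ∈ P, (0 : ℤ) < ((q * p.2 : ℕ) : ℤ) := by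
    intro p hp
    obtain ⟨h1, h2, h3, h4, h5⟩ := hP p hp
    have : 0 < q * p.2 := by nlinarith
    exact_mod_cast this
  have hcR : ∀ p ∈ P, (0 : ℝ) < (q : ℝ) * p.2 := by
    intro p hp
    have := hcpos p hp
    have h2 : (0 : ℝ) < ((q * p.2 : ℕ) : ℝ) := by exact_mod_cast this
    push_cast at h2; exact h2
  have hpt : ∀ p ∈ P,
      v / (((q : ℝ) * p.2) ^ 2 * (v ^ 2 + ((n : ℝ) + 1) ^ 2)) ≤ (z p).im ∧
      (z p).im ≤ v / (((q : ℝ) * p.2) ^ 2 * (v ^ 2 + (n : ℝ) ^ 2)) ∧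
      |(z p).re - (p.1 : ℝ) / ((q : ℝ) * p.2)| ≤ 1 / ((n : ℝ) * ((q : ℝ) * p.2) ^ 2) := by
    intro p hp
    obtain ⟨h1, h2, h3⟩ := hbd p hp
    have h4 := orbit_point v hv0 (p.1 : ℤ) (bf p) ((q * p.2 : ℕ) : ℤ) (df p) h1 (hcpos p hp) n
      (by omega) h2 h3
    have e1 : ((((q * p.2 : ℕ) : ℤ)) : ℝ) = (q : ℝ) * p.2 := by push_cast; ring
    have e2 : (((p.1 : ℕ) : ℤ) : ℝ) = (p.1 : ℝ) := by push_cast; ring
    rw [e1, e2] at h4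
    exact h4
  have hlow : ∀ p ∈ P, δ / 2 ≤ Psi a (z p) := by
    intro p hp
    obtain ⟨h1, h2, h3⟩ := hbd p hp
    exact hn0 n (le_max_left _ _) (p.1 : ℤ) (bf p) ((q * p.2 : ℕ) : ℤ) (df p) h1
      ⟨(p.2 : ℤ), by push_cast; ring⟩ (hcpos p hp) h2 h3
  have hM2pos : (0 : ℝ) < (M : ℝ) ^ 2 := by positivity
  -- heights
  have hzim : ∀ p ∈ P, Y ≤ (z p).im ∧ (z p).im ≤ K * Y := by
    intro p hp
    obtain ⟨h1, h2, h3, h4, h5⟩ := hP p hp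
    obtain ⟨g1, g2, g3⟩ := hpt p hp
    have hc := hcR p hp
    have hp2 : (p.2 : ℝ) ≤ M := by exact_mod_cast h2
    have hp4 : (M : ℝ) ≤ 4 * p.2 := by exact_mod_cast h1
    have hp2pos : (0 : ℝ) < p.2 := by nlinarith
    constructor
    · refine le_trans ?_ g1
      rw [le_div_iff₀ (by positivity)]
      have e1 : ((q : ℝ) * p.2) ^ 2 ≤ (q : ℝ) ^ 2 * (M : ℝ) ^ 2 := by
        rw [mul_pow]
        exact mul_le_mul_of_nonneg_left (pow_le_pow_left₀ hp2pos.le hp2 2) (by positivity)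
      have e2 : κ1 * ((q : ℝ) ^ 2 * (v ^ 2 + ((n : ℝ) + 1) ^ 2)) = v := by
        rw [hκ1]; field_simp
      have e3 : 0 < v ^ 2 + ((n : ℝ) + 1) ^ 2 := by positivity
      calc Y * (((q : ℝ) * p.2) ^ 2 * (v ^ 2 + ((n : ℝ) + 1) ^ 2))
          ≤ Y * ((q : ℝ) ^ 2 * (M : ℝ) ^ 2 * (v ^ 2 + ((n : ℝ) + 1) ^ 2)) := by gcongr
        _ = ((M : ℝ) ^ 2 * Y) * ((q : ℝ) ^ 2 * (v ^ 2 + ((n : ℝ) + 1) ^ 2)) := by ring
        _ ≤ κ1 * ((q : ℝ) ^ 2 * (v ^ 2 + ((n : ℝ) + 1) ^ 2)) := by gcongr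
        _ = v := e2
    · refine g2.trans ?_
      rw [div_le_iff₀ (by positivity)]
      have e1 : (q : ℝ) ^ 2 * (M : ℝ) ^ 2 ≤ 16 * ((q : ℝ) * p.2) ^ 2 := by
        have : (M : ℝ) ^ 2 ≤ (4 * p.2) ^ 2 := pow_le_pow_left₀ hMpos.le hp4 2
        calc (q : ℝ) ^ 2 * (M : ℝ) ^ 2 ≤ (q : ℝ) ^ 2 * (4 * p.2) ^ 2 := by gcongr
          _ = 16 * ((q : ℝ) * p.2) ^ 2 := by ring
      have e2 : κ2 * ((q : ℝ) ^ 2 * (v ^ 2 + (n : ℝ) ^ 2)) = 16 * v := by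
        rw [hκ2]; field_simp
      have e3 : κ1 * K = 4 * κ2 := by rw [hK]; field_simp
      have e4 : 4 * κ2 ≤ 4 * ((M : ℝ) ^ 2 * Y) * K := by
        rw [← e3]; exact mul_le_mul_of_nonneg_right hM3 hKp.le
      have e5 : 0 < v ^ 2 + (n : ℝ) ^ 2 := by positivity
      have e6 : 16 * v ≤ (M : ℝ) ^ 2 * Y * K * ((q : ℝ) ^ 2 * (v ^ 2 + (n : ℝ) ^ 2)) := by
        rw [← e2]; gcongr; linarith
      have e7 : (M : ℝ) ^ 2 * Y * K * ((q : ℝ) ^ 2 * (v ^ 2 + (n : ℝ) ^ 2)) ≤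
          16 * (K * Y * (((q : ℝ) * p.2) ^ 2 * (v ^ 2 + (n : ℝ) ^ 2))) := by
        calc (M : ℝ) ^ 2 * Y * K * ((q : ℝ) ^ 2 * (v ^ 2 + (n : ℝ) ^ 2))
            = K * Y * (((q : ℝ) ^ 2 * (M : ℝ) ^ 2) * (v ^ 2 + (n : ℝ) ^ 2)) := by ring
          _ ≤ K * Y * ((16 * ((q : ℝ) * p.2) ^ 2) * (v ^ 2 + (n : ℝ) ^ 2)) := by gcongr
          _ = 16 * (K * Y * (((q : ℝ) * p.2) ^ 2 * (v ^ 2 + (n : ℝ) ^ 2))) := by ring
      linarith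
  -- distance to the fraction
  have hdist : ∀ p ∈ P, |(z p).re - (p.1 : ℝ) / ((q : ℝ) * p.2)| ≤
      1 / (4 * ((q : ℝ) ^ 2 * (M : ℝ) ^ 2)) := by
    intro p hp
    obtain ⟨h1, h2, h3, h4, h5⟩ := hP p hp
    obtain ⟨g1, g2, g3⟩ := hpt p hp
    have hc := hcR p hp
    have hp4 : (M : ℝ) ≤ 4 * p.2 := by exact_mod_cast h1
    refine g3.trans ?_
    refine one_div_le_one_div_of_le (by positivity) ?_
    have e1 : (q : ℝ) ^ 2 * (M : ℝ) ^ 2 ≤ 16 * ((q : ℝ) * p.2) ^ 2 := by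
      have : (M : ℝ) ^ 2 ≤ (4 * p.2) ^ 2 := pow_le_pow_left₀ hMpos.le hp4 2
      calc (q : ℝ) ^ 2 * (M : ℝ) ^ 2 ≤ (q : ℝ) ^ 2 * (4 * p.2) ^ 2 := by gcongr
        _ = 16 * ((q : ℝ) * p.2) ^ 2 := by ring
    calc 4 * ((q : ℝ) ^ 2 * (M : ℝ) ^ 2) ≤ 4 * (16 * ((q : ℝ) * p.2) ^ 2) := by gcongr
      _ = 64 * ((q : ℝ) * p.2) ^ 2 := by ring
      _ ≤ (n : ℝ) * ((q : ℝ) * p.2) ^ 2 := by gcongr
  -- spacing
  have hsep : ∀ i ∈ P, ∀ j ∈ P, i ≠ j → ∀ m : ℤ, Y ≤ |(z i).re - (z j).re - m| := by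
    intro i hi j hj hij m
    obtain ⟨i1, i2, i3, i4, i5⟩ := hP i hi
    obtain ⟨j1, j2, j3, j4, j5⟩ := hP j hj
    have hci := hcR i hi
    have hcj := hcR j hj
    have hfs := frac_spacing i.1 (q * i.2) j.1 (q * j.2) i5 j5 i3 (by nlinarith) j3
      (by nlinarith) (by
        rintro ⟨e1, e2⟩
        apply hij
        have e3 : i.2 = j.2 := Nat.eq_of_mul_eq_mul_left (by omega) e2
        exact Prod.ext e1 e3) m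
    push_cast at hfs
    have di := abs_le.mp (hdist i hi)
    have dj := abs_le.mp (hdist j hj)
    have hii : (i.2 : ℝ) ≤ M := by exact_mod_cast i2
    have hjj : (j.2 : ℝ) ≤ M := by exact_mod_cast j2
    have e1 : 1 / ((q : ℝ) ^ 2 * (M : ℝ) ^ 2) ≤ 1 / ((q : ℝ) * i.2 * ((q : ℝ) * j.2)) := by
      refine one_div_le_one_div_of_le (by positivity) ?_
      calc (q : ℝ) * i.2 * ((q : ℝ) * j.2) ≤ (q : ℝ) * M * ((q : ℝ) * M) := by gcongr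
        _ = (q : ℝ) ^ 2 * (M : ℝ) ^ 2 := by ring
    have e2 : Y ≤ 1 / (2 * ((q : ℝ) ^ 2 * (M : ℝ) ^ 2)) := by
      rw [le_div_iff₀ (by positivity)]
      have e3 : κ1 * (2 * (q : ℝ) ^ 2) ≤ 1 := by
        rw [hκ1, div_mul_eq_mul_div, div_le_one (by positivity)]
        have : 2 * v ≤ v ^ 2 + ((n : ℝ) + 1) ^ 2 := by nlinarith
        calc v * (2 * (q : ℝ) ^ 2) = (q : ℝ) ^ 2 * (2 * v) := by ring
          _ ≤ (q : ℝ) ^ 2 * (v ^ 2 + ((n : ℝ) + 1) ^ 2) := by gcongr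
      calc Y * (2 * ((q : ℝ) ^ 2 * (M : ℝ) ^ 2)) = ((M : ℝ) ^ 2 * Y) * (2 * (q : ℝ) ^ 2) := by ring
        _ ≤ κ1 * (2 * (q : ℝ) ^ 2) := by gcongr
        _ ≤ 1 := e3
    have e4 : 1 / (2 * ((q : ℝ) ^ 2 * (M : ℝ) ^ 2)) =
        1 / ((q : ℝ) ^ 2 * (M : ℝ) ^ 2) - 2 * (1 / (4 * ((q : ℝ) ^ 2 * (M : ℝ) ^ 2))) := by
      field_simp; norm_num
    have e5 : |(i.1 : ℝ) / ((q : ℝ) * i.2) - (j.1 : ℝ) / ((q : ℝ) * j.2) - m| ≤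
        |(z i).re - (z j).re - m| + 2 * (1 / (4 * ((q : ℝ) ^ 2 * (M : ℝ) ^ 2))) := by
      have e6 : (i.1 : ℝ) / ((q : ℝ) * i.2) - (j.1 : ℝ) / ((q : ℝ) * j.2) - m =
          ((z i).re - (z j).re - m) + (((z j).re - (j.1 : ℝ) / ((q : ℝ) * j.2)) -
            ((z i).re - (i.1 : ℝ) / ((q : ℝ) * i.2))) := by ring
      rw [e6]
      refine (abs_add_le _ _).trans ?_
      gcongr
      rw [abs_le]
      constructor <;> linarith [di.1, di.2, dj.1, dj.2]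
    linarith
  -- energies
  set T : ℝ := ∑' n : ℕ, ‖a n‖ ^ 2 * (n : ℝ) ^ 6 * Real.exp (-(2 * Real.pi * n * Y)) with hT
  have hs1 := low_sum K hKp Csp hsp a C hC Y hY hKY P z hzim hsep
  have hs2 := low_sum K hKp Csp hsp (cj a) C hC' Y hY hKY P z hzim hsep
  have hT2 : ∑' n : ℕ, ‖cj a n‖ ^ 2 * (n : ℝ) ^ 6 * Real.exp (-(2 * Real.pi * n * Y)) = T := by
    rw [hT]
    refine tsum_congr (fun n => ?_)
    unfold cj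
    rw [RCLike.norm_conj]
  rw [hT2] at hs2
  have hδpos : 0 < δ := hpos
  have hlow2 : ∀ p ∈ P, δ ^ 2 / 8 ≤ phi a (z p) ^ 2 + phi (cj a) (z p) ^ 2 := by
    intro p hp
    have h1 := hlow p hp
    unfold Psi at h1
    nlinarith [sq_nonneg (phi a (z p) - phi (cj a) (z p)), h1, hδpos]
  have hsum : (P.card : ℝ) * (δ ^ 2 / 8) ≤
      ∑ p ∈ P, phi a (z p) ^ 2 + ∑ p ∈ P, phi (cj a) (z p) ^ 2 := by
    rw [← Finset.sum_add_distrib, ← nsmul_eq_mul, ← Finset.sum_const]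
    exact Finset.sum_le_sum hlow2
  have hfin : c0 * (M : ℝ) ^ 2 * (δ ^ 2 / 8) ≤ 2 * ((K * Y) ^ 7 * (Csp / Y * T)) := by
    have : c0 * (M : ℝ) ^ 2 * (δ ^ 2 / 8) ≤ (P.card : ℝ) * (δ ^ 2 / 8) := by gcongr
    linarith
  rw [div_le_iff₀ (by positivity)]
  have h7 : c0 * κ1 * δ ^ 2 ≤ 4 * (c0 * ((M : ℝ) ^ 2 * Y) * δ ^ 2) := by
    have : c0 * κ1 * δ ^ 2 ≤ c0 * (4 * ((M : ℝ) ^ 2 * Y)) * δ ^ 2 := by gcongr
    linarith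
  have h8 : c0 * ((M : ℝ) ^ 2 * Y) * δ ^ 2 ≤ 16 * (Y ^ 7 * T * (K ^ 7 * Csp)) := by
    have h9 := mul_le_mul_of_nonneg_left hfin (show 0 ≤ 8 * Y by positivity)
    have e1 : 8 * Y * (c0 * (M : ℝ) ^ 2 * (δ ^ 2 / 8)) = c0 * ((M : ℝ) ^ 2 * Y) * δ ^ 2 := by ring
    have e2 : 8 * Y * (2 * ((K * Y) ^ 7 * (Csp / Y * T))) = 16 * (Y ^ 7 * T * (K ^ 7 * Csp)) := by
      field_simp
      ring
    rw [e1, e2] at h9
    exact h9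
  calc c0 * κ1 * δ ^ 2 ≤ 4 * (c0 * ((M : ℝ) ^ 2 * Y) * δ ^ 2) := h7
    _ ≤ 4 * (16 * (Y ^ 7 * T * (K ^ 7 * Csp))) := by gcongr
    _ = Y ^ 7 * T * (64 * K ^ 7 * Csp) := by ring

end Pool.Agent.H11.SC
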