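import Mathlib

/-!
# LOW2: from the energy to the sums `A(N) = ∑_{n ≤ N} ‖a n‖²`

`A(N) ≤ C N` for `N ≥ 1` (so `‖a n‖² ≤ C n`, everything converges).  Let `Y = τ/N`, `τ ≥ 1` large.
Tail: `Y^7 ∑_{n > N} ‖a n‖² n^6 e^(-2πnY) ≤ Y^7 ∑_{j ≥ 0} A(2^(j+1) N) (2^(j+1) N)^6 e^(-2π 2^j τ)
≤ C ∑_j 2^(7(j+1)) τ^7 e^(-2π 2^j τ) ≤ C ∑_j (2^(j+1) τ)^7 e^(-π 2^(j+1) τ)`, and
`u^7 e^(-πu) ≤ K/u²`, hence `≤ C K τ^(-2) ∑ 4^(-(j+1)) ≤ C K τ^(-2)`, which is `≤ c/2` for `τ` large.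
(Or: `u^9 e^(-πu) ≤ K`; or avoid dyadic blocks by Abel summation.)
Main part: `Y^7 ∑_{n ≤ N} ‖a n‖² n^6 e^(-2πnY) ≤ Y A(N) sup_u (u^6 e^(-2πu)) ≤ (τ/N) A(N) K'`.
So for `τ/N ≤ Y0`: `c/2 ≤ (τ/N) K' A(N)`.
-/

set_option autoImplicit false

namespace Pool.Agent.H11.SC

/-- Abel summation for the tail -/
private theorem tail_sum (b : ℕ → ℝ) (C : ℝ) (hb : ∀ n, 0 ≤ b n)
    (hup : ∀ N : ℕ, 1 ≤ N → ∑ n ∈ Finset.Icc 1 N, b n ≤ C * N) (N : ℕ) (hN : 1 ≤ N) (M : ℕ)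
    (hM : N ≤ M) : ∑ n ∈ Finset.Ioc N M, b n / (n : ℝ) ^ 3 ≤ 5 / 2 * C / (N : ℝ) ^ 2 := by
  have hN0 : (0 : ℝ) < N := by exact_mod_cast hN
  have hC0 : 0 ≤ C := by
    have h1 := hup 1 le_rfl
    have h2 : 0 ≤ ∑ n ∈ Finset.Icc 1 1, b n := Finset.sum_nonneg fun n _ => hb n
    have h3 := h2.trans h1
    simpa using h3
  set A : ℕ → ℝ := fun M => ∑ n ∈ Finset.Icc 1 M, b n with hA
  have hA0 : ∀ M, 0 ≤ A M := fun M => Finset.sum_nonneg fun n _ => hb n
  -- the invariant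
  have key : ∀ M, N ≤ M → ∑ n ∈ Finset.Ioc N M, b n / (n : ℝ) ^ 3 ≤
      A M / ((M : ℝ) + 1) ^ 3 + 3 / 2 * C * (1 / (N : ℝ) ^ 2 - 1 / (M : ℝ) ^ 2) := by
    intro M hM
    induction M, hM using Nat.le_induction with
    | base =>
      simp only [Finset.Ioc_self, Finset.sum_empty, sub_self, mul_zero, add_zero]
      exact div_nonneg (hA0 N) (by positivity)
    | succ M hM ih =>
      have hM0 : (0 : ℝ) < M := lt_of_lt_of_le hN0 (by exact_mod_cast hM)
      have hstep : ∑ n ∈ Finset.Ioc N (M + 1), b n / (n : ℝ) ^ 3 =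
          ∑ n ∈ Finset.Ioc N M, b n / (n : ℝ) ^ 3 + b (M + 1) / ((M + 1 : ℕ) : ℝ) ^ 3 := by
        rw [Finset.sum_Ioc_succ_top hM]
      have hAs : A (M + 1) = A M + b (M + 1) := by
        simp only [hA]
        rw [Finset.sum_Icc_succ_top (by omega)]
      have hb1 : b (M + 1) = A (M + 1) - A M := by linarith
      have hAu : A (M + 1) ≤ C * (M + 1) := by
        have := hup (M + 1) (by omega)
        push_cast at this
        exact this
      rw [hstep, hb1]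
      push_cast
      set m : ℝ := (M : ℝ) with hm
      -- arithmetic
      have h1 : 0 ≤ 1 / (m + 1) ^ 3 - 1 / (m + 1 + 1) ^ 3 := by
        rw [sub_nonneg]
        apply one_div_le_one_div_of_le (by positivity)
        exact pow_le_pow_left₀ (by positivity) (by linarith) 3
      have h2 : (m + 1) * (1 / (m + 1) ^ 3 - 1 / (m + 1 + 1) ^ 3) ≤
          3 / 2 * (1 / m ^ 2 - 1 / (m + 1) ^ 2) := by
        have e1 : (m + 1) * (1 / (m + 1) ^ 3 - 1 / (m + 1 + 1) ^ 3) =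
            (3 * m ^ 2 + 9 * m + 7) / ((m + 1) ^ 2 * (m + 2) ^ 3) := by
          have : m + 1 + 1 = m + 2 := by ring
          rw [this]
          field_simp
          ring
        have e2 : 3 / 2 * (1 / m ^ 2 - 1 / (m + 1) ^ 2) =
            3 * (2 * m + 1) / (2 * m ^ 2 * (m + 1) ^ 2) := by
          field_simp
          ring
        rw [e1, e2, div_le_div_iff₀ (by positivity) (by positivity)]
        have e3 : 0 ≤ (m + 1) ^ 2 := by positivity
        have e4 : (3 * m ^ 2 + 9 * m + 7) * (2 * m ^ 2) ≤ 3 * (2 * m + 1) * (m + 2) ^ 3 := by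
          nlinarith [pow_pos hM0 2, pow_pos hM0 3, pow_pos hM0 4]
        calc (3 * m ^ 2 + 9 * m + 7) * (2 * m ^ 2 * (m + 1) ^ 2)
            = ((3 * m ^ 2 + 9 * m + 7) * (2 * m ^ 2)) * (m + 1) ^ 2 := by ring
          _ ≤ (3 * (2 * m + 1) * (m + 2) ^ 3) * (m + 1) ^ 2 := mul_le_mul_of_nonneg_right e4 e3
          _ = 3 * (2 * m + 1) * ((m + 1) ^ 2 * (m + 2) ^ 3) := by ring
      have h3 : A (M + 1) * (1 / (m + 1) ^ 3 - 1 / (m + 1 + 1) ^ 3) ≤
          C * (3 / 2 * (1 / m ^ 2 - 1 / (m + 1) ^ 2)) := by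
        calc A (M + 1) * (1 / (m + 1) ^ 3 - 1 / (m + 1 + 1) ^ 3)
            ≤ (C * (m + 1)) * (1 / (m + 1) ^ 3 - 1 / (m + 1 + 1) ^ 3) :=
              mul_le_mul_of_nonneg_right hAu h1
          _ = C * ((m + 1) * (1 / (m + 1) ^ 3 - 1 / (m + 1 + 1) ^ 3)) := by ring
          _ ≤ _ := mul_le_mul_of_nonneg_left h2 hC0
      have h4 : A M / (m + 1) ^ 3 + (A (M + 1) - A M) / (m + 1) ^ 3 =
          A (M + 1) * (1 / (m + 1) ^ 3 - 1 / (m + 1 + 1) ^ 3) + A (M + 1) / (m + 1 + 1) ^ 3 := by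
        ring
      have h5 := ih
      linarith
  have hM0 : (0 : ℝ) < M := lt_of_lt_of_le hN0 (by exact_mod_cast hM)
  have hNM : (N : ℝ) ≤ M := by exact_mod_cast hM
  refine (key M hM).trans ?_
  have h1 : A M / ((M : ℝ) + 1) ^ 3 ≤ C / (N : ℝ) ^ 2 := by
    have h2 : A M ≤ C * M := hup M (by omega)
    calc A M / ((M : ℝ) + 1) ^ 3 ≤ C * M / (M : ℝ) ^ 3 := by
          refine div_le_div₀ (by positivity) h2 (by positivity) ?_
          exact pow_le_pow_left₀ hM0.le (by linarith) 3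
      _ = C / (M : ℝ) ^ 2 := by
          field_simp
      _ ≤ C / (N : ℝ) ^ 2 :=
          div_le_div_of_nonneg_left hC0 (by positivity) (pow_le_pow_left₀ hN0.le hNM 2)
  have h3 : 0 ≤ 3 / 2 * C * (1 / (M : ℝ) ^ 2) := by positivity
  have h4 : 5 / 2 * C / (N : ℝ) ^ 2 = C / (N : ℝ) ^ 2 + 3 / 2 * C * (1 / (N : ℝ) ^ 2) := by ring
  rw [h4, mul_sub]
  linarith

/-- `u ^ k * exp (-2πu) ≤ k!` -/
private theorem pow_mul_exp_le (k : ℕ) (u : ℝ) (hu : 0 ≤ u) :
    u ^ k * Real.exp (-(2 * Real.pi * u)) ≤ k.factorial := by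
  have h1 := Real.pow_div_factorial_le_exp u hu k
  rw [div_le_iff₀ (by positivity)] at h1
  have h2 : Real.exp (-(2 * Real.pi * u)) ≤ Real.exp (-u) := by
    apply Real.exp_le_exp.2
    have := Real.pi_gt_three
    nlinarith
  calc u ^ k * Real.exp (-(2 * Real.pi * u)) ≤ (Real.exp u * k.factorial) * Real.exp (-u) :=
        mul_le_mul h1 h2 (Real.exp_pos _).le (by positivity)
    _ = k.factorial * (Real.exp u * Real.exp (-u)) := by ring
    _ = k.factorial := by rw [← Real.exp_add, add_neg_cancel, Real.exp_zero, mul_one]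

theorem sum_lower (a : ℕ → ℂ) (C : ℝ)
    (hup : ∀ N : ℕ, 1 ≤ N → ∑ n ∈ Finset.Icc 1 N, ‖a n‖ ^ 2 ≤ C * N) (c Y0 : ℝ) (hc : 0 < c)
    (hY0 : 0 < Y0) (hlow : ∀ Y : ℝ, 0 < Y → Y ≤ Y0 →
      c ≤ Y ^ 7 * ∑' n : ℕ, ‖a n‖ ^ 2 * (n : ℝ) ^ 6 * Real.exp (-(2 * Real.pi * n * Y))) :
    ∃ c' : ℝ, 0 < c' ∧ ∃ N0 : ℕ, ∀ N : ℕ, N0 ≤ N →
      c' * N ≤ ∑ n ∈ Finset.Icc 1 N, ‖a n‖ ^ 2 := by
  set b : ℕ → ℝ := fun n => ‖a n‖ ^ 2 with hb
  have hb0 : ∀ n, 0 ≤ b n := fun n => by positivity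
  have hC0 : 0 ≤ C := by
    have h1 := hup 1 le_rfl
    have h2 : 0 ≤ ∑ n ∈ Finset.Icc 1 1, b n := Finset.sum_nonneg fun n _ => hb0 n
    have h3 := h2.trans h1
    simpa using h3
  -- the upper bound for the energy
  have main : ∀ N : ℕ, 1 ≤ N → ∀ Y : ℝ, 0 < Y →
      Y ^ 7 * ∑' n : ℕ, b n * (n : ℝ) ^ 6 * Real.exp (-(2 * Real.pi * n * Y)) ≤
        720 * Y * ∑ n ∈ Finset.Icc 1 N, b n + 362880 * (5 / 2 * C) / (N * Y) ^ 2 := by
    intro N hN Y hY
    have hN0 : (0 : ℝ) < N := by exact_mod_cast hN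
    set f : ℕ → ℝ := fun n => b n * (n : ℝ) ^ 6 * Real.exp (-(2 * Real.pi * n * Y)) with hf
    have hf0 : ∀ n, 0 ≤ f n := fun n =>
      mul_nonneg (mul_nonneg (hb0 n) (by positivity)) (Real.exp_pos _).le
    have hhead : ∀ n, 1 ≤ n → f n ≤ 720 / Y ^ 6 * b n := by
      intro n hn
      have h1 := pow_mul_exp_le 6 (n * Y) (by positivity)
      have h2 : f n = b n * (((n : ℝ) * Y) ^ 6 * Real.exp (-(2 * Real.pi * (n * Y)))) / Y ^ 6 := by
        rw [hf]
        simp only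
        have : -(2 * Real.pi * (n : ℝ) * Y) = -(2 * Real.pi * (n * Y)) := by ring
        rw [this]
        field_simp
      rw [h2]
      have h3 : (((6 : ℕ).factorial : ℕ) : ℝ) = 720 := by norm_num [Nat.factorial]
      rw [h3] at h1
      rw [div_le_iff₀ (by positivity)]
      calc b n * (((n : ℝ) * Y) ^ 6 * Real.exp (-(2 * Real.pi * (n * Y)))) ≤ b n * 720 :=
            mul_le_mul_of_nonneg_left h1 (hb0 n)
        _ = 720 / Y ^ 6 * b n * Y ^ 6 := by
            field_simp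
    have htail : ∀ n, 1 ≤ n → f n ≤ 362880 / Y ^ 9 * (b n / (n : ℝ) ^ 3) := by
      intro n hn
      have hn0 : (0 : ℝ) < n := by exact_mod_cast hn
      have h1 := pow_mul_exp_le 9 (n * Y) (by positivity)
      have h2 : f n = b n * (((n : ℝ) * Y) ^ 9 * Real.exp (-(2 * Real.pi * (n * Y)))) /
          (Y ^ 9 * (n : ℝ) ^ 3) := by
        rw [hf]
        simp only
        have : -(2 * Real.pi * (n : ℝ) * Y) = -(2 * Real.pi * (n * Y)) := by ring
        rw [this]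
        field_simp
      rw [h2]
      have h3 : (((9 : ℕ).factorial : ℕ) : ℝ) = 362880 := by norm_num [Nat.factorial]
      rw [h3] at h1
      rw [div_le_iff₀ (by positivity)]
      calc b n * (((n : ℝ) * Y) ^ 9 * Real.exp (-(2 * Real.pi * (n * Y)))) ≤ b n * 362880 :=
            mul_le_mul_of_nonneg_left h1 (hb0 n)
        _ = 362880 / Y ^ 9 * (b n / (n : ℝ) ^ 3) * (Y ^ 9 * (n : ℝ) ^ 3) := by
            field_simp
    have hsum : ∑' n : ℕ, f n ≤ 720 / Y ^ 6 * ∑ n ∈ Finset.Icc 1 N, b n +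
        362880 / Y ^ 9 * (5 / 2 * C / (N : ℝ) ^ 2) := by
      refine Real.tsum_le_of_sum_range_le hf0 (fun k => ?_)
      have h1 : ∑ i ∈ Finset.range k, f i ≤
          ∑ n ∈ Finset.Icc 1 N, f n + ∑ n ∈ Finset.Ioc N (max N k), f n := by
        have hdisj : Disjoint (Finset.Icc 1 N) (Finset.Ioc N (max N k)) := by
          rw [Finset.disjoint_left]
          intro n hn hn'
          simp only [Finset.mem_Icc, Finset.mem_Ioc] at hn hn'
          omega
        rw [← Finset.sum_union hdisj]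
        have h0 : f 0 = 0 := by simp [hf]
        have h2 : ∑ i ∈ Finset.range k, f i = ∑ i ∈ (Finset.range k).erase 0, f i := by
          by_cases hk : 0 ∈ Finset.range k
          · rw [← Finset.add_sum_erase _ _ hk, h0, zero_add]
          · rw [Finset.erase_eq_of_notMem hk]
        rw [h2]
        refine Finset.sum_le_sum_of_subset_of_nonneg ?_ (fun n _ _ => hf0 n)
        intro n hn
        simp only [Finset.mem_erase, Finset.mem_range] at hn
        simp only [Finset.mem_union, Finset.mem_Icc, Finset.mem_Ioc]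
        omega
      refine h1.trans (add_le_add ?_ ?_)
      · rw [Finset.mul_sum]
        refine Finset.sum_le_sum fun n hn => hhead n ?_
        exact (Finset.mem_Icc.1 hn).1
      · have h3 : ∑ n ∈ Finset.Ioc N (max N k), f n ≤
            362880 / Y ^ 9 * ∑ n ∈ Finset.Ioc N (max N k), b n / (n : ℝ) ^ 3 := by
          rw [Finset.mul_sum]
          refine Finset.sum_le_sum fun n hn => htail n ?_
          have := (Finset.mem_Ioc.1 hn).1
          omega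
        refine h3.trans (mul_le_mul_of_nonneg_left ?_ (by positivity))
        exact tail_sum b C hb0 hup N hN _ (le_max_left _ _)
    calc Y ^ 7 * ∑' n : ℕ, f n ≤ Y ^ 7 * (720 / Y ^ 6 * ∑ n ∈ Finset.Icc 1 N, b n +
        362880 / Y ^ 9 * (5 / 2 * C / (N : ℝ) ^ 2)) :=
          mul_le_mul_of_nonneg_left hsum (by positivity)
      _ = _ := by
          field_simp
  -- the choice of `τ`
  set τ : ℝ := 1 + 362880 * (5 * C) / c with hτ
  have hτ1 : 1 ≤ τ := by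
    have : 0 ≤ 362880 * (5 * C) / c := by positivity
    linarith
  have hτ2 : 362880 * (5 / 2 * C) / τ ^ 2 ≤ c / 2 := by
    rw [div_le_iff₀ (by positivity)]
    have h1 : τ ≤ τ ^ 2 := by nlinarith
    have h2 : 362880 * (5 * C) / c ≤ τ ^ 2 := by linarith
    rw [div_le_iff₀ hc] at h2
    linarith
  refine ⟨c / (1440 * τ), by positivity, ⌈τ / Y0⌉₊ + 1, fun N hN => ?_⟩
  have hN1 : 1 ≤ N := by omega
  have hN0 : (0 : ℝ) < N := by exact_mod_cast hN1
  have hY : τ / N ≤ Y0 := by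
    rw [div_le_iff₀ hN0]
    have h1 : τ / Y0 ≤ N := by
      refine (Nat.le_ceil _).trans ?_
      exact_mod_cast (by omega : ⌈τ / Y0⌉₊ ≤ N)
    rw [div_le_iff₀ hY0] at h1
    linarith
  have h1 := hlow (τ / N) (by positivity) hY
  have h2 := main N hN1 (τ / N) (by positivity)
  have h3 : (N : ℝ) * (τ / N) = τ := by
    field_simp
  rw [h3] at h2
  have h4 : c / 2 ≤ 720 * (τ / N) * ∑ n ∈ Finset.Icc 1 N, b n := by linarith
  have h5 : c / (1440 * τ) * N * (720 * (τ / N)) = c / 2 := by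
    field_simp
    norm_num
  rw [← h5, mul_comm] at h4
  exact le_of_mul_le_mul_left h4 (by positivity)

end Pool.Agent.H11.SC
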