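import Mathlib

/-!
# PSum: from `c N ≤ A(N) ≤ C N` to `∑_{n ≤ x} ‖a n‖²/n ≍ log x`

Proof used here: if all partial sums of `f` are nonnegative then all partial sums of `f n / n` are
nonnegative (Abel summation); apply this to `‖a n‖² - c` and `C - ‖a n‖²`, and use the bounds for
the harmonic numbers.
-/

set_option autoImplicit false

namespace Pool.Agent.H11.SC

/-- If all partial sums of `f` are nonnegative, so are those of `f n / n`. -/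
theorem abel_nonneg (f : ℕ → ℝ) (hf : ∀ N : ℕ, 1 ≤ N → 0 ≤ ∑ n ∈ Finset.Icc 1 N, f n) (N : ℕ) :
    0 ≤ ∑ n ∈ Finset.Icc 1 N, f n / (n : ℝ) := by
  have key : ∀ N : ℕ, (∑ n ∈ Finset.Icc 1 (N + 1), f n) / ((N : ℝ) + 1) ≤
      ∑ n ∈ Finset.Icc 1 (N + 1), f n / (n : ℝ) := by
    intro N
    induction N with
    | zero => simp
    | succ N ih =>
      have e1 : ∑ n ∈ Finset.Icc 1 (N + 1 + 1), f n =
          ∑ n ∈ Finset.Icc 1 (N + 1), f n + f (N + 1 + 1) := Finset.sum_Icc_succ_top (by omega) _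
      have e2 : ∑ n ∈ Finset.Icc 1 (N + 1 + 1), f n / (n : ℝ) =
          ∑ n ∈ Finset.Icc 1 (N + 1), f n / (n : ℝ) + f (N + 1 + 1) / ((N + 1 + 1 : ℕ) : ℝ) :=
        Finset.sum_Icc_succ_top (by omega) _
      rw [e1, e2]
      have h0 := hf (N + 1) (by omega)
      have hN : (0 : ℝ) < (N : ℝ) + 1 := by positivity
      have h1 : (∑ n ∈ Finset.Icc 1 (N + 1), f n) / ((N : ℝ) + 1 + 1) ≤
          (∑ n ∈ Finset.Icc 1 (N + 1), f n) / ((N : ℝ) + 1) := by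
        apply div_le_div_of_nonneg_left h0 hN
        linarith
      push_cast
      rw [add_div]
      linarith
  rcases Nat.eq_zero_or_pos N with rfl | hN
  · simp
  · obtain ⟨k, rfl⟩ := Nat.exists_eq_add_of_le' hN
    refine le_trans ?_ (key k)
    exact div_nonneg (hf (k + 1) (by omega)) (by positivity)

theorem log_sums (a : ℕ → ℂ) (h1 : a 1 = 1) (C : ℝ)
    (hup : ∀ N : ℕ, 1 ≤ N → ∑ n ∈ Finset.Icc 1 N, ‖a n‖ ^ 2 ≤ C * N) (c' : ℝ) (hc' : 0 < c')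
    (N0 : ℕ) (hlow : ∀ N : ℕ, N0 ≤ N → c' * N ≤ ∑ n ∈ Finset.Icc 1 N, ‖a n‖ ^ 2) :
    ∃ c C : ℝ, 0 < c ∧ ∀ x : ℝ, 2 ≤ x →
      c * Real.log x ≤ ∑ n ∈ Finset.Icc 1 ⌊x⌋₊, ‖a n‖ ^ 2 / (n : ℝ) ∧
      ∑ n ∈ Finset.Icc 1 ⌊x⌋₊, ‖a n‖ ^ 2 / (n : ℝ) ≤ C * Real.log x := by
  have hA1 : ∀ N : ℕ, 1 ≤ N → (1 : ℝ) ≤ ∑ n ∈ Finset.Icc 1 N, ‖a n‖ ^ 2 := by
    intro N hN
    calc (1 : ℝ) = ‖a 1‖ ^ 2 := by rw [h1]; simp
      _ ≤ ∑ n ∈ Finset.Icc 1 N, ‖a n‖ ^ 2 :=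
        Finset.single_le_sum (f := fun n => ‖a n‖ ^ 2) (fun i _ => by positivity)
          (Finset.mem_Icc.2 ⟨le_rfl, hN⟩)
  have hC1 : 1 ≤ C := by
    have h2 := hup 1 le_rfl
    have h3 := hA1 1 le_rfl
    push_cast at h2
    linarith
  set d : ℝ := min c' (1 / ((N0 : ℝ) + 1)) with hd
  have hN0 : (0 : ℝ) < (N0 : ℝ) + 1 := by positivity
  have hdpos : 0 < d := lt_min hc' (by positivity)
  have hlow' : ∀ N : ℕ, 1 ≤ N → d * N ≤ ∑ n ∈ Finset.Icc 1 N, ‖a n‖ ^ 2 := by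
    intro N hN
    have hNr : (0 : ℝ) ≤ N := by positivity
    by_cases h : N0 ≤ N
    · exact le_trans (mul_le_mul_of_nonneg_right (min_le_left _ _) hNr) (hlow N h)
    · push Not at h
      have h3 : d * N ≤ 1 / ((N0 : ℝ) + 1) * N := mul_le_mul_of_nonneg_right (min_le_right _ _) hNr
      have h4 : (N : ℝ) ≤ (N0 : ℝ) + 1 := by
        have : (N : ℝ) ≤ (N0 : ℝ) := by exact_mod_cast h.le
        linarith
      have h5 : 1 / ((N0 : ℝ) + 1) * N ≤ 1 := by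
        rw [one_div, inv_mul_le_iff₀ hN0]
        linarith
      linarith [hA1 N hN]
  refine ⟨d, 3 * C, hdpos, fun x hx => ?_⟩
  have hx0 : (0 : ℝ) ≤ x := by linarith
  have hx1 : (1 : ℝ) ≤ x := by linarith
  have hH1 : Real.log x ≤ (harmonic ⌊x⌋₊ : ℝ) := log_le_harmonic_floor x hx0
  have hH2 : (harmonic ⌊x⌋₊ : ℝ) ≤ 1 + Real.log x := harmonic_floor_le_one_add_log x hx1
  have hH : (harmonic ⌊x⌋₊ : ℝ) = ∑ n ∈ Finset.Icc 1 ⌊x⌋₊, (1 : ℝ) / (n : ℝ) := by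
    rw [harmonic_eq_sum_Icc]
    push_cast
    exact Finset.sum_congr rfl (fun i _ => by rw [one_div])
  constructor
  · have h2 := abel_nonneg (fun n => ‖a n‖ ^ 2 - d) (by
      intro N hN
      rw [Finset.sum_sub_distrib]
      simp only [Finset.sum_const, Nat.card_Icc, nsmul_eq_mul]
      have h3 := hlow' N hN
      have : ((N + 1 - 1 : ℕ) : ℝ) = N := by norm_num
      rw [this]
      linarith [mul_comm d (N : ℝ)]) ⌊x⌋₊
    have h3 : ∑ n ∈ Finset.Icc 1 ⌊x⌋₊, (‖a n‖ ^ 2 - d) / (n : ℝ) =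
        ∑ n ∈ Finset.Icc 1 ⌊x⌋₊, ‖a n‖ ^ 2 / (n : ℝ) -
          d * ∑ n ∈ Finset.Icc 1 ⌊x⌋₊, (1 : ℝ) / (n : ℝ) := by
      rw [Finset.mul_sum, ← Finset.sum_sub_distrib]
      exact Finset.sum_congr rfl (fun i _ => by ring)
    rw [h3, ← hH] at h2
    have h4 := mul_le_mul_of_nonneg_left hH1 hdpos.le
    linarith
  · have h2 := abel_nonneg (fun n => C - ‖a n‖ ^ 2) (by
      intro N hN
      rw [Finset.sum_sub_distrib]
      simp only [Finset.sum_const, Nat.card_Icc, nsmul_eq_mul]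
      have h3 := hup N hN
      have : ((N + 1 - 1 : ℕ) : ℝ) = N := by norm_num
      rw [this]
      linarith [mul_comm C (N : ℝ)]) ⌊x⌋₊
    have h3 : ∑ n ∈ Finset.Icc 1 ⌊x⌋₊, (C - ‖a n‖ ^ 2) / (n : ℝ) =
        C * ∑ n ∈ Finset.Icc 1 ⌊x⌋₊, (1 : ℝ) / (n : ℝ) -
          ∑ n ∈ Finset.Icc 1 ⌊x⌋₊, ‖a n‖ ^ 2 / (n : ℝ) := by
      rw [Finset.mul_sum, ← Finset.sum_sub_distrib]
      exact Finset.sum_congr rfl (fun i _ => by ring)
    rw [h3, ← hH] at h2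
    have hlog2 : Real.log 2 ≤ Real.log x := Real.log_le_log (by norm_num) hx
    have h5 : (1 : ℝ) ≤ 2 * Real.log x := by
      have := Real.log_two_gt_d9
      linarith
    have h6 : C * (harmonic ⌊x⌋₊ : ℝ) ≤ C * (1 + Real.log x) :=
      mul_le_mul_of_nonneg_left hH2 (by linarith)
    nlinarith

end Pool.Agent.H11.SC
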