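import Mathlib
import Pool.Agent.H11.SC.Defs
import Pool.Agent.H11.SC.Pars

/-!
# UPB: a bound for `phi` gives `∑_{n ≤ N} ‖a n‖² ≤ C N`

(1) `phi_parseval`: for `y > 0`, `-(I (x + iy)) = y - ix`, so
`gs a 3 (-(I z)) = ∑ a n n³ e^(-2πny) e(nx)`, absolutely convergent because `‖a n‖ ≤ C n`;
`parseval` gives the formula.  (`(y^(7/2))^2 = y^7`.)
(2) `sum_upper`: with `y = 1/N`, `∑ ‖a n‖² n^6 e^(-4πn/N) N^(-7) ≤ M²` (the integral over `[0,1]` of a
function with values in `[0, M²]`).  For `N/2 < n ≤ N`, `n^6 e^(-4πn/N) N^(-7) ≥ e^(-4π)/(64 N)`, so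
`A(N) - A(⌊N/2⌋) ≤ 64 e^(4π) M² N`, `A(N) = ∑_{n ≤ N} ‖a n‖²`.  Strong induction:
`A(N) ≤ 2 K N`, `K = 64 e^(4π) M²`.
-/

set_option autoImplicit false

namespace Pool.Agent.H11.SC

open Complex

private theorem bound_nonneg {a : ℕ → ℂ} {C : ℝ}
    (hC : ∀ n : ℕ, 1 ≤ n → ‖a n‖ ≤ C * (n : ℝ) ^ (1 : ℝ)) : 0 ≤ C := by
  have h := hC 1 le_rfl
  simp only [Nat.cast_one, Real.one_rpow, mul_one] at h
  exact (norm_nonneg _).trans h

private theorem summable_norm_c (a : ℕ → ℂ)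
    (ha : ∃ C : ℝ, ∀ n : ℕ, 1 ≤ n → ‖a n‖ ≤ C * (n : ℝ) ^ (1 : ℝ)) (y : ℝ) (hy : 0 < y) :
    Summable (fun n : ℕ => ‖a n‖ * (n : ℝ) ^ 3 * Real.exp (-(2 * Real.pi * n * y))) := by
  obtain ⟨C, hC⟩ := ha
  have h := (Real.summable_pow_mul_exp_neg_nat_mul 4 (r := 2 * Real.pi * y)
    (by positivity)).mul_left C
  refine Summable.of_nonneg_of_le (fun n => by positivity) (fun n => ?_) h
  rcases Nat.eq_zero_or_pos n with h0 | h0
  · subst h0
    simp
  · have h1 := hC n h0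
    rw [Real.rpow_one] at h1
    have h2 : Real.exp (-(2 * Real.pi * n * y)) = Real.exp (-(2 * Real.pi * y) * n) := by
      congr 1
      ring
    rw [h2]
    calc ‖a n‖ * (n : ℝ) ^ 3 * Real.exp (-(2 * Real.pi * y) * n)
        ≤ (C * n) * (n : ℝ) ^ 3 * Real.exp (-(2 * Real.pi * y) * n) := by
          refine mul_le_mul_of_nonneg_right ?_ (Real.exp_pos _).le
          exact mul_le_mul_of_nonneg_right h1 (by positivity)
      _ = C * ((n : ℝ) ^ 4 * Real.exp (-(2 * Real.pi * y) * n)) := by ring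

private theorem summable_sq (a : ℕ → ℂ)
    (ha : ∃ C : ℝ, ∀ n : ℕ, 1 ≤ n → ‖a n‖ ≤ C * (n : ℝ) ^ (1 : ℝ)) (y : ℝ) (hy : 0 < y) :
    Summable (fun n : ℕ => ‖a n‖ ^ 2 * (n : ℝ) ^ 6 * Real.exp (-(4 * Real.pi * n * y))) := by
  obtain ⟨C, hC⟩ := ha
  have hC0 := bound_nonneg hC
  have h := (Real.summable_pow_mul_exp_neg_nat_mul 8 (r := 4 * Real.pi * y)
    (by positivity)).mul_left (C ^ 2)
  refine Summable.of_nonneg_of_le (fun n => by positivity) (fun n => ?_) h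
  rcases Nat.eq_zero_or_pos n with h0 | h0
  · subst h0
    simp
  · have h1 := hC n h0
    rw [Real.rpow_one] at h1
    have h2 : Real.exp (-(4 * Real.pi * n * y)) = Real.exp (-(4 * Real.pi * y) * n) := by
      congr 1
      ring
    have h3 : ‖a n‖ ^ 2 ≤ (C * n) ^ 2 := pow_le_pow_left₀ (norm_nonneg _) h1 2
    rw [h2]
    calc ‖a n‖ ^ 2 * (n : ℝ) ^ 6 * Real.exp (-(4 * Real.pi * y) * n)
        ≤ (C * n) ^ 2 * (n : ℝ) ^ 6 * Real.exp (-(4 * Real.pi * y) * n) := by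
          refine mul_le_mul_of_nonneg_right ?_ (Real.exp_pos _).le
          exact mul_le_mul_of_nonneg_right h3 (by positivity)
      _ = C ^ 2 * ((n : ℝ) ^ 8 * Real.exp (-(4 * Real.pi * y) * n)) := by ring

theorem phi_parseval (a : ℕ → ℂ) (ha : ∃ C : ℝ, ∀ n : ℕ, 1 ≤ n → ‖a n‖ ≤ C * (n : ℝ) ^ (1 : ℝ))
    (y : ℝ) (hy : 0 < y) :
    ∫ x in (0 : ℝ)..1, phi a (x + y * I) ^ 2 =
      y ^ 7 * ∑' n : ℕ, ‖a n‖ ^ 2 * (n : ℝ) ^ 6 * Real.exp (-(4 * Real.pi * n * y)) := by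
  set c : ℕ → ℂ := fun n => a n * (n : ℂ) ^ 3 * cexp (-(2 * (Real.pi : ℂ) * n * y)) with hc
  have hnc : ∀ n, ‖c n‖ = ‖a n‖ * (n : ℝ) ^ 3 * Real.exp (-(2 * Real.pi * n * y)) := by
    intro n
    rw [hc]
    simp only
    rw [norm_mul, norm_mul, norm_pow, Complex.norm_natCast, Complex.norm_exp]
    congr 2
    have : (-(2 * (Real.pi : ℂ) * n * y)) = ((-(2 * Real.pi * n * y) : ℝ) : ℂ) := by
      push_cast
      ring
    rw [this, ofReal_re]
  have hsum : Summable (fun n => ‖c n‖) := by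
    simp only [hnc]
    exact summable_norm_c a ha y hy
  have hpar := parseval c hsum
  have hphi : ∀ x : ℝ, phi a (x + y * I) ^ 2 =
      y ^ 7 * ‖∑' n : ℕ, c n * cexp (2 * (Real.pi : ℂ) * I * n * x)‖ ^ 2 := by
    intro x
    unfold phi gs
    have him : ((x : ℂ) + y * I).im = y := by simp
    rw [him, mul_pow]
    congr 1
    · rw [← Real.rpow_natCast, ← Real.rpow_mul hy.le, ← Real.rpow_natCast]
      norm_num
    · congr 2
      refine tsum_congr fun n => ?_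
      rw [hc]
      simp only
      rw [mul_assoc (a n * (n : ℂ) ^ 3), ← Complex.exp_add]
      congr 2
      have hI : I * I = -1 := I_mul_I
      linear_combination (2 * (Real.pi : ℂ) * n * y) * hI
  simp only [hphi]
  rw [intervalIntegral.integral_const_mul, hpar]
  congr 1
  refine tsum_congr fun n => ?_
  rw [hnc, mul_pow, mul_pow, ← pow_mul, ← Real.exp_nat_mul]
  congr 2
  push_cast
  ring

theorem sum_upper (a : ℕ → ℂ) (ha : ∃ C : ℝ, ∀ n : ℕ, 1 ≤ n → ‖a n‖ ≤ C * (n : ℝ) ^ (1 : ℝ))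
    (M : ℝ) (hM : ∀ z : ℂ, 0 < z.im → phi a z ≤ M) :
    ∃ C : ℝ, ∀ N : ℕ, 1 ≤ N → ∑ n ∈ Finset.Icc 1 N, ‖a n‖ ^ 2 ≤ C * N := by
  have hphi0 : ∀ z : ℂ, 0 < z.im → 0 ≤ phi a z := fun z hz =>
    mul_nonneg (Real.rpow_nonneg hz.le _) (norm_nonneg _)
  set K : ℝ := 64 * Real.exp (4 * Real.pi) * M ^ 2 with hK
  have hK0 : 0 ≤ K := by positivity
  -- the block estimate
  have hblock : ∀ N : ℕ, 1 ≤ N → ∑ n ∈ Finset.Icc (N / 2 + 1) N, ‖a n‖ ^ 2 ≤ K * N := by
    intro N hN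
    have hN0 : (0 : ℝ) < N := by exact_mod_cast hN
    set y : ℝ := 1 / N with hy
    have hy0 : 0 < y := by positivity
    have hint : ∫ x in (0 : ℝ)..1, phi a (x + y * I) ^ 2 ≤ M ^ 2 := by
      have h1 := intervalIntegral.norm_integral_le_of_norm_le_const (a := 0) (b := 1)
        (C := M ^ 2) (f := fun x : ℝ => phi a (x + y * I) ^ 2) (fun x _ => by
          have hz : 0 < ((x : ℂ) + y * I).im := by simpa using hy0
          rw [Real.norm_eq_abs, abs_of_nonneg (sq_nonneg _)]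
          exact pow_le_pow_left₀ (hphi0 _ hz) (hM _ hz) 2)
      rw [sub_zero, abs_one, mul_one] at h1
      exact (Real.le_norm_self _).trans h1
    rw [phi_parseval a ha y hy0] at hint
    have hle : ∑ n ∈ Finset.Icc (N / 2 + 1) N, ‖a n‖ ^ 2 * (n : ℝ) ^ 6 *
        Real.exp (-(4 * Real.pi * n * y)) ≤
        ∑' n : ℕ, ‖a n‖ ^ 2 * (n : ℝ) ^ 6 * Real.exp (-(4 * Real.pi * n * y)) :=
      (summable_sq a ha y hy0).sum_le_tsum _ (fun n _ => by positivity)
    have hterm : ∀ n ∈ Finset.Icc (N / 2 + 1) N,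
        ‖a n‖ ^ 2 * ((N : ℝ) ^ 6 / 64 * Real.exp (-(4 * Real.pi))) ≤
        ‖a n‖ ^ 2 * (n : ℝ) ^ 6 * Real.exp (-(4 * Real.pi * n * y)) := by
      intro n hn
      rw [Finset.mem_Icc] at hn
      have h1 : (N : ℝ) / 2 ≤ n := by
        have : N ≤ 2 * n := by omega
        have h2 : (N : ℝ) ≤ 2 * n := by exact_mod_cast this
        linarith
      have h2 : (N : ℝ) ^ 6 / 64 ≤ (n : ℝ) ^ 6 := by
        calc (N : ℝ) ^ 6 / 64 = ((N : ℝ) / 2) ^ 6 := by ring
          _ ≤ (n : ℝ) ^ 6 := pow_le_pow_left₀ (by positivity) h1 6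
      have h3 : (n : ℝ) * y ≤ 1 := by
        rw [hy, mul_one_div, div_le_one hN0]
        exact_mod_cast hn.2
      have h4 : Real.exp (-(4 * Real.pi)) ≤ Real.exp (-(4 * Real.pi * n * y)) := by
        apply Real.exp_le_exp.2
        have := Real.pi_pos
        nlinarith
      rw [mul_assoc]
      refine mul_le_mul_of_nonneg_left ?_ (by positivity)
      exact mul_le_mul h2 h4 (Real.exp_pos _).le (by positivity)
    have h5 := (Finset.sum_le_sum hterm).trans hle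
    rw [← Finset.sum_mul] at h5
    set S : ℝ := ∑ n ∈ Finset.Icc (N / 2 + 1) N, ‖a n‖ ^ 2 with hS
    have h6 : y ^ 7 * (S * ((N : ℝ) ^ 6 / 64 * Real.exp (-(4 * Real.pi)))) ≤ M ^ 2 :=
      (mul_le_mul_of_nonneg_left h5 (by positivity)).trans hint
    have h7 : y ^ 7 * (S * ((N : ℝ) ^ 6 / 64 * Real.exp (-(4 * Real.pi)))) =
        S / (64 * Real.exp (4 * Real.pi) * N) := by
      rw [hy, Real.exp_neg]
      field_simp
    rw [h7, div_le_iff₀ (by positivity)] at h6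
    calc S ≤ M ^ 2 * (64 * Real.exp (4 * Real.pi) * N) := h6
      _ = K * N := by
          rw [hK]
          ring
  -- induction
  refine ⟨2 * K, ?_⟩
  have key : ∀ N : ℕ, ∑ n ∈ Finset.Icc 1 N, ‖a n‖ ^ 2 ≤ 2 * K * N := by
    intro N
    induction N using Nat.strong_induction_on with
    | _ N ih =>
      rcases Nat.eq_zero_or_pos N with h0 | h0
      · subst h0
        simp
      · have hsplit : Finset.Icc 1 N = Finset.Icc 1 (N / 2) ∪ Finset.Icc (N / 2 + 1) N := by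
          ext n
          simp only [Finset.mem_Icc, Finset.mem_union]
          omega
        have hdisj : Disjoint (Finset.Icc 1 (N / 2)) (Finset.Icc (N / 2 + 1) N) := by
          rw [Finset.disjoint_left]
          intro n hn hn'
          simp only [Finset.mem_Icc] at hn hn'
          omega
        rw [hsplit, Finset.sum_union hdisj]
        have h1 := ih (N / 2) (by omega)
        have h2 := hblock N h0
        have h3 : ((N / 2 : ℕ) : ℝ) ≤ N / 2 := Nat.cast_div_le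
        have h4 : 2 * K * ((N / 2 : ℕ) : ℝ) ≤ 2 * K * (N / 2) :=
          mul_le_mul_of_nonneg_left h3 (by positivity)
        linarith
  exact fun N _ => key N

end Pool.Agent.H11.SC
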