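import Mathlib
import Pool.Agent.H11.SC.Defs
import Pool.Agent.H11.SC.Appr
import Pool.Agent.H11.SC.Sup
import Pool.Agent.H11.SC.UpB
import Pool.Agent.H11.SC.Low1
import Pool.Agent.H11.SC.Low2
import Pool.Agent.H11.SC.PSum
import Pool.Agent.H11.SC.Norm
import Pool.Agent.H11.Selberg.Equiv

/-!
# FINAL: assembly (helper11)
-/

set_option autoImplicit false

namespace Pool.Agent.H11.SC

open Complex Pool.Agent.H11.Selberg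

theorem cond_eq (Q : ℝ) (r : ℕ) (lam : Fin r → ℝ) (hlam : ∀ j, 0 < lam j) :
    (2 * Real.pi) ^ 2 * Q ^ 2 * ∏ j, (lam j) ^ (2 * lam j) = (2 * Real.pi * Bp Q lam) ^ 2 := by
  have h1 : ∏ j, (lam j) ^ (2 * lam j) = (∏ j, (lam j) ^ (lam j)) ^ 2 := by
    rw [← Finset.prod_pow]
    refine Finset.prod_congr rfl fun j _ => ?_
    rw [mul_comm, Real.rpow_mul (hlam j).le]
    norm_cast
  rw [h1, Bp]
  ring

theorem energy_core (a : ℕ → ℂ) (F : ℂ → ℂ) (Q : ℝ) (r : ℕ) (lam : Fin r → ℝ) (mu : Fin r → ℂ)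
    (ε : ℂ) (h : FEq a F Q lam mu ε) (q : ℕ) (hq : q = 1 ∨ q = 2 ∨ q = 3)
    (hcond : (2 * Real.pi * Bp Q lam) ^ 2 = q) :
    ∃ c C : ℝ, 0 < c ∧ ∀ x : ℝ, 2 ≤ x →
      c * Real.log x ≤ ∑ n ∈ Finset.Icc 1 ⌊x⌋₊, ‖a n‖ ^ 2 / (n : ℝ) ∧
      ∑ n ∈ Finset.Icc 1 ⌊x⌋₊, ‖a n‖ ^ 2 / (n : ℝ) ≤ C * Real.log x := by
  have hA : Approx (q : ℝ) (Psi a) := by
    have := Psi_approx h
    rwa [hcond] at this
  have ha : ∃ C : ℝ, ∀ n : ℕ, 1 ≤ n → ‖a n‖ ≤ C * (n : ℝ) ^ (1 : ℝ) := h.ram 1 one_pos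
  have hq0 : (0 : ℝ) < q := by rcases hq with rfl | rfl | rfl <;> norm_num
  have hq4 : (q : ℝ) < 4 := by rcases hq with rfl | rfl | rfl <;> norm_num
  obtain ⟨M, hM⟩ := hA.bounded hq0 hq4
  have hphi : ∀ z : ℂ, 0 < z.im → phi a z ≤ M := by
    intro z hz
    have h1 := hM z hz
    have h2 : 0 ≤ phi (cj a) z := by
      unfold phi
      positivity
    have h3 : Psi a z = phi a z + phi (cj a) z := rfl
    linarith
  obtain ⟨C, hC⟩ := sum_upper a ha M hphi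
  obtain ⟨v0, hv0⟩ := Psi_pos h
  set v := max v0 (10 ^ 4) with hv
  have hpos := hv0 v (le_max_left _ _)
  obtain ⟨c, Y0, hc, hY0, hlow⟩ := low_energy q hq a ha hA v (le_max_right _ _) hpos
  obtain ⟨c', hc', N0, hN0⟩ := sum_lower a C hC c Y0 hc hY0 hlow
  exact log_sums a h.one C hC c' hc' N0 hN0

theorem small_conductor (a : ℕ → ℂ) (F : ℂ → ℂ) (hS : IsSelberg a F) (G : ℂ → ℂ)
    (hG : Differentiable ℂ G) (hGF : ∀ s, s ≠ 1 → G s = F s)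
    (Q : ℝ) (r : ℕ) (lam : Fin r → ℝ) (mu : Fin r → ℂ) (ε : ℂ)
    (hQ : 0 < Q) (hlam : ∀ j, 0 < lam j) (hmu : ∀ j, 0 ≤ (mu j).re) (hε : ‖ε‖ = 1)
    (hfe : ∀ s : ℂ, 0 < s.re → s.re < 1 →
      completed Q lam mu F s =
        ε * (starRingEnd ℂ) (completed Q lam mu F (1 - (starRingEnd ℂ) s)))
    (hdeg : 2 * ∑ j, lam j = 2)
    (hcond : (2 * Real.pi) ^ 2 * Q ^ 2 * ∏ j, (lam j) ^ (2 * lam j) = 1 ∨
      (2 * Real.pi) ^ 2 * Q ^ 2 * ∏ j, (lam j) ^ (2 * lam j) = 2 ∨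
      (2 * Real.pi) ^ 2 * Q ^ 2 * ∏ j, (lam j) ^ (2 * lam j) = 3) :
    ∃ C : ℝ, ∀ x : ℝ, 2 ≤ x → |S a x - Real.log (Real.log x)| ≤ C := by
  obtain ⟨a', F', mu', ε', h, hnorm⟩ := normalise a F hS G hG hGF Q r lam mu ε hQ hlam hmu hε hfe
    (by linarith)
  rw [cond_eq Q r lam hlam] at hcond
  have hcore : ∃ c C : ℝ, 0 < c ∧ ∀ x : ℝ, 2 ≤ x →
      c * Real.log x ≤ ∑ n ∈ Finset.Icc 1 ⌊x⌋₊, ‖a' n‖ ^ 2 / (n : ℝ) ∧
      ∑ n ∈ Finset.Icc 1 ⌊x⌋₊, ‖a' n‖ ^ 2 / (n : ℝ) ≤ C * Real.log x := by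
    rcases hcond with h1 | h1 | h1
    · exact energy_core a' F' Q r lam mu' ε' h 1 (by simp) (by rw [h1]; norm_num)
    · exact energy_core a' F' Q r lam mu' ε' h 2 (by simp) (by rw [h1]; norm_num)
    · exact energy_core a' F' Q r lam mu' ε' h 3 (by simp) (by rw [h1]; norm_num)
  obtain ⟨b, θ, Cb, hb⟩ := hS.euler
  have hT := equivalence a F b 1 hS ⟨θ, Cb, hb⟩ zero_le_one
  have h12 := hT.out 0 1
  have hgoal : ∃ C : ℝ, ∀ x : ℝ, 2 ≤ x → |S a x - 1 * Real.log (Real.log x)| ≤ C := by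
    rw [h12]
    obtain ⟨c, C, hc, hx⟩ := hcore
    refine ⟨c, C, hc, fun x h2 => ?_⟩
    have hsum : ∑ n ∈ Finset.Icc 1 ⌊x⌋₊, ‖a n‖ ^ 2 / (n : ℝ) =
        ∑ n ∈ Finset.Icc 1 ⌊x⌋₊, ‖a' n‖ ^ 2 / (n : ℝ) := by
      refine Finset.sum_congr rfl fun n hn => ?_
      rw [hnorm n (Finset.mem_Icc.mp hn).1]
    rw [hsum, Real.rpow_one]
    exact hx x h2
  simpa using hgoal

end Pool.Agent.H11.SC
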